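import Pool.Agent.GH.M7.Stm

/-!
# GH7-MAT, row D7: leading coefficients at a centre
-/

open Polynomial Finset

noncomputable section

namespace GH.M7

open GH.D7 GH.CombU

/-- The determinant with the factors `η` pulled out, one block. -/
theorem lc_one {S P ι : Type*} [CommRing S] [Fintype P] [DecidableEq P] [Fintype ι]
    [DecidableEq ι] (η : S) (A B : Matrix P P S) (x : Matrix P ι S) (y : Matrix ι P S)
    (h : ∀ i j, A i j = (∑ l, x i l * y l j) + η * B i j) :
    η ^ Fintype.card ι * A.det =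
      η ^ Fintype.card P * (Matrix.fromBlocks B x (-y) (η • (1 : Matrix ι ι S))).det := by
  have h1 : A.det = (Matrix.fromBlocks (η • B) x (-y) 1).det := by
    rw [Matrix.det_fromBlocks_one₂₂]
    congr 1
    ext i j
    rw [Matrix.sub_apply, Matrix.mul_neg, Matrix.neg_apply, Matrix.smul_apply, smul_eq_mul,
      Matrix.mul_apply, h i j]
    ring
  have h2 := Matrix.det_mul_column (Sum.elim (fun _ : P => (1 : S)) fun _ : ι => η)
    (Matrix.fromBlocks (η • B) x (-y) 1)
  have h3 := Matrix.det_mul_row (Sum.elim (fun _ : P => η) fun _ : ι => (1 : S))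
    (Matrix.fromBlocks B x (-y) (η • (1 : Matrix ι ι S)))
  have h4 : (Matrix.of fun i j : P ⊕ ι =>
      (Sum.elim (fun _ : P => (1 : S)) fun _ : ι => η) i *
        (Matrix.fromBlocks (η • B) x (-y) 1) i j) =
      Matrix.of fun i j : P ⊕ ι =>
      (Sum.elim (fun _ : P => η) fun _ : ι => (1 : S)) j *
        (Matrix.fromBlocks B x (-y) (η • (1 : Matrix ι ι S))) i j := by
    ext i j
    rcases i with i | i <;> rcases j with j | j <;> simp
  rw [h4, h3] at h2
  rw [Fintype.prod_sum_type, Fintype.prod_sum_type] at h2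
  simp only [Sum.elim_inl, Sum.elim_inr, Finset.prod_const_one, one_mul, mul_one,
    Finset.prod_const, Finset.card_univ] at h2
  rw [h1, h2]

/-- The blocks after pulling out the factors. -/
def lcB {S P Q : Type*} [CommRing S] (η : S) (B L : Matrix (P ⊕ Q) (P ⊕ Q) S) :
    Matrix (P ⊕ Q) (P ⊕ Q) S :=
  Matrix.of fun i => Sum.elim (fun j => B i (Sum.inl j))
    (fun j => η * B i (Sum.inr j) - L i (Sum.inr j))

/-- The last rows after pulling out the factors. -/
def lcY {S P Q ι : Type*} [CommRing S] (η : S) (y : Matrix ι (P ⊕ Q) S) :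
    Matrix ι (P ⊕ Q) S :=
  Matrix.of fun l => Sum.elim (fun j => - y l (Sum.inl j)) (fun j => - (η * y l (Sum.inr j)))

/-- The determinant with the factors `η` pulled out, two blocks. -/
theorem lc_two {S P Q ι : Type*} [CommRing S] [Fintype P] [DecidableEq P] [Fintype Q]
    [DecidableEq Q] [Fintype ι] [DecidableEq ι] (η : S) (A B L : Matrix (P ⊕ Q) (P ⊕ Q) S)
    (x : Matrix (P ⊕ Q) ι S) (y : Matrix ι (P ⊕ Q) S) (hL : ∀ i j, L i (Sum.inl j) = 0)
    (h : ∀ i j, A i j = (∑ l, x i l * y l j) + η * B i j - L i j) :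
    η ^ Fintype.card ι * A.det = η ^ Fintype.card P *
      (Matrix.fromBlocks (lcB η B L) x (lcY η y) (η • (1 : Matrix ι ι S))).det := by
  have h1 : A.det = (Matrix.fromBlocks (η • B - L) x (-y) 1).det := by
    rw [Matrix.det_fromBlocks_one₂₂]
    congr 1
    ext i j
    rw [Matrix.sub_apply, Matrix.mul_neg, Matrix.neg_apply, Matrix.sub_apply,
      Matrix.smul_apply, smul_eq_mul, Matrix.mul_apply, h i j]
    ring
  have h2 := Matrix.det_mul_column (Sum.elim (fun _ : P ⊕ Q => (1 : S)) fun _ : ι => η)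
    (Matrix.fromBlocks (η • B - L) x (-y) 1)
  have h3 := Matrix.det_mul_row
    (Sum.elim (Sum.elim (fun _ : P => η) fun _ : Q => (1 : S)) fun _ : ι => (1 : S))
    (Matrix.fromBlocks (lcB η B L) x (lcY η y) (η • (1 : Matrix ι ι S)))
  have h4 : (Matrix.of fun i j : (P ⊕ Q) ⊕ ι =>
      (Sum.elim (fun _ : P ⊕ Q => (1 : S)) fun _ : ι => η) i *
        (Matrix.fromBlocks (η • B - L) x (-y) 1) i j) =
      Matrix.of fun i j : (P ⊕ Q) ⊕ ι =>
      (Sum.elim (Sum.elim (fun _ : P => η) fun _ : Q => (1 : S)) fun _ : ι => (1 : S)) j *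
        (Matrix.fromBlocks (lcB η B L) x (lcY η y) (η • (1 : Matrix ι ι S))) i j := by
    ext i j
    rcases i with i | i
    · rcases j with (j | j) | j
      · simp [lcB, hL]
      · simp [lcB]
      · simp
    · rcases j with (j | j) | j
      · simp [lcY]
      · simp [lcY]
      · simp
  rw [h4, h3] at h2
  rw [Fintype.prod_sum_type, Fintype.prod_sum_type, Fintype.prod_sum_type] at h2
  simp only [Sum.elim_inl, Sum.elim_inr, Finset.prod_const_one, one_mul, mul_one,
    Finset.prod_const, Finset.card_univ] at h2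
  rw [h1, h2]

/-- The determinant at `η = 0`. -/
theorem lc_zero {S P Q ι : Type*} [CommRing S] [Fintype P] [DecidableEq P] [Fintype Q]
    [DecidableEq Q] [Fintype ι] [DecidableEq ι] (B L : Matrix (P ⊕ Q) (P ⊕ Q) S)
    (x : Matrix (P ⊕ Q) ι S) (y : Matrix ι (P ⊕ Q) S)
    (hL : ∀ i j, L (Sum.inl i) (Sum.inr j) = 0) :
    (Matrix.fromBlocks (lcB 0 B L) x (lcY 0 y) 0).det =
      (Matrix.fromBlocks (Matrix.of fun i j : P => B (Sum.inl i) (Sum.inl j))
        (Matrix.of fun (i : P) l => x (Sum.inl i) l) (-Matrix.of fun l (j : P) => y l (Sum.inl j))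
          (0 : Matrix ι ι S)).det *
      (Matrix.of fun i j : Q => - L (Sum.inr i) (Sum.inr j)).det := by
  let ev : (P ⊕ ι) ⊕ Q ≃ (P ⊕ Q) ⊕ ι :=
    (Equiv.sumAssoc P ι Q).trans (((Equiv.refl P).sumCongr (Equiv.sumComm ι Q)).trans
      (Equiv.sumAssoc P Q ι).symm)
  rw [← Matrix.det_submatrix_equiv_self ev,
    ← Matrix.det_fromBlocks_zero₁₂ _ (Matrix.of fun (i : Q) (j : P ⊕ ι) =>
      Sum.elim (fun j => B (Sum.inr i) (Sum.inl j)) (fun l => x (Sum.inr i) l) j)]
  congr 1
  ext i j
  rcases i with (i | i) | i <;> rcases j with (j | j) | j <;> simp [ev, lcB, lcY, hL]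

/-- The antidiagonal. -/
theorem lc_anti {K : Type*} [Field K] (d : ℕ) (κ : ℕ → K) : ∃ s : K, s ^ 2 = 1 ∧
    (Matrix.of fun i j : Fin d => - (if (i : ℕ) + j + 1 = d then κ j else 0)).det =
      s * ∏ j ∈ Finset.range d, κ j := by
  let J : Matrix (Fin d) (Fin d) K := Matrix.of fun i j => if (i : ℕ) + j + 1 = d then -1 else 0
  have hJ : J * J = 1 := by
    ext i j
    rw [Matrix.mul_apply]
    have hk : d - 1 - (i : ℕ) < d := by omega
    rw [Finset.sum_eq_single (⟨d - 1 - (i : ℕ), hk⟩ : Fin d)]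
    · simp only [J, Matrix.of_apply, Matrix.one_apply]
      rw [if_pos (by omega)]
      by_cases h : i = j
      · subst h
        rw [if_pos (by omega), if_pos rfl]
        ring
      · rw [if_neg h, if_neg, mul_zero]
        intro h2
        exact h (Fin.ext (by omega))
    · intro k _ hk2
      simp only [J, Matrix.of_apply]
      rw [if_neg, zero_mul]
      intro h3
      exact hk2 (Fin.ext (by show (k : ℕ) = d - 1 - (i : ℕ); omega))
    · intro h3
      exact absurd (Finset.mem_univ _) h3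
  refine ⟨J.det, ?_, ?_⟩
  · rw [pow_two, ← Matrix.det_mul, hJ, Matrix.det_one]
  · rw [Finset.prod_range, mul_comm, ← Matrix.det_mul_row]
    congr 1
    ext i j
    simp only [J, Matrix.of_apply]
    split_ifs <;> simp

/-- Row D7. -/
theorem spLC : SpLC := by
  intro K _ M a n n' t x y κ hn ht hM
  obtain ⟨d, rfl⟩ := Nat.exists_eq_add_of_le hn
  have hB : ∀ i j, ∃ q : K[X], M i j = C ((M i j).eval a) + (X - C a) * q := by
    intro i j
    obtain ⟨q, hq⟩ := X_sub_C_dvd_sub_C_eval (a := a) (p := M i j)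
    exact ⟨q, by rw [← hq]; ring⟩
  choose B hB using hB
  have hη : (X - C a : K[X]) ≠ 0 := X_sub_C_ne_zero a
  let ix : Fin n' ⊕ Fin d → ℕ := Sum.elim (fun i => (i : ℕ)) (fun j => n' + (j : ℕ))
  have hix : ∀ i, ix i < n' + d := by
    rintro (i | i)
    · exact lt_of_lt_of_le i.2 (Nat.le_add_right _ _)
    · exact Nat.add_lt_add_left i.2 _
  let A : Matrix (Fin n' ⊕ Fin d) (Fin n' ⊕ Fin d) K[X] := Matrix.of fun i j => M (ix i) (ix j)
  let L : Matrix (Fin n' ⊕ Fin d) (Fin n' ⊕ Fin d) K[X] :=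
    Matrix.of fun i j => C (if ix i + ix j + 1 = n' + d + n' then κ (ix j) else 0)
  let Bm : Matrix (Fin n' ⊕ Fin d) (Fin n' ⊕ Fin d) K[X] := Matrix.of fun i j => B (ix i) (ix j)
  let xm : Matrix (Fin n' ⊕ Fin d) (Fin t) K[X] := Matrix.of fun i l => C (x (ix i) l)
  let ym : Matrix (Fin t) (Fin n' ⊕ Fin d) K[X] := Matrix.of fun l j => C (y l (ix j))
  have hlead : Pot.lead M (n' + d) = A.det := by
    unfold Pot.lead Pot.minor
    rw [← Matrix.det_submatrix_equiv_self finSumFinEquiv]
    congr 1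
    ext i j
    rcases i with i | i <;> rcases j with j | j <;> simp [A, ix]
  have hA : ∀ i j, A i j = (∑ l, xm i l * ym l j) + (X - C a) * Bm i j - L i j := by
    intro i j
    simp only [A, xm, ym, Bm, L, Matrix.of_apply]
    conv_lhs => rw [hB]
    rw [hM _ _ (hix i) (hix j), map_sub, map_sum]
    simp only [map_mul]
    ring
  have hLl : ∀ i j, L i (Sum.inl j) = 0 := by
    intro i j
    simp only [L, Matrix.of_apply]
    rw [if_neg, map_zero]
    have h1 := hix i
    have h2 := j.2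
    show ¬ ix i + (j : ℕ) + 1 = n' + d + n'
    omega
  have hLr : ∀ i j, L (Sum.inl i) (Sum.inr j) = 0 := by
    intro i j
    simp only [L, Matrix.of_apply]
    rw [if_neg, map_zero]
    have h1 := i.2
    have h2 := j.2
    show ¬ (i : ℕ) + (n' + (j : ℕ)) + 1 = n' + d + n'
    omega
  have e1 := lc_two (X - C a) A Bm L xm ym hLl hA
  have e2 := lc_one (X - C a) (Matrix.of fun i j : Fin n' => M i j)
    (Matrix.of fun i j : Fin n' => Bm (Sum.inl i) (Sum.inl j))
    (Matrix.of fun (i : Fin n') l => xm (Sum.inl i) l)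
    (Matrix.of fun l (j : Fin n') => ym l (Sum.inl j)) (by
      intro i j
      have h1 := hA (Sum.inl i) (Sum.inl j)
      rw [hLl, sub_zero] at h1
      exact h1)
  rw [Fintype.card_fin, Fintype.card_fin] at e1 e2
  obtain ⟨k, hk⟩ : ∃ k, n' = t + k := ⟨n' - t, by omega⟩
  have hk' : n' - t = k := by omega
  obtain ⟨s, hs, hsd⟩ := lc_anti d (fun j => κ (n' + j))
  refine ⟨(Matrix.fromBlocks (lcB (X - C a) Bm L) xm (lcY (X - C a) ym)
      ((X - C a) • (1 : Matrix (Fin t) (Fin t) K[X]))).det,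
    (Matrix.fromBlocks (Matrix.of fun i j : Fin n' => Bm (Sum.inl i) (Sum.inl j))
      (Matrix.of fun (i : Fin n') l => xm (Sum.inl i) l)
      (-Matrix.of fun l (j : Fin n') => ym l (Sum.inl j))
      ((X - C a) • (1 : Matrix (Fin t) (Fin t) K[X]))).det, s, hs, ?_, ?_, ?_⟩
  · rw [hlead, hk']
    refine mul_left_cancel₀ (pow_ne_zero t hη) ?_
    rw [e1, ← mul_assoc, ← pow_add, ← hk]
  · rw [hk']
    refine mul_left_cancel₀ (pow_ne_zero t hη) ?_
    rw [← mul_assoc, ← pow_add, ← hk, ← e2]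
    rfl
  · have hp : ∏ j ∈ Finset.Ico n' (n' + d), κ j = ∏ j ∈ Finset.range d, κ (n' + j) := by
      rw [Finset.prod_Ico_eq_prod_range, Nat.add_sub_cancel_left]
    rw [hp, ← hsd]
    have ev : ∀ {m : Type} [Fintype m] [DecidableEq m] (F : Matrix m m K[X]),
        F.det.eval a = (F.map (evalRingHom a)).det := by
      intro m _ _ F
      rw [← coe_evalRingHom, RingHom.map_det]
      rfl
    rw [ev, ev]
    have h5 := lc_zero (S := K) (Bm.map (evalRingHom a)) (L.map (evalRingHom a))
      (xm.map (evalRingHom a)) (ym.map (evalRingHom a)) (by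
        intro i j
        rw [Matrix.map_apply, hLr, map_zero])
    have h6 : (Matrix.fromBlocks (lcB (X - C a) Bm L) xm (lcY (X - C a) ym)
        ((X - C a) • (1 : Matrix (Fin t) (Fin t) K[X]))).map (evalRingHom a) =
        Matrix.fromBlocks (lcB 0 (Bm.map (evalRingHom a)) (L.map (evalRingHom a)))
          (xm.map (evalRingHom a)) (lcY 0 (ym.map (evalRingHom a))) 0 := by
      ext i j
      rcases i with (i | i) | i <;> rcases j with (j | j) | j <;> simp [lcB, lcY]
    have h7 : (Matrix.fromBlocks (Matrix.of fun i j : Fin n' => Bm (Sum.inl i) (Sum.inl j))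
      (Matrix.of fun (i : Fin n') l => xm (Sum.inl i) l)
      (-Matrix.of fun l (j : Fin n') => ym l (Sum.inl j))
      ((X - C a) • (1 : Matrix (Fin t) (Fin t) K[X]))).map (evalRingHom a) =
        Matrix.fromBlocks (Matrix.of fun i j : Fin n' =>
          (Bm.map (evalRingHom a)) (Sum.inl i) (Sum.inl j))
        (Matrix.of fun (i : Fin n') l => (xm.map (evalRingHom a)) (Sum.inl i) l)
        (-Matrix.of fun l (j : Fin n') => (ym.map (evalRingHom a)) l (Sum.inl j)) 0 := by
      ext i j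
      rcases i with i | i <;> rcases j with j | j <;> simp
    rw [h6, h7, h5, mul_comm]
    congr 1
    congr 1
    ext i j
    simp only [L, ix, Matrix.of_apply, Matrix.map_apply, Sum.elim_inr, coe_evalRingHom, eval_C]
    by_cases h : (i : ℕ) + j + 1 = d
    · rw [if_pos h, if_pos (by omega)]
    · rw [if_neg h, if_neg (by omega)]

end GH.M7
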