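import Pool.Agent.GH.M7.Stm
import Pool.Agent.GH.Mat.Abs

/-!
# GH7-R2: abstract root dominance from the `LU` expansion
-/

noncomputable section

namespace GH.M7

open Finset

/-- The core: `M = L U` over a ring, `U` upper triangular with growing rows. -/
theorem ab_core {S : Type} [CommRing S] {π : S} {w : ℕ → ℕ} (hw : StrictMono w)
    {M L B : ℕ → ℕ → S}
    (h4 : ∀ i j, j < i → B i j = 0) (h5 : ∀ i, π ^ w i ∣ B i i)
    (h6 : ∀ i j, i < j → π ^ (w i + 1) ∣ B i j)
    (hL0 : ∀ i k, i < k → L i k = 0)
    (hL3 : ∀ i j, M i j = ∑ k ∈ Finset.range (i + 1), L i k * B k j)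
    (n : ℕ) (a b : Fin n → ℕ) :
    π ^ (∑ k ∈ Finset.range n, w k) ∣ Pot.minor M a b ∧
      ((∃ i, n ≤ b i) → π ^ ((∑ k ∈ Finset.range n, w k) + 1) ∣ Pot.minor M a b) := by
  classical
  -- a common bound
  obtain ⟨N, hN⟩ : ∃ N, ∀ i, a i + 1 ≤ N :=
    ⟨∑ i, (a i + 1), fun i => Finset.single_le_sum (f := fun i => a i + 1)
      (fun _ _ => Nat.zero_le _) (Finset.mem_univ i)⟩
  have hM : ∀ i j, M (a i) (b j) = ∑ k : Fin N, L (a i) k * B k (b j) := by
    intro i j
    rw [hL3, ← Finset.sum_range (fun k => L (a i) k * B k (b j))]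
    refine Finset.sum_subset (Finset.range_mono (hN i)) fun k _ hk => ?_
    rw [Finset.mem_range, not_lt] at hk
    rw [hL0 (a i) k (by omega), zero_mul]
  have hdet : Pot.minor M a b = ∑ f : Fin n → Fin N,
      (∏ i, L (a i) (f i)) * (Matrix.of fun i j => B (f i) (b j)).det := by
    unfold Pot.minor
    have e1 : (Matrix.of fun i j => M (a i) (b j)) =
        fun i => ∑ k : Fin N, L (a i) k • (fun j => B k (b j)) := by
      funext i
      funext j
      rw [Finset.sum_apply]
      exact hM i j
    rw [e1]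
    show Matrix.detRowAlternating (fun i => ∑ k : Fin N, L (a i) k • (fun j => B k (b j))) = _
    rw [← AlternatingMap.coe_multilinearMap, MultilinearMap.map_sum]
    refine Finset.sum_congr rfl fun f _ => ?_
    rw [MultilinearMap.map_smul_univ, smul_eq_mul]
    rfl
  rw [hdet]
  -- every term
  have key : ∀ f : Fin n → Fin N,
      π ^ (∑ k ∈ Finset.range n, w k) ∣
        (∏ i, L (a i) (f i)) * (Matrix.of fun i j => B (f i) (b j)).det ∧
      ((∃ i, n ≤ b i) → π ^ ((∑ k ∈ Finset.range n, w k) + 1) ∣
        (∏ i, L (a i) (f i)) * (Matrix.of fun i j => B (f i) (b j)).det) := by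
    intro f
    obtain ⟨d1, d2⟩ := Mat.mc1_det_dvd h4 h5 h6 (fun i => (f i : ℕ)) b
    by_cases hf : Function.Injective f
    · set F : Finset ℕ := Finset.univ.image (fun i => (f i : ℕ)) with hF
      have hinj : Function.Injective (fun i => (f i : ℕ)) := fun i j hij => hf (Fin.ext hij)
      have hcard : F.card = n := by
        rw [hF, Finset.card_image_of_injective _ hinj, Finset.card_univ, Fintype.card_fin]
      have hsumF : ∑ k ∈ F, w k = ∑ i, w (f i) := by
        rw [hF, Finset.sum_image fun i _ j _ hij => hinj hij]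
      obtain ⟨s1, s2⟩ := Mat.mc1_sum_le hw hcard
      rw [hsumF] at s1 s2
      refine ⟨Dvd.dvd.mul_left ((pow_dvd_pow π s1).trans d1) _, ?_⟩
      rintro ⟨i, hi⟩
      by_cases hFr : F = Finset.range n
      · have hlt : ∀ i, (f i : ℕ) < n := fun i => by
          rw [← Finset.mem_range, ← hFr, hF]
          exact Finset.mem_image_of_mem _ (Finset.mem_univ i)
        refine Dvd.dvd.mul_left ?_ _
        exact (pow_dvd_pow π (by omega)).trans (d2 ⟨i, fun k => lt_of_lt_of_le (hlt k) hi⟩)
      · refine Dvd.dvd.mul_left ?_ _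
        exact (pow_dvd_pow π (s2 hFr)).trans d1
    · have hz : (Matrix.of fun i j => B (f i) (b j)).det = 0 := by
        unfold Function.Injective at hf
        push Not at hf
        obtain ⟨i, j, hij, hne⟩ := hf
        refine Matrix.det_zero_of_row_eq hne ?_
        funext l
        rw [Matrix.of_apply, Matrix.of_apply, hij]
      rw [hz, mul_zero]
      exact ⟨dvd_zero _, fun _ => dvd_zero _⟩
  exact ⟨Finset.dvd_sum fun f _ => (key f).1, fun hb => Finset.dvd_sum fun f _ => (key f).2 hb⟩

/-! ### The local ring at `7` -/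

/-- The fraction field. -/
abbrev Kf : Type := FractionRing Zy

/-- `7`. -/
abbrev c7 : Zy := Polynomial.C (7 : ℤ_[7])

theorem ab_prime : Prime c7 := by
  rw [Polynomial.prime_C_iff]
  have := PadicInt.prime_p (p := 7)
  exact_mod_cast this

/-- The localisation at `7` inside the fraction field. -/
def OO : Subring Kf where
  carrier := {z | ∃ a s : Zy, ¬ c7 ∣ s ∧ z * algebraMap Zy Kf s = algebraMap Zy Kf a}
  mul_mem' := by
    rintro z z' ⟨a, s, hs, hz⟩ ⟨a', s', hs', hz'⟩
    refine ⟨a * a', s * s', fun h => ?_, ?_⟩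
    · rcases ab_prime.dvd_or_dvd h with h | h
      · exact hs h
      · exact hs' h
    · rw [map_mul, map_mul, ← hz, ← hz']
      ring
  one_mem' := ⟨1, 1, fun h => ab_prime.not_isUnit (isUnit_of_dvd_one h), by rw [one_mul]⟩
  add_mem' := by
    rintro z z' ⟨a, s, hs, hz⟩ ⟨a', s', hs', hz'⟩
    refine ⟨a * s' + a' * s, s * s', fun h => ?_, ?_⟩
    · rcases ab_prime.dvd_or_dvd h with h | h
      · exact hs h
      · exact hs' h
    · rw [map_mul, map_add, map_mul, map_mul, ← hz, ← hz']
      ring
  zero_mem' := ⟨0, 1, fun h => ab_prime.not_isUnit (isUnit_of_dvd_one h), by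
    rw [zero_mul, map_zero]⟩
  neg_mem' := by
    rintro z ⟨a, s, hs, hz⟩
    exact ⟨-a, s, hs, by rw [map_neg, ← hz]; ring⟩

theorem ab_mem (x : Zy) : algebraMap Zy Kf x ∈ OO :=
  ⟨x, 1, fun h => ab_prime.not_isUnit (isUnit_of_dvd_one h), by rw [map_one, mul_one]⟩

/-- The map to the local ring. -/
def io : Zy →+* OO := (algebraMap Zy Kf).codRestrict OO ab_mem

theorem io_coe (x : Zy) : ((io x : OO) : Kf) = algebraMap Zy Kf x := rfl

theorem ab_inj {x y : Zy} (h : algebraMap Zy Kf x = algebraMap Zy Kf y) : x = y :=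
  IsFractionRing.injective Zy Kf h

theorem ab_back {c : ℕ} {x : Zy} (h : io c7 ^ c ∣ io x) : c7 ^ c ∣ x := by
  obtain ⟨⟨z, a, s, hs, hz⟩, hx⟩ := h
  have h1 := congrArg (Subtype.val) hx
  rw [io_coe] at h1
  have h2 : algebraMap Zy Kf (x * s) = algebraMap Zy Kf (c7 ^ c * a) := by
    rw [map_mul, map_mul, map_pow, ← hz, h1]
    show (((io c7 ^ c : OO) : Kf) * z) * _ = _
    rw [Subring.coe_pow, io_coe]
    ring
  have h3 := ab_inj h2
  refine ab_prime.pow_dvd_of_dvd_mul_right c hs ?_
  rw [h3]
  exact dvd_mul_right _ _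

/-- Quotients. -/
theorem ab_quot {a s : Zy} (hs : ¬ c7 ∣ s) : ∃ z : OO, (z : Kf) =
    algebraMap Zy Kf a / algebraMap Zy Kf s := by
  have hs0 : algebraMap Zy Kf s ≠ 0 := by
    intro h
    rw [← map_zero (algebraMap Zy Kf)] at h
    exact hs (by rw [ab_inj h]; exact dvd_zero _)
  exact ⟨⟨_, a, s, hs, div_mul_cancel₀ _ hs0⟩, rfl⟩

theorem spAbs (h : SpLU) : SpAbs := by
  intro M B hB0 hB hlead hU hL n a b
  classical
  -- `B` is increasing
  have hmono : ∀ k, B k ≤ B (k + 1) := by
    intro k
    induction k with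
    | zero => rw [hB0]; exact Nat.zero_le _
    | succ k ih =>
      have h1 := hB k
      change B (k + 1) ≤ B (k + 2)
      omega
  set w : ℕ → ℕ := fun k => B (k + 1) - B k with hwdef
  have hw : StrictMono w := strictMono_nat_of_lt_succ fun k => by
    have h1 := hB k
    have h2 := hmono k
    have h3 : B (k + 1) ≤ B (k + 2) := hmono (k + 1)
    change B (k + 1) - B k < B (k + 2) - B (k + 1)
    omega
  have hsum : ∀ m, ∑ k ∈ Finset.range m, w k = B m := by
    intro m
    induction m with
    | zero => rw [Finset.sum_range_zero, hB0]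
    | succ m ih =>
      rw [Finset.sum_range_succ, ih]
      have := hmono m
      simp only [hwdef]
      omega
  -- the units
  have hE : ∀ k, ∃ E : Zy, ¬ c7 ∣ E ∧ Pot.lead M k = c7 ^ B k * E := by
    intro k
    obtain ⟨⟨E, hE⟩, h2⟩ := hlead k
    rw [map_pow] at hE
    refine ⟨E, fun hd => h2 ?_, hE⟩
    rw [map_pow, hE, pow_succ]
    exact mul_dvd_mul_left _ hd
  choose E hE1 hE2 using hE
  have hc0 : algebraMap Zy Kf c7 ≠ 0 := by
    intro h0
    rw [← map_zero (algebraMap Zy Kf)] at h0
    exact ab_prime.ne_zero (ab_inj h0)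
  have hE0 : ∀ k, algebraMap Zy Kf (E k) ≠ 0 := by
    intro k h0
    rw [← map_zero (algebraMap Zy Kf)] at h0
    exact hE1 k (by rw [ab_inj h0]; exact dvd_zero _)
  set M' : ℕ → ℕ → Kf := fun i j => algebraMap Zy Kf (M i j) with hM'
  have hmin : ∀ (m : ℕ) (a b : Fin m → ℕ), Pot.minor M' a b =
      algebraMap Zy Kf (Pot.minor M a b) := by
    intro m a b
    unfold Pot.minor
    rw [RingHom.map_det]
    rfl
  have hleadM : ∀ k, Pot.lead M' k = algebraMap Zy Kf (Pot.lead M k) := fun k => hmin k _ _
  have hlead0 : ∀ k, Pot.lead M' k ≠ 0 := by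
    intro k
    rw [hleadM, hE2, map_mul, map_pow]
    exact mul_ne_zero (pow_ne_zero _ hc0) (hE0 k)
  have hLU := h Kf M' hlead0
  -- the factor `L`
  have hLex : ∀ i k, ∃ z : OO, (i < k → z = 0) ∧ (k ≤ i → (z : Kf) =
      Pot.minor M' (up k i) (idf (k + 1)) / Pot.lead M' (k + 1)) := by
    intro i k
    rcases Nat.lt_or_ge i k with hik | hik
    · exact ⟨0, fun _ => rfl, fun h => by omega⟩
    · rcases Nat.eq_or_lt_of_le hik with hik | hik
      · subst hik
        refine ⟨1, fun h => by omega, fun _ => ?_⟩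
        have e : up k k = idf (k + 1) := by
          funext s
          unfold up idf
          split_ifs with hs
          · rfl
          · have := s.2
            omega
        rw [e]
        have e2 : Pot.minor M' (idf (k + 1)) (idf (k + 1)) = Pot.lead M' (k + 1) := rfl
        rw [e2, div_self (hlead0 _)]
        rfl
      · obtain ⟨c, hc⟩ := hL k i hik
        rw [map_pow] at hc
        obtain ⟨z, hz⟩ := ab_quot (a := c) (hE1 (k + 1))
        refine ⟨z, fun h => by omega, fun _ => ?_⟩
        rw [hz, hmin, hleadM, hE2, hc, map_mul, map_mul, map_pow,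
          mul_div_mul_left _ _ (pow_ne_zero _ hc0)]
  choose L hL0 hL1 using hLex
  -- the factor `U`
  have hUex : ∀ k j, ∃ z : OO, (j < k → z = 0) ∧ (k ≤ j → (z : Kf) =
      Pot.minor M' (idf (k + 1)) (up k j) / Pot.lead M' k) ∧
      (k = j → io c7 ^ w k ∣ z) ∧ (k < j → io c7 ^ (w k + 1) ∣ z) := by
    intro k j
    rcases Nat.lt_or_ge j k with hik | hik
    · exact ⟨0, fun _ => rfl, fun h => by omega, fun h => by omega, fun h => by omega⟩
    · have hBk : B (k + 1) = B k + w k := by
        have := hmono k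
        simp only [hwdef]
        omega
      rcases Nat.eq_or_lt_of_le hik with hik | hik
      · subst hik
        obtain ⟨z, hz⟩ := ab_quot (a := E (k + 1)) (hE1 k)
        refine ⟨io c7 ^ w k * z, fun h => by omega, fun _ => ?_, fun _ => dvd_mul_right _ _,
          fun h => by omega⟩
        have e : up k k = idf (k + 1) := by
          funext s
          unfold up idf
          split_ifs with hs
          · rfl
          · have := s.2
            omega
        rw [e]
        have e2 : Pot.minor M' (idf (k + 1)) (idf (k + 1)) = Pot.lead M' (k + 1) := rfl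
        rw [e2, Subring.coe_mul, Subring.coe_pow, io_coe, hz, hleadM, hleadM, hE2, hE2, hBk,
          pow_add, map_mul, map_mul, map_mul, map_pow, map_pow, mul_assoc,
          mul_div_mul_left _ _ (pow_ne_zero _ hc0), mul_div_assoc]
      · obtain ⟨c, hc⟩ := hU k j hik
        rw [map_pow] at hc
        obtain ⟨z, hz⟩ := ab_quot (a := c) (hE1 k)
        refine ⟨io c7 ^ (w k + 1) * z, fun h => by omega, fun _ => ?_, fun h => by omega,
          fun _ => dvd_mul_right _ _⟩
        have e3 : (Polynomial.C (7 : ℤ_[7]) : Zy) ^ (B (k + 1) + 1) * c =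
            c7 ^ B k * (c7 ^ (w k + 1) * c) := by
          rw [hBk, add_assoc, pow_add, mul_assoc]
        rw [Subring.coe_mul, Subring.coe_pow, io_coe, hz, hmin, hleadM, hE2, hc, e3,
          map_mul, map_mul, map_mul, map_pow, map_pow,
          mul_div_mul_left _ _ (pow_ne_zero _ hc0), mul_div_assoc]
  choose U hU0 hU1 hU2 hU3 using hUex
  have hexp : ∀ i j, io (M i j) = ∑ k ∈ Finset.range (i + 1), L i k * U k j := by
    intro i j
    apply Subtype.ext
    rw [io_coe]
    have h1 := hLU i j
    change algebraMap Zy Kf (M i j) = _ at h1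
    rw [h1]
    have h2 : ((∑ k ∈ Finset.range (i + 1), L i k * U k j : OO) : Kf) =
        ∑ k ∈ Finset.range (i + 1), ((L i k : Kf) * (U k j : Kf)) := by
      rw [AddSubmonoidClass.coe_finsetSum]
      rfl
    rw [h2]
    have h3 : ∑ k ∈ Finset.range (i + 1), ((L i k : Kf) * (U k j : Kf)) =
        ∑ k ∈ Finset.range (min i j + 1), ((L i k : Kf) * (U k j : Kf)) := by
      symm
      refine Finset.sum_subset (Finset.range_mono (by
        have := min_le_left i j
        omega)) fun k hk hk2 => ?_
      rw [Finset.mem_range] at hk hk2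
      have h4 : j < k := by
        rcases Nat.lt_or_ge j k with h5 | h5
        · exact h5
        · exfalso
          apply hk2
          have : k ≤ min i j := le_min (by omega) h5
          omega
      rw [hU0 k j h4]
      show (L i k : Kf) * 0 = 0
      rw [mul_zero]
    rw [h3]
    refine Finset.sum_congr rfl fun k hk => ?_
    rw [Finset.mem_range] at hk
    have hk1 : k ≤ i := by
      have := min_le_left i j
      omega
    have hk2 : k ≤ j := by
      have := min_le_right i j
      omega
    rw [hL1 i k hk1, hU1 k j hk2, div_mul_div_comm, mul_comm (Pot.lead M' (k + 1))]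
  have hcore := ab_core (π := io c7) hw (M := fun i j => io (M i j)) (L := L) (B := U)
    (fun i j hij => hU0 i j hij) (fun i => hU2 i i rfl) (fun i j hij => hU3 i j hij)
    (fun i k hik => hL0 i k hik) hexp n a b
  have hmo : Pot.minor (fun i j => io (M i j)) a b = io (Pot.minor M a b) := by
    unfold Pot.minor
    rw [RingHom.map_det]
    rfl
  rw [hmo, hsum] at hcore
  refine ⟨?_, fun hb => ?_⟩
  · rw [map_pow]
    exact ab_back hcore.1
  · rw [map_pow]
    exact ab_back (hcore.2 hb)

end GH.M7
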