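import Pool.Agent.GH.M7.Stm
import Pool.Agent.GH.NP

/-!
# GH7-MAT: the theorem on the central disc from its parts
-/

noncomputable section

namespace GH.M7

open GH.D7 GH.CombU

theorem c7_norm_iota (z : ℤ_[7]) : ‖iota7 z‖ = ‖z‖ := by
  have h1 : ‖iota7 z‖ = ‖(z : ℚ_[7])‖ := by
    rw [← PadicComplex.norm_extends' 7 (z : ℚ_[7])]
    congr 1
  rw [h1]
  rfl

theorem c7_norm_yx (e : ℕ) {x : C7} (hx : ‖x‖ ≤ 1) : ‖yx e x‖ ≤ 1 := by
  have h4 : ‖(4 : C7)‖ ≤ 1 := by
    have := IsUltrametricDist.norm_natCast_le_one C7 4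
    exact_mod_cast this
  have h2 : ‖(2 : C7)‖ ≤ 1 := by
    have := IsUltrametricDist.norm_natCast_le_one C7 2
    exact_mod_cast this
  unfold yx
  refine (IsUltrametricDist.norm_add_le_max _ _).trans (max_le ?_ ?_)
  · rw [norm_mul]
    exact mul_le_one₀ h4 (norm_nonneg _) hx
  · split_ifs
    · exact h2
    · rw [norm_zero]
      exact zero_le_one

theorem central7_of (hM : SpMatW)
    (hl : ∀ e : ℕ, e ≤ 2 → ∀ n, Pot.lead (PS e) n = Pot.lead (PM e) n)
    (hNP : SpNP) (hG : SpGhost) : CentralTheorem7 := by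
  intro e he x hx
  rw [hNP e x he hx]
  refine newtonPolygon_congr_norm fun n => ?_
  rw [hG e n x he hx, ← hl e he n,
    Pot.w_norm_lead (hM e he) iota7 c7_norm_iota (c7_norm_yx e hx) n]
  congr 1
  rw [← Real.rpow_intCast]
  norm_num

end GH.M7
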