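import Pool.Agent.GH.M7.Stm

/-!
# GH7-MAT, row C: the corank of the scaled matrix
-/

open PowerSeries

noncomputable section

namespace GH.M7

open GH.D7 GH.CombU

theorem cr_pow (c : ℤ) (z : ℕ) :
    (-7 : ℚ) ^ (2 * c - z) = (-1) ^ z * 7 ^ (2 * c - (z : ℤ)) := by
  have h1 : (-7 : ℚ) ≠ 0 := by norm_num
  have h2 : (7 : ℚ) ≠ 0 := by norm_num
  have h3 : (-7 : ℚ) ^ (2 : ℤ) = 7 ^ (2 : ℤ) := by norm_num
  have h4 : (-1 : ℚ) ^ z * (-1) ^ z = 1 := by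
    rw [← mul_pow]
    norm_num
  have h5 : (-7 : ℚ) ^ z = (-1) ^ z * 7 ^ z := by
    rw [← mul_pow]
    norm_num
  have h6 : (-1 : ℚ) ^ z ≠ 0 := pow_ne_zero _ (by norm_num)
  have h7 : (7 : ℚ) ^ z ≠ 0 := pow_ne_zero _ h2
  rw [zpow_sub₀ h1, zpow_sub₀ h2, zpow_mul, zpow_mul, h3, zpow_natCast, zpow_natCast, h5,
    div_eq_iff (mul_ne_zero h6 h7)]
  calc ((7 : ℚ) ^ (2 : ℤ)) ^ c = ((-1 : ℚ) ^ z * (-1) ^ z) * ((7 : ℚ) ^ (2 : ℤ)) ^ c *
        ((7 : ℚ) ^ z / 7 ^ z) := by rw [h4, div_self h7, one_mul, mul_one]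
    _ = _ := by ring

theorem cr_kap (e z j : ℕ) : kap e z j = (if e = 1 then -1 else 1) * (-1) ^ z *
    7 ^ (2 * ((cen e z : ℤ) - j) - z - if e = 1 then 0 else 1) := by
  have h2 : (7 : ℚ) ≠ 0 := by norm_num
  unfold kap
  rw [cr_pow]
  split_ifs
  · rw [sub_zero]
    ring
  · rw [zpow_sub₀ h2 (2 * ((cen e z : ℤ) - j) - z) 1, zpow_one]
    ring

theorem cr_eval (hp : SpPS) {e : ℕ} (he : e ≤ 2) (i j : ℕ) (m : ℤ_[7]) :
    (7 : ℤ_[7]) ^ i * (PS e i j).eval m = 7 ^ j * (PM e i j).eval m := by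
  have h := congrArg (Polynomial.eval m) (hp e i j he).1
  rwa [Polynomial.eval_mul, Polynomial.eval_mul, Polynomial.eval_C, Polynomial.eval_C] at h

theorem cr_sum {t : ℕ} (f : ℕ → ℚ) :
    ∑ l ∈ Finset.Icc 1 t, f l = ∑ l : Fin t, f ((l : ℕ) + 1) := by
  rw [← Finset.sum_range (fun l => f (l + 1))]
  rw [Finset.range_eq_Ico, Finset.sum_Ico_add' f 0 t 1]
  rfl

/-- Row C. -/
theorem spCor (h1 : SpJ) (h2 : SpVal) (h3 : SpH) (h4 : SpPS) : SpCor := by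
  intro e he m hm
  obtain ⟨n, hn⟩ := hm
  obtain ⟨z, rfl, hz⟩ : ∃ z, m = cen e z ∧ 1 ≤ z := by
    refine ⟨m / 4, ?_, ?_⟩
    · unfold T7 at hn
      unfold cen
      split_ifs at hn ⊢ <;> omega
    · unfold T7 t7 at hn
      by_contra h0
      have h5 : m / 4 = 0 := by omega
      rw [h5] at hn
      split_ifs at hn <;> omega
  have hz4 : cen e z / 4 = z := by
    unfold cen
    split_ifs <;> omega
  have ht : t7 e (cen e z) = tz e z := by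
    unfold t7 tz
    rw [hz4]
  have hs : s7 e (cen e z) = lam e z := by
    unfold s7 lam
    rw [hz4]
    omega
  have hc : (cen e z : ℤ) = 4 * z + if e = 2 then 2 else 0 := by
    unfold cen
    split_ifs <;> push_cast <;> ring
  rw [ht, hs]
  obtain ⟨y, hy⟩ := h1 e z he
  have h7 : (7 : ℚ_[7]) ≠ 0 := by norm_num
  have h77 : (((7 : ℤ_[7])) : ℚ_[7]) = 7 := by
    exact_mod_cast PadicInt.coe_natCast (p := 7) 7
  refine ⟨fun i l => (7 : ℚ_[7]) ^ (-(i : ℤ)) *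
      ((coeff (i + 1) (xG e z ((l : ℕ) + 1)) : ℚ) : ℚ_[7]),
    fun l j => if j + 1 < cen e z then (7 : ℚ_[7]) ^ (j : ℤ) *
      ((y ((l : ℕ) + 1) (j + 1) : ℚ) : ℚ_[7]) else 0, fun i j => ?_⟩
  have e2 := cr_eval h4 he i j ((cen e z : ℕ) : ℤ_[7])
  have e3 : (((PS e i j).eval ((cen e z : ℕ) : ℤ_[7]) : ℤ_[7]) : ℚ_[7]) =
      (7 : ℚ_[7]) ^ (-(i : ℤ)) * ((7 : ℚ_[7]) ^ (j : ℤ) *
        (((PM e i j).eval ((cen e z : ℕ) : ℤ_[7]) : ℤ_[7]) : ℚ_[7])) := by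
    have e4 := congrArg (fun z : ℤ_[7] => (z : ℚ_[7])) e2
    simp only [PadicInt.coe_mul, PadicInt.coe_pow] at e4
    rw [h77] at e4
    rw [zpow_natCast, ← e4, ← mul_assoc, zpow_neg, zpow_natCast,
      inv_mul_cancel₀ (pow_ne_zero _ h7), one_mul]
  by_cases hj : j + 1 < cen e z
  · refine ⟨if i + 1 + (j + 1) = cen e z then -((if e = 1 then -1 else 1) * (-1) ^ z) else 0, ?_⟩
    rw [e3, h2 e z i j he, hy (i + 1) (j + 1) (by omega) (by omega) hj, cr_sum]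
    simp only [if_pos hj]
    have e5 : ∑ l : Fin (tz e z), (7 : ℚ_[7]) ^ (-(i : ℤ)) *
        ((coeff (i + 1) (xG e z ((l : ℕ) + 1)) : ℚ) : ℚ_[7]) *
        ((7 : ℚ_[7]) ^ (j : ℤ) * ((y ((l : ℕ) + 1) (j + 1) : ℚ) : ℚ_[7])) =
        (7 : ℚ_[7]) ^ (-(i : ℤ)) * ((7 : ℚ_[7]) ^ (j : ℤ) *
          ((∑ l : Fin (tz e z), coeff (i + 1) (xG e z ((l : ℕ) + 1)) *
            y ((l : ℕ) + 1) (j + 1) : ℚ) : ℚ_[7])) := by
      rw [Rat.cast_sum, Finset.mul_sum, Finset.mul_sum]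
      refine Finset.sum_congr rfl fun l _ => ?_
      rw [Rat.cast_mul]
      ring
    rw [e5, Rat.cast_sub, mul_sub, mul_sub, sub_eq_add_neg]
    congr 1
    by_cases hij : i + 1 + (j + 1) = cen e z
    · rw [if_pos hij, if_pos hij, cr_kap]
      have h78 : ((7 : ℕ) : ℚ_[7]) = 7 := by norm_num
      rw [h78]
      have e6 : (7 : ℚ_[7]) ^ (-(i : ℤ)) * ((7 : ℚ_[7]) ^ (j : ℤ) *
          (7 : ℚ_[7]) ^ (2 * ((cen e z : ℤ) - (j + 1 : ℕ)) - z - if e = 1 then 0 else 1)) =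
          (7 : ℚ_[7]) ^ lam e z := by
        rw [← zpow_add₀ h7, ← zpow_add₀ h7, ← zpow_natCast (7 : ℚ_[7]) (lam e z)]
        congr 1
        have hl : (lam e z : ℤ) = 3 * z + e - 1 := by
          unfold lam
          omega
        rw [hl]
        have hij' : (i : ℤ) + 1 + (j + 1) = cen e z := by exact_mod_cast hij
        push_cast
        split_ifs at hc ⊢ <;> omega
      rw [← e6]
      push_cast
      split_ifs <;> push_cast <;> ring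
    · rw [if_neg hij, if_neg hij]
      simp
  · have e4 : (7 : ℤ_[7]) ^ (lam e z + i) ∣
        7 ^ i * (PS e i j).eval ((cen e z : ℕ) : ℤ_[7]) := by
      rw [e2]
      exact h3 e z i j he (by omega)
    have e6 : (7 : ℤ_[7]) ^ (lam e z) ∣ (PS e i j).eval ((cen e z : ℕ) : ℤ_[7]) := by
      rw [pow_add, mul_comm] at e4
      exact (mul_dvd_mul_iff_left (pow_ne_zero _ (by norm_num : (7 : ℤ_[7]) ≠ 0))).1 e4
    obtain ⟨w, hw⟩ := e6
    refine ⟨w, ?_⟩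
    simp only [if_neg hj, mul_zero, Finset.sum_const_zero, zero_add]
    rw [hw, PadicInt.coe_mul, PadicInt.coe_pow, h77]
    norm_num

end GH.M7
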