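import Pool.Agent.GH.M7.Stm2
import Mathlib.LinearAlgebra.Lagrange

/-!
# GH7-MAT, row J4a: Euler's sums for the octic equation
-/

set_option autoImplicit false

noncomputable section

namespace GH.M7

open Polynomial

section

variable {F : Type} [Field F]

/-- The lower part of the octic polynomial. -/
private def euL (a b c d f : F) : F[X] :=
  C a * X ^ 7 + C b * X ^ 6 + C c * X ^ 4 + C d * X ^ 2 + C f

private theorem euL_deg (a b c d f : F) : (euL a b c d f).degree < 8 := by
  unfold euL
  have h : (C a * X ^ 7 + C b * X ^ 6 + C c * X ^ 4 + C d * X ^ 2 + C f : F[X]).degree ≤ 7 := by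
    compute_degree
  exact lt_of_le_of_lt h (by norm_num)

private theorem eu_nodal {a b c d f : F} {x : Fin 8 → F} (hx : Function.Injective x)
    (h : ∀ r, x r ^ 8 = a * x r ^ 7 + b * x r ^ 6 + c * x r ^ 4 + d * x r ^ 2 + f) :
    Lagrange.nodal Finset.univ x = X ^ 8 - euL a b c d f := by
  symm
  have hd : (X ^ 8 - euL a b c d f : F[X]).degree = 8 := by
    rw [degree_sub_eq_left_of_degree_lt]
    · rw [degree_X_pow]
      rfl
    · rw [degree_X_pow]
      exact euL_deg a b c d f
  refine eq_of_degree_sub_lt_of_eval_index_eq Finset.univ hx.injOn ?_ ?_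
  · have h1 : (Lagrange.nodal Finset.univ x).degree = 8 := by
      rw [Lagrange.degree_nodal, Finset.card_univ, Fintype.card_fin]
      rfl
    have h2 : (X ^ 8 - euL a b c d f - Lagrange.nodal Finset.univ x).degree <
        (X ^ 8 - euL a b c d f : F[X]).degree := by
      refine degree_sub_lt (by rw [hd, h1]) ?_ ?_
      · intro h0
        rw [h0, degree_zero] at hd
        exact absurd hd (by decide)
      · rw [Lagrange.nodal_monic.leadingCoeff]
        have h3 : (X ^ 8 - euL a b c d f : F[X]).Monic := by
          exact monic_X_pow_sub (euL_deg a b c d f)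
        exact h3
    rw [hd] at h2
    rw [Finset.card_univ, Fintype.card_fin]
    exact h2
  · intro r _
    rw [Lagrange.eval_nodal_at_node (Finset.mem_univ r)]
    unfold euL
    simp only [eval_sub, eval_add, eval_mul, eval_C, eval_pow, eval_X]
    rw [h r]
    ring

private theorem eu_prod {a b c d f : F} {x : Fin 8 → F} (hx : Function.Injective x)
    (h : ∀ r, x r ^ 8 = a * x r ^ 7 + b * x r ^ 6 + c * x r ^ 4 + d * x r ^ 2 + f) (r : Fin 8) :
    ∏ s ∈ Finset.univ.erase r, (x r - x s) =
      8 * x r ^ 7 - 7 * a * x r ^ 6 - 6 * b * x r ^ 5 - 4 * c * x r ^ 3 - 2 * d * x r := by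
  have h1 := Lagrange.eval_nodal_derivative_eval_node_eq (v := x) (Finset.mem_univ r)
  rw [Lagrange.eval_nodal, eu_nodal hx h] at h1
  rw [← h1]
  unfold euL
  simp only [derivative_sub, derivative_add, derivative_mul, derivative_C, derivative_X_pow,
    eval_sub, eval_add, eval_mul, eval_C, eval_pow, eval_X, eval_zero]
  push_cast
  ring

end

/-- Row J4a. -/
theorem spEuler : SpEuler := by
  intro F _ a b c d f x hx h
  constructor
  · intro r
    rw [← eu_prod hx h r, Finset.prod_ne_zero_iff]
    intro s hs
    rw [Finset.mem_erase] at hs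
    exact sub_ne_zero.2 fun he => hs.1 (hx he).symm
  · intro j hj
    have h1 := Lagrange.coeff_eq_sum (s := Finset.univ) (v := x) hx.injOn (P := X ^ j) (by
      rw [degree_X_pow, Finset.card_univ, Fintype.card_fin]
      exact_mod_cast (by omega : j < 8))
    rw [coeff_X_pow, Finset.card_univ, Fintype.card_fin] at h1
    simp only [eval_pow, eval_X, eu_prod hx h] at h1
    rw [← h1]
    by_cases h7 : j = 7
    · rw [if_pos h7, if_pos (by omega)]
    · rw [if_neg h7, if_neg (by omega)]

end GH.M7
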