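import Pool.Agent.GH.M7.Stm
import Pool.Agent.GH.UMatB_a
import Pool.Agent.GH.D7.Ser7

/-!
# GH7-F2: the values of `PM` in `ℂ_7`
-/

open PowerSeries

noncomputable section

namespace GH.M7

open GH.D7 GH.CombU GH.MatU

section

variable {K : Type*} [Field K] [CharZero K]

/-- Inverse series and opposite powers. -/
theorem m7ev_ppow_neg {u v : PowerSeries K} (hu : constantCoeff u = 1)
    (hv : constantCoeff v = 1) (huv : u * v = 1) (y : K) : ppow u (-y) = ppow v y := by
  have h1 : ppow u (-y) * ppow u y = 1 := by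
    rw [← ub_ppow_add hu, neg_add_cancel, ub_ppow_zero hu]
  have h2 : ppow u y * ppow v y = 1 := by
    rw [← ub_ppow_mul hu hv, huv]
    have h3 : constantCoeff (1 : PowerSeries K) = 1 := map_one _
    have h4 := ub_ppow_mul h3 h3 y
    rw [mul_one] at h4
    have h5 : ppow (1 : PowerSeries K) y ≠ 0 := by
      intro h6
      have h7 := ub_const_ppow h3 y
      rw [h6, map_zero] at h7
      exact zero_ne_one h7
    exact (mul_left_cancel₀ h5 (by rw [mul_one]; exact h4)).symm
  calc ppow u (-y) = ppow u (-y) * (ppow u y * ppow v y) := by rw [h2, mul_one]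
    _ = ppow v y := by rw [← mul_assoc, h1, one_mul]

/-- The values of `V^y`. -/
theorem m7ev_map_LY (hth0 : constantCoeff thV = 0) (φ : ℤ_[7] →+* K) (y : K) :
    PowerSeries.map (Polynomial.eval₂RingHom φ y) LY = ppow (PowerSeries.map φ Vz) y := by
  have h0 : constantCoeff (PowerSeries.map φ thV) = 0 := by
    rw [← coeff_zero_eq_constantCoeff_apply, coeff_map, coeff_zero_eq_constantCoeff_apply,
      hth0, map_zero]
  have h1 : PowerSeries.map (Polynomial.eval₂RingHom φ y) (PowerSeries.mk (cc 7)) =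
      rescale 7 (binS y) := by
    ext m
    rw [coeff_map, coeff_mk, coeff_rescale, ub_coeff_binS, cc, map_mul]
    have h2 : Polynomial.eval₂RingHom φ y (Polynomial.C (uu 7 m)) = φ (uu 7 m) := by
      simp
    have h3 : Polynomial.eval₂RingHom φ y (descPochhammer ℤ_[7] m) =
        ∏ i ∈ Finset.range m, (y - i) := by
      rw [Polynomial.coe_eval₂RingHom, Polynomial.eval₂_eq_eval_map, descPochhammer_map,
        descPochhammer_eval_eq_prod_range]
    have h4 : φ (uu 7 m) * (m.factorial : K) = 7 ^ m := by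
      have := congrArg φ (uu_mul 7 m)
      rw [map_mul, map_pow, map_natCast, map_natCast] at this
      push_cast at this
      exact this
    have h5 : (m.factorial : K) ≠ 0 := by exact_mod_cast m.factorial_ne_zero
    rw [h2, h3, ← h4]
    field_simp
  have h6 : PowerSeries.map (Polynomial.eval₂RingHom φ y) (PowerSeries.map Polynomial.C thV) =
      PowerSeries.map φ thV := by
    ext n
    simp
  have h7 : 1 + C (7 : K) * PowerSeries.map φ thV = PowerSeries.map φ Vz := by
    rw [Vz, map_add, map_mul, map_one, PowerSeries.map_C, map_ofNat φ 7]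
  rw [LY, Lpow, map_subst' (hasSubst_C 7 hth0), h1, h6, ub_rescale_subst 7 y h0, h7]

/-- The values of `PM` in a field of characteristic zero. -/
theorem m7ev_eval (h : SpV) (φ : ℤ_[7] →+* K) (e : ℕ) (he : e ≤ 2) (x : K) (i j : ℕ) :
    (PM e i j).eval₂ φ (4 * x + if e = 2 then 2 else 0) = Mat7 e x (i + 1) (j + 1) := by
  obtain ⟨hth0, hVS, -, -, -⟩ := h
  set V : PowerSeries K := PowerSeries.map φ Vz with hV
  set S : PowerSeries K := S7 K with hS
  have hSc : constantCoeff S = 1 := constantCoeff_S7 K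
  have hVc : constantCoeff V = 1 := by
    have h1 : constantCoeff Vz = 1 := by
      rw [Vz, map_add, map_mul, hth0, mul_zero, add_zero, map_one]
    rw [hV, ← coeff_zero_eq_constantCoeff_apply, coeff_map, coeff_zero_eq_constantCoeff_apply,
      h1, map_one]
  have hV4 : V ^ 4 * S = 1 := by
    have h1 := congrArg (PowerSeries.map φ) hVS
    rw [map_mul, map_pow, map_one, map_S7] at h1
    exact h1
  have hV4c : constantCoeff (V ^ 4) = 1 := by rw [map_pow, hVc, one_pow]
  have hpow : ∀ n : ℕ, ∀ x : K, ppow V (n * x) = ppow (V ^ n) x := by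
    intro n x
    induction n with
    | zero =>
      have h3 : constantCoeff (1 : PowerSeries K) = 1 := map_one _
      have h4 := ub_ppow_mul h3 h3 x
      rw [mul_one] at h4
      have h5 : ppow (1 : PowerSeries K) x ≠ 0 := by
        intro h6
        have h7 := ub_const_ppow h3 x
        rw [h6, map_zero] at h7
        exact zero_ne_one h7
      rw [Nat.cast_zero, zero_mul, ub_ppow_zero hVc, pow_zero]
      exact mul_left_cancel₀ h5 (by rw [mul_one]; exact h4)
    | succ n ih =>
      have hc : constantCoeff (V ^ n) = 1 := by rw [map_pow, hVc, one_pow]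
      rw [pow_succ, ub_ppow_mul hc hVc, ← ih, ← ub_ppow_add hVc]
      congr 1
      push_cast
      ring
  have h4x : ppow V (4 * x) = ppow S (-x) := by
    have h1 := hpow 4 x
    rw [m7ev_ppow_neg hSc hV4c (by rw [mul_comm]; exact hV4) x, ← h1]
    norm_num
  have hVy : V ^ (2 * ey7 e) * ppow V (4 * x + if e = 2 then 2 else 0) =
      ppow S (-x) * (V ^ 4) ^ sh7 e := by
    interval_cases e
    · have h3 : (4 * x + if 0 = 2 then 2 else 0 : K) = 4 * x := by norm_num
      rw [h3, h4x]
      simp only [ey7, sh7, if_true]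
      norm_num
      exact mul_comm _ _
    · have h3 : (4 * x + if 1 = 2 then 2 else 0 : K) = 4 * x := by norm_num
      rw [h3, h4x]
      simp [ey7, sh7]
    · have h2 := ub_ppow_nat hVc 2
      rw [Nat.cast_ofNat] at h2
      simp only [ey7, sh7, if_true]
      rw [ub_ppow_add hVc, h4x, h2]
      norm_num
      ring
  have hSsh : S ^ (2 * (i + 1)) * (V ^ (2 * ey7 e) *
      ppow V (4 * x + if e = 2 then 2 else 0)) =
      ppow S (2 * ((i + 1 : ℕ) : K) - x - sh7 e) := by
    have h1 : (2 * ((i + 1 : ℕ) : K) - x - sh7 e) =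
        ((2 * (i + 1) : ℕ) : K) + (-x + -((sh7 e : ℕ) : K)) := by
      push_cast
      ring
    have h2 : ppow S (-((sh7 e : ℕ) : K)) = (V ^ 4) ^ sh7 e := by
      rw [m7ev_ppow_neg hSc hV4c (by rw [mul_comm]; exact hV4), ub_ppow_nat hV4c]
    rw [hVy, h1, ub_ppow_add hSc, ub_ppow_add hSc, ub_ppow_nat hSc, h2]
  rw [PM, Mat7]
  by_cases hij : j + 1 ≤ 7 * (i + 1)
  · rw [if_pos hij, if_pos hij]
    have hC : PowerSeries.map (Polynomial.eval₂RingHom φ (4 * x + if e = 2 then 2 else 0))
        (PowerSeries.map Polynomial.C (Vz ^ (2 * ey7 e))) = V ^ (2 * ey7 e) := by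
      rw [hV, ← map_pow (PowerSeries.map φ)]
      ext n
      rw [coeff_map, coeff_map, coeff_map, Polynomial.coe_eval₂RingHom, Polynomial.eval₂_C]
    have h1 : PowerSeries.map (Polynomial.eval₂RingHom φ (4 * x + if e = 2 then 2 else 0))
        (PowerSeries.map Polynomial.C (Vz ^ (2 * ey7 e)) *
          Y7 Zy ^ ey7 e * S7 Zy ^ (2 * (i + 1)) * LY) =
        ppow (S7 K) (2 * ((i + 1 : ℕ) : K) - x - sh7 e) * Y7 K ^ ey7 e := by
      rw [map_mul, map_mul, map_mul, hC, map_pow, map_pow, map_S7, map_Y7,
        m7ev_map_LY hth0, ← hV, ← hS, ← hSsh]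
      ring
    rw [← Polynomial.coe_eval₂RingHom, ← coeff_map, h1]
  · rw [if_neg hij, if_neg hij, Polynomial.eval₂_zero]

end

theorem spEval (h : SpV) : SpEval := fun e x i j he ↦ m7ev_eval h iota7 e he x i j

end GH.M7
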