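import Pool.Agent.GH.M7.Stm
import Pool.Agent.GH.MatU.GaussDiv

/-!
# GH7-D2: division in `ℤ_7[7y]`
-/

noncomputable section

namespace GH.M7

theorem spGauss : SpGauss := by
  intro F T Z hF h
  have e7 : (((7 : ℕ) : ℤ_[7])) = 7 := by norm_num
  obtain ⟨H, hH, hFH⟩ := MatU.gauss_div (p := 7) F T Z (fun k => by rw [e7]; exact hF k) h
  rw [e7] at hH hFH
  exact ⟨H, hH, hFH⟩

end GH.M7
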