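import Pool.Agent.GH.M7.Stm
import Pool.Agent.GH.D7.Ghost7

/-!
# GH7-F4: norms of the ghost coefficients, `p = 7` (helper74)
-/

noncomputable section

namespace GH.M7

open GH.D7 GH.CombU

theorem gh7_mult {e : ℕ} (he : e ≤ 2) (n l : ℕ) :
    multG 7 n (2 * e + 6 * l) = T7 e n (cen e l) := by
  rw [d7p_mult he]
  unfold d7p_t d7p_D T7 t7 cen
  have h0 : e = 0 ∨ e = 1 ∨ e = 2 := by omega
  rcases h0 with rfl | rfl | rfl
  · norm_num
  · norm_num
  · norm_num
    omega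

theorem gh7_zero {e : ℕ} (he : e ≤ 2) {n l : ℕ} (hl : 2 * n + 1 ≤ l) : T7 e n (cen e l) = 0 := by
  unfold T7 t7 cen
  have h0 : e = 0 ∨ e = 1 ∨ e = 2 := by omega
  rcases h0 with rfl | rfl | rfl
  · norm_num
    omega
  · norm_num
    omega
  · norm_num
    omega

theorem gh7_out {e : ℕ} {n m : ℕ} (hm : ∀ l, cen e l ≠ m) : T7 e n m = 0 := by
  unfold T7
  rw [if_neg]
  intro h
  apply hm (m / 4)
  unfold cen
  split_ifs at h ⊢ <;> omega

theorem gh7_prod {e : ℕ} (he : e ≤ 2) (n : ℕ) (a : ℕ → ℝ) :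
    ∏ m ∈ Finset.range (Z7 n), a m ^ T7 e n m =
      ∏ l ∈ Finset.range (2 * n + 3), a (cen e l) ^ T7 e n (cen e l) := by
  classical
  have h1 : ∏ l ∈ Finset.range (2 * n + 3), a (cen e l) ^ T7 e n (cen e l) =
      ∏ l ∈ Finset.range (2 * n + 1), a (cen e l) ^ T7 e n (cen e l) := by
    symm
    refine Finset.prod_subset (Finset.range_mono (by omega)) fun l _ hl => ?_
    rw [Finset.mem_range, not_lt] at hl
    rw [gh7_zero he hl, pow_zero]
  have h2 : ∏ m ∈ (Finset.range (2 * n + 1)).image (cen e), a m ^ T7 e n m =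
      ∏ l ∈ Finset.range (2 * n + 1), a (cen e l) ^ T7 e n (cen e l) :=
    Finset.prod_image fun x _ y _ h => by
      have h' : cen e x = cen e y := h
      unfold cen at h'
      omega
  rw [h1, ← h2]
  symm
  refine Finset.prod_subset ?_ fun m hm hm2 => ?_
  · intro m hm
    obtain ⟨l, hl, rfl⟩ := Finset.mem_image.1 hm
    rw [Finset.mem_range] at hl ⊢
    unfold Z7 cen
    split_ifs <;> omega
  · rw [gh7_out (e := e), pow_zero]
    rintro l rfl
    apply hm2
    rw [Finset.mem_range] at hm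
    refine Finset.mem_image_of_mem _ (Finset.mem_range.2 ?_)
    unfold Z7 cen at hm
    split_ifs at hm <;> omega

theorem gh7_norm_four : ‖(4 : C7)‖ = 1 := by
  have h := d7m_norm_natCast 4
  have h2 : ‖((4 : ℕ) : ℚ_[7])‖ = 1 := by
    rw [Padic.norm_natCast_eq_one_iff]
    norm_num
  rw [h2] at h
  simpa using h

theorem gh7_yx (e l : ℕ) (x : C7) : ‖yx e x - ((cen e l : ℕ) : C7)‖ = ‖x - (l : C7)‖ := by
  have h : yx e x - ((cen e l : ℕ) : C7) = 4 * (x - (l : C7)) := by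
    unfold yx cen
    split_ifs
    · push_cast
      ring
    · push_cast
      ring
  rw [h, norm_mul, gh7_norm_four, one_mul]

/-- F4. -/
theorem spGhost (h : SpSum) : SpGhost := by
  intro e n x he hx
  have h1 : (7 : ℝ) ^ (-(B7 e n : ℤ)) = ∏ m ∈ Finset.range (Z7 n), (7⁻¹ : ℝ) ^ T7 e n m := by
    rw [Finset.prod_pow_eq_pow_sum, h e n he, inv_pow, zpow_neg, zpow_natCast]
  rw [norm_ghostG7_wx he hx n, h1, ← Finset.prod_mul_distrib]
  have h2 : ∀ m ∈ Finset.range (Z7 n), (7⁻¹ : ℝ) ^ T7 e n m * ‖yx e x - (m : C7)‖ ^ T7 e n m =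
      (‖yx e x - (m : C7)‖ / 7) ^ T7 e n m := by
    intro m _
    rw [← mul_pow, div_eq_inv_mul]
  rw [Finset.prod_congr rfl h2, gh7_prod he n fun m => ‖yx e x - (m : C7)‖ / 7]
  refine Finset.prod_congr rfl fun l _ => ?_
  rw [gh7_mult he, gh7_yx]

end GH.M7
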