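import Pool.Agent.GH.M7.Stm

/-!
# GH7-MAT: existence of the two-sided sequence `H`
-/

open PowerSeries

noncomputable section

namespace GH.M7

/-- the next value of the recursion -/
def hh_nx (v : Fin 8 → ℤ → ℚ) (s : ℤ) : ℚ :=
  eO (v 7) s + 490 * v 6 (s - 1) + 21609 * v 4 (s - 2) + 235298 * v 2 (s - 3) +
    823543 * v 0 (s - 4)

/-- the previous value of the recursion -/
def hh_pv (w : Fin 8 → ℤ → ℚ) (s : ℤ) : ℚ :=
  (w 7 (s + 4) - eO (w 6) (s + 4) - 490 * w 5 (s + 3) - 21609 * w 3 (s + 2) -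
    235298 * w 1 (s + 1)) / 823543

/-- the step of the recursion -/
def hh_A (v : Fin 8 → ℤ → ℚ) : Fin 8 → ℤ → ℚ :=
  ![v 1, v 2, v 3, v 4, v 5, v 6, v 7, hh_nx v]

/-- the inverse step of the recursion -/
def hh_B (w : Fin 8 → ℤ → ℚ) : Fin 8 → ℤ → ℚ :=
  ![hh_pv w, w 0, w 1, w 2, w 3, w 4, w 5, w 6]

theorem hh_BA (v : Fin 8 → ℤ → ℚ) : hh_B (hh_A v) = v := by
  have h0 : hh_pv (hh_A v) = v 0 := by
    funext s
    change (hh_nx v (s + 4) - eO (v 7) (s + 4) - 490 * v 6 (s + 3) - 21609 * v 4 (s + 2) -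
      235298 * v 2 (s + 1)) / 823543 = v 0 s
    unfold hh_nx
    have e1 : s + 4 - 1 = s + 3 := by ring
    have e2 : s + 4 - 2 = s + 2 := by ring
    have e3 : s + 4 - 3 = s + 1 := by ring
    have e4 : s + 4 - 4 = s := by ring
    rw [e1, e2, e3, e4]
    ring
  funext k
  fin_cases k
  · exact h0
  all_goals rfl

theorem hh_AB (w : Fin 8 → ℤ → ℚ) : hh_A (hh_B w) = w := by
  have h0 : hh_nx (hh_B w) = w 7 := by
    funext s
    change eO (w 6) s + 490 * w 5 (s - 1) + 21609 * w 3 (s - 2) + 235298 * w 1 (s - 3) +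
      823543 * hh_pv w (s - 4) = w 7 s
    unfold hh_pv
    have e1 : s - 4 + 4 = s := by ring
    have e2 : s - 4 + 3 = s - 1 := by ring
    have e3 : s - 4 + 2 = s - 2 := by ring
    have e4 : s - 4 + 1 = s - 3 := by ring
    rw [e1, e2, e3, e4]
    ring
  funext k
  fin_cases k
  pick_goal 8
  · exact h0
  all_goals rfl

/-- the step as a permutation -/
def hh_P : Equiv.Perm (Fin 8 → ℤ → ℚ) where
  toFun := hh_A
  invFun := hh_B
  left_inv := hh_BA
  right_inv := hh_AB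

/-- the initial state -/
def hh_v : Fin 8 → ℤ → ℚ := fun k s => if k = 7 ∧ s = 0 then 1 else 0

/-- the states -/
def hh_u (n : ℤ) : Fin 8 → ℤ → ℚ := (hh_P ^ n) hh_v

theorem hh_u_zero : hh_u 0 = hh_v := by
  unfold hh_u
  rw [zpow_zero]
  rfl

theorem hh_u_succ (n : ℤ) : hh_u (n + 1) = hh_A (hh_u n) := by
  unfold hh_u
  rw [add_comm, zpow_one_add]
  rfl

theorem hh_1 (n : ℤ) : hh_u n 1 = hh_u (n + 1) 0 := by
  rw [hh_u_succ]
  rfl

theorem hh_2 (n : ℤ) : hh_u n 2 = hh_u (n + 2) 0 := by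
  have h : hh_u n 2 = hh_u (n + 1) 1 := by
    rw [hh_u_succ]
    rfl
  rw [h, hh_1, add_assoc]
  norm_num

theorem hh_3 (n : ℤ) : hh_u n 3 = hh_u (n + 3) 0 := by
  have h : hh_u n 3 = hh_u (n + 1) 2 := by
    rw [hh_u_succ]
    rfl
  rw [h, hh_2, add_assoc]
  norm_num

theorem hh_4 (n : ℤ) : hh_u n 4 = hh_u (n + 4) 0 := by
  have h : hh_u n 4 = hh_u (n + 1) 3 := by
    rw [hh_u_succ]
    rfl
  rw [h, hh_3, add_assoc]
  norm_num

theorem hh_5 (n : ℤ) : hh_u n 5 = hh_u (n + 5) 0 := by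
  have h : hh_u n 5 = hh_u (n + 1) 4 := by
    rw [hh_u_succ]
    rfl
  rw [h, hh_4, add_assoc]
  norm_num

theorem hh_6 (n : ℤ) : hh_u n 6 = hh_u (n + 6) 0 := by
  have h : hh_u n 6 = hh_u (n + 1) 5 := by
    rw [hh_u_succ]
    rfl
  rw [h, hh_5, add_assoc]
  norm_num

theorem hh_7 (n : ℤ) : hh_u n 7 = hh_u (n + 7) 0 := by
  have h : hh_u n 7 = hh_u (n + 1) 6 := by
    rw [hh_u_succ]
    rfl
  rw [h, hh_6, add_assoc]
  norm_num

/-- J1: existence of the functions `H`. -/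
theorem spHH : SpHH := by
  refine ⟨fun N => hh_u (N + 7) 0, ?_, ?_, ?_⟩
  · intro N s
    have h1 : hh_u (N + 8 + 7) 0 = hh_nx (hh_u (N + 7)) := by
      have h2 : N + 8 + 7 = (N + 7 + 1) + 7 := by ring
      rw [h2, ← hh_7, hh_u_succ]
      rfl
    have h7 : hh_u (N + 7 + 7) 0 = hh_u (N + 7) 7 := (hh_7 _).symm
    have h6 : hh_u (N + 6 + 7) 0 = hh_u (N + 7) 6 := by
      rw [hh_6]
      congr 1
      ring_nf
    have h4 : hh_u (N + 4 + 7) 0 = hh_u (N + 7) 4 := by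
      rw [hh_4]
      congr 1
      ring_nf
    have h2 : hh_u (N + 2 + 7) 0 = hh_u (N + 7) 2 := by
      rw [hh_2]
      congr 1
      ring_nf
    change hh_u (N + 8 + 7) 0 s = eO (hh_u (N + 7 + 7) 0) s + 490 * hh_u (N + 6 + 7) 0 (s - 1) +
      21609 * hh_u (N + 4 + 7) 0 (s - 2) + 235298 * hh_u (N + 2 + 7) 0 (s - 3) +
      823543 * hh_u (N + 7) 0 (s - 4)
    rw [h1, h7, h6, h4, h2]
    rfl
  · intro N s hN hN'
    have h0 : ∀ k : Fin 8, k ≠ 7 → hh_u 0 k s = 0 := by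
      intro k hk
      rw [hh_u_zero]
      unfold hh_v
      rw [if_neg (fun h => hk h.1)]
    obtain rfl | rfl | rfl | rfl | rfl | rfl | rfl :
        N = -7 ∨ N = -6 ∨ N = -5 ∨ N = -4 ∨ N = -3 ∨ N = -2 ∨ N = -1 := by omega
    · exact h0 0 (by decide)
    · have h := h0 1 (by decide)
      rw [hh_1] at h
      exact h
    · have h := h0 2 (by decide)
      rw [hh_2] at h
      exact h
    · have h := h0 3 (by decide)
      rw [hh_3] at h
      exact h
    · have h := h0 4 (by decide)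
      rw [hh_4] at h
      exact h
    · have h := h0 5 (by decide)
      rw [hh_5] at h
      exact h
    · have h := h0 6 (by decide)
      rw [hh_6] at h
      exact h
  · intro s
    rw [← hh_7, hh_u_zero]
    unfold hh_v
    by_cases hs : s = 0
    · rw [if_pos ⟨rfl, hs⟩, if_pos hs]
    · rw [if_neg (fun h => hs h.2), if_neg hs]

end GH.M7
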