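import Pool.Agent.GH.M7.Stm

/-!
# GH7-MAT, row J2: `H_N` is in the span
-/

open PowerSeries

noncomputable section

namespace GH.M7

open GH.D7 GH.CombU

namespace HSpan

theorem co_add (n : ℤ) (F G : PowerSeries ℚ) : co n (F + G) = co n F + co n G := by
  unfold co
  split_ifs <;> simp

theorem co_sub (n : ℤ) (F G : PowerSeries ℚ) : co n (F - G) = co n F - co n G := by
  unfold co
  split_ifs <;> simp

theorem co_C_mul (n : ℤ) (c : ℚ) (F : PowerSeries ℚ) : co n (C c * F) = c * co n F := by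
  unfold co
  split_ifs <;> simp

theorem co_X_pow_mul (n : ℤ) (k : ℕ) (F : PowerSeries ℚ) : co n (X ^ k * F) = co (n - k) F := by
  unfold co
  by_cases h1 : 0 ≤ n
  · rw [if_pos h1, coeff_X_pow_mul']
    by_cases h2 : k ≤ n.toNat
    · rw [if_pos h2, if_pos (by omega)]
      congr 1
      congr 1
      omega
    · rw [if_neg h2, if_neg (by omega)]
  · rw [if_neg h1, if_neg (by omega)]

theorem Wf_succ {n : ℤ} (hn : 0 ≤ n) (s : ℤ) : Wf (n + 1) s = eO (Wf n) s := by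
  unfold eO Wf
  simp only [if_pos hn, if_pos (show (0 : ℤ) ≤ n + 1 by omega)]
  have h1 : (n + 1).toNat = n.toNat + 1 := by omega
  have h2 : eG ℚ ^ (n.toNat + 1) = eG ℚ ^ n.toNat -
      C (490 : ℚ) * (X ^ 1 * eG ℚ ^ n.toNat) - C (21609 : ℚ) * (X ^ 2 * eG ℚ ^ n.toNat) -
      C (235298 : ℚ) * (X ^ 3 * eG ℚ ^ n.toNat) - C (823543 : ℚ) * (X ^ 4 * eG ℚ ^ n.toNat) := by
    rw [pow_succ]
    nth_rewrite 2 [eG]
    ring
  rw [h1, h2, co_sub, co_sub, co_sub, co_sub, co_C_mul, co_C_mul, co_C_mul, co_C_mul,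
    co_X_pow_mul, co_X_pow_mul, co_X_pow_mul, co_X_pow_mul]
  push_cast
  ring

theorem Sp_mono (N : ℤ) {K K' : ℤ} (h : K' ≤ K) : Sp N K ≤ Sp N K' := by
  refine Submodule.span_mono ?_
  rintro f ⟨k, h1, h2, rfl⟩
  exact ⟨k, h.trans h1, h2, rfl⟩

theorem Sp_gen {N K k : ℤ} (h1 : K ≤ k) (h2 : 2 * k ≤ N) :
    (fun s => Wf (N - 2 * k) (s - k)) ∈ Sp N K :=
  Submodule.subset_span ⟨k, h1, h2, rfl⟩

theorem Sp_shift {N K : ℤ} (m : ℤ) {f : ℤ → ℚ} (hf : f ∈ Sp N K) :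
    (fun s => f (s - m)) ∈ Sp (N + 2 * m) (K + m) := by
  have h : Sp N K ≤ (Sp (N + 2 * m) (K + m)).comap
      (LinearMap.funLeft ℚ ℚ (fun s : ℤ => s - m)) := by
    refine Submodule.span_le.2 ?_
    rintro f ⟨k, h1, h2, rfl⟩
    rw [SetLike.mem_coe, Submodule.mem_comap]
    have h3 := Sp_gen (N := N + 2 * m) (K := K + m) (k := k + m) (by omega) (by omega)
    refine (congrArg (fun F => F ∈ Sp (N + 2 * m) (K + m)) ?_).mp h3
    funext s
    show Wf (N + 2 * m - 2 * (k + m)) (s - (k + m)) = Wf (N - 2 * k) (s - m - k)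
    congr 1 <;> ring
  exact h hf

/-- multiplication by `e(g)` -/
def eOp : (ℤ → ℚ) →ₗ[ℚ] (ℤ → ℚ) := LinearMap.id -
  (490 : ℚ) • LinearMap.funLeft ℚ ℚ (fun s : ℤ => s - 1) -
  (21609 : ℚ) • LinearMap.funLeft ℚ ℚ (fun s : ℤ => s - 2) -
  (235298 : ℚ) • LinearMap.funLeft ℚ ℚ (fun s : ℤ => s - 3) -
  (823543 : ℚ) • LinearMap.funLeft ℚ ℚ (fun s : ℤ => s - 4)

theorem eOp_apply (f : ℤ → ℚ) (s : ℤ) : eOp f s = eO f s := rfl

theorem Sp_eO {N K : ℤ} {f : ℤ → ℚ} (hf : f ∈ Sp N K) : eO f ∈ Sp (N + 1) K := by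
  have h : Sp N K ≤ (Sp (N + 1) K).comap eOp := by
    refine Submodule.span_le.2 ?_
    rintro f ⟨k, h1, h2, rfl⟩
    rw [SetLike.mem_coe, Submodule.mem_comap]
    have h3 := Sp_gen (N := N + 1) (K := K) (k := k) h1 (by omega)
    refine (congrArg (fun F => F ∈ Sp (N + 1) K) ?_).mp h3
    funext s
    rw [eOp_apply]
    have h4 : N + 1 - 2 * k = N - 2 * k + 1 := by ring
    rw [h4, Wf_succ (by omega)]
    unfold eO
    have h5 : s - k - 1 = s - 1 - k := by ring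
    have h6 : s - k - 2 = s - 2 - k := by ring
    have h7 : s - k - 3 = s - 3 - k := by ring
    have h8 : s - k - 4 = s - 4 - k := by ring
    rw [h5, h6, h7, h8]
  exact h hf

variable {H : ℤ → ℤ → ℚ}

theorem up (hH : IsHH H) {N : ℤ} (hN : 1 ≤ N) (h1 : H (N - 1) ∈ Sp (N - 1) (kapH (N - 1)))
    (h2 : H (N - 2) ∈ Sp (N - 2) (kapH (N - 2)))
    (h4 : H (N - 4) ∈ Sp (N - 4) (kapH (N - 4)))
    (h6 : H (N - 6) ∈ Sp (N - 6) (kapH (N - 6)))
    (h8 : H (N - 8) ∈ Sp (N - 8) (kapH (N - 8))) : H N ∈ Sp N (kapH N) := by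
  have hrec : H N = eO (H (N - 1)) + (490 : ℚ) • (fun s => H (N - 2) (s - 1)) +
      (21609 : ℚ) • (fun s => H (N - 4) (s - 2)) + (235298 : ℚ) • (fun s => H (N - 6) (s - 3)) +
      (823543 : ℚ) • (fun s => H (N - 8) (s - 4)) := by
    funext s
    have h := hH.rc (N - 8) s
    have e1 : N - 8 + 8 = N := by ring
    have e2 : N - 8 + 7 = N - 1 := by ring
    have e3 : N - 8 + 6 = N - 2 := by ring
    have e4 : N - 8 + 4 = N - 4 := by ring
    have e5 : N - 8 + 2 = N - 6 := by ring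
    rw [e1, e2, e3, e4, e5] at h
    exact h
  rw [hrec]
  have hk : kapH N = 0 := if_pos (by omega)
  rw [hk]
  refine Submodule.add_mem _ (Submodule.add_mem _ (Submodule.add_mem _ (Submodule.add_mem _ ?_
    (Submodule.smul_mem _ _ ?_)) (Submodule.smul_mem _ _ ?_)) (Submodule.smul_mem _ _ ?_))
    (Submodule.smul_mem _ _ ?_)
  · have h := Sp_mono _ (show (0 : ℤ) ≤ kapH (N - 1) by unfold kapH; split_ifs <;> omega)
      (Sp_eO h1)
    rwa [sub_add_cancel] at h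
  · have h := Sp_mono _ (show (0 : ℤ) ≤ kapH (N - 2) + 1 by unfold kapH; split_ifs <;> omega)
      (Sp_shift 1 h2)
    have e4 : N - 2 + 2 * 1 = N := by ring
    rwa [e4] at h
  · have h := Sp_mono _ (show (0 : ℤ) ≤ kapH (N - 4) + 2 by unfold kapH; split_ifs <;> omega)
      (Sp_shift 2 h4)
    have e4 : N - 4 + 2 * 2 = N := by ring
    rwa [e4] at h
  · have h := Sp_mono _ (show (0 : ℤ) ≤ kapH (N - 6) + 3 by unfold kapH; split_ifs <;> omega)
      (Sp_shift 3 h6)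
    have e4 : N - 6 + 2 * 3 = N := by ring
    rwa [e4] at h
  · have h := Sp_mono _ (show (0 : ℤ) ≤ kapH (N - 8) + 4 by unfold kapH; split_ifs <;> omega)
      (Sp_shift 4 h8)
    have e4 : N - 8 + 2 * 4 = N := by ring
    rwa [e4] at h

theorem down (hH : IsHH H) {N : ℤ} (hN : N ≤ -8)
    (h8 : H (N + 8) ∈ Sp (N + 8) (kapH (N + 8)))
    (h7 : H (N + 7) ∈ Sp (N + 7) (kapH (N + 7)))
    (h6 : H (N + 6) ∈ Sp (N + 6) (kapH (N + 6)))
    (h4 : H (N + 4) ∈ Sp (N + 4) (kapH (N + 4)))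
    (h2 : H (N + 2) ∈ Sp (N + 2) (kapH (N + 2))) : H N ∈ Sp N (kapH N) := by
  have hV : H N = (1 / 823543 : ℚ) • ((fun s => H (N + 8) (s - (-4))) -
      (fun s => eO (H (N + 7)) (s - (-4))) - (490 : ℚ) • (fun s => H (N + 6) (s - (-3))) -
      (21609 : ℚ) • (fun s => H (N + 4) (s - (-2))) -
      (235298 : ℚ) • (fun s => H (N + 2) (s - (-1)))) := by
    funext s
    have h := hH.rc N (s + 4)
    have a1 : s + 4 - 1 = s + 3 := by ring
    have a2 : s + 4 - 2 = s + 2 := by ring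
    have a3 : s + 4 - 3 = s + 1 := by ring
    have a4 : s + 4 - 4 = s := by ring
    rw [a1, a2, a3, a4] at h
    simp only [Pi.smul_apply, Pi.sub_apply, smul_eq_mul, sub_neg_eq_add]
    linarith
  rw [hV]
  refine Submodule.smul_mem _ _ (Submodule.sub_mem _ (Submodule.sub_mem _ (Submodule.sub_mem _
    (Submodule.sub_mem _ ?_ ?_) (Submodule.smul_mem _ _ ?_)) (Submodule.smul_mem _ _ ?_))
    (Submodule.smul_mem _ _ ?_))
  · have h := Sp_mono _ (show kapH N ≤ kapH (N + 8) + (-4) by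
      unfold kapH; split_ifs <;> omega) (Sp_shift (-4) h8)
    have e4 : N + 8 + 2 * (-4) = N := by ring
    rwa [e4] at h
  · have h := Sp_mono _ (show kapH N ≤ kapH (N + 7) + (-4) by
      unfold kapH; split_ifs <;> omega) (Sp_shift (-4) (Sp_eO h7))
    have e4 : N + 7 + 1 + 2 * (-4) = N := by ring
    rwa [e4] at h
  · have h := Sp_mono _ (show kapH N ≤ kapH (N + 6) + (-3) by
      unfold kapH; split_ifs <;> omega) (Sp_shift (-3) h6)
    have e4 : N + 6 + 2 * (-3) = N := by ring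
    rwa [e4] at h
  · have h := Sp_mono _ (show kapH N ≤ kapH (N + 4) + (-2) by
      unfold kapH; split_ifs <;> omega) (Sp_shift (-2) h4)
    have e4 : N + 4 + 2 * (-2) = N := by ring
    rwa [e4] at h
  · have h := Sp_mono _ (show kapH N ≤ kapH (N + 2) + (-1) by
      unfold kapH; split_ifs <;> omega) (Sp_shift (-1) h2)
    have e4 : N + 2 + 2 * (-1) = N := by ring
    rwa [e4] at h

theorem Wf_zero (s : ℤ) : Wf 0 s = if s = 0 then 1 else 0 := by
  unfold Wf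
  rw [if_pos le_rfl]
  have h : eG ℚ ^ (0 : ℤ).toNat = 1 := by simp
  rw [h]
  unfold co
  by_cases h0 : 0 ≤ s
  · rw [if_pos h0, coeff_one]
    by_cases h1 : s = 0
    · rw [if_pos h1, if_pos (by omega)]
    · rw [if_neg h1, if_neg (by omega)]
  · rw [if_neg h0, if_neg (by omega)]

theorem base (hH : IsHH H) {N : ℤ} (h1 : -7 ≤ N) (h2 : N ≤ 0) : H N ∈ Sp N (kapH N) := by
  rcases lt_or_eq_of_le h2 with h | rfl
  · have h0 : H N = 0 := funext fun s => hH.zero N s h1 h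
    rw [h0]
    exact Submodule.zero_mem _
  · have h := Sp_gen (N := 0) (K := kapH 0) (k := 0) (by unfold kapH; norm_num) (by norm_num)
    refine (congrArg (fun F => F ∈ Sp 0 (kapH 0)) ?_).mp h
    funext s
    rw [mul_zero, sub_zero, sub_zero, Wf_zero, hH.one]

theorem mem_up (hH : IsHH H) (n : ℕ) : ∀ N : ℤ, -7 ≤ N → N ≤ n → H N ∈ Sp N (kapH N) := by
  induction n with
  | zero => exact fun N h1 h2 => base hH h1 (by simpa using h2)
  | succ n ih =>
    intro N h1 h2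
    by_cases h3 : N ≤ n
    · exact ih N h1 h3
    · refine up hH (by push_cast at h2; omega) (ih _ ?_ ?_) (ih _ ?_ ?_) (ih _ ?_ ?_)
        (ih _ ?_ ?_) (ih _ ?_ ?_) <;> push_cast at h2 <;> omega

theorem mem_down (hH : IsHH H) (n : ℕ) : ∀ N : ℤ, -7 - n ≤ N → N ≤ 0 →
    H N ∈ Sp N (kapH N) := by
  induction n with
  | zero => exact fun N h1 h2 => base hH (by simpa using h1) h2
  | succ n ih =>
    intro N h1 h2
    by_cases h3 : -7 - (n : ℤ) ≤ N
    · exact ih N h3 h2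
    · refine down hH (by push_cast at h1; omega) (ih _ ?_ ?_) (ih _ ?_ ?_) (ih _ ?_ ?_)
        (ih _ ?_ ?_) (ih _ ?_ ?_) <;> push_cast at h1 <;> omega

end HSpan

/-- **J2**: `H_N` is in the span. -/
theorem spHspan : SpHspan := by
  intro H hH N
  rcases le_total N 0 with h | h
  · exact HSpan.mem_down hH (-N).toNat N (by omega) h
  · exact HSpan.mem_up hH N.toNat N (by omega) (by omega)

end GH.M7
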