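import Pool.Agent.GH.M7.Stm

/-!
# GH7-L3: interpolation
-/

open PowerSeries

noncomputable section

namespace GH.M7

open GH.D7 GH.CombU

/-- The Newton polynomial. -/
def itpN (x : ℕ → ℤ_[7]) (r : ℕ) : Zy := ∏ s ∈ Finset.range r, (Polynomial.X - Polynomial.C (x s))

theorem itpN_succ (x : ℕ → ℤ_[7]) (r : ℕ) :
    itpN x (r + 1) = itpN x r * (Polynomial.X - Polynomial.C (x r)) := by
  unfold itpN
  rw [Finset.prod_range_succ]

theorem itpN_monic (x : ℕ → ℤ_[7]) (r : ℕ) : (itpN x r).Monic := by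
  induction r with
  | zero => simp [itpN]
  | succ r ih =>
    rw [itpN_succ]
    exact ih.mul (Polynomial.monic_X_sub_C _)

theorem itpN_natDegree (x : ℕ → ℤ_[7]) (r : ℕ) : (itpN x r).natDegree = r := by
  induction r with
  | zero => simp [itpN]
  | succ r ih =>
    rw [itpN_succ, (itpN_monic x r).natDegree_mul (Polynomial.monic_X_sub_C _), ih,
      Polynomial.natDegree_X_sub_C]

/-- The Newton expansion. -/
theorem itp_exp (x : ℕ → ℤ_[7]) (F : Zy) (R : ℕ) : ∃ (a : ℕ → ℤ_[7]) (Q : Zy),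
    F = ∑ r ∈ Finset.range R, Polynomial.C (a r) * itpN x r + itpN x R * Q := by
  induction R with
  | zero => exact ⟨fun _ ↦ 0, F, by simp [itpN]⟩
  | succ R ih =>
    obtain ⟨a, Q, h⟩ := ih
    refine ⟨fun r ↦ if r = R then Q.eval (x R) else a r,
      Q /ₘ (Polynomial.X - Polynomial.C (x R)), ?_⟩
    have h1 := Polynomial.modByMonic_add_div Q (Polynomial.X - Polynomial.C (x R))
    rw [Polynomial.modByMonic_X_sub_C_eq_C_eval] at h1
    have h2 : ∑ r ∈ Finset.range R, Polynomial.C (if r = R then Q.eval (x R) else a r) *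
        itpN x r = ∑ r ∈ Finset.range R, Polynomial.C (a r) * itpN x r := by
      refine Finset.sum_congr rfl fun r hr ↦ ?_
      rw [if_neg (by rw [Finset.mem_range] at hr; omega)]
    rw [Finset.sum_range_succ, h2, itpN_succ]
    simp only [if_true]
    conv_lhs => rw [h, ← h1]
    ring

theorem itpN_eval (x0 r s : ℕ) :
    (itpN (fun t ↦ ((x0 + 4 * t : ℕ) : ℤ_[7])) r).eval ((x0 + 4 * s : ℕ) : ℤ_[7]) =
      (4 ^ r * s.descFactorial r : ℕ) := by
  induction r with
  | zero => simp [itpN]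
  | succ r ih =>
    rw [itpN_succ, Polynomial.eval_mul, ih, Polynomial.eval_sub, Polynomial.eval_X,
      Polynomial.eval_C, Nat.descFactorial_succ]
    rcases le_or_gt r s with h | h
    · push_cast [Nat.cast_sub h]
      ring
    · rw [Nat.descFactorial_eq_zero_iff_lt.2 h]
      simp

theorem itp_dvd_iff (a : ℤ_[7]) (n : ℕ) :
    (7 : ℤ_[7]) ^ n ∣ a ↔ ‖a‖ ≤ (7 : ℝ)⁻¹ ^ n := by
  have h := PadicInt.norm_le_pow_iff_mem_span_pow a n
  rw [Ideal.mem_span_singleton] at h
  have e : ((7 : ℕ) : ℝ) ^ (-(n : ℤ)) = (7 : ℝ)⁻¹ ^ n := by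
    rw [zpow_neg, zpow_natCast, inv_pow]
    norm_num
  rw [e] at h
  exact_mod_cast h.symm

theorem itp_cancel {m c W : ℕ} {a : ℤ_[7]} (hm : m ≠ 0) (hW : padicValNat 7 m ≤ W)
    (h : (7 : ℤ_[7]) ^ (c + W) ∣ (m : ℤ_[7]) * a) : (7 : ℤ_[7]) ^ c ∣ a := by
  rw [itp_dvd_iff] at h ⊢
  have h1 : ‖(m : ℤ_[7])‖ = (7 : ℝ)⁻¹ ^ padicValNat 7 m := by
    have h0 : (m : ℚ_[7]) ≠ 0 := by exact_mod_cast hm
    rw [PadicInt.norm_def, PadicInt.coe_natCast, Padic.norm_eq_zpow_neg_valuation h0,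
      Padic.valuation_natCast, zpow_neg, zpow_natCast, inv_pow]
    norm_num
  rw [norm_mul, h1] at h
  have h2 : (7 : ℝ)⁻¹ ^ W ≤ (7 : ℝ)⁻¹ ^ padicValNat 7 m :=
    pow_le_pow_of_le_one (by norm_num) (by norm_num) hW
  have h3 : (7 : ℝ)⁻¹ ^ padicValNat 7 m * ‖a‖ ≤ (7 : ℝ)⁻¹ ^ padicValNat 7 m * (7 : ℝ)⁻¹ ^ c := by
    refine h.trans ?_
    rw [pow_add, mul_comm]
    exact mul_le_mul_of_nonneg_right h2 (by positivity)
  exact le_of_mul_le_mul_left h3 (by positivity)

theorem spItp : SpItp := by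
  intro g G c W R x0 hg hcR hW hGg hG
  obtain ⟨x, hx⟩ : ∃ x : ℕ → ℤ_[7], x = fun t ↦ ((x0 + 4 * t : ℕ) : ℤ_[7]) := ⟨_, rfl⟩
  obtain ⟨a, Q, hQ⟩ := itp_exp x G R
  -- the values at the nodes
  have hval : ∀ s < R, G.eval (x s) =
      ∑ r ∈ Finset.range (s + 1), ((4 ^ r * s.descFactorial r : ℕ) : ℤ_[7]) * a r := by
    intro s hs
    have e1 : ∀ r, (itpN x r).eval (x s) = ((4 ^ r * s.descFactorial r : ℕ) : ℤ_[7]) := by
      intro r
      rw [hx]
      exact itpN_eval x0 r s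
    conv_lhs => rw [hQ]
    rw [Polynomial.eval_add, Polynomial.eval_mul, e1 R, Nat.descFactorial_eq_zero_iff_lt.2 hs,
      Polynomial.eval_finsetSum]
    simp only [mul_zero, Nat.cast_zero, zero_mul, add_zero, Polynomial.eval_mul,
      Polynomial.eval_C, e1]
    rw [← Finset.sum_subset (Finset.range_mono (by omega : s + 1 ≤ R))]
    · exact Finset.sum_congr rfl fun r _ ↦ mul_comm _ _
    · intro r _ hr
      rw [Finset.mem_range, not_lt] at hr
      rw [Nat.descFactorial_eq_zero_iff_lt.2 (by omega)]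
      simp
  have hb : ∀ s < R, (7 : ℤ_[7]) ^ (c + W) ∣ ((4 ^ s * s.factorial : ℕ) : ℤ_[7]) * a s := by
    intro s
    induction s using Nat.strong_induction_on with
    | _ s ih =>
      intro hs
      have h1 := hval s hs
      rw [Finset.sum_range_succ, Nat.descFactorial_self] at h1
      have h2 := hG s hs
      have h3 : G.eval ((x0 + 4 * s : ℕ) : ℤ_[7]) = G.eval (x s) := by rw [hx]
      rw [h3, h1] at h2
      refine (dvd_add_right ?_).1 h2
      refine Finset.dvd_sum fun r hr ↦ ?_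
      rw [Finset.mem_range] at hr
      have h4 := ih r hr (by omega)
      have h5 : ((4 ^ r * s.descFactorial r : ℕ) : ℤ_[7]) * a r =
          (((4 ^ r * r.factorial : ℕ) : ℤ_[7]) * a r) * ((s.choose r : ℕ) : ℤ_[7]) := by
        rw [Nat.descFactorial_eq_factorial_mul_choose]
        push_cast
        ring
      rw [h5]
      exact Dvd.dvd.mul_right h4 _
  have ha : ∀ s < R, (7 : ℤ_[7]) ^ c ∣ a s := by
    intro s hs
    refine itp_cancel (m := 4 ^ s * s.factorial) (by positivity) ?_ (hb s hs)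
    rw [padicValNat.mul (by positivity) (by positivity)]
    have h1 : padicValNat 7 (4 ^ s) = 0 := by
      refine padicValNat.eq_zero_of_not_dvd fun h ↦ ?_
      have h2 := Nat.Prime.dvd_of_dvd_pow (by norm_num : Nat.Prime 7) h
      omega
    rw [h1, zero_add]
    exact hW s hs
  -- reduction modulo `7^c`
  obtain ⟨H, hH⟩ := hGg
  set I : Ideal ℤ_[7] := Ideal.span {(7 : ℤ_[7]) ^ c} with hI
  set φ : ℤ_[7] →+* ℤ_[7] ⧸ I := Ideal.Quotient.mk I with hφ
  have hφ0 : ∀ z : ℤ_[7], φ z = 0 ↔ (7 : ℤ_[7]) ^ c ∣ z := by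
    intro z
    rw [hφ, Ideal.Quotient.eq_zero_iff_mem, hI, Ideal.mem_span_singleton]
  have hmap : ∀ F : Zy, F.map φ = 0 ↔ Polynomial.C ((7 : ℤ_[7]) ^ c) ∣ F := by
    intro F
    rw [Polynomial.C_dvd_iff_dvd_coeff]
    constructor
    · intro h k
      rw [← hφ0, ← Polynomial.coeff_map, h, Polynomial.coeff_zero]
    · intro h
      ext k
      rw [Polynomial.coeff_map, Polynomial.coeff_zero, hφ0]
      exact h k
  have hgm : g.map φ = (itpN x R).map φ * Q.map φ := by
    have h1 : g = ∑ r ∈ Finset.range R, Polynomial.C (a r) * itpN x r + itpN x R * Q -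
        Polynomial.C ((7 : ℤ_[7]) ^ c) * H := by
      rw [← hQ]
      linear_combination (-1 : Zy) * hH
    have h2 : ∀ r ∈ Finset.range R, (Polynomial.C (a r) * itpN x r).map φ = 0 := by
      intro r hr
      rw [hmap]
      refine Dvd.dvd.mul_right ?_ _
      obtain ⟨b, hb'⟩ := ha r (Finset.mem_range.1 hr)
      exact ⟨Polynomial.C b, by rw [hb', Polynomial.C_mul]⟩
    have h3 : (Polynomial.C ((7 : ℤ_[7]) ^ c) * H).map φ = 0 := by
      rw [hmap]
      exact Dvd.intro _ rfl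
    conv_lhs => rw [h1]
    rw [Polynomial.map_sub, h3, sub_zero, Polynomial.map_add, Polynomial.map_sum,
      Finset.sum_eq_zero h2, zero_add, Polynomial.map_mul]
  rw [← hmap]
  by_contra hne
  have hQ0 : Q.map φ ≠ 0 := by
    intro h
    rw [h, mul_zero] at hgm
    exact hne hgm
  have hm : ((itpN x R).map φ).Monic := (itpN_monic x R).map φ
  have hnt : Nontrivial (ℤ_[7] ⧸ I) := by
    by_contra hnt
    rw [not_nontrivial_iff_subsingleton] at hnt
    exact hQ0 (Subsingleton.elim _ _)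
  have hdeg : (g.map φ).natDegree = R + (Q.map φ).natDegree := by
    rw [hgm, hm.natDegree_mul' hQ0, (itpN_monic x R).natDegree_map, itpN_natDegree]
  have hlt : (g.map φ).coeff (g.map φ).natDegree = 0 := by
    rw [Polynomial.coeff_map, hφ0]
    refine (pow_dvd_pow _ ?_).trans (hg _)
    omega
  exact hne (Polynomial.leadingCoeff_eq_zero.1 hlt)

end GH.M7
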