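import Pool.Agent.GH.M7.Stm

/-!
# GH7-MAT, row J7: the decomposition at the centre
-/

open PowerSeries

noncomputable section

namespace GH.M7

open GH.D7 GH.CombU

/-! ### Coefficients with integer index -/

theorem j_co_neg {n : ℤ} (h : n < 0) (F : PowerSeries ℚ) : co n F = 0 := if_neg (by omega)

theorem j_co_nat (n : ℕ) (F : PowerSeries ℚ) : co n F = coeff n F := by
  unfold co
  rw [if_pos (by omega), Int.toNat_natCast]

theorem j_co_add (n : ℤ) (F G : PowerSeries ℚ) : co n (F + G) = co n F + co n G := by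
  unfold co
  split_ifs <;> simp

theorem j_co_C_mul (n : ℤ) (c : ℚ) (F : PowerSeries ℚ) : co n (C c * F) = c * co n F := by
  unfold co
  split_ifs <;> simp

theorem j_co_X_pow_mul (n : ℤ) (k : ℕ) (F : PowerSeries ℚ) :
    co n (X ^ k * F) = co (n - k) F := by
  unfold co
  by_cases h1 : 0 ≤ n
  · rw [if_pos h1, coeff_X_pow_mul']
    by_cases h2 : k ≤ n.toNat
    · rw [if_pos h2, if_pos (by omega)]
      congr 1
      congr 1
      omega
    · rw [if_neg h2, if_neg (by omega)]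
  · rw [if_neg h1, if_neg (by omega)]

theorem j_pO_co (F : PowerSeries ℚ) (s : ℤ) :
    pO (fun s => co s F) s = co s (psG ℚ * F) := by
  have h : psG ℚ * F = F + C (245 : ℚ) * (X ^ 1 * F) + C (2401 : ℚ) * (X ^ 2 * F) := by
    unfold psG
    ring
  rw [h, j_co_add, j_co_add, j_co_C_mul, j_co_C_mul, j_co_X_pow_mul, j_co_X_pow_mul]
  unfold pO
  push_cast
  ring

theorem j_S_Si : S7 ℚ * Si ℚ = 1 := by
  refine PowerSeries.mul_invOfUnit _ _ ?_
  rw [constantCoeff_S7, Units.val_one]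

theorem j_Sz (a b : ℕ) : Sz ((a : ℤ) - b) = S7 ℚ ^ a * Si ℚ ^ b := by
  unfold Sz
  split_ifs with h
  · have hab : b ≤ a := by omega
    have h1 : ((a : ℤ) - b).toNat = a - b := by omega
    rw [h1]
    calc S7 ℚ ^ (a - b) = S7 ℚ ^ (a - b) * (S7 ℚ * Si ℚ) ^ b := by rw [j_S_Si, one_pow, mul_one]
      _ = S7 ℚ ^ (a - b + b) * Si ℚ ^ b := by rw [mul_pow, pow_add]; ring
      _ = _ := by rw [Nat.sub_add_cancel hab]
  · have hab : a ≤ b := by omega
    have h1 : (-((a : ℤ) - b)).toNat = b - a := by omega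
    rw [h1]
    calc Si ℚ ^ (b - a) = Si ℚ ^ (b - a) * (S7 ℚ * Si ℚ) ^ a := by rw [j_S_Si, one_pow, mul_one]
      _ = S7 ℚ ^ a * Si ℚ ^ (b - a + a) := by rw [mul_pow, pow_add]; ring
      _ = _ := by rw [Nat.sub_add_cancel hab]

/-! ### The matrix and the functions `V` -/

theorem j_MQ {e z i j i2 : ℕ} (hi2 : j + i2 = cen e z) :
    MQ e z i j = kap e z j * (VV e ((z : ℤ) - 2 * i2) ((i : ℤ) - i2) -
      if i = i2 then 1 else 0) := by
  have h7 : (-7 : ℚ) ≠ 0 := by norm_num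
  have hc : (cen e z : ℤ) = 4 * z + if e = 2 then 2 else 0 := by
    unfold cen
    split_ifs <;> push_cast <;> ring
  have hi2' : (j : ℤ) + i2 = cen e z := by exact_mod_cast hi2
  unfold VV
  have h1 : (if (i : ℤ) - i2 = 0 then (1 : ℚ) else 0) = if i = i2 then 1 else 0 := by
    by_cases h : i = i2
    · rw [if_pos h, if_pos (by omega)]
    · rw [if_neg h, if_neg (by omega)]
  rw [h1, add_sub_cancel_left]
  have h2 : kap e z j * ((if e = 1 then -1 else 7) * (-7 : ℚ) ^ ((z : ℤ) - 2 * i2)) = 1 := by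
    unfold kap
    have h3 : 2 * ((cen e z : ℤ) - j) - z = -((z : ℤ) - 2 * i2) := by omega
    rw [h3, zpow_neg]
    have h4 : (-7 : ℚ) ^ ((z : ℤ) - 2 * i2) ≠ 0 := zpow_ne_zero _ h7
    split_ifs <;> field_simp <;> norm_num
  rw [← mul_assoc, h2, one_mul]
  have h5 : 7 * ((i : ℤ) - i2) - 4 * ((z : ℤ) - 2 * i2) - (if e = 2 then 2 else 0) =
      7 * (i : ℤ) - j := by
    omega
  have h6 : 2 * ((i : ℤ) - i2) - ((z : ℤ) - 2 * i2) - sh7 e =
      ((2 * i : ℕ) : ℤ) - ((z + sh7 e : ℕ) : ℤ) := by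
    push_cast
    ring
  rw [h5, h6, j_Sz]
  unfold MQ
  split_ifs with h
  · have h8 : 7 * (i : ℤ) - j = ((7 * i - j : ℕ) : ℤ) := by omega
    rw [h8, j_co_nat]
    congr 1
    ring
  · rw [j_co_neg (by omega)]

/-! ### The operators as linear maps -/

/-- Multiplication by `ψ(g)`. -/
def jP : (ℤ → ℚ) →ₗ[ℚ] (ℤ → ℚ) where
  toFun f := pO f
  map_add' f g := by
    funext s
    simp only [pO, Pi.add_apply]
    ring
  map_smul' c f := by
    funext s
    simp only [pO, Pi.smul_apply, smul_eq_mul, RingHom.id_apply]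
    ring

/-- Multiplication by `g^c`. -/
def jS (c : ℕ) : (ℤ → ℚ) →ₗ[ℚ] (ℤ → ℚ) where
  toFun f := fun s => f (s - c)
  map_add' f g := rfl
  map_smul' c f := rfl

/-- The functions which are combinations of the `x_l`. -/
def jW (e z i2 : ℕ) : Submodule ℚ (ℤ → ℚ) where
  carrier := {f | ∃ y : ℕ → ℚ, ∀ i : ℕ, 1 ≤ i →
    f ((i : ℤ) - i2) = ∑ l ∈ Finset.Icc 1 (tz e z), coeff i (xG e z l) * y l}
  zero_mem' := ⟨0, fun i _ => by simp⟩
  add_mem' := by
    rintro f g ⟨y, hy⟩ ⟨y', hy'⟩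
    refine ⟨y + y', fun i hi => ?_⟩
    rw [Pi.add_apply, hy i hi, hy' i hi, ← Finset.sum_add_distrib]
    refine Finset.sum_congr rfl fun l _ => ?_
    rw [Pi.add_apply]
    ring
  smul_mem' := by
    rintro c f ⟨y, hy⟩
    refine ⟨c • y, fun i hi => ?_⟩
    rw [Pi.smul_apply, hy i hi, smul_eq_mul, Finset.mul_sum]
    refine Finset.sum_congr rfl fun l _ => ?_
    rw [Pi.smul_apply, smul_eq_mul]
    ring

theorem jP_pow_co (k : ℕ) (F : PowerSeries ℚ) :
    (jP ^ k) (fun s => co s F) = fun s => co s (psG ℚ ^ k * F) := by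
  induction k with
  | zero => simp
  | succ k ih =>
    rw [pow_succ', Module.End.mul_apply, ih]
    funext s
    change pO (fun s => co s (psG ℚ ^ k * F)) s = _
    rw [j_pO_co, pow_succ', mul_assoc]

theorem jP_shift (k : ℕ) (f : ℤ → ℚ) (c : ℤ) :
    (jP ^ k) (fun s => f (s - c)) = fun s => (jP ^ k) f (s - c) := by
  induction k with
  | zero => simp
  | succ k ih =>
    rw [pow_succ', Module.End.mul_apply, ih, Module.End.mul_apply]
    funext s
    change pO (fun s => (jP ^ k) f (s - c)) s = pO ((jP ^ k) f) (s - c)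
    unfold pO
    simp only
    have h1 : s - 1 - c = s - c - 1 := by ring
    have h2 : s - 2 - c = s - c - 2 := by ring
    rw [h1, h2]

/-- The generators. -/
theorem j_gen {e z i2 : ℕ} {n l : ℤ} (hl : 1 ≤ l) (ht : l ≤ tz e z)
    (hn : n = (z : ℤ) + sh7 e - 1 - 2 * l) (hn0 : 0 ≤ n) :
    (jP ^ (2 - ey7 e)) (fun s => Wf n (s - (l - i2))) ∈ jW e z i2 := by
  obtain ⟨L, rfl⟩ := Int.eq_ofNat_of_zero_le (show 0 ≤ l by omega)
  have hL : 1 ≤ L ∧ L ≤ tz e z := by omega
  refine ⟨fun l' => if l' = L then 1 else 0, fun i hi => ?_⟩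
  rw [Finset.sum_eq_single L (fun l' _ h => by simp only [if_neg h, mul_zero])
    (fun h => absurd (Finset.mem_Icc.mpr hL) h)]
  simp only [if_true, mul_one]
  have h1 : (fun s => Wf n s) = fun s => co s (eG ℚ ^ n.toNat) := by
    funext s
    unfold Wf
    rw [if_pos hn0]
  rw [jP_shift _ (fun s => Wf n s), h1, jP_pow_co]
  change co _ _ = _
  have h2 : (i : ℤ) - i2 - ((L : ℤ) - i2) = (i : ℤ) - (L : ℕ) := by ring
  rw [h2, ← j_co_X_pow_mul, j_co_nat]
  unfold xG
  have h3 : n.toNat = z + sh7 e - 1 - 2 * L := by omega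
  rw [h3]
  congr 1
  ring

/-- The span. -/
theorem j_span {e z i2 : ℕ} {c : ℕ} {N' : ℤ} {H : ℤ → ℚ} (hH : H ∈ Sp N' (kapH N'))
    (hN : N' = (z : ℤ) + sh7 e - 1 - 2 * i2 - 2 * c) (hlow : ∀ k, kapH N' ≤ k → 1 ≤ k + c + i2) :
    (jP ^ (2 - ey7 e)) (fun s => H (s - c)) ∈ jW e z i2 := by
  have h1 : Sp N' (kapH N') ≤ (jW e z i2).comap ((jP ^ (2 - ey7 e)) ∘ₗ jS c) := by
    unfold Sp
    rw [Submodule.span_le]
    rintro f ⟨k, hk, hk2, rfl⟩
    change (jP ^ (2 - ey7 e)) (fun s => Wf (N' - 2 * k) (s - c - k)) ∈ jW e z i2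
    have h2 : (fun s : ℤ => Wf (N' - 2 * k) (s - c - k)) =
        fun s : ℤ => Wf (N' - 2 * k) (s - ((k + c + i2) - i2)) := by
      funext s
      congr 1
      ring
    rw [h2]
    refine j_gen (hlow k hk) ?_ (by rw [hN]; ring) (by omega)
    unfold tz
    unfold sh7 at hN
    split_ifs at hN ⊢ <;> omega
  exact h1 hH

theorem j_mem (h0 : SpHH) (h1 : SpHspan) (h2 : SpV1) (h3 : SpV20) {e z i2 : ℕ} (he : e ≤ 2)
    (hi1 : 1 ≤ i2) (hi2 : i2 < cen e z) :
    (fun s => VV e ((z : ℤ) - 2 * i2) s) ∈ jW e z i2 := by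
  obtain ⟨H, hH⟩ := h0
  have hS := h1 H hH
  have he3 : e = 0 ∨ e = 1 ∨ e = 2 := by omega
  rcases he3 with rfl | rfl | rfl
  · have e1 : (fun s => VV 0 ((z : ℤ) - 2 * i2) s) =
        (fun s => H ((z : ℤ) - 2 * i2) (s - ((0 : ℕ) : ℤ))) +
        (490 : ℚ) • (fun s => H ((z : ℤ) - 2 * i2 - 2) (s - ((1 : ℕ) : ℤ))) +
        (64827 : ℚ) • (fun s => H ((z : ℤ) - 2 * i2 - 4) (s - ((2 : ℕ) : ℤ))) +
        (1176490 : ℚ) • (fun s => H ((z : ℤ) - 2 * i2 - 6) (s - ((3 : ℕ) : ℤ))) +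
        (5764801 : ℚ) • (fun s => H ((z : ℤ) - 2 * i2 - 8) (s - ((4 : ℕ) : ℤ))) := by
      funext s
      rw [(h3 H hH _ s).2]
      simp only [Pi.add_apply, Pi.smul_apply, smul_eq_mul]
      push_cast
      rw [sub_zero]
    rw [e1]
    have hc : i2 < 4 * z := by
      simp only [cen] at hi2
      norm_num at hi2
      exact hi2
    have key : ∀ c : ℕ, c ≤ 4 → (fun s => H ((z : ℤ) - 2 * i2 - 2 * c) (s - (c : ℤ))) ∈
        jW 0 z i2 := by
      intro c hc4
      have := j_span (e := 0) (z := z) (i2 := i2) (c := c) (hS ((z : ℤ) - 2 * i2 - 2 * c))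
        (by simp [sh7]) (by
          intro k hk
          unfold kapH at hk
          split_ifs at hk <;> omega)
      simpa [ey7] using this
    have k0 := key 0 (by norm_num)
    have k1 := key 1 (by norm_num)
    have k2 := key 2 (by norm_num)
    have k3 := key 3 (by norm_num)
    have k4 := key 4 (by norm_num)
    norm_num at k0 k1 k2 k3 k4
    have := Submodule.add_mem _ (Submodule.add_mem _ (Submodule.add_mem _
      (Submodule.add_mem _ k0 (Submodule.smul_mem _ (490 : ℚ) k1))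
      (Submodule.smul_mem _ (64827 : ℚ) k2)) (Submodule.smul_mem _ (1176490 : ℚ) k3))
      (Submodule.smul_mem _ (5764801 : ℚ) k4)
    norm_num
    exact this
  · have e1 : (fun s => VV 1 ((z : ℤ) - 2 * i2) s) =
        (jP ^ 2) (fun s => H ((z : ℤ) - 2 * i2 - 1) (s - ((0 : ℕ) : ℤ))) := by
      funext s
      rw [h2 H hH _ s, pow_two, Module.End.mul_apply]
      simp only [Nat.cast_zero, sub_zero]
      rfl
    rw [e1]
    have hc : i2 < 4 * z := by
      simp only [cen] at hi2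
      norm_num at hi2
      exact hi2
    exact j_span (e := 1) (z := z) (i2 := i2) (c := 0) (hS ((z : ℤ) - 2 * i2 - 1))
        (by simp [sh7]; ring) (by
          intro k hk
          unfold kapH at hk
          split_ifs at hk <;> omega)
  · have e1 : (fun s => VV 2 ((z : ℤ) - 2 * i2) s) =
        (jP ^ 1) (fun s => H ((z : ℤ) - 2 * i2) (s - ((0 : ℕ) : ℤ))) +
        (245 : ℚ) • (jP ^ 1) (fun s => H ((z : ℤ) - 2 * i2 - 2) (s - ((1 : ℕ) : ℤ))) +
        (2401 : ℚ) • (jP ^ 1) (fun s => H ((z : ℤ) - 2 * i2 - 4) (s - ((2 : ℕ) : ℤ))) := by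
      rw [← map_smul, ← map_smul, ← map_add, ← map_add, pow_one]
      funext s
      rw [(h3 H hH _ s).1]
      simp only [Nat.cast_zero, sub_zero]
      rfl
    rw [e1]
    have hc : i2 < 4 * z + 2 := by
      simp only [cen] at hi2
      norm_num at hi2
      exact hi2
    have key : ∀ c : ℕ, c ≤ 2 → (jP ^ 1) (fun s => H ((z : ℤ) - 2 * i2 - 2 * c) (s - (c : ℤ))) ∈
        jW 2 z i2 := by
      intro c hc4
      exact j_span (e := 2) (z := z) (i2 := i2) (c := c) (hS ((z : ℤ) - 2 * i2 - 2 * c))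
        (by simp [sh7]) (by
          intro k hk
          unfold kapH at hk
          split_ifs at hk <;> omega)
    have k0 := key 0 (by norm_num)
    have k1 := key 1 (by norm_num)
    have k2 := key 2 (by norm_num)
    norm_num at k0 k1 k2
    have := Submodule.add_mem _ (Submodule.add_mem _ k0 (Submodule.smul_mem _ (245 : ℚ) k1))
      (Submodule.smul_mem _ (2401 : ℚ) k2)
    norm_num
    exact this

/-- Row J7. -/
theorem spJ (h0 : SpHH) (h1 : SpHspan) (h2 : SpV1) (h3 : SpV20) : SpJ := by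
  intro e z he
  have key : ∀ j : ℕ, ∃ y : ℕ → ℚ, 1 ≤ j → j < cen e z → ∀ i : ℕ, 1 ≤ i →
      MQ e z i j = ∑ l ∈ Finset.Icc 1 (tz e z), coeff i (xG e z l) * y l -
        if i + j = cen e z then kap e z j else 0 := by
    intro j
    by_cases hj : 1 ≤ j ∧ j < cen e z
    · obtain ⟨y, hy⟩ := j_mem h0 h1 h2 h3 (e := e) (z := z) (i2 := cen e z - j) he (by omega)
        (by omega)
      refine ⟨fun l => kap e z j * y l, fun _ _ i hi => ?_⟩
      rw [j_MQ (e := e) (z := z) (i2 := cen e z - j) (by omega)]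
      have h5 := hy i hi
      simp only at h5
      rw [h5, mul_sub, Finset.mul_sum]
      congr 1
      · refine Finset.sum_congr rfl fun l _ => ?_
        ring
      · by_cases h : i = cen e z - j
        · rw [if_pos h, if_pos (by omega), mul_one]
        · rw [if_neg h, if_neg (by omega), mul_zero]
    · exact ⟨0, fun h h' => absurd ⟨h, h'⟩ hj⟩
  choose y hy using key
  exact ⟨fun l j => y j l, fun i j hi hj hjm => hy j hj hjm i hi⟩

end GH.M7
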