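import Pool.Agent.GH.M7.Stm

/-!
# GH7-L2: the key divisibility
-/

open PowerSeries

noncomputable section

namespace GH.M7

open GH.D7 GH.CombU

private theorem ky_norm_kap (e z j : ℕ) :
    ‖((kap e z j : ℚ) : ℚ_[7])‖ =
      (7 : ℝ) ^ (-(2 * ((cen e z : ℤ) - j) - z - (if e = 1 then 0 else 1))) := by
  have h7 : ‖(7 : ℚ_[7])‖ = (7 : ℝ)⁻¹ := by
    have := Padic.norm_p (p := 7)
    simpa using this
  have h7' : ‖(-7 : ℚ_[7])‖ = (7 : ℝ)⁻¹ := by rw [norm_neg, h7]
  unfold kap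
  split_ifs with h
  · push_cast
    rw [norm_mul, norm_neg, norm_one, one_mul, norm_zpow, h7', inv_zpow', sub_zero]
  · push_cast
    rw [norm_mul, norm_div, norm_one, h7, norm_zpow, h7', inv_zpow']
    rw [one_div, inv_inv]
    have : (7 : ℝ) * 7 ^ (-(2 * ((cen e z : ℤ) - j) - z)) =
        7 ^ (1 + -(2 * ((cen e z : ℤ) - j) - z)) := by
      rw [zpow_add₀ (by norm_num), zpow_one]
    rw [this]
    congr 1
    ring

/-- L2: the key divisibility. -/
theorem spKey (h1 : SpJ) (h2 : SpVal) (h3 : SpTT) : SpKey := by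
  intro e z i j he hi hj
  obtain ⟨-, hdiv, hker⟩ := h3 e he
  obtain ⟨y, hy⟩ := h1 e z he
  have hval : (((PX e i j).eval (cen e z : ℤ_[7]) : ℤ_[7]) : ℚ_[7]) =
      ∑ k ∈ Finset.range (i + 1), (((TT e i k).eval (cen e z : ℤ_[7]) : ℤ_[7]) : ℚ_[7]) *
        (((PM e k j).eval (cen e z : ℤ_[7]) : ℤ_[7]) : ℚ_[7]) := by
    rw [PX, Polynomial.eval_finsetSum, PadicInt.coe_sum]
    refine Finset.sum_congr rfl fun k _ => ?_
    rw [Polynomial.eval_mul, PadicInt.coe_mul]
  have hPM : ∀ k, (((PM e k j).eval (cen e z : ℤ_[7]) : ℤ_[7]) : ℚ_[7]) =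
      ∑ l ∈ Finset.Icc 1 (tz e z),
        ((coeff (k + 1) (xG e z l) : ℚ) : ℚ_[7]) * ((y l (j + 1) : ℚ) : ℚ_[7]) -
        (if k = cen e z - (j + 2) then ((kap e z (j + 1) : ℚ) : ℚ_[7]) else 0) := by
    intro k
    rw [h2 e z k j he, hy (k + 1) (j + 1) (by omega) (by omega) hj]
    by_cases hk : k = cen e z - (j + 2)
    · rw [if_pos hk, if_pos (by omega)]
      push_cast
      rfl
    · rw [if_neg hk, if_neg (by omega)]
      push_cast
      rfl
  have hX : (((PX e i j).eval (cen e z : ℤ_[7]) : ℤ_[7]) : ℚ_[7]) =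
      -(if cen e z - (j + 2) ≤ i then
        (((TT e i (cen e z - (j + 2))).eval (cen e z : ℤ_[7]) : ℤ_[7]) : ℚ_[7]) *
          ((kap e z (j + 1) : ℚ) : ℚ_[7]) else 0) := by
    rw [hval]
    simp only [hPM, mul_sub, Finset.sum_sub_distrib, Finset.mul_sum]
    rw [Finset.sum_comm]
    have h0 : ∑ l ∈ Finset.Icc 1 (tz e z), ∑ k ∈ Finset.range (i + 1),
        (((TT e i k).eval (cen e z : ℤ_[7]) : ℤ_[7]) : ℚ_[7]) *
          (((coeff (k + 1) (xG e z l) : ℚ) : ℚ_[7]) * ((y l (j + 1) : ℚ) : ℚ_[7])) = 0 := by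
      refine Finset.sum_eq_zero fun l hl => ?_
      rw [Finset.mem_Icc] at hl
      have := hker z i l hi hl.1 hl.2
      simp only [← mul_assoc]
      rw [← Finset.sum_mul, this, zero_mul]
    rw [h0, zero_sub]
    congr 1
    simp only [mul_ite, mul_zero, Finset.sum_ite_eq', Finset.mem_range, Nat.lt_succ_iff]
  have hn : ‖(7 : ℤ_[7]) ^ j * (PX e i j).eval (cen e z : ℤ_[7])‖ ≤
      (7 : ℝ) ^ (-((lam e z + i : ℕ) : ℤ)) := by
    rw [norm_mul, norm_pow]
    have h7 : ‖(7 : ℤ_[7])‖ = (7 : ℝ)⁻¹ := by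
      have := PadicInt.norm_p (p := 7)
      simpa using this
    rw [h7, PadicInt.norm_def (z := (PX e i j).eval (cen e z : ℤ_[7])), hX, norm_neg]
    split_ifs with hk
    · rw [norm_mul, ← PadicInt.norm_def, ky_norm_kap]
      have hT : ‖(TT e i (cen e z - (j + 2))).eval (cen e z : ℤ_[7])‖ ≤
          (7 : ℝ) ^ (-((i - (cen e z - (j + 2)) : ℕ) : ℤ)) := by
        obtain ⟨q, hq⟩ := hdiv i (cen e z - (j + 2))
        rw [hq, Polynomial.eval_mul, Polynomial.eval_C, norm_mul, norm_pow, h7]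
        have hq1 := PadicInt.norm_le_one (q.eval (cen e z : ℤ_[7]))
        rw [zpow_neg, zpow_natCast, inv_pow]
        exact mul_le_of_le_one_right (by positivity) hq1
      have hpos : (0 : ℝ) ≤ 7⁻¹ ^ j := by positivity
      have hpos2 : (0 : ℝ) ≤ 7 ^ (-(2 * ((cen e z : ℤ) - ((j + 1 : ℕ) : ℤ)) - z -
          (if e = 1 then 0 else 1))) := by positivity
      refine le_trans (mul_le_mul_of_nonneg_left (mul_le_mul_of_nonneg_right hT hpos2) hpos) ?_
      have hj7 : (7⁻¹ : ℝ) ^ j = 7 ^ (-(j : ℤ)) := by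
        rw [zpow_neg, zpow_natCast, inv_pow]
      rw [hj7, ← zpow_add₀ (by norm_num), ← zpow_add₀ (by norm_num)]
      refine zpow_le_zpow_right₀ (by norm_num) ?_
      unfold lam
      unfold cen at hj hk ⊢
      rcases (by omega : e = 0 ∨ e = 1 ∨ e = 2) with rfl | rfl | rfl
      · simp only [if_neg (by norm_num : ¬ (0 : ℕ) = 2), if_neg (by norm_num : ¬ (0 : ℕ) = 1)]
          at hj hk ⊢
        omega
      · simp only [if_neg (by norm_num : ¬ (1 : ℕ) = 2), if_true] at hj hk ⊢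
        omega
      · simp only [if_neg (by norm_num : ¬ (2 : ℕ) = 1), if_true] at hj hk ⊢
        omega
    · rw [norm_zero, mul_zero]
      positivity
  have := (PadicInt.norm_le_pow_iff_mem_span_pow
    ((7 : ℤ_[7]) ^ j * (PX e i j).eval (cen e z : ℤ_[7])) (lam e z + i)).mp (by
      simpa using hn)
  rw [Ideal.mem_span_singleton] at this
  simpa using this

end GH.M7
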