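import Pool.Agent.GH.M7.Stm

/-!
# GH7-MAT, row L9: the minors of the scaled matrix with the first columns
-/

open PowerSeries GH.D7 GH.CombU

noncomputable section

namespace GH.M7

theorem l9_sum {n i : ℕ} (h : n ≤ i) :
    ∑ k, up n i k = ∑ k, idf (n + 1) k + (i - n) := by
  rw [Fin.sum_univ_castSucc, Fin.sum_univ_castSucc (f := fun k => idf (n + 1) k)]
  have h1 : ∀ k : Fin n, up n i k.castSucc = idf (n + 1) k.castSucc := by
    intro k
    unfold up idf
    rw [if_pos (by simp)]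
  have h2 : up n i (Fin.last n) = i := by
    unfold up
    rw [if_neg (by simp)]
  have h3 : idf (n + 1) (Fin.last n) = n := by
    unfold idf
    simp
  rw [Finset.sum_congr rfl fun k _ => h1 k, h2, h3]
  omega

theorem l9_ne (m : ℕ) : (Polynomial.C ((7 : ℤ_[7]) ^ m) : Zy) ≠ 0 := by
  rw [Ne, Polynomial.C_eq_zero]
  exact pow_ne_zero _ (by norm_num)

theorem spL (h1 : SpNL) (h2 : SpWN) (h3 : SpScale) (h4 : SpRow) : SpL := by
  intro e n i he hni
  obtain ⟨W, N, hW0, hW, hN, hM⟩ := h2 e he (i + 1)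
  have hrow := (h4 Zy (PM e) N (fun i k => W (i - k)) (i + 1) (fun i _ => by
    simp only [Nat.sub_self, hW0]) (fun i hi j => hM i hi j)).2 n i (idf (n + 1)) hni.le
    (Nat.lt_succ_self i)
  have hd : Polynomial.C ((7 : ℤ_[7]) ^ (B7 e (n + 1) + (i - n))) ∣
      Pot.minor (PM e) (up n i) (idf (n + 1)) := by
    rw [hrow]
    refine Finset.dvd_sum fun k hk => ?_
    have hk' := Finset.mem_Icc.1 hk
    have e1 : B7 e (n + 1) + (i - n) = (i - k) + (B7 e (n + 1) + (k - n)) := by omega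
    rw [e1, pow_add, Polynomial.C_mul]
    exact mul_dvd_mul (hW _) (h1 e (i + 1) W N he hW0 hW hN hM n k hk'.1 (by omega))
  have hs := h3 e (n + 1) (up n i) (idf (n + 1)) he
  rw [l9_sum hni.le, pow_add, Polynomial.C_mul, mul_assoc] at hs
  have hs' := mul_left_cancel₀ (l9_ne _) hs
  rw [← hs', add_comm, pow_add, Polynomial.C_mul] at hd
  exact (mul_dvd_mul_iff_left (l9_ne _)).1 hd

end GH.M7
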