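import Pool.Agent.GH.M7.Stm

/-!
# GH7-R1: the `LU` expansion
-/

noncomputable section

namespace GH.M7

open Finset Matrix

section

variable {K : Type} [Field K] (M : ℕ → ℕ → K)

/-- The leading block. -/
def lu_A (k : ℕ) : Matrix (Fin k) (Fin k) K := Matrix.of fun i j => M i j

/-- The Schur complement. -/
def lu_S (k i j : ℕ) : K :=
  M i j - ((Matrix.of fun (_ : Fin 1) (s : Fin k) => M i s) * (lu_A M k)⁻¹ *
    (Matrix.of fun (s : Fin k) (_ : Fin 1) => M s j)) 0 0

theorem lu_det_A (k : ℕ) : (lu_A M k).det = Pot.lead M k := rfl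

/-- Minors which contain the leading block. -/
theorem lu_minor {k l : ℕ} (hk : Pot.lead M k ≠ 0) (a b : Fin (k + l) → ℕ)
    (ha : ∀ s : Fin k, a (Fin.castAdd l s) = s) (hb : ∀ s : Fin k, b (Fin.castAdd l s) = s) :
    Pot.minor M a b = Pot.lead M k *
      (Matrix.of fun s t : Fin l => lu_S M k (a (Fin.natAdd k s)) (b (Fin.natAdd k t))).det := by
  have hdet : IsUnit (lu_A M k).det := by
    rw [lu_det_A]
    exact isUnit_iff_ne_zero.2 hk
  let _ := Matrix.invertibleOfIsUnitDet _ hdet
  have h1 : Pot.minor M a b = (Matrix.fromBlocks (lu_A M k)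
      (Matrix.of fun (s : Fin k) (t : Fin l) => M s (b (Fin.natAdd k t)))
      (Matrix.of fun (s : Fin l) (t : Fin k) => M (a (Fin.natAdd k s)) t)
      (Matrix.of fun (s : Fin l) (t : Fin l) =>
        M (a (Fin.natAdd k s)) (b (Fin.natAdd k t)))).det := by
    unfold Pot.minor
    rw [← Matrix.det_submatrix_equiv_self (finSumFinEquiv (m := k) (n := l))]
    congr 1
    ext x y
    rcases x with x | x <;> rcases y with y | y <;>
      simp [Matrix.submatrix_apply, lu_A, ha, hb]
  rw [h1, Matrix.det_fromBlocks₁₁, lu_det_A]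
  congr 2

/-- The single bordered minors. -/
theorem lu_one {k : ℕ} (hk : Pot.lead M k ≠ 0) (i j : ℕ) :
    Pot.minor M (up k i) (up k j) = Pot.lead M k * lu_S M k i j := by
  have h1 := lu_minor M (l := 1) hk (up k i) (up k j) (fun s => by simp [up])
    (fun s => by simp [up])
  rw [h1, Matrix.det_fin_one, Matrix.of_apply]
  simp [up]

theorem lu_up_self (k : ℕ) : up k k = idf (k + 1) := by
  funext s
  unfold up idf
  split_ifs with hs
  · rfl
  · have := s.2
    omega

theorem lu_lead_succ {k : ℕ} (hk : Pot.lead M k ≠ 0) :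
    Pot.lead M (k + 1) = Pot.lead M k * lu_S M k k k := by
  rw [← lu_one M hk, lu_up_self]
  rfl

/-- The recursion. -/
theorem lu_step (h : ∀ n, Pot.lead M n ≠ 0) (k i j : ℕ) :
    lu_S M (k + 1) i j = lu_S M k i j - lu_S M k i k * lu_S M k k j / lu_S M k k k := by
  have h1 := lu_minor M (l := 2) (h k) (up (k + 1) i) (up (k + 1) j)
    (fun s => by
      have := s.2
      simp only [up, Fin.val_castAdd]
      rw [if_pos (by omega)])
    (fun s => by
      have := s.2
      simp only [up, Fin.val_castAdd]
      rw [if_pos (by omega)])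
  have h2 := lu_one M (h (k + 1)) i j
  have e : ∀ i, (up (k + 1) i (Fin.natAdd k (0 : Fin 2)) : ℕ) = k ∧
      up (k + 1) i (Fin.natAdd k (1 : Fin 2)) = i := by
    intro i
    constructor
    · simp [up]
    · simp [up]
  have h3 : Pot.minor M (up (k + 1) i) (up (k + 1) j) =
      Pot.lead M k * (lu_S M k k k * lu_S M k i j - lu_S M k k j * lu_S M k i k) := by
    refine h1.trans ?_
    rw [Matrix.det_fin_two, Matrix.of_apply, Matrix.of_apply, Matrix.of_apply, Matrix.of_apply,
      (e i).1, (e i).2, (e j).1, (e j).2]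
  have h4 := lu_lead_succ M (h k)
  have hS : lu_S M k k k ≠ 0 := by
    intro h0
    rw [h0, mul_zero] at h4
    exact h (k + 1) h4
  rw [h3, h4] at h2
  have hk := h k
  have h5 : lu_S M k k k * lu_S M k i j - lu_S M k k j * lu_S M k i k =
      lu_S M k k k * lu_S M (k + 1) i j := by
    apply mul_left_cancel₀ hk
    rw [h2]
    ring
  field_simp
  linear_combination -h5

theorem lu_zero (i j : ℕ) : lu_S M 0 i j = M i j := by
  unfold lu_S
  rw [Matrix.mul_apply]
  simp

theorem lu_vanish (h : ∀ n, Pot.lead M n ≠ 0) {k i j : ℕ} (hij : i < k ∨ j < k) :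
    lu_S M k i j = 0 := by
  have h1 := lu_one M (h k) i j
  have h2 : Pot.minor M (up k i) (up k j) = 0 := by
    rcases hij with hi | hj
    · have hne : (⟨i, by omega⟩ : Fin (k + 1)) ≠ Fin.last k := by
        intro h0
        have := congrArg Fin.val h0
        simp at this
        omega
      unfold Pot.minor
      refine Matrix.det_zero_of_row_eq hne ?_
      funext t
      rw [Matrix.of_apply, Matrix.of_apply]
      congr 1
      simp [up, hi]
    · have hne : (⟨j, by omega⟩ : Fin (k + 1)) ≠ Fin.last k := by
        intro h0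
        have := congrArg Fin.val h0
        simp at this
        omega
      unfold Pot.minor
      refine Matrix.det_zero_of_column_eq hne fun t => ?_
      rw [Matrix.of_apply, Matrix.of_apply]
      congr 1
      simp [up, hj]
  rw [h2] at h1
  exact (mul_eq_zero.1 h1.symm).resolve_left (h k)

end

theorem spLU : SpLU := by
  intro K _ M h i j
  have h1 : ∀ m, M i j = ∑ k ∈ Finset.range m,
      lu_S M k i k * lu_S M k k j / lu_S M k k k + lu_S M m i j := by
    intro m
    induction m with
    | zero => rw [Finset.sum_range_zero, zero_add, lu_zero]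
    | succ m ih =>
      rw [Finset.sum_range_succ, lu_step M h m i j, ih]
      ring
  rw [h1 (min i j + 1), lu_vanish M h (by
    rcases min_choice i j with h2 | h2
    · left; omega
    · right; omega), add_zero]
  refine Finset.sum_congr rfl fun k _ => ?_
  have e1 := lu_one M (h k) i k
  have e2 := lu_one M (h k) k j
  have e3 := lu_lead_succ M (h k)
  rw [lu_up_self] at e1 e2
  have hS : lu_S M k k k ≠ 0 := by
    intro h0
    rw [h0, mul_zero] at e3
    exact h (k + 1) e3
  have hk := h k
  rw [e1, e2, e3]
  field_simp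

end GH.M7
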