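import Pool.Agent.GH.M7.Stm
import Pool.Agent.GH.MatU.FreeInst

/-!
# GH7-MAT, row W2: growth of `V^y` in the Gauss norm
-/

set_option autoImplicit false

open PowerSeries

noncomputable section

namespace GH.M7

open GH.D7 GH.CombU

theorem ly_num (n j : ℕ) (hj : 1 ≤ j) :
    (5 * n + 23) / 24 + padicValNat 7 j.factorial ≤ max j ((n + 3) / 4) := by
  have h1 : (7 - 1) * padicValNat 7 j.factorial < j :=
    sub_one_mul_padicValNat_factorial_lt_of_ne_zero 7 (by omega)
  have h2 := le_max_left j ((n + 3) / 4)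
  have h3 := le_max_right j ((n + 3) / 4)
  generalize max j ((n + 3) / 4) = M at h2 h3 ⊢
  generalize padicValNat 7 j.factorial = v at h1 ⊢
  omega

/-- Row W2. -/
theorem spLY (h : SpV) : SpLY := by
  intro n
  have h1 := MatU.Lpow_rt 7 (φ := fun n => (n + 3) / 4) (ψ := fun n => (5 * n + 23) / 24)
    (by norm_num) (fun a b => by show _ / 4 ≤ _; omega) (by norm_num)
    (fun n j _ hj => ly_num n j hj) h.1 (fun n => by exact_mod_cast h.2.2.1 n) n
  have h2 := MatU.mem_Ipw.1 h1
  rw [← map_pow] at h2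
  exact_mod_cast h2

end GH.M7
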