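import Pool.Agent.GH.M7.Stm

/-!
# GH7-MAT, row D9: the leading minors
-/

open Polynomial

noncomputable section

namespace GH.M7

open GH.D7 GH.CombU

theorem ld_sum_Icc {K : Type*} [AddCommMonoid K] (t : ℕ) (f : ℕ → K) :
    ∑ l ∈ Finset.Icc 1 t, f l = ∑ l : Fin t, f (l + 1) := by
  rw [← Finset.sum_range (fun l => f (l + 1))]
  rw [show Finset.Icc 1 t = Finset.Ico 1 (t + 1) from rfl, Finset.sum_Ico_eq_sum_range]
  refine Finset.sum_congr (by simp) fun l _ => ?_
  rw [add_comm]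

/-- The norm of a difference of two natural numbers. -/
theorem ld_norm {m0 m : ℕ} (h : m0 ≠ m) : ‖(m0 : ℤ_[7]) - (m : ℤ_[7])‖ =
    (7 : ℝ) ^ (-(padicValInt 7 ((m0 : ℤ) - m) : ℤ)) := by
  have h1 : (m0 : ℤ_[7]) - (m : ℤ_[7]) = (((m0 : ℤ) - m : ℤ) : ℤ_[7]) := by push_cast; ring
  have h0 : (m0 : ℤ) - m ≠ 0 := by omega
  rw [h1, PadicInt.norm_def, PadicInt.coe_intCast]
  have h2 : ((((m0 : ℤ) - m : ℤ)) : ℚ_[7]) = (((((m0 : ℤ) - m : ℤ)) : ℚ) : ℚ_[7]) := by
    push_cast; ring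
  rw [h2, Padic.eq_padicNorm, padicNorm.eq_zpow_of_nonzero (by exact_mod_cast h0),
    padicValRat.of_int]
  push_cast
  rfl

/-- The product without the point `m0`. -/
def ldZ (e n m0 : ℕ) : Zy :=
  ∏ m ∈ (Finset.range (Z7 n)).erase m0, (X - C (m : ℤ_[7])) ^ T7 e n m

theorem ld_supp {e n m : ℕ} (h : Z7 n ≤ m) : T7 e n m = 0 := by
  unfold Z7 at h
  unfold T7 t7
  split_ifs <;> omega

theorem ld_split (e n m0 : ℕ) :
    ∏ m ∈ Finset.range (Z7 n), (X - C (m : ℤ_[7])) ^ T7 e n m =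
      (X - C (m0 : ℤ_[7])) ^ T7 e n m0 * ldZ e n m0 := by
  unfold ldZ
  by_cases h : m0 ∈ Finset.range (Z7 n)
  · exact (Finset.mul_prod_erase _ _ h).symm
  · rw [Finset.mem_range, not_lt] at h
    rw [ld_supp h, pow_zero, one_mul, Finset.erase_eq_of_notMem]
    rw [Finset.mem_range]
    omega

theorem ld_seven : ‖(7 : ℤ_[7])‖ = (7 : ℝ) ^ (-1 : ℤ) := by
  have := PadicInt.norm_p (p := 7)
  rw [Nat.cast_ofNat] at this
  rw [this, zpow_neg_one]
  norm_num

/-- The value of the product at a point. -/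
theorem ld_val (e n m0 : ℕ) (u : Zy) :
    ‖(C ((7 : ℤ_[7]) ^ B7 e n) * u * ldZ e n m0).eval (m0 : ℤ_[7])‖ =
      (7 : ℝ) ^ (-(FF e n m0 : ℤ)) * ‖u.eval (m0 : ℤ_[7])‖ := by
  have h0 : (7 : ℝ) ≠ 0 := by norm_num
  have h1 : ∀ m ∈ (Finset.range (Z7 n)).erase m0, ‖((m0 : ℤ_[7]) - (m : ℤ_[7])) ^ T7 e n m‖ =
      (7 : ℝ) ^ (-((T7 e n m * padicValInt 7 ((m0 : ℤ) - m) : ℕ) : ℤ)) := by
    intro m hm
    have h := Finset.ne_of_mem_erase hm
    rw [norm_pow, ld_norm (Ne.symm h), ← zpow_natCast, ← zpow_mul]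
    congr 1
    push_cast
    ring
  have hp : ∀ (s : Finset ℕ) (f : ℕ → ℕ), ∏ m ∈ s, (7 : ℝ) ^ (-((f m : ℕ) : ℤ)) =
      (7 : ℝ) ^ (-((∑ m ∈ s, f m : ℕ) : ℤ)) := by
    intro s f
    simp only [zpow_neg, zpow_natCast]
    rw [Finset.prod_inv_distrib, Finset.prod_pow_eq_pow_sum]
  have h3 : ∑ m ∈ (Finset.range (Z7 n)).erase m0, T7 e n m * padicValInt 7 ((m0 : ℤ) - m) =
      ∑ m ∈ Finset.range (Z7 n), T7 e n m * padicValInt 7 ((m0 : ℤ) - m) := by
    refine Finset.sum_subset (Finset.erase_subset _ _) fun m hm hm2 => ?_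
    have h4 : m = m0 := by
      by_contra h5
      exact hm2 (Finset.mem_erase.2 ⟨h5, hm⟩)
    rw [h4, sub_self]
    simp
  unfold ldZ
  rw [eval_mul, eval_mul, eval_C, eval_prod, norm_mul, norm_mul, norm_prod]
  simp only [eval_pow, eval_sub, eval_X, eval_C]
  rw [Finset.prod_congr rfl h1, norm_pow, ld_seven, hp, h3, FF, ← zpow_natCast, ← zpow_mul,
    mul_right_comm, ← zpow_add₀ h0]
  congr 2
  push_cast
  ring

theorem ld_Ok_sub {u : Zy} (h : Ok u) : ∃ r : Zy, u - C (u.coeff 0) = C (7 : ℤ_[7]) * r := by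
  have h1 : C (7 : ℤ_[7]) ∣ u - C (u.coeff 0) := by
    rw [C_dvd_iff_dvd_coeff]
    intro k
    rw [coeff_sub, coeff_C]
    split_ifs with hk
    · rw [hk, sub_self]
      exact dvd_zero _
    · rw [sub_zero]
      exact (dvd_pow_self _ hk).trans (h k)
  exact h1

/-- All values of `u` are congruent to `u₀`. -/
theorem ld_unit_val {u : Zy} (h : Ok u) (x : ℤ_[7]) :
    IsUnit (u.coeff 0) ↔ ‖u.eval x‖ = 1 := by
  obtain ⟨r, hr⟩ := ld_Ok_sub h
  have h1 : u.eval x = u.coeff 0 + 7 * r.eval x := by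
    have h2 := congrArg (fun f : Zy => f.eval x) hr
    simp only [eval_sub, eval_mul, eval_C] at h2
    rw [← h2]
    ring
  rw [← PadicInt.isUnit_iff, h1]
  have h3 : (7 : ℤ_[7]) * r.eval x ∈ IsLocalRing.maximalIdeal ℤ_[7] := by
    refine Ideal.mul_mem_right _ _ ?_
    have h4 := PadicInt.p_nonunit (p := 7)
    rw [Nat.cast_ofNat] at h4
    exact (IsLocalRing.mem_maximalIdeal _).2 h4
  constructor
  · intro hz
    by_contra h5
    have h6 : u.coeff 0 + 7 * r.eval x ∈ IsLocalRing.maximalIdeal ℤ_[7] := h5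
    have h7 := (Ideal.add_mem_iff_left _ h3).1 h6
    exact h7 hz
  · intro hz
    by_contra h5
    have h6 : u.coeff 0 ∈ IsLocalRing.maximalIdeal ℤ_[7] := h5
    exact (Ideal.add_mem_iff_left _ h3).2 h6 hz

theorem ld_map (e n : ℕ) : (Pot.lead (PM e) n).map PadicInt.Coe.ringHom =
    Pot.lead (fun i j => (PM e i j).map PadicInt.Coe.ringHom) n := by
  unfold Pot.lead Pot.minor
  rw [← Polynomial.coe_mapRingHom, RingHom.map_det]
  rfl

/-- The shape of the leading minor. -/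
def ldG (e n : ℕ) (u : Zy) : Prop := Ok u ∧ Pot.lead (PM e) n = C ((7 : ℤ_[7]) ^ B7 e n) * u *
  ∏ m ∈ Finset.range (Z7 n), (X - C (m : ℤ_[7])) ^ T7 e n m

theorem ld_exists (h1 : SpInt) (h2 : SpVan) (h3 : SpSum) (h7 : SpGauss) {e : ℕ} (he : e ≤ 2)
    (n : ℕ) : ∃ u, ldG e n u := by
  obtain ⟨H, hH, hF⟩ := h7 (Pot.lead (PM e) n) (T7 e n) (Z7 n) (h1 e n (idf n) he)
    (fun m _ => h2 e n m he)
  refine ⟨H, hH, ?_⟩
  rw [hF, h3 e n he]
  ring

/-- The norm of the antidiagonal. -/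
theorem ld_kap (e z j : ℕ) : ‖((kap e z j : ℚ) : ℚ_[7])‖ =
    (7 : ℝ) ^ (-(2 * ((cen e z : ℤ) - j) - z - if e = 1 then 0 else 1)) := by
  have h0 : (7 : ℝ) ≠ 0 := by norm_num
  have h7 : ‖(7 : ℚ_[7])‖ = (7 : ℝ) ^ (-1 : ℤ) := by
    have := Padic.norm_p (p := 7)
    rw [Nat.cast_ofNat] at this
    rw [this, zpow_neg_one]
    norm_num
  have h7' : ‖(-7 : ℚ_[7])‖ = (7 : ℝ) ^ (-1 : ℤ) := by rw [norm_neg, h7]
  unfold kap
  rw [Rat.cast_mul, norm_mul, Rat.cast_zpow, norm_zpow]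
  have h8 : (((-7 : ℚ)) : ℚ_[7]) = -7 := by norm_num
  rw [h8, h7', ← zpow_mul]
  split_ifs
  · have h9 : (((-1 : ℚ)) : ℚ_[7]) = -1 := by norm_num
    rw [h9, norm_neg, norm_one, one_mul]
    congr 1
    ring
  · have h9 : (((1 / 7 : ℚ)) : ℚ_[7]) = (7 : ℚ_[7])⁻¹ := by norm_num
    rw [h9, norm_inv, h7, ← zpow_neg, ← zpow_add₀ h0]
    congr 1
    ring

theorem ld_sum (m c : ℤ) {n' n : ℕ} (h : n' ≤ n) :
    ∑ j ∈ Finset.Ico n' n, (2 * (m - ((j + 1 : ℕ) : ℤ)) - c) =
      ((n : ℤ) - n') * (2 * m - c - n - n' - 1) := by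
  induction n, h using Nat.le_induction with
  | base => simp
  | succ n hn ih =>
    rw [Finset.sum_Ico_succ_top hn, ih]
    push_cast
    ring

theorem ld_prod_kap {e z n n' : ℕ} (he : e ≤ 2) (hn : n' ≤ n) (hm : n + n' + 1 = cen e z) :
    ‖∏ j ∈ Finset.Ico n' n, ((kap e z (j + 1) : ℚ) : ℚ_[7])‖ =
      (7 : ℝ) ^ (-(((n - n') * lam e z : ℕ) : ℤ)) := by
  have h0 : (7 : ℝ) ≠ 0 := by norm_num
  have hz : ∀ (s : Finset ℕ) (f : ℕ → ℤ), ∏ j ∈ s, (7 : ℝ) ^ (-f j) =
      (7 : ℝ) ^ (-∑ j ∈ s, f j) := by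
    intro s f
    classical
    induction s using Finset.induction_on with
    | empty => simp
    | insert a s ha ih =>
      rw [Finset.prod_insert ha, Finset.sum_insert ha, ih, ← zpow_add₀ h0]
      congr 1
      ring
  rw [norm_prod]
  simp only [ld_kap]
  rw [hz]
  have h1 : ∑ j ∈ Finset.Ico n' n, (2 * ((cen e z : ℤ) - ((j + 1 : ℕ) : ℤ)) - z -
      if e = 1 then 0 else 1) = ∑ j ∈ Finset.Ico n' n,
      (2 * ((cen e z : ℤ) - ((j + 1 : ℕ) : ℤ)) - ((z : ℤ) + if e = 1 then 0 else 1)) := by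
    refine Finset.sum_congr rfl fun j _ => ?_
    ring
  rw [h1, ld_sum _ _ hn]
  congr 2
  have h2 : ((cen e z : ℕ) : ℤ) = n + n' + 1 := by rw [← hm]; push_cast; ring
  rw [Nat.cast_mul, Nat.cast_sub hn]
  rcases Nat.eq_or_lt_of_le hn with h3 | h3
  · subst h3
    simp
  congr 1
  have h4 : (lam e z : ℤ) = 3 * z + e - 1 := by
    unfold lam
    unfold cen at hm
    have : 1 ≤ 3 * z + e := by
      split_ifs at hm <;> omega
    push_cast [Nat.cast_sub this]
    ring
  have h5 : ((cen e z : ℕ) : ℤ) = 4 * z + if e = 2 then 2 else 0 := by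
    unfold cen
    split_ifs <;> push_cast <;> ring
  rw [h4]
  have he3 : e = 0 ∨ e = 1 ∨ e = 2 := by omega
  rcases he3 with rfl | rfl | rfl
  · norm_num at h5 ⊢
    linarith
  · norm_num at h5 ⊢
    linarith
  · norm_num at h5 ⊢
    linarith

/-- The inductive step. -/
theorem ld_step (h4 : SpF) (h5 : SpLC) (h8 : SpJ) (h9 : SpVal) {e z n n' : ℕ} (he : e ≤ 2)
    (hn : n' < n) (hm : n + n' + 1 = cen e z) (ht : tz e z ≤ n') {u u' : Zy}
    (hu : ldG e n u) (hu' : ldG e n' u') (hv : IsUnit (u'.coeff 0)) : IsUnit (u.coeff 0) := by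
  have hT : T7 e n (cen e z) = n' - tz e z := by
    have hc : cen e z % 4 = if e = 2 then 2 else 0 := by unfold cen; split_ifs <;> omega
    have hc2 : cen e z / 4 = z := by unfold cen; split_ifs <;> omega
    unfold T7 t7
    rw [if_pos hc, hc2]
    unfold tz at ht ⊢
    omega
  have hT' : T7 e n' (cen e z) = n' - tz e z := by
    have hc : cen e z % 4 = if e = 2 then 2 else 0 := by unfold cen; split_ifs <;> omega
    have hc2 : cen e z / 4 = z := by unfold cen; split_ifs <;> omega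
    unfold T7 t7
    rw [if_pos hc, hc2]
    unfold tz at ht ⊢
    omega
  obtain ⟨y, hy⟩ := h8 e z he
  set a : ℚ_[7] := ((cen e z : ℕ) : ℚ_[7]) with ha
  obtain ⟨q, q', s, hs, hq, hq', hqq⟩ := h5 ℚ_[7] (fun i j => (PM e i j).map PadicInt.Coe.ringHom)
    a n n' (tz e z) (fun i l => ((PowerSeries.coeff (i + 1) (xG e z (l + 1)) : ℚ) : ℚ_[7]))
    (fun l j => ((y (l + 1) (j + 1) : ℚ) : ℚ_[7]))
    (fun j => ((kap e z (j + 1) : ℚ) : ℚ_[7])) hn.le ht (by
      intro i j hi hj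
      rw [ha, Polynomial.eval_natCast_map]
      have e1 := h9 e z i j he
      have e2 := hy (i + 1) (j + 1) (by omega) (by omega) (by omega)
      have e3 : (PadicInt.Coe.ringHom ((PM e i j).eval ((cen e z : ℕ) : ℤ_[7])) : ℚ_[7]) =
          ((MQ e z (i + 1) (j + 1) : ℚ) : ℚ_[7]) := e1
      rw [e3, e2, ld_sum_Icc]
      push_cast
      congr 1
      by_cases hij : i + j + 1 = n + n'
      · rw [if_pos hij, if_pos (by omega)]
      · rw [if_neg hij, if_neg (by omega)]
        simp)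
  have key : ∀ {k : ℕ} {w q : Zy} {Q : ℚ_[7][X]}, ldG e k w → T7 e k (cen e z) = n' - tz e z →
      Pot.lead (fun i j => (PM e i j).map (PadicInt.Coe.ringHom (p := 7))) k =
        (X - C a) ^ (n' - tz e z) * Q →
      ‖Q.eval a‖ = (7 : ℝ) ^ (-(FF e k (cen e z) : ℤ)) * ‖w.eval ((cen e z : ℕ) : ℤ_[7])‖ := by
    intro k w _ Q hw hTk hQ
    have e1 := hw.2
    rw [ld_split e k (cen e z), hTk] at e1
    have e2 : (Pot.lead (PM e) k).map (PadicInt.Coe.ringHom (p := 7)) =
        (X - C a) ^ (n' - tz e z) *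
          (C ((7 : ℤ_[7]) ^ B7 e k) * w * ldZ e k (cen e z)).map PadicInt.Coe.ringHom := by
      have hmc : (C ((cen e z : ℕ) : ℤ_[7])).map (PadicInt.Coe.ringHom (p := 7)) = C a := by
        rw [map_C, map_natCast]
      rw [e1]
      simp only [Polynomial.map_mul, Polynomial.map_pow, Polynomial.map_sub, map_X]
      rw [hmc]
      ring
    rw [ld_map, hQ] at e2
    have e3 := mul_left_cancel₀ (pow_ne_zero _ (X_sub_C_ne_zero a)) e2
    rw [e3, ha, Polynomial.eval_natCast_map, ← ld_val]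
    rfl
  have n1 := key (q := 0) hu hT hq
  have n2 := key (q := 0) hu' hT' hq'
  have hs1 : ‖s‖ = 1 := by
    have := congrArg norm hs
    rw [norm_pow, norm_one] at this
    exact (pow_eq_one_iff_of_nonneg (norm_nonneg _) (by norm_num)).1 this
  rw [hqq, norm_mul, norm_mul, hs1, one_mul, ld_prod_kap he hn.le hm, n2,
    (ld_unit_val hu'.1 _).1 hv, mul_one, h4 e z n n' he hn.le hm ht] at n1
  have h0 : (7 : ℝ) ≠ 0 := by norm_num
  rw [← zpow_add₀ h0] at n1
  have n3 : (7 : ℝ) ^ (-(((n - n') * lam e z + FF e n' (cen e z) : ℕ) : ℤ)) ≠ 0 :=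
    zpow_ne_zero _ h0
  have n4 : -(((n - n') * lam e z : ℕ) : ℤ) + -(FF e n' (cen e z) : ℤ) =
      -(((n - n') * lam e z + FF e n' (cen e z) : ℕ) : ℤ) := by
    push_cast
    ring
  rw [n4] at n1
  refine (ld_unit_val hu.1 ((cen e z : ℕ) : ℤ_[7])).2 ?_
  exact (mul_left_cancel₀ n3 (by rw [mul_one]; exact n1)).symm

/-- From one value. -/
theorem ld_one {e n m0 : ℕ} (hT : T7 e n m0 = 0) {u : Zy} (hu : ldG e n u)
    (hv : ‖(Pot.lead (PM e) n).eval (m0 : ℤ_[7])‖ = (7 : ℝ) ^ (-(FF e n m0 : ℤ))) :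
    IsUnit (u.coeff 0) := by
  have e1 := hu.2
  rw [ld_split e n m0, hT, pow_zero, one_mul] at e1
  rw [e1, ld_val] at hv
  have h0 : (7 : ℝ) ^ (-(FF e n m0 : ℤ)) ≠ 0 := zpow_ne_zero _ (by norm_num)
  exact (ld_unit_val hu.1 _).2 (mul_left_cancel₀ h0 (by rw [hv, mul_one]))

theorem ld_v {a m : ℕ} (ha : a ≤ 2) (hm : m < 49) : padicValInt 7 ((a : ℤ) - m) =
    if m ≠ a ∧ m % 7 = a then 1 else 0 := by
  rw [padicValInt]
  by_cases h0 : m = a
  · subst h0
    simp
  · by_cases h7 : m % 7 = a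
    · rw [if_pos ⟨h0, h7⟩]
      have hne : ((a : ℤ) - m).natAbs ≠ 0 := by omega
      have h6 : padicValNat 7 ((a : ℤ) - m).natAbs < 2 := by
        by_contra hc
        have h8 : 7 ^ 2 ∣ ((a : ℤ) - m).natAbs := (padicValNat_dvd_iff_le hne).2 (by omega)
        have := Nat.le_of_dvd (by omega) h8
        omega
      have h8 := (padicValNat_dvd_iff_le (p := 7) (n := 1) hne).1 (by omega)
      omega
    · rw [if_neg (by tauto)]
      exact padicValNat.eq_zero_of_not_dvd (by omega)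

theorem ld_FF {e n a : ℕ} (ha : a ≤ 2) (hn : n ≤ 5) : FF e n a =
    B7 e n + ∑ m ∈ Finset.range (Z7 n), T7 e n m * if m ≠ a ∧ m % 7 = a then 1 else 0 := by
  rw [FF]
  congr 1
  refine Finset.sum_congr rfl fun m hm => ?_
  rw [Finset.mem_range, Z7] at hm
  rw [ld_v ha (by omega)]

/-- D9: the leading minors. -/
theorem spLead (h1 : SpInt) (h2 : SpVan) (h3 : SpSum) (h4 : SpF) (h5 : SpLC) (h6 : SpSmall)
    (h7 : SpGauss) (h8 : SpJ) (h9 : SpVal) : SpLead := by
  intro e he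
  have main : ∀ n (u : Zy), ldG e n u → IsUnit (u.coeff 0) := by
    intro n
    induction n using Nat.strong_induction_on with
    | _ n ih =>
      intro u hu
      have step : ∀ z n', n' < n → n + n' + 1 = cen e z → tz e z ≤ n' → IsUnit (u.coeff 0) := by
        intro z n' hn hm ht
        obtain ⟨u', hu'⟩ := ld_exists h1 h2 h3 h7 he n'
        exact ld_step h4 h5 h8 h9 he hn hm ht hu hu' (ih n' hn u' hu')
      rcases Nat.eq_zero_or_pos n with h0 | h0
      · subst h0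
        have e1 := hu.2
        have e2 : B7 e 0 = 0 := by simp [B7]
        have e3 : ∏ m ∈ Finset.range (Z7 0), (X - C (m : ℤ_[7])) ^ T7 e 0 m = 1 := by
          refine Finset.prod_eq_one fun m _ => ?_
          have : T7 e 0 m = 0 := by
            unfold T7
            split_ifs <;> omega
          rw [this, pow_zero]
        have e4 : Pot.lead (PM e) 0 = 1 := by
          rw [Pot.lead, Pot.minor, Matrix.det_fin_zero]
        rw [e4, e2, e3, pow_zero, map_one, one_mul, mul_one] at e1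
        rw [← e1, coeff_one_zero]
        exact isUnit_one
      · have he3 : e = 0 ∨ e = 1 ∨ e = 2 := by omega
        rcases he3 with rfl | rfl | rfl
        · rcases Nat.even_or_odd' n with ⟨k, hk | hk⟩
          · refine step k (n - 1) (by omega) (by simp only [cen]; norm_num; omega) (by simp only [tz]; norm_num; try omega)
          · rcases Nat.eq_zero_or_pos k with hk0 | hk0
            · have hn1 : n = 1 := by omega
              subst hn1
              refine ld_one (m0 := 0) (by decide) hu ?_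
              rw [Nat.cast_zero, h6.1, ld_FF (by norm_num) (by norm_num)]
              congr 1
            · refine step k (n - 3) (by omega) (by simp only [cen]; norm_num; omega) (by simp only [tz]; norm_num; try omega)
        · rcases Nat.even_or_odd' n with ⟨k, hk | hk⟩
          · refine step k (n - 1) (by omega) (by simp only [cen]; norm_num; omega) (by simp only [tz]; norm_num; try omega)
          · rcases Nat.eq_zero_or_pos k with hk0 | hk0
            · have hn1 : n = 1 := by omega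
              subst hn1
              refine ld_one (m0 := 0) (by decide) hu ?_
              rw [Nat.cast_zero, h6.2.1, ld_FF (by norm_num) (by norm_num)]
              congr 1
            · refine step k (n - 3) (by omega) (by simp only [cen]; norm_num; omega) (by simp only [tz]; norm_num; try omega)
        · rcases Nat.even_or_odd' n with ⟨k, hk | hk⟩
          · rcases Nat.lt_or_ge n 3 with hn3 | hn3
            · have hn1 : n = 2 := by omega
              subst hn1
              refine ld_one (m0 := 2) (by decide) hu ?_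
              rw [Nat.cast_ofNat, h6.2.2, ld_FF (by norm_num) (by norm_num)]
              congr 1
            · refine step (k - 1) (n - 3) (by omega) (by simp only [cen]; norm_num; omega) (by simp only [tz]; norm_num; try omega)
          · refine step k (n - 1) (by omega) (by simp only [cen]; norm_num; omega) (by simp only [tz]; norm_num; try omega)
  intro n
  obtain ⟨u, hu⟩ := ld_exists h1 h2 h3 h7 he n
  have hv := main n u hu
  obtain ⟨r, hr⟩ := ld_Ok_sub hu.1
  refine ⟨u, hv.unit, hu.1, ?_, ?_⟩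
  · rw [IsUnit.unit_spec, Nat.cast_ofNat]
    exact ⟨r, hr⟩
  · rw [Nat.cast_ofNat]
    exact hu.2

end GH.M7
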