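import Pool.Agent.GH.M7.Stm

/-!
# GH7-MAT, row L8: the minors of `N`
-/

open Polynomial

noncomputable section

namespace GH.M7

open GH.D7 GH.CombU

/-! ### the ring `ℤ_7[7y]` -/

theorem nl_ok_C (a : ℤ_[7]) : Ok (C a) := by
  intro k
  rcases k with _ | k
  · simp
  · rw [coeff_C_succ]
    exact dvd_zero _

theorem nl_ok_add {F G : Zy} (hF : Ok F) (hG : Ok G) : Ok (F + G) := fun k => by
  rw [coeff_add]
  exact dvd_add (hF k) (hG k)

theorem nl_ok_mul {F G : Zy} (hF : Ok F) (hG : Ok G) : Ok (F * G) := fun k => by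
  rw [coeff_mul]
  refine Finset.dvd_sum fun x hx => ?_
  rw [← Finset.HasAntidiagonal.mem_antidiagonal.1 hx, pow_add]
  exact mul_dvd_mul (hF _) (hG _)

theorem nl_ok_sum {ι : Type*} (s : Finset ι) (f : ι → Zy) (h : ∀ i ∈ s, Ok (f i)) :
    Ok (∑ i ∈ s, f i) := fun k => by
  rw [finsetSum_coeff]
  exact Finset.dvd_sum fun i hi => h i hi k

theorem nl_ok_prod {ι : Type*} (s : Finset ι) (f : ι → Zy) (h : ∀ i ∈ s, Ok (f i)) :
    Ok (∏ i ∈ s, f i) := by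
  classical
  induction s using Finset.induction_on with
  | empty =>
    rw [Finset.prod_empty]
    exact nl_ok_C 1
  | insert a s ha ih =>
    rw [Finset.prod_insert ha]
    exact nl_ok_mul (h a (Finset.mem_insert_self a s))
      (ih fun i hi => h i (Finset.mem_insert_of_mem hi))

theorem nl_ok_lin (m : ℕ) : Ok (C (7 : ℤ_[7]) * (X - C (m : ℤ_[7]))) := by
  intro k
  rw [coeff_C_mul, coeff_sub, coeff_X, coeff_C]
  rcases k with _ | _ | k
  · simp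
  · simp
  · have h1 : (1 : ℕ) ≠ k + 1 + 1 := by omega
    have h2 : k + 1 + 1 ≠ 0 := by omega
    rw [if_neg h1, if_neg h2, sub_zero, mul_zero]
    exact dvd_zero _

theorem nl_ok_minor {n I : ℕ} {M : ℕ → ℕ → Zy} (hM : ∀ i j, i < I → Ok (M i j))
    (a b : Fin n → ℕ) (ha : ∀ k, a k < I) : Ok (Pot.minor M a b) := by
  unfold Pot.minor
  rw [Matrix.det_apply']
  refine nl_ok_sum _ _ fun σ _ => nl_ok_mul ?_ (nl_ok_prod _ _ fun k _ => ?_)
  · have h1 : ((Equiv.Perm.sign σ : ℤ) : Zy) = C (((Equiv.Perm.sign σ : ℤ)) : ℤ_[7]) := by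
      rw [map_intCast]
    rw [h1]
    exact nl_ok_C _
  · exact hM _ _ (ha _)

/-! ### divisibility -/

theorem nl_cancel {M F : Zy} (hM : M.Monic) {c : ℤ_[7]} (h : C c ∣ M * F) : C c ∣ F := by
  have key : ∀ P : Zy, C c ∣ P ↔ P.map (Ideal.Quotient.mk (Ideal.span {c})) = 0 := fun P => by
    rw [C_dvd_iff_dvd_coeff, Polynomial.ext_iff]
    refine forall_congr' fun i => ?_
    rw [coeff_map, coeff_zero, Ideal.Quotient.eq_zero_iff_mem, Ideal.mem_span_singleton]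
  rw [key] at h ⊢
  rw [Polynomial.map_mul] at h
  exact (hM.map _).mul_right_eq_zero_iff.1 h

theorem nl_C7 (a : ℕ) : C ((7 : ℤ_[7]) ^ a) ≠ 0 := by
  rw [Ne, C_eq_zero]
  exact pow_ne_zero _ (by norm_num)

theorem nl_dvd (x : ℤ_[7]) (a : ℕ) : (7 : ℤ_[7]) ^ a ∣ x ↔ ‖x‖ ≤ (7 : ℝ) ^ (-(a : ℤ)) := by
  have h := PadicInt.norm_le_pow_iff_mem_span_pow (p := 7) x a
  rw [Ideal.mem_span_singleton] at h
  push_cast at h
  exact h.symm

theorem nl_norm7 (a : ℕ) : ‖(7 : ℤ_[7]) ^ a‖ = (7 : ℝ) ^ (-(a : ℤ)) := by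
  have := PadicInt.norm_p_pow (p := 7) a
  push_cast at this
  exact this

/-- The norm of a difference of two natural numbers. -/
theorem nl_norm {m0 m : ℕ} (h : m0 ≠ m) : ‖(m0 : ℤ_[7]) - (m : ℤ_[7])‖ =
    (7 : ℝ) ^ (-(padicValInt 7 ((m0 : ℤ) - m) : ℤ)) := by
  have h1 : (m0 : ℤ_[7]) - (m : ℤ_[7]) = (((m0 : ℤ) - m : ℤ) : ℤ_[7]) := by push_cast; ring
  have h0 : (m0 : ℤ) - m ≠ 0 := by omega
  rw [h1, PadicInt.norm_def, PadicInt.coe_intCast]
  have h2 : ((((m0 : ℤ) - m : ℤ)) : ℚ_[7]) = (((((m0 : ℤ) - m : ℤ)) : ℚ) : ℚ_[7]) := by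
    push_cast; ring
  rw [h2, Padic.eq_padicNorm, padicNorm.eq_zpow_of_nonzero (by exact_mod_cast h0),
    padicValRat.of_int]
  push_cast
  rfl

/-- the product of the zeros -/
def nlZ (e n : ℕ) : Zy := ∏ m ∈ Finset.range (Z7 n), (X - C (m : ℤ_[7])) ^ T7 e n m

theorem nlZ_monic (e n : ℕ) : (nlZ e n).Monic :=
  monic_prod_of_monic _ _ fun _ _ => (monic_X_sub_C _).pow _

/-- The value of the product at a point which is not a zero. -/
theorem nl_val {e n m0 : ℕ} (hT : T7 e n m0 = 0) :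
    ‖(7 : ℤ_[7]) ^ B7 e n * (nlZ e n).eval (m0 : ℤ_[7])‖ = (7 : ℝ) ^ (-(FF e n m0 : ℤ)) := by
  have h1 : ∀ m ∈ Finset.range (Z7 n), ‖((m0 : ℤ_[7]) - (m : ℤ_[7])) ^ T7 e n m‖ =
      (7 : ℝ) ^ (-((T7 e n m * padicValInt 7 ((m0 : ℤ) - m) : ℕ) : ℤ)) := by
    intro m _
    by_cases h : m0 = m
    · subst h
      rw [hT, pow_zero, zero_mul, norm_one]
      simp
    · rw [norm_pow, nl_norm h, ← zpow_natCast, ← zpow_mul]
      congr 1
      push_cast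
      ring
  rw [norm_mul, nlZ, eval_prod, norm_prod]
  simp only [eval_pow, eval_sub, eval_X, eval_C]
  have h0 : (7 : ℝ) ≠ 0 := by norm_num
  have hp : ∀ (s : Finset ℕ) (f : ℕ → ℕ), ∏ m ∈ s, (7 : ℝ) ^ (-((f m : ℕ) : ℤ)) =
      (7 : ℝ) ^ (-((∑ m ∈ s, f m : ℕ) : ℤ)) := by
    intro s f
    simp only [zpow_neg, zpow_natCast]
    rw [Finset.prod_inv_distrib, Finset.prod_pow_eq_pow_sum]
  rw [Finset.prod_congr rfl h1, nl_norm7, hp, FF, ← zpow_add₀ h0]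
  congr 1
  push_cast
  ring

/-! ### the poles -/

/-- the poles -/
def nlP (e n i' : ℕ) : Finset ℕ :=
  (Finset.range (Z7 n)).filter fun m => hi e n m ∧ m ≤ n + i'

/-- the product of the poles -/
def nlQ (e n i' : ℕ) : Zy := ∏ m ∈ nlP e n i', (X - C (m : ℤ_[7]))

theorem nlQ_monic (e n i' : ℕ) : (nlQ e n i').Monic :=
  monic_prod_of_monic _ _ fun _ _ => monic_X_sub_C _

theorem nlQ_ok (e n i' : ℕ) : Ok (C ((7 : ℤ_[7]) ^ pp e n i') * nlQ e n i') := by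
  have h : C ((7 : ℤ_[7]) ^ pp e n i') * nlQ e n i' =
      ∏ m ∈ nlP e n i', (C (7 : ℤ_[7]) * (X - C (m : ℤ_[7]))) := by
    rw [Finset.prod_mul_distrib, Finset.prod_const, C_pow]
    rfl
  rw [h]
  exact nl_ok_prod _ _ fun m _ => nl_ok_lin m

theorem nl_cen {e n m : ℕ} (h : T7 e n m ≠ 0) : m = cen e (m / 4) := by
  unfold T7 at h
  unfold cen
  by_cases h1 : m % 4 = (if e = 2 then 2 else 0)
  · split_ifs at h1 ⊢ <;> omega
  · rw [if_neg h1] at h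
    exact absurd rfl h

/-- the minors -/
abbrev nlq (N : ℕ → ℕ → Zy) (n k : ℕ) : Zy := Pot.minor N (up n k) (idf (n + 1))

section

variable {e I : ℕ} {W : ℕ → Zy} {N : ℕ → ℕ → Zy}

theorem nl_exp (h4 : SpRow) (hW0 : W 0 = 1)
    (hM : ∀ i < I, ∀ j, PM e i j = ∑ l ∈ Finset.range (i + 1), W (i - l) * N l j) {n k : ℕ}
    (hnk : n ≤ k) (hk : k < I) : nlq N n k = Pot.minor (PM e) (up n k) (idf (n + 1)) -
      ∑ l ∈ Finset.Ico n k, W (k - l) * nlq N n l := by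
  have h := (h4 Zy (PM e) N (fun i l => W (i - l)) I
    (fun i _ => by rw [Nat.sub_self, hW0]) hM).2 n k (idf (n + 1)) hnk hk
  rw [h, ← Finset.Ico_insert_right hnk, Finset.sum_insert (by simp), Nat.sub_self, hW0, one_mul]
  ring

theorem nl_zero (h4 : SpRow) (h6 : SpOrdL) (he : e ≤ 2) (hW0 : W 0 = 1)
    (hM : ∀ i < I, ∀ j, PM e i j = ∑ l ∈ Finset.range (i + 1), W (i - l) * N l j) {n i m : ℕ}
    (hi : i < I) (hm : m < Z7 (n + 1)) : ∀ k, n ≤ k → k ≤ i →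
    (X - C ((m : ℕ) : ℚ_[7])) ^ (T7 e (n + 1) m -
      if m ∈ nlP e (n + 1) (i + 1) then 1 else 0) ∣
      (nlq N n k).map PadicInt.Coe.ringHom := by
  intro k
  induction k using Nat.strong_induction_on with
  | _ k ih =>
    intro h1 h2
    by_cases hT : T7 e (n + 1) m = 0
    · rw [hT, Nat.zero_sub, pow_zero]
      exact one_dvd _
    · rw [nl_exp h4 hW0 hM h1 (lt_of_le_of_lt h2 hi), Polynomial.map_sub, Polynomial.map_sum]
      refine dvd_sub ?_ (Finset.dvd_sum fun l hl => ?_)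
      · have hc := nl_cen hT
        have h3 := (h6 e (m / 4) n he).1 k h1
        rw [← hc] at h3
        refine dvd_trans (pow_dvd_pow _ ?_) h3
        by_cases h5 : 2 * (n + 1) < m ∧ m ≤ n + k + 2
        · have h7 : m ∈ nlP e (n + 1) (i + 1) :=
            Finset.mem_filter.2 ⟨Finset.mem_range.2 hm, ⟨h5.1, Nat.one_le_iff_ne_zero.2 hT⟩,
              by omega⟩
          rw [if_pos h5, if_pos h7]
        · rw [if_neg h5]
          omega
      · rw [Polynomial.map_mul]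
        rw [Finset.mem_Ico] at hl
        exact Dvd.dvd.mul_left (ih l hl.2 hl.1 (by omega)) _

theorem nl_g (h2 : SpSum) (h3 : SpGauss) (h4 : SpRow) (h6 : SpOrdL) (he : e ≤ 2)
    (hW0 : W 0 = 1) (hN : ∀ i j, i < I → Ok (N i j))
    (hM : ∀ i < I, ∀ j, PM e i j = ∑ l ∈ Finset.range (i + 1), W (i - l) * N l j) {n i k : ℕ}
    (hi : i < I) (hnk : n ≤ k) (hki : k ≤ i) : ∃ g : Zy, Ok g ∧
      C ((7 : ℤ_[7]) ^ pp e (n + 1) (i + 1)) * (nlQ e (n + 1) (i + 1) * nlq N n k) =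
        C ((7 : ℤ_[7]) ^ B7 e (n + 1)) * (nlZ e (n + 1) * g) := by
  have hok : Ok (nlq N n k) := by
    refine nl_ok_minor hN _ _ fun r => ?_
    unfold up
    split_ifs <;> omega
  obtain ⟨g, hg, hF⟩ := h3 (C ((7 : ℤ_[7]) ^ pp e (n + 1) (i + 1)) * nlQ e (n + 1) (i + 1) *
    nlq N n k) (T7 e (n + 1)) (Z7 (n + 1)) (nl_ok_mul (nlQ_ok _ _ _) hok) (fun m hm => by
      have h0 := nl_zero h4 h6 he hW0 hM hi hm k hnk hki
      rw [Polynomial.map_mul, Polynomial.map_mul]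
      by_cases hP : m ∈ nlP e (n + 1) (i + 1)
      · rw [if_pos hP] at h0
        have hT : 1 ≤ T7 e (n + 1) m := (Finset.mem_filter.1 hP).2.1.2
        have hT' : T7 e (n + 1) m = 1 + (T7 e (n + 1) m - 1) := by omega
        rw [hT', pow_add, pow_one]
        refine mul_dvd_mul (Dvd.dvd.mul_left ?_ _) h0
        have h5 : (X - C (m : ℤ_[7])) ∣ nlQ e (n + 1) (i + 1) := Finset.dvd_prod_of_mem _ hP
        have h7 := Polynomial.map_dvd (PadicInt.Coe.ringHom (p := 7)) h5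
        rw [Polynomial.map_sub, map_X, map_C, map_natCast] at h7
        exact h7
      · rw [if_neg hP, Nat.sub_zero] at h0
        exact Dvd.dvd.mul_left h0 _)
  refine ⟨g, hg, ?_⟩
  rw [h2 e (n + 1) he, mul_assoc, mul_assoc] at hF
  exact hF

theorem nl_dg {a b c : ℕ} {Q Z q g : Zy} (hZ : Z.Monic)
    (h : C ((7 : ℤ_[7]) ^ a) * (Q * q) = C ((7 : ℤ_[7]) ^ b) * (Z * g))
    (hq : C ((7 : ℤ_[7]) ^ (b + c)) ∣ q) : C ((7 : ℤ_[7]) ^ (a + c)) ∣ g := by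
  refine nl_cancel hZ ?_
  have h1 : C ((7 : ℤ_[7]) ^ b) * C ((7 : ℤ_[7]) ^ (a + c)) ∣
      C ((7 : ℤ_[7]) ^ b) * (Z * g) := by
    rw [← h, ← C_mul, ← pow_add]
    have h2 : (7 : ℤ_[7]) ^ (b + (a + c)) = 7 ^ a * 7 ^ (b + c) := by
      rw [← pow_add]
      congr 1
      ring
    rw [h2, C_mul]
    exact mul_dvd_mul_left _ (Dvd.dvd.mul_left hq _)
  exact (mul_dvd_mul_iff_left (nl_C7 b)).1 h1

/-- the matrix from `N` to `PX` -/
def nlb (e : ℕ) (W : ℕ → Zy) (i k : ℕ) : Zy := ∑ l ∈ Finset.Icc k i, TT e i l * W (l - k)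

theorem nlb_self (h5 : SpTT) (he : e ≤ 2) (hW0 : W 0 = 1) (i : ℕ) : nlb e W i i = 1 := by
  unfold nlb
  rw [Finset.Icc_self, Finset.sum_singleton, (h5 e he).1 i, Nat.sub_self, hW0, one_mul]

theorem nlb_dvd (h5 : SpTT) (he : e ≤ 2) (hW : ∀ l, C ((7 : ℤ_[7]) ^ l) ∣ W l) (i k : ℕ) :
    C ((7 : ℤ_[7]) ^ (i - k)) ∣ nlb e W i k := by
  refine Finset.dvd_sum fun l hl => ?_
  rw [Finset.mem_Icc] at hl
  have h : i - k = (i - l) + (l - k) := by omega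
  rw [h, pow_add, C_mul]
  exact mul_dvd_mul ((h5 e he).2.1 i l) (hW _)

theorem nlb_PX (hM : ∀ i < I, ∀ j, PM e i j = ∑ l ∈ Finset.range (i + 1), W (i - l) * N l j) :
    ∀ i < I, ∀ j, PX e i j = ∑ k ∈ Finset.range (i + 1), nlb e W i k * N k j := by
  intro i hi j
  unfold PX nlb
  simp only [Finset.sum_mul]
  have h1 : ∀ l ∈ Finset.range (i + 1), TT e i l * PM e l j =
      ∑ k ∈ Finset.range (l + 1), TT e i l * W (l - k) * N k j := fun l hl => by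
    rw [Finset.mem_range] at hl
    rw [hM l (by omega) j, Finset.mul_sum]
    exact Finset.sum_congr rfl fun k _ => (mul_assoc _ _ _).symm
  rw [Finset.sum_congr rfl h1]
  refine Finset.sum_comm' fun l k => ?_
  rw [Finset.mem_range, Finset.mem_range, Finset.mem_range, Finset.mem_Icc]
  omega

theorem nl_cen_add (e z r : ℕ) : cen e (z + r) = cen e z + 4 * r := by
  unfold cen
  ring

/-- the value of `G` at a node -/
theorem nl_node {a b m l q d w : ℕ} {Q Z p G : Zy} {F : ℕ}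
    (h : C ((7 : ℤ_[7]) ^ a) * (Q * p) = C ((7 : ℤ_[7]) ^ b) * (Z * G))
    (hZ : ‖(7 : ℤ_[7]) ^ b * Z.eval (m : ℤ_[7])‖ = (7 : ℝ) ^ (-(F : ℤ)))
    (hp : (7 : ℤ_[7]) ^ (F + l + d) ∣ 7 ^ q * p.eval (m : ℤ_[7])) (hql : w + q ≤ l) :
    (7 : ℤ_[7]) ^ (a + d + w) ∣ G.eval (m : ℤ_[7]) := by
  have h7 : (7 : ℝ) ≠ 0 := by norm_num
  have h70 : (0 : ℝ) < 7 := by norm_num
  rw [nl_dvd]
  rw [nl_dvd, norm_mul, nl_norm7] at hp
  have e1 : (7 : ℤ_[7]) ^ a * (Q.eval (m : ℤ_[7]) * p.eval (m : ℤ_[7])) =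
      (7 : ℤ_[7]) ^ b * Z.eval (m : ℤ_[7]) * G.eval (m : ℤ_[7]) := by
    have := congrArg (fun P : Zy => P.eval (m : ℤ_[7])) h
    simp only [eval_mul, eval_C] at this
    rw [this]
    ring
  have e2 : (7 : ℝ) ^ (-(F : ℤ)) * ‖G.eval (m : ℤ_[7])‖ ≤
      (7 : ℝ) ^ (-(a : ℤ)) * ‖p.eval (m : ℤ_[7])‖ := by
    rw [← hZ, ← norm_mul, ← e1, norm_mul, norm_mul, nl_norm7]
    refine mul_le_mul_of_nonneg_left ?_ (zpow_pos h70 _).le
    exact mul_le_of_le_one_left (norm_nonneg _) (PadicInt.norm_le_one _)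
  have e3 : ‖p.eval (m : ℤ_[7])‖ ≤ (7 : ℝ) ^ (q : ℤ) * (7 : ℝ) ^ (-((F + l + d : ℕ) : ℤ)) := by
    have := mul_le_mul_of_nonneg_left hp (zpow_pos h70 (q : ℤ)).le
    rwa [← mul_assoc, ← zpow_add₀ h7, add_neg_cancel, zpow_zero, one_mul] at this
  have e4 : ‖G.eval (m : ℤ_[7])‖ ≤ (7 : ℝ) ^ (F : ℤ) * ((7 : ℝ) ^ (-(a : ℤ)) *
      ((7 : ℝ) ^ (q : ℤ) * (7 : ℝ) ^ (-((F + l + d : ℕ) : ℤ)))) := by
    have := mul_le_mul_of_nonneg_left (e2.trans (mul_le_mul_of_nonneg_left e3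
      (zpow_pos h70 _).le)) (zpow_pos h70 (F : ℤ)).le
    rwa [← mul_assoc, ← zpow_add₀ h7, add_neg_cancel, zpow_zero, one_mul] at this
  refine e4.trans ?_
  rw [← zpow_add₀ h7, ← zpow_add₀ h7, ← zpow_add₀ h7]
  refine zpow_le_zpow_right₀ (by norm_num) ?_
  push_cast
  omega

theorem nl_step (h2 : SpSum) (h3 : SpGauss) (h4 : SpRow) (h5 : SpTT) (h6 : SpOrdL)
    (h7 : SpItp) (h8 : SpNode) (h9 : SpPval) (he : e ≤ 2) (hW0 : W 0 = 1)
    (hW : ∀ l, C ((7 : ℤ_[7]) ^ l) ∣ W l) (hN : ∀ i j, i < I → Ok (N i j))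
    (hM : ∀ i < I, ∀ j, PM e i j = ∑ l ∈ Finset.range (i + 1), W (i - l) * N l j) {n i : ℕ}
    (hni : n < i) (hi : i < I)
    (ih : ∀ k, n ≤ k → k < i → C ((7 : ℤ_[7]) ^ (B7 e (n + 1) + (k - n))) ∣ nlq N n k) :
    C ((7 : ℤ_[7]) ^ (B7 e (n + 1) + (i - n))) ∣ nlq N n i := by
  have hg0 : ∀ k, ∃ g : Zy, n ≤ k → k ≤ i → Ok g ∧
      C ((7 : ℤ_[7]) ^ pp e (n + 1) (i + 1)) * (nlQ e (n + 1) (i + 1) * nlq N n k) =
        C ((7 : ℤ_[7]) ^ B7 e (n + 1)) * (nlZ e (n + 1) * g) := fun k => by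
    by_cases hk : n ≤ k ∧ k ≤ i
    · obtain ⟨g, hg⟩ := nl_g h2 h3 h4 h6 he hW0 hN hM hi hk.1 hk.2
      exact ⟨g, fun _ _ => hg⟩
    · exact ⟨0, fun h h' => absurd ⟨h, h'⟩ hk⟩
  choose g hg using hg0
  obtain ⟨a, ha⟩ : ∃ a, a = pp e (n + 1) (i + 1) := ⟨_, rfl⟩
  obtain ⟨Q, hQ⟩ : ∃ Q, Q = nlQ e (n + 1) (i + 1) := ⟨_, rfl⟩
  have hQm : Q.Monic := hQ ▸ nlQ_monic _ _ _
  rw [← ha, ← hQ] at hg
  have hgd : ∀ k, n ≤ k → k < i → C ((7 : ℤ_[7]) ^ (a + (k - n))) ∣ g k := fun k h h' =>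
    nl_dg (nlZ_monic _ _) (hg k h h'.le).2 (ih k h h')
  obtain ⟨G, hG⟩ : ∃ G, G = ∑ k ∈ Finset.Icc n i, nlb e W i k * g k := ⟨_, rfl⟩
  have hS : C ((7 : ℤ_[7]) ^ (a + (i - n))) ∣ G - g i := by
    rw [hG, ← Finset.Ico_insert_right hni.le, Finset.sum_insert (by simp),
      nlb_self h5 he hW0, one_mul, add_sub_cancel_left]
    refine Finset.dvd_sum fun k hk => ?_
    rw [Finset.mem_Ico] at hk
    have e1 : a + (i - n) = (i - k) + (a + (k - n)) := by omega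
    rw [e1, pow_add, C_mul]
    exact mul_dvd_mul (nlb_dvd h5 he hW i k) (hgd k hk.1 hk.2)
  have hp : C ((7 : ℤ_[7]) ^ a) * (Q * Pot.minor (PX e) (up n i) (idf (n + 1))) =
      C ((7 : ℤ_[7]) ^ B7 e (n + 1)) * (nlZ e (n + 1) * G) := by
    rw [(h4 Zy (PX e) N (nlb e W) I (fun k _ => nlb_self h5 he hW0 k) (nlb_PX hM)).2 n i
      (idf (n + 1)) hni.le hi, hG, Finset.mul_sum, Finset.mul_sum, Finset.mul_sum,
      Finset.mul_sum]
    refine Finset.sum_congr rfl fun k hk => ?_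
    rw [Finset.mem_Icc] at hk
    have e1 := (hg k hk.1 hk.2).2
    calc C ((7 : ℤ_[7]) ^ a) * (Q * (nlb e W i k * nlq N n k))
        = nlb e W i k * (C ((7 : ℤ_[7]) ^ a) * (Q * nlq N n k)) := by ring
      _ = nlb e W i k * (C ((7 : ℤ_[7]) ^ B7 e (n + 1)) * (nlZ e (n + 1) * g k)) := by rw [e1]
      _ = _ := by ring
  -- the nodes
  obtain ⟨z0, hz⟩ := h8 e (n + 1) (i + 1) he (by omega) (by omega)
  have hR : pp e (n + 1) (i + 1) + (i + 1 - (n + 1)) = a + (i - n) := by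
    rw [ha]
    omega
  rw [hR] at hz
  obtain ⟨w, hw⟩ : ∃ w, w = (Finset.range (a + (i - n))).sup fun r =>
    padicValNat 7 r.factorial := ⟨_, rfl⟩
  have hgi : C ((7 : ℤ_[7]) ^ (a + (i - n))) ∣ g i := by
    refine h7 (g i) G (a + (i - n)) w (a + (i - n)) (cen e z0) (hg i hni.le le_rfl).1 le_rfl
      (fun r hr => ?_) hS (fun r hr => ?_)
    · rw [hw]
      exact Finset.le_sup (f := fun r => padicValNat 7 r.factorial) (Finset.mem_range.2 hr)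
    · obtain ⟨k1, k2, k3, k4⟩ := hz r hr
      rw [← nl_cen_add]
      have k5 := h9 e n i (z0 + r) he hni k1 (by omega) (by omega)
      refine nl_node hp (nl_val k1) k5 ?_
      have k6 : w ≤ lam e (z0 + r) - QQ e (n + 1) (cen e (z0 + r)) := by
        rw [hw]
        refine Finset.sup_le fun r' hr' => ?_
        have := k4 r' (Finset.mem_range.1 hr')
        omega
      have := k4 r hr
      omega
  -- the end
  have e1 : C ((7 : ℤ_[7]) ^ a) * C ((7 : ℤ_[7]) ^ (B7 e (n + 1) + (i - n))) ∣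
      C ((7 : ℤ_[7]) ^ a) * (Q * nlq N n i) := by
    rw [(hg i hni.le le_rfl).2, ← C_mul, ← pow_add]
    have e2 : (7 : ℤ_[7]) ^ (a + (B7 e (n + 1) + (i - n))) =
        7 ^ B7 e (n + 1) * 7 ^ (a + (i - n)) := by
      rw [← pow_add]
      congr 1
      ring
    rw [e2, C_mul]
    exact mul_dvd_mul_left _ (Dvd.dvd.mul_left hgi _)
  exact nl_cancel hQm ((mul_dvd_mul_iff_left (nl_C7 a)).1 e1)

end

/-- L8: the minors of `N`. -/
theorem spNL (h1 : SpLead) (h2 : SpSum) (h3 : SpGauss) (h4 : SpRow) (h5 : SpTT) (h6 : SpOrdL)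
    (h7 : SpItp) (h8 : SpNode) (h9 : SpPval) : SpNL := by
  intro e I W N he hW0 hW hN hM n i
  induction i using Nat.strong_induction_on with
  | _ i ih =>
    intro hni hi
    rcases hni.eq_or_lt with rfl | hlt
    · rw [Nat.sub_self, add_zero]
      have e1 : up n n = idf (n + 1) := by
        funext k
        unfold up idf
        have := k.2
        split_ifs <;> omega
      have e2 := (h4 Zy (PM e) N (fun i l => W (i - l)) I
        (fun i _ => by rw [Nat.sub_self, hW0]) hM).1 (n + 1) (idf (n + 1)) (by omega)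
      rw [e1, ← e2]
      obtain ⟨u, z, -, -, hl⟩ := h1 e he (n + 1)
      have e3 : Pot.minor (PM e) (idf (n + 1)) (idf (n + 1)) = Pot.lead (PM e) (n + 1) := rfl
      rw [e3, hl]
      push_cast
      exact Dvd.dvd.mul_right (Dvd.intro _ rfl) _
    · exact nl_step h2 h3 h4 h5 h6 h7 h8 h9 he hW0 hW hN hM hlt hi fun k hk hk' =>
        ih k hk' hk (by omega)

end GH.M7
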