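import Pool.Agent.GH.M7.Stm
import Pool.Agent.GH.Cen3.NPr
import Pool.Agent.GH.Pot.WFinal
import Pool.Agent.GH.CombU.P7

/-!
# GH7-MAT, row F3: the Newton polygon
-/

open Filter Topology

noncomputable section

namespace GH.M7

open GH.D7 GH.CombU

private theorem f3_norm_iota (a : ℤ_[7]) : ‖iota7 a‖ = ‖a‖ := by
  change ‖algebraMap ℚ_[7] C7 (a : ℚ_[7])‖ = ‖a‖
  rw [norm_algebraMap']
  rfl

private theorem f3_norm_seven : ‖iota7 (7 : ℤ_[7])‖ = 1 / 7 := by
  have h : ‖((7 : ℕ) : ℤ_[7])‖ = 1 / 7 := by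
    rw [PadicInt.norm_p]
    norm_num
  rw [f3_norm_iota]
  exact_mod_cast h

private theorem f3_minor {S K : Type*} [CommRing S] [CommRing K] (φ : S →+* K) (y : K)
    (M : ℕ → ℕ → Polynomial S) {n : ℕ} (a b : Fin n → ℕ) :
    (Pot.minor M a b).eval₂ φ y =
      (Matrix.of fun i j ↦ (M (a i) (b j)).eval₂ φ y).det := by
  unfold Pot.minor
  rw [← Polynomial.coe_eval₂RingHom, RingHom.map_det]
  rfl

private theorem f3_eval_le (Q : Zy) {y : C7} (hy : ‖y‖ ≤ 1) : ‖Q.eval₂ iota7 y‖ ≤ 1 := by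
  rw [Polynomial.eval₂_eq_sum_range]
  refine ud_sum_le _ _ zero_le_one fun i _ ↦ ?_
  rw [norm_mul, norm_pow, f3_norm_iota]
  exact mul_le_one₀ (PadicInt.norm_le_one _) (by positivity) (pow_le_one₀ (norm_nonneg _) hy)

private theorem f3_nat (n : ℕ) : ‖((n : ℕ) : C7)‖ ≤ 1 := by
  have h : ((n : ℕ) : C7) = iota7 (n : ℤ_[7]) := by rw [map_natCast]
  rw [h, f3_norm_iota]
  exact PadicInt.norm_le_one _

private theorem f3_yx (e : ℕ) {x : C7} (hx : ‖x‖ ≤ 1) : ‖yx e x‖ ≤ 1 := by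
  unfold yx
  have h4 : ‖(4 : C7)‖ ≤ 1 := by exact_mod_cast f3_nat 4
  have h2 : ‖(2 : C7)‖ ≤ 1 := by exact_mod_cast f3_nat 2
  have h1 : ‖4 * x‖ ≤ 1 := by
    rw [norm_mul]
    exact mul_le_one₀ h4 (norm_nonneg _) hx
  refine (IsUltrametricDist.norm_add_le_max _ _).trans (max_le h1 ?_)
  split_ifs
  · exact h2
  · rw [norm_zero]
    exact zero_le_one

/-- diagonal change of basis with arbitrary weights -/
private theorem f3_scale {K : Type*} [Field K] (C C' : ℕ → ℕ → K) (r : ℕ → K)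
    (hr : ∀ i, r i ≠ 0)
    (h : ∀ i j, C (i + 1) (j + 1) = r i * C' (i + 1) (j + 1) * (r j)⁻¹) (N m : ℕ) :
    fredBlock C N m = fredBlock C' N m := by
  unfold fredBlock Matrix.charpolyRev
  set P : Matrix (Fin N) (Fin N) (Polynomial K) :=
    Matrix.diagonal fun i ↦ Polynomial.C (r i) with hP
  set Q : Matrix (Fin N) (Fin N) (Polynomial K) :=
    Matrix.diagonal fun i ↦ Polynomial.C ((r i)⁻¹) with hQ
  have hPQ : P * Q = 1 := by
    rw [hP, hQ, Matrix.diagonal_mul_diagonal, ← Matrix.diagonal_one]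
    congr 1
    funext i
    rw [← Polynomial.C_mul, mul_inv_cancel₀ (hr i), Polynomial.C_1]
  have hdet : P.det * Q.det = 1 := by rw [← Matrix.det_mul, hPQ, Matrix.det_one]
  have hM : (1 - (Polynomial.X : Polynomial K) •
      (Matrix.of fun i j : Fin N ↦ C (i + 1) (j + 1)).map Polynomial.C) =
      P * (1 - (Polynomial.X : Polynomial K) •
      (Matrix.of fun i j : Fin N ↦ C' (i + 1) (j + 1)).map Polynomial.C) * Q := by
    rw [mul_sub, sub_mul, mul_one, hPQ]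
    congr 1
    ext1 i j
    simp only [hP, hQ, Matrix.mul_smul, Matrix.smul_apply,
      Matrix.mul_diagonal, Matrix.diagonal_mul, Matrix.map_apply, Matrix.of_apply, smul_eq_mul,
      ← Polynomial.C_mul, h, mul_assoc]
  rw [hM, Matrix.det_mul, Matrix.det_mul, mul_right_comm, hdet, one_mul]

private theorem f3_half : Tendsto (fun j : ℕ ↦ (1 / 7 : ℝ) ^ ((j + 1) / 2)) atTop (𝓝 0) := by
  have h1 : Tendsto (fun k : ℕ ↦ (1 / 7 : ℝ) ^ k) atTop (𝓝 0) :=
    tendsto_pow_atTop_nhds_zero_of_lt_one (by norm_num) (by norm_num)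
  refine h1.comp ?_
  refine tendsto_atTop.2 fun b ↦ ?_
  filter_upwards [eventually_ge_atTop (2 * b)] with j hj
  omega

/-- Row F3. -/
theorem spNP (hM : SpMatW) (hE : SpEval) (hp : SpPS) (hs : SpScale) (hr : SpRt) : SpNP := by
  intro e x he hx
  have hy : ‖yx e x‖ ≤ 1 := f3_yx e hx
  set y : C7 := yx e x with hyx
  have hφ : ∀ z : ℤ_[7], ‖iota7 z‖ = ‖z‖ := f3_norm_iota
  have h7 : iota7 (7 : ℤ_[7]) ≠ 0 := by
    intro h
    have h1 := f3_norm_seven
    rw [h, norm_zero] at h1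
    norm_num at h1
  -- the scaled matrix
  set C : ℕ → ℕ → C7 := fun i j ↦ (PS e (i - 1) (j - 1)).eval₂ iota7 y with hC
  have hC1 : ∀ i j, C (i + 1) (j + 1) = (PS e i j).eval₂ iota7 y := by
    intro i j
    rw [hC]
    simp only [Nat.add_sub_cancel]
  have hfred : fred (Mat7 e x) = fred C := by
    funext m
    unfold fred
    congr 1
    funext N
    refine f3_scale (Mat7 e x) C (fun i ↦ iota7 7 ^ i) (fun i ↦ pow_ne_zero _ h7) ?_ N m
    intro i j
    have h1 : (Polynomial.C ((7 : ℤ_[7]) ^ i) * PS e i j).eval₂ iota7 y =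
        (Polynomial.C ((7 : ℤ_[7]) ^ j) * PM e i j).eval₂ iota7 y := by
      rw [(hp e i j he).1]
    rw [Polynomial.eval₂_mul, Polynomial.eval₂_mul, Polynomial.eval₂_C, Polynomial.eval₂_C,
      map_pow, map_pow] at h1
    rw [hC1, h1, hyx, hE e x i j he, mul_comm (iota7 7 ^ j), mul_assoc,
      mul_inv_cancel₀ (pow_ne_zero _ h7), mul_one]
  -- the columns
  have hcpt : Cpt (fun _ ↦ 1) (fun j ↦ (1 / 7 : ℝ) ^ ((j + 1) / 2)) (sh C) := by
    refine ⟨fun _ ↦ one_pos, ?_, fun i j ↦ ?_⟩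
    · rw [Nat.cofinite_eq_atTop]
      exact f3_half
    · rw [one_mul, one_mul]
      show ‖C (i + 1) (j + 1)‖ ≤ _
      rw [hC1]
      obtain ⟨Q, hQ⟩ := (hp e i j he).2
      rw [hQ, Polynomial.eval₂_mul, Polynomial.eval₂_C, norm_mul, map_pow, norm_pow,
        f3_norm_seven]
      calc (1 / 7 : ℝ) ^ ((j + 1) / 2) * ‖Q.eval₂ iota7 y‖
          ≤ (1 / 7 : ℝ) ^ ((j + 1) / 2) * 1 :=
            mul_le_mul_of_nonneg_left (f3_eval_le Q hy) (by positivity)
        _ = (1 / 7 : ℝ) ^ ((j + 1) / 2) := mul_one _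
  have hlead : ∀ n, Pot.lead (PS e) n = Pot.lead (PM e) n := by
    intro n
    have h1 := hs e n (fun i : Fin n ↦ (i : ℕ)) (fun i : Fin n ↦ (i : ℕ)) he
    have h2 : (Polynomial.C ((7 : ℤ_[7]) ^ ∑ i : Fin n, (i : ℕ)) : Zy) ≠ 0 := by
      rw [Ne, Polynomial.C_eq_zero]
      refine pow_ne_zero _ ?_
      intro h
      exact h7 (by rw [h, map_zero])
    exact mul_left_cancel₀ h2 h1
  have hmin : ∀ {n : ℕ} (a : Fin n → ℕ),
      (Matrix.of fun i j : Fin n ↦ C (a i + 1) (a j + 1)).det =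
        (Pot.minor (PS e) a a).eval₂ iota7 y := by
    intro n a
    rw [f3_minor]
    exact congrArg Matrix.det (Matrix.ext fun i j ↦ hC1 _ _)
  have hcomb := comb7 (a := e) (by omega : e < 3)
  have hMe := hM e he
  rw [hfred]
  refine Cen3.newtonPolygon_fred_pr (by norm_num) hcpt _ (fun n ↦ ?_) ?_ ?_
  · rw [← hlead]
    exact (hmin fun i : Fin n ↦ (i : ℕ)).symm
  · intro A r hA hr' hb n a _
    rw [hmin]
    exact Pot.final_weakW hcomb hMe iota7 hφ hy hA hr' (fun k ↦ by rw [hlead]; exact hb k) a a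
  · intro A r hA hr' n hn hb a ha han
    rw [hmin]
    refine Pot.final_strictW hcomb hMe iota7 hφ hy hA hr' (by rw [hlead]; exact hn)
      (fun k hk ↦ by rw [hlead]; exact hb k hk) a a ?_
    rw [Pot.le_gv_iff]
    exact Pot.gv_dvd_comp ((hr e n a a he).2 han) _

end GH.M7
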