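import Pool.Agent.GH.M7.Stm

/-!
# GH7-MAT, L5: the interpolation nodes
-/

namespace GH.M7

open GH.D7 GH.CombU

/-- The residue of the centres. -/
theorem nd_T7 {e n m : ℕ} (h : 1 ≤ T7 e n m) :
    m % 4 = (if e = 2 then 2 else 0) ∧ (m / 4 - if e = 1 then 1 else 0) / 2 < n := by
  unfold T7 t7 at h
  by_cases h1 : m % 4 = (if e = 2 then 2 else 0)
  · rw [if_pos h1] at h
    refine ⟨h1, ?_⟩
    have h2 : 1 ≤ n - (m / 4 - if e = 1 then 1 else 0) / 2 := h.trans (min_le_left _ _)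
    omega
  · rw [if_neg h1] at h
    omega

theorem nd_pp (e n i' : ℕ) (h : n < i') : pp e n i' ≤ (i' - n + 2) / 4 := by
  unfold pp
  have h1 : ∀ m ∈ (Finset.range (Z7 n)).filter (fun m => hi e n m ∧ m ≤ n + i'),
      m % 4 = (if e = 2 then 2 else 0) ∧ 2 * n < m ∧ m ≤ n + i' := by
    intro m hm
    rw [Finset.mem_filter] at hm
    exact ⟨(nd_T7 hm.2.1.2).1, hm.2.1.1, hm.2.2⟩
  have h2 := Finset.card_le_card_of_injOn (s := (Finset.range (Z7 n)).filter
    (fun m => hi e n m ∧ m ≤ n + i')) (t := Finset.range ((i' - n + 2) / 4))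
    (fun m => (m - 2 * n - 1) / 4) ?_ ?_
  · rwa [Finset.card_range] at h2
  · intro m hm
    obtain ⟨a, b, c⟩ := h1 m hm
    rw [Finset.coe_range, Set.mem_Iio]
    show (m - 2 * n - 1) / 4 < (i' - n + 2) / 4
    split_ifs at a <;> omega
  · intro m hm m' hm' he
    obtain ⟨a, b, c⟩ := h1 m hm
    obtain ⟨a', b', c'⟩ := h1 m' hm'
    have he' : (m - 2 * n - 1) / 4 = (m' - 2 * n - 1) / 4 := he
    split_ifs at a a' <;> omega

theorem nd_leg (k : ℕ) : 6 * padicValNat 7 k.factorial ≤ k := by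
  have h1 := sub_one_mul_padicValNat_factorial (p := 7) k
  have h2 : (7 - 1) * padicValNat 7 k.factorial ≤ k := by
    rw [h1]
    exact Nat.sub_le _ _
  exact h2

theorem nd_fac (K : ℕ) : ∑ j ∈ Finset.range K, padicValNat 7 (j + 1) =
    padicValNat 7 K.factorial := by
  induction K with
  | zero => simp
  | succ K ih =>
    rw [Finset.sum_range_succ, ih, Nat.factorial_succ,
      padicValNat.mul (Nat.succ_ne_zero K) (Nat.factorial_ne_zero K)]
    exact add_comm _ _

theorem nd_val {e z m : ℕ} (hm : m % 4 = (if e = 2 then 2 else 0)) (hz : m / 4 < z) :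
    padicValInt 7 ((cen e z : ℕ) - (m : ℤ)) = padicValNat 7 (z - m / 4 - 1 + 1) := by
  have h1 : (((cen e z : ℕ) : ℤ) - (m : ℤ)) = ((4 * (z - m / 4) : ℕ) : ℤ) := by
    have h2 : 4 * (z - m / 4) + m = cen e z := by
      unfold cen
      split_ifs at hm ⊢ <;> omega
    rw [← h2]
    push_cast
    ring
  rw [h1]
  have h3 : z - m / 4 - 1 + 1 = z - m / 4 := by omega
  rw [h3]
  show padicValNat 7 (Int.natAbs ((4 * (z - m / 4) : ℕ) : ℤ)) = _
  rw [Int.natAbs_natCast, padicValNat.mul (by norm_num) (by omega)]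
  have h4 : padicValNat 7 4 = 0 := padicValNat.eq_zero_of_not_dvd (by norm_num)
  rw [h4, zero_add]

theorem nd_QQ (e n z : ℕ) (hn : 1 ≤ n) (hz : 2 * n + (if e = 1 then 1 else 0) ≤ z) :
    6 * QQ e n (cen e z) ≤ 6 * (2 * n - n / 2) + (z - n / 2) := by
  unfold QQ
  set S := (Finset.range (Z7 n)).filter (fun m' => hi e n m') with hS
  have h1 : ∀ m ∈ S, m % 4 = (if e = 2 then 2 else 0) ∧
      (m / 4 - if e = 1 then 1 else 0) / 2 < n ∧ 2 * n < m := by
    intro m hm
    rw [hS, Finset.mem_filter] at hm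
    obtain ⟨a, b⟩ := nd_T7 hm.2.2
    exact ⟨a, b, hm.2.1⟩
  have hlt : ∀ m ∈ S, m / 4 < z := by
    intro m hm
    obtain ⟨a, b, c⟩ := h1 m hm
    split_ifs at b hz <;> omega
  have hge : ∀ m ∈ S, n / 2 + (if e = 2 then 0 else 1) ≤ m / 4 := by
    intro m hm
    obtain ⟨a, b, c⟩ := h1 m hm
    split_ifs at a ⊢ <;> omega
  have hle : ∀ m ∈ S, m / 4 ≤ 2 * n - 1 + (if e = 1 then 1 else 0) := by
    intro m hm
    obtain ⟨a, b, c⟩ := h1 m hm
    split_ifs at b ⊢ <;> omega
  have hinj : ∀ m ∈ S, ∀ m' ∈ S, m / 4 = m' / 4 → m = m' := by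
    intro m hm m' hm' h2
    obtain ⟨a, b, c⟩ := h1 m hm
    obtain ⟨a', b', c'⟩ := h1 m' hm'
    rw [← a'] at a
    omega
  -- the number of terms
  have hcard : S.card ≤ 2 * n - n / 2 := by
    have h2 := Finset.card_le_card_of_injOn (s := S)
      (t := Finset.Icc (n / 2 + (if e = 2 then 0 else 1)) (2 * n - 1 + (if e = 1 then 1 else 0)))
      (fun m => m / 4) (fun m hm => by
        rw [Finset.coe_Icc, Set.mem_Icc]
        exact ⟨hge m hm, hle m hm⟩) (fun m hm m' hm' h2 => hinj m hm m' hm' h2)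
    rw [Nat.card_Icc] at h2
    refine h2.trans ?_
    split_ifs <;> omega
  -- the sum of the valuations
  have hsum : ∑ m ∈ S, padicValInt 7 ((cen e z : ℕ) - (m : ℤ)) ≤
      padicValNat 7 (z - n / 2).factorial := by
    rw [← nd_fac]
    have h2 : ∑ m ∈ S, padicValInt 7 ((cen e z : ℕ) - (m : ℤ)) =
        ∑ j ∈ S.image (fun m => z - m / 4 - 1), padicValNat 7 (j + 1) := by
      rw [Finset.sum_image]
      · exact Finset.sum_congr rfl fun m hm => nd_val (h1 m hm).1 (hlt m hm)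
      · intro m hm m' hm' h2
        have h3 : z - m / 4 - 1 = z - m' / 4 - 1 := h2
        have h4 := hlt m hm
        have h5 := hlt m' hm'
        exact hinj m hm m' hm' (by omega)
    rw [h2]
    refine Finset.sum_le_sum_of_subset fun j hj => ?_
    obtain ⟨m, hm, rfl⟩ := Finset.mem_image.1 hj
    rw [Finset.mem_range]
    have h4 := hlt m hm
    have h5 := hge m hm
    have h6 : n / 2 ≤ m / 4 := (Nat.le_add_right _ _).trans h5
    omega
  have hleg := nd_leg (z - n / 2)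
  have htot : ∑ m ∈ S, (1 + padicValInt 7 ((cen e z : ℕ) - (m : ℤ))) =
      S.card + ∑ m ∈ S, padicValInt 7 ((cen e z : ℕ) - (m : ℤ)) := by
    rw [Finset.sum_add_distrib, Finset.sum_const, smul_eq_mul, mul_one]
  rw [htot]
  omega

/-- The interpolation nodes. -/
theorem spNode : SpNode := by
  intro e n i' he hn hi'
  have hpp := nd_pp e n i' hi'
  set R := pp e n i' + (i' - n) with hR
  have hR1 : R ≤ (i' - n) + (i' - n + 2) / 4 := by omega
  refine ⟨2 * i' - R + (if e = 1 then 1 else 0), fun r hr => ?_⟩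
  set z := 2 * i' - R + (if e = 1 then 1 else 0) + r with hz
  have hz1 : 2 * n + (if e = 1 then 1 else 0) ≤ z := by omega
  have hz2 : z ≤ 2 * i' - 1 + (if e = 1 then 1 else 0) := by omega
  have hc4 : cen e z / 4 = z := by
    unfold cen
    split_ifs <;> omega
  refine ⟨?_, ?_, ?_, fun r' hr' => ?_⟩
  · by_contra h0
    have h1 := (nd_T7 (Nat.one_le_iff_ne_zero.2 h0)).2
    rw [hc4] at h1
    omega
  · unfold tz
    omega
  · unfold cen
    omega
  · have h1 := nd_leg r'
    have h2 := nd_QQ e n z hn hz1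
    unfold lam
    omega

end GH.M7
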