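import Pool.Agent.GH.M7.Stm
import Pool.Agent.GH.MatU.OrdV

/-!
# GH7-MAT, row GH7-D1: the order of the minors at the centres
-/

noncomputable section

namespace GH.M7

open GH.D7 GH.CombU

theorem ord7_sum (t : ℕ) (f : ℕ → ℚ) :
    ∑ l ∈ Finset.Icc 1 t, f l = ∑ l : Fin t, f (l + 1) := by
  have h1 : Finset.Icc 1 t = Finset.Ico 1 (t + 1) := by
    ext l
    rw [Finset.mem_Icc, Finset.mem_Ico]
    omega
  rw [h1, Finset.sum_Ico_eq_sum_range, Nat.add_sub_cancel,
    ← Fin.sum_univ_eq_sum_range (fun l => f (1 + l))]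
  exact Finset.sum_congr rfl fun l _ => by rw [add_comm]

/-- D1: the order of the minors at the centres -/
theorem spOrd (h : SpJ) (h2 : SpVal) : SpOrd := by
  intro e z n a b A he hA
  obtain ⟨y, hy⟩ := h e z he
  have h1 : (Pot.minor (PM e) a b).map PadicInt.Coe.ringHom =
      (Matrix.of fun r s : Fin n => (PM e (a r) (b s)).map PadicInt.Coe.ringHom).det := by
    unfold Pot.minor
    rw [← Polynomial.coe_mapRingHom, RingHom.map_det]
    rfl
  rw [h1]
  refine MatU.pow_dvd_det_aux ((cen e z : ℕ) : ℚ_[7])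
    (fun r (l : Fin (tz e z)) =>
      ((PowerSeries.coeff (a r + 1) (xG e z ((l : ℕ) + 1)) : ℚ) : ℚ_[7]))
    (fun l s => ((y ((l : ℕ) + 1) (b s + 1) : ℚ) : ℚ_[7])) A.card A _ rfl fun r s hs => ?_
  obtain ⟨h3, h4⟩ := hA s hs
  have h5 : ((PM e (a r) (b s)).map PadicInt.Coe.ringHom).eval ((cen e z : ℕ) : ℚ_[7]) =
      ((MQ e z (a r + 1) (b s + 1) : ℚ) : ℚ_[7]) := by
    rw [← h2 e z (a r) (b s) he, Polynomial.eval_natCast_map]
    rfl
  show ((PM e (a r) (b s)).map PadicInt.Coe.ringHom).eval ((cen e z : ℕ) : ℚ_[7]) = _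
  rw [h5, hy (a r + 1) (b s + 1) (by omega) (by omega) h3, if_neg (h4 r), sub_zero, ord7_sum,
    Rat.cast_sum]
  exact Finset.sum_congr rfl fun l _ => Rat.cast_mul _ _

end GH.M7
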