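import Pool.Agent.GH.M7.Stm

/-!
# GH7-MAT, row L4: orders of two families of minors
-/

set_option autoImplicit false

open PowerSeries

noncomputable section

namespace GH.M7

open GH.D7 GH.CombU

private theorem ol_t7 (e z : ℕ) : t7 e (cen e z) = tz e z := by
  unfold t7 cen tz
  have h : (4 * z + if e = 2 then 2 else 0) / 4 = z := by
    split_ifs <;> omega
  rw [h]

private theorem ol_T7 (e z n : ℕ) :
    T7 e n (cen e z) ≤ min (n - tz e z) (cen e z - 1 - tz e z - n) := by
  unfold T7
  rw [ol_t7]
  by_cases h : cen e z % 4 = if e = 2 then 2 else 0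
  · rw [if_pos h]
  · rw [if_neg h]
    exact Nat.zero_le _

private theorem ol_card_one {N : ℕ} (P : Fin N → Prop) [DecidablePred P] {k : ℕ} (x : ℕ)
    (hk : k ≤ N) (h : ∀ s : Fin N, (s : ℕ) < k → (s : ℕ) ≠ x → P s) :
    k - 1 ≤ (Finset.univ.filter P).card := by
  have h1 : (Finset.range k).erase x ⊆ (Finset.univ.filter P).image Fin.val := by
    intro s hs
    rw [Finset.mem_erase, Finset.mem_range] at hs
    rw [Finset.mem_image]
    exact ⟨⟨s, by omega⟩, Finset.mem_filter.2 ⟨Finset.mem_univ _, h _ hs.2 hs.1⟩, rfl⟩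
  have h2 := Finset.card_le_card h1
  have h3 : ((Finset.univ.filter P).image Fin.val).card ≤ (Finset.univ.filter P).card :=
    Finset.card_image_le
  have h4 := Finset.pred_card_le_card_erase (s := Finset.range k) (a := x)
  rw [Finset.card_range] at h4
  omega

private theorem ol_card {N : ℕ} (P : Fin N → Prop) [DecidablePred P] {k : ℕ}
    (hk : k ≤ N) (h : ∀ s : Fin N, (s : ℕ) < k → P s) :
    k ≤ (Finset.univ.filter P).card := by
  have h1 : Finset.range k ⊆ (Finset.univ.filter P).image Fin.val := by
    intro s hs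
    rw [Finset.mem_range] at hs
    rw [Finset.mem_image]
    exact ⟨⟨s, by omega⟩, Finset.mem_filter.2 ⟨Finset.mem_univ _, h _ hs⟩, rfl⟩
  have h2 := Finset.card_le_card h1
  have h3 : ((Finset.univ.filter P).image Fin.val).card ≤ (Finset.univ.filter P).card :=
    Finset.card_image_le
  rw [Finset.card_range] at h2
  omega

/-- Row L4. -/
theorem spOrdL (h : SpOrd) : SpOrdL := by
  intro e z n he
  have hT := ol_T7 e z (n + 1)
  refine ⟨fun i hi => ?_, fun j hj => ?_⟩
  · refine (pow_dvd_pow _ ?_).trans (h e z (n + 1) (up n i) (idf (n + 1))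
      (Finset.univ.filter fun s : Fin (n + 1) =>
        (s : ℕ) + 1 + n < cen e z ∧ (s : ℕ) + i + 2 ≠ cen e z) he ?_)
    · by_cases h2 : 2 * (n + 1) < cen e z
      · by_cases h3 : cen e z ≤ n + i + 2
        · rw [if_pos ⟨h2, h3⟩]
          have h4 := ol_card_one (fun s : Fin (n + 1) =>
            (s : ℕ) + 1 + n < cen e z ∧ (s : ℕ) + i + 2 ≠ cen e z) (k := n + 1)
            (cen e z - i - 2) le_rfl (fun s hs hx => ⟨by omega, by omega⟩)
          omega
        · rw [if_neg (fun h => h3 h.2)]
          have h4 := ol_card (fun s : Fin (n + 1) =>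
            (s : ℕ) + 1 + n < cen e z ∧ (s : ℕ) + i + 2 ≠ cen e z) (k := n + 1)
            le_rfl (fun s hs => ⟨by omega, by omega⟩)
          omega
      · rw [if_neg (fun h => h2 h.1)]
        have h4 := ol_card_one (fun s : Fin (n + 1) =>
          (s : ℕ) + 1 + n < cen e z ∧ (s : ℕ) + i + 2 ≠ cen e z) (k := cen e z - 1 - n)
          (cen e z - i - 2) (by omega) (fun s hs hx => ⟨by omega, by omega⟩)
        omega
    · intro s hs
      rw [Finset.mem_filter] at hs
      obtain ⟨_, hs1, hs2⟩ := hs
      refine ⟨?_, fun r => ?_⟩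
      · show (s : ℕ) + 1 < cen e z
        omega
      · show up n i r + 1 + ((s : ℕ) + 1) ≠ cen e z
        unfold up
        split_ifs with hr
        · omega
        · omega
  · refine (pow_dvd_pow _ ?_).trans (h e z n (idf n) (sk n j)
      (Finset.univ.filter fun s : Fin n => sk n j s + 1 + n < cen e z) he ?_)
    · have h5 : ∀ s : Fin n, sk n j s ≤ s + 1 := by
        intro s
        unfold sk
        split_ifs <;> omega
      by_cases h2 : 2 * (n + 1) < cen e z
      · rw [if_pos h2]
        have h4 := ol_card (fun s : Fin n => sk n j s + 1 + n < cen e z) (k := n)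
          le_rfl (fun s hs => by have := h5 s; omega)
        omega
      · rw [if_neg h2]
        have h4 := ol_card (fun s : Fin n => sk n j s + 1 + n < cen e z)
          (k := cen e z - 2 - n) (by omega) (fun s hs => by have := h5 s; omega)
        omega
    · intro s hs
      rw [Finset.mem_filter] at hs
      refine ⟨by omega, fun r => ?_⟩
      have hr : (r : ℕ) < n := r.2
      show (r : ℕ) + 1 + (sk n j s + 1) ≠ cen e z
      omega

end GH.M7
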