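import Pool.Agent.GH.M7.Stm

/-!
# GH7-MAT, rows W3 and W4: the scaled matrix and its minors
-/

set_option autoImplicit false

open PowerSeries

noncomputable section

namespace GH.M7

open GH.D7 GH.CombU

/-- Growth of the coefficients. -/
private def GR (w : ℕ → ℕ) (F : PowerSeries Zy) : Prop :=
  ∀ n, Polynomial.C ((7 : ℤ_[7]) ^ w n) ∣ coeff n F

private theorem ps_le {k l : ℕ} {P : Zy} (hkl : k ≤ l)
    (h : Polynomial.C ((7 : ℤ_[7]) ^ l) ∣ P) : Polynomial.C ((7 : ℤ_[7]) ^ k) ∣ P :=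
  (map_dvd Polynomial.C (pow_dvd_pow _ hkl)).trans h

private theorem ps_ne (k : ℕ) : (Polynomial.C ((7 : ℤ_[7]) ^ k) : Zy) ≠ 0 := by
  rw [Ne, Polynomial.C_eq_zero]
  exact pow_ne_zero _ (by norm_num)

private theorem GR_mul {w w1 w2 : ℕ → ℕ} {F G : PowerSeries Zy} (hF : GR w1 F) (hG : GR w2 G)
    (hw : ∀ a b, w (a + b) ≤ w1 a + w2 b) : GR w (F * G) := by
  intro n
  rw [coeff_mul]
  refine Finset.dvd_sum fun p hp => ?_
  rw [Finset.HasAntidiagonal.mem_antidiagonal] at hp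
  subst hp
  refine ps_le (hw _ _) ?_
  rw [pow_add, map_mul]
  exact mul_dvd_mul (hF _) (hG _)

private theorem GR_one {w : ℕ → ℕ} (h0 : w 0 = 0) : GR w 1 := by
  intro n
  rw [coeff_one]
  split_ifs with h
  · subst h
    rw [h0, pow_zero, map_one]
  · exact dvd_zero _

private theorem GR_pow {w : ℕ → ℕ} {F : PowerSeries Zy} (hF : GR w F) (h0 : w 0 = 0)
    (hw : ∀ a b, w (a + b) ≤ w a + w b) (k : ℕ) : GR w (F ^ k) := by
  induction k with
  | zero =>
    rw [pow_zero]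
    exact GR_one h0
  | succ k ih =>
    rw [pow_succ]
    exact GR_mul ih hF hw

private theorem GR_map {w : ℕ → ℕ} {F : PowerSeries ℤ_[7]}
    (hF : ∀ n, (7 : ℤ_[7]) ^ w n ∣ coeff n F) : GR w (PowerSeries.map Polynomial.C F) := by
  intro n
  rw [coeff_map]
  exact map_dvd Polynomial.C (hF n)

private theorem GR_S (h : SpV) : GR (fun n => (n + 3) / 4) (S7 Zy) := by
  have := GR_map h.2.2.2.1
  rwa [map_S7] at this

private theorem GR_Y (h : SpV) : GR (fun n => (n + 1) / 4) (Y7 Zy) := by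
  have := GR_map h.2.2.2.2
  rwa [map_Y7] at this

private theorem GR_V (h : SpV) (k : ℕ) :
    GR (fun n => (n + 3) / 4) (PowerSeries.map Polynomial.C (Vz ^ k)) := by
  rw [map_pow]
  refine GR_pow (GR_map h.2.2.1) (by norm_num) (fun a b => ?_) k
  show _ / 4 ≤ _
  omega

private theorem GR_Ye (h : SpV) {k : ℕ} (hk : k ≤ 2) :
    GR (fun n => (n - 1) / 4) (Y7 Zy ^ k) := by
  interval_cases k
  · rw [pow_zero]
    exact GR_one (by norm_num)
  · rw [pow_one]
    intro n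
    refine ps_le ?_ (GR_Y h n)
    show _ / 4 ≤ _ / 4
    omega
  · rw [pow_two]
    refine GR_mul (GR_Y h) (GR_Y h) fun a b => ?_
    show _ / 4 ≤ _ / 4 + _ / 4
    omega

private theorem ps_ey (e : ℕ) : ey7 e ≤ 2 := by
  unfold ey7
  split_ifs <;> norm_num

/-- The key divisibility. -/
private theorem ps_key (h : SpV) (h2 : SpLY) (e i j : ℕ) (hj : j + 1 ≤ 7 * (i + 1)) :
    Polynomial.C ((7 : ℤ_[7]) ^ ((5 * (7 * (i + 1) - (j + 1)) + 3) / 24)) ∣ PM e i j := by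
  unfold PM
  rw [if_pos hj]
  have a1 : GR (fun n => (n - 1) / 4)
      (PowerSeries.map Polynomial.C (Vz ^ (2 * ey7 e)) * Y7 Zy ^ ey7 e) := by
    refine GR_mul (GR_V h _) (GR_Ye h (ps_ey e)) fun a b => ?_
    show _ / 4 ≤ _ / 4 + _ / 4
    omega
  have a2 : GR (fun n => (n - 1) / 4)
      (PowerSeries.map Polynomial.C (Vz ^ (2 * ey7 e)) * Y7 Zy ^ ey7 e *
        S7 Zy ^ (2 * (i + 1))) := by
    refine GR_mul a1 (GR_pow (GR_S h) (by norm_num) (fun a b => ?_) _) fun a b => ?_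
    · show _ / 4 ≤ _
      omega
    · show _ / 4 ≤ _ / 4 + _ / 4
      omega
  have a3 : GR (fun n => (5 * n + 3) / 24)
      (PowerSeries.map Polynomial.C (Vz ^ (2 * ey7 e)) * Y7 Zy ^ ey7 e *
        S7 Zy ^ (2 * (i + 1)) * LY) := by
    refine GR_mul a2 (w2 := fun n => (5 * n + 23) / 24) h2 fun a b => ?_
    show _ / 24 ≤ _ / 4 + _ / 24
    omega
  exact a3 _

private theorem ps_dvd (h : SpV) (h2 : SpLY) (e i j : ℕ) :
    Polynomial.C ((7 : ℤ_[7]) ^ (i + (j + 1) / 2)) ∣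
      Polynomial.C ((7 : ℤ_[7]) ^ j) * PM e i j := by
  by_cases hj : j + 1 ≤ 7 * (i + 1)
  · have h3 : Polynomial.C ((7 : ℤ_[7]) ^ (j + (5 * (7 * (i + 1) - (j + 1)) + 3) / 24)) ∣
        Polynomial.C ((7 : ℤ_[7]) ^ j) * PM e i j := by
      rw [pow_add, map_mul]
      exact mul_dvd_mul_left _ (ps_key h h2 e i j hj)
    exact ps_le (by omega) h3
  · unfold PM
    rw [if_neg hj, mul_zero]
    exact dvd_zero _

/-- Row W3. -/
theorem spPS (h : SpV) (h2 : SpLY) : SpPS := by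
  intro e i j _
  obtain ⟨P, hP⟩ := ps_dvd h h2 e i j
  have hex : ∃ P : Zy, Polynomial.C ((7 : ℤ_[7]) ^ i) * P =
      Polynomial.C ((7 : ℤ_[7]) ^ j) * PM e i j := by
    refine ⟨Polynomial.C ((7 : ℤ_[7]) ^ ((j + 1) / 2)) * P, ?_⟩
    rw [hP, pow_add, map_mul, mul_assoc]
  have h1 : Polynomial.C ((7 : ℤ_[7]) ^ i) * PS e i j =
      Polynomial.C ((7 : ℤ_[7]) ^ j) * PM e i j := by
    unfold PS
    rw [dif_pos hex]
    exact hex.choose_spec
  refine ⟨h1, ⟨P, ?_⟩⟩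
  apply mul_left_cancel₀ (ps_ne i)
  rw [h1, hP, pow_add, map_mul, mul_assoc]

/-- Row W4. -/
theorem spScale (h : SpPS) : SpScale := by
  intro e n a b he
  have h1 := Matrix.det_mul_column (fun i => (Polynomial.C ((7 : ℤ_[7]) ^ a i) : Zy))
    (Matrix.of fun i j => PS e (a i) (b j))
  have h2 := Matrix.det_mul_row (fun j => (Polynomial.C ((7 : ℤ_[7]) ^ b j) : Zy))
    (Matrix.of fun i j => PM e (a i) (b j))
  have h3 : (Matrix.of fun i j => Polynomial.C ((7 : ℤ_[7]) ^ a i) *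
      (Matrix.of fun i j => PS e (a i) (b j)) i j) =
      (Matrix.of fun i j => Polynomial.C ((7 : ℤ_[7]) ^ b j) *
      (Matrix.of fun i j => PM e (a i) (b j)) i j) := by
    exact Matrix.ext fun i j => (h e (a i) (b j) he).1
  rw [h3, h2] at h1
  unfold Pot.minor
  rw [← Finset.prod_pow_eq_pow_sum, ← Finset.prod_pow_eq_pow_sum, map_prod, map_prod]
  exact h1.symm

end GH.M7
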