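import Pool.Agent.GH.M7.Stm

/-!
# GH7-MAT, row L7: values of the minors of `PX` at the nodes (helper95)
-/

noncomputable section

namespace GH.M7

open Polynomial GH.D7 GH.CombU

/-- Expansion along the last row. -/
theorem pv_exp {S : Type} [CommRing S] (M : ℕ → ℕ → S) (n i : ℕ) :
    Pot.minor M (up n i) (idf (n + 1)) =
      ∑ j : Fin (n + 1), (-1) ^ (n + (j : ℕ)) * M i j * Pot.minor M (idf n) (sk n j) := by
  unfold Pot.minor
  rw [Matrix.det_succ_row _ (Fin.last n)]
  refine Finset.sum_congr rfl fun j _ => ?_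
  rw [Fin.val_last]
  have h1 : (Matrix.of fun (r c : Fin (n + 1)) => M (up n i r) (idf (n + 1) c))
      (Fin.last n) j = M i j := by
    show M (up n i (Fin.last n)) (idf (n + 1) j) = M i j
    have h2 : up n i (Fin.last n) = i := by
      unfold up
      rw [Fin.val_last, if_neg (lt_irrefl n)]
    rw [h2]
    rfl
  have h3 : (Matrix.of fun (r c : Fin (n + 1)) => M (up n i r) (idf (n + 1) c)).submatrix
      (Fin.last n).succAbove j.succAbove =
      Matrix.of fun (r c : Fin n) => M (idf n r) (sk n j c) := by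
    ext r c
    show M (up n i ((Fin.last n).succAbove r)) (idf (n + 1) (j.succAbove c)) =
      M (idf n r) (sk n j c)
    have h4 : up n i ((Fin.last n).succAbove r) = idf n r := by
      rw [Fin.succAbove_last]
      unfold up idf
      rw [Fin.val_castSucc, if_pos r.2]
    have h5 : idf (n + 1) (j.succAbove c) = sk n j c := by
      unfold idf sk
      by_cases h6 : (c : ℕ) < j
      · rw [if_pos h6, Fin.succAbove_of_castSucc_lt _ _ (by
          rw [Fin.lt_def, Fin.val_castSucc]
          exact h6), Fin.val_castSucc]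
      · rw [if_neg h6, Fin.succAbove_of_le_castSucc _ _ (by
          rw [Fin.le_def, Fin.val_castSucc]
          exact not_lt.1 h6), Fin.val_succ]
    rw [h4, h5]
  rw [h1, h3]

/-- The value of the minors of `PX` with the rows `0, …, n-1, i` at the nodes. -/
theorem spPval (h1 : SpKey) (h2 : SpRow) (h3 : SpTT) (h4 : SpRval) : SpPval := by
  intro e n i z he hi hT hz hn
  have h5 : ∀ j : ℕ, Pot.minor (PX e) (idf n) (sk n j) = Pot.minor (PM e) (idf n) (sk n j) :=
    fun j => (h2 Zy (PX e) (PM e) (TT e) n (fun k _ => (h3 e he).1 k)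
      (fun k _ l => rfl)).1 n (sk n j) le_rfl
  rw [pv_exp, eval_finsetSum, Finset.mul_sum]
  refine Finset.dvd_sum fun j _ => ?_
  have hj : (j : ℕ) ≤ n := Nat.lt_succ_iff.1 j.2
  rw [h5, eval_mul, eval_mul]
  have h6 := h1 e z i j he hz (by omega)
  have h7 : (7 : ℤ_[7]) ^ (lam e z + i - j) ∣ (PX e i j).eval (cen e z : ℤ_[7]) := by
    have h8 : (7 : ℤ_[7]) ^ (lam e z + i) = 7 ^ (j : ℕ) * 7 ^ (lam e z + i - j) := by
      rw [← pow_add]
      congr 1
      omega
    rw [h8] at h6
    exact (mul_dvd_mul_iff_left (pow_ne_zero _ (by norm_num))).1 h6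
  have h9 := h4 e n j (cen e z) he hj hT
  have h10 : (7 : ℤ_[7]) ^ (FF e (n + 1) (cen e z) + lam e z + (i - n)) ∣
      7 ^ (lam e z + i - j) * 7 ^ FF e (n + 1) (cen e z) := by
    rw [← pow_add]
    exact pow_dvd_pow _ (by omega)
  refine h10.trans ?_
  obtain ⟨a, ha⟩ := h7
  obtain ⟨b, hb⟩ := h9
  refine ⟨((-1 : Zy) ^ (n + (j : ℕ))).eval (cen e z : ℤ_[7]) * a * b, ?_⟩
  rw [ha]
  linear_combination ((-1 : Zy) ^ (n + (j : ℕ))).eval (cen e z : ℤ_[7]) *
    7 ^ (lam e z + i - j) * a * hb

end GH.M7
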