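import Pool.Agent.GH.M7.Stm
import Pool.Agent.GH.D7.Fix7

/-!
# GH7-MAT, row J3: the recursion of `V` from the octic equation
-/

open PowerSeries

noncomputable section

namespace GH.M7

open GH.D7 GH.CombU

namespace Rec

theorem const_S : constantCoeff (S7 ℚ) = ((1 : ℚˣ) : ℚ) := by
  rw [constantCoeff_S7]
  rfl

theorem S_Si : S7 ℚ * Si ℚ = 1 := PowerSeries.mul_invOfUnit _ _ const_S

/-- `S` as a unit -/
def Su : (PowerSeries ℚ)ˣ where
  val := S7 ℚ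
  inv := Si ℚ
  val_inv := S_Si
  inv_val := by rw [mul_comm]; exact S_Si

theorem Sz_eq (β : ℤ) : Sz β = ((Su ^ β : (PowerSeries ℚ)ˣ) : PowerSeries ℚ) := by
  unfold Sz
  by_cases h : 0 ≤ β
  · obtain ⟨n, rfl⟩ := Int.eq_ofNat_of_zero_le h
    rw [if_pos h, Int.toNat_natCast, zpow_natCast, Units.val_pow_eq_pow_val]
    rfl
  · obtain ⟨n, hn⟩ := Int.eq_ofNat_of_zero_le (show 0 ≤ -β by omega)
    have h1 : β = -(n : ℤ) := by omega
    rw [if_neg h, hn, Int.toNat_natCast, h1, zpow_neg, zpow_natCast, ← inv_pow,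
      Units.val_pow_eq_pow_val]
    rfl

theorem Sz_add (β : ℤ) (k : ℕ) : Sz (β + k) = Sz β * S7 ℚ ^ k := by
  rw [Sz_eq, Sz_eq, zpow_add, Units.val_mul, zpow_natCast, Units.val_pow_eq_pow_val]
  rfl

theorem co_neg {n : ℤ} (h : n < 0) (F : PowerSeries ℚ) : co n F = 0 := if_neg (by omega)

theorem co_nat (n : ℕ) (F : PowerSeries ℚ) : co n F = coeff n F := by
  unfold co
  rw [if_pos (by omega), Int.toNat_natCast]

theorem co_add (n : ℤ) (F G : PowerSeries ℚ) : co n (F + G) = co n F + co n G := by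
  unfold co
  split_ifs <;> simp

theorem co_sub (n : ℤ) (F G : PowerSeries ℚ) : co n (F - G) = co n F - co n G := by
  unfold co
  split_ifs <;> simp

theorem co_C_mul (n : ℤ) (c : ℚ) (F : PowerSeries ℚ) : co n (C c * F) = c * co n F := by
  unfold co
  split_ifs <;> simp

theorem co_X_pow_mul (n : ℤ) (k : ℕ) (F : PowerSeries ℚ) : co n (X ^ k * F) = co (n - k) F := by
  unfold co
  by_cases h1 : 0 ≤ n
  · rw [if_pos h1, coeff_X_pow_mul']
    by_cases h2 : k ≤ n.toNat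
    · rw [if_pos h2, if_pos (by omega)]
      congr 1
      congr 1
      omega
    · rw [if_neg h2, if_neg (by omega)]
  · rw [if_neg h1, if_neg (by omega)]

end Rec

open Rec

theorem spRec (hK : GH.D7.K7) : SpRec := by
  intro e _ N s
  set κ : ℚ := if e = 1 then -1 else 7 with hκ
  set η : ℤ := if e = 2 then 2 else 0 with hη
  set b : ℤ := 2 * s - 8 - N - sh7 e with hb
  set U : PowerSeries ℚ := Y7 ℚ ^ ey7 e * Sz (b - 7) with hU
  have hUk : ∀ (β : ℤ) (k : ℕ), β = b - 7 + k → Y7 ℚ ^ ey7 e * Sz β = U * S7 ℚ ^ k := by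
    intro β k h
    rw [h, Sz_add, hU]
    ring
  have hid : U * S7 ℚ ^ 8 = U * S7 ℚ ^ 7 + C (14 : ℚ) * (X ^ 1 * (U * S7 ℚ ^ 7)) +
      C (63 : ℚ) * (X ^ 2 * (U * S7 ℚ ^ 7)) + C (70 : ℚ) * (X ^ 3 * (U * S7 ℚ ^ 7)) -
      C (7 : ℚ) * (X ^ 4 * (U * S7 ℚ ^ 7)) + C (490 : ℚ) * (X ^ 7 * (U * S7 ℚ ^ 6)) +
      C (21609 : ℚ) * (X ^ 14 * (U * S7 ℚ ^ 4)) + C (235298 : ℚ) * (X ^ 21 * (U * S7 ℚ ^ 2)) +
      C (823543 : ℚ) * (X ^ 28 * (U * S7 ℚ ^ 0)) := by
    rw [S7_fix hK ℚ]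
    ring
  set n : ℤ := 7 * s - 28 - 4 * N - η with hn
  have hc := congrArg (co n) hid
  simp only [co_add, co_sub, co_C_mul, co_X_pow_mul] at hc
  push_cast at hc
  have hV : ∀ (M t m : ℤ) (k : ℕ), 7 * t - 4 * M - η = m → 2 * t - M - sh7 e = b - 7 + k →
      VV e M t = (if t = 0 then 1 else 0) + κ * (-7 : ℚ) ^ M * co m (U * S7 ℚ ^ k) := by
    intro M t m k h1 h2
    unfold VV
    rw [← hκ, ← hη, h1, hUk _ k h2]
  have v8 := hV (N + 8) s (n - 4) 7 (by rw [hn]; ring) (by rw [hb]; push_cast; ring)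
  have v7 := hV (N + 7) s n 8 (by rw [hn]; ring) (by rw [hb]; push_cast; ring)
  have v71 := hV (N + 7) (s - 1) (n - 7) 6 (by rw [hn]; ring) (by rw [hb]; push_cast; ring)
  have v72 := hV (N + 7) (s - 2) (n - 14) 4 (by rw [hn]; ring) (by rw [hb]; push_cast; ring)
  have v73 := hV (N + 7) (s - 3) (n - 21) 2 (by rw [hn]; ring) (by rw [hb]; push_cast; ring)
  have v74 := hV (N + 7) (s - 4) (n - 28) 0 (by rw [hn]; ring) (by rw [hb]; push_cast; ring)
  have v6 := hV (N + 6) (s - 1) (n - 3) 7 (by rw [hn]; ring) (by rw [hb]; push_cast; ring)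
  have v4 := hV (N + 4) (s - 2) (n - 2) 7 (by rw [hn]; ring) (by rw [hb]; push_cast; ring)
  have v2 := hV (N + 2) (s - 3) (n - 1) 7 (by rw [hn]; ring) (by rw [hb]; push_cast; ring)
  have v0 := hV N (s - 4) n 7 (by rw [hn]; ring) (by rw [hb]; push_cast; ring)
  unfold eO
  rw [v8, v7, v71, v72, v73, v74, v6, v4, v2, v0]
  have z : ∀ j : ℕ, (-7 : ℚ) ^ (N + j) = (-7) ^ N * (-7) ^ j := by
    intro j
    rw [zpow_add₀ (by norm_num), zpow_natCast]
  have z8 := z 8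
  have z7 := z 7
  have z6 := z 6
  have z4 := z 4
  have z2 := z 2
  push_cast at z8 z7 z6 z4 z2
  rw [z8, z7, z6, z4, z2]
  linear_combination (κ * (-7) ^ N * 823543) * hc

end GH.M7
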