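import Pool.Agent.GH.M7.Stm2

/-!
# GH7-MAT: the seven conjugates `X(ζ^r q)`
-/

open PowerSeries

noncomputable section

namespace GH.M7

open GH.D7 GH.CombU

theorem jrt_oct {A : Type*} [CommRing A] (T a g e : A) (hg : g = T ^ 7 * a ^ 2)
    (he : e = (1 + 14 * T + 63 * T ^ 2 + 70 * T ^ 3 - 7 * T ^ 4) * a) :
    (-7 * T ^ 4 * a) ^ 8 = e * (-7 * T ^ 4 * a) ^ 7 + 490 * g * (-7 * T ^ 4 * a) ^ 6 +
      21609 * g ^ 2 * (-7 * T ^ 4 * a) ^ 4 + 235298 * g ^ 3 * (-7 * T ^ 4 * a) ^ 2 +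
      823543 * g ^ 4 := by
  subst hg he
  ring

theorem jrt_der {A : Type*} [CommRing A] (T a g e p y : A) (hg : g = T ^ 7 * a ^ 2)
    (he : e = (1 + 14 * T + 63 * T ^ 2 + 70 * T ^ 3 - 7 * T ^ 4) * a)
    (hy : p * y = 1 + 5 * T + T ^ 2) :
    8 * (-7 * T ^ 4 * a) ^ 8 - 7 * e * (-7 * T ^ 4 * a) ^ 7 -
      6 * (490 * g) * (-7 * T ^ 4 * a) ^ 6 - 4 * (21609 * g ^ 2) * (-7 * T ^ 4 * a) ^ 4 -
      2 * (235298 * g ^ 3) * (-7 * T ^ 4 * a) ^ 2 =
      -7 * (-7 * T ^ 4 * a) ^ 7 * p ^ 2 * (y ^ 2 * a) := by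
  have h : -7 * (-7 * T ^ 4 * a) ^ 7 * p ^ 2 * (y ^ 2 * a) =
      -7 * (-7 * T ^ 4 * a) ^ 7 * (p * y) ^ 2 * a := by ring
  rw [h, hy]
  subst hg he
  ring

/-! ### the root of unity -/

theorem jrt_prim : IsPrimitiveRoot zetaC 7 := by
  have h := Complex.isPrimitiveRoot_exp 7 (by norm_num)
  unfold zetaC
  exact_mod_cast h

theorem jrt_pow7 (r n : ℕ) (h : 7 ∣ n) : (zetaC ^ r) ^ n = 1 := by
  obtain ⟨m, rfl⟩ := h
  rw [← pow_mul, mul_comm r, mul_assoc, pow_mul, jrt_prim.pow_eq_one, one_pow]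

theorem jrt_gam (r : ℕ) : rescale (zetaC ^ r) gamC = gamC := by
  ext n
  rw [coeff_rescale]
  by_cases h : 7 ∣ n
  · rw [jrt_pow7 r n h, one_mul]
  · unfold gamC
    rw [coeff_expand_of_not_dvd _ _ _ h, mul_zero]

theorem jrt_C (c d : ℂ) : rescale d (C c : PowerSeries ℂ) = C c := by
  ext n
  rw [coeff_rescale, coeff_C]
  split_ifs with h
  · subst h
    rw [pow_zero, one_mul]
  · rw [mul_zero]

theorem jrt_e (r : ℕ) : rescale (zetaC ^ r) eC = eC := by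
  unfold eC
  simp only [map_sub, map_mul, map_pow, map_one, jrt_gam, jrt_C]

theorem jrt_ps (r : ℕ) : rescale (zetaC ^ r) psC = psC := by
  unfold psC
  simp only [map_add, map_mul, map_pow, map_one, jrt_gam, jrt_C]

/-! ### the series -/

theorem jrt_hs : HasSubst (hauptmodul 7 ℂ) := fx_hasSubst 7

theorem jrt_SSi : S7 ℂ * Si ℂ = 1 :=
  PowerSeries.mul_invOfUnit _ _ (by rw [constantCoeff_S7]; rfl)

/-- `1/S(f)`. -/
def jrtA : PowerSeries ℂ := (Si ℂ).subst (hauptmodul 7 ℂ)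

theorem jrt_SA : (S7 ℂ).subst (hauptmodul 7 ℂ) * jrtA = 1 := by
  unfold jrtA
  rw [← subst_mul jrt_hs, jrt_SSi, d7e_subst_one]

theorem jrt_g0 : gamC = hauptmodul 7 ℂ ^ 7 * jrtA ^ 2 := by
  have h1 := hauptmodul7_expand ℂ
  rw [subst_pow jrt_hs] at h1
  have h2 := jrt_SA
  change gamC * _ = _ at h1
  have h3 : ((S7 ℂ).subst (hauptmodul 7 ℂ) : PowerSeries ℂ) ^ 2 * jrtA ^ 2 = 1 := by
    rw [← mul_pow, h2, one_pow]
  linear_combination jrtA ^ 2 * h1 - gamC * h3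

theorem jrt_e0 (hK : K7) : eC = (1 + 14 * hauptmodul 7 ℂ + 63 * hauptmodul 7 ℂ ^ 2 +
    70 * hauptmodul 7 ℂ ^ 3 - 7 * hauptmodul 7 ℂ ^ 4) * jrtA := by
  have hs := jrt_hs
  have h1 := congrArg (fun F : PowerSeries ℂ => F.subst (hauptmodul 7 ℂ)) (d7e_R hK ℂ)
  simp only [subst_mul hs, subst_sub hs, subst_add hs, subst_pow hs, subst_X hs, d7e_subst_C,
    d7e_subst_one, gs7_subst] at h1
  have h2 := jrt_SA
  have e1 : (C (490 : ℂ) : PowerSeries ℂ) = 490 := map_ofNat C 490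
  have e2 : (C (21609 : ℂ) : PowerSeries ℂ) = 21609 := map_ofNat C 21609
  have e3 : (C (235298 : ℂ) : PowerSeries ℂ) = 235298 := map_ofNat C 235298
  have e4 : (C (823543 : ℂ) : PowerSeries ℂ) = 823543 := map_ofNat C 823543
  have e5 : (C (14 : ℂ) : PowerSeries ℂ) = 14 := map_ofNat C 14
  have e6 : (C (63 : ℂ) : PowerSeries ℂ) = 63 := map_ofNat C 63
  have e7 : (C (70 : ℂ) : PowerSeries ℂ) = 70 := map_ofNat C 70
  have e8 : (C (7 : ℂ) : PowerSeries ℂ) = 7 := map_ofNat C 7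
  have e9 : (hauptmodul 7 ℂ).expand 7 seven_ne = gamC := rfl
  unfold eC
  rw [e9] at h1
  rw [e1, e2, e3, e4, e5, e6, e7, e8] at h1
  rw [e1, e2, e3, e4]
  linear_combination jrtA * h1 - (1 - 490 * gamC - 21609 * gamC ^ 2 - 235298 * gamC ^ 3 -
    823543 * gamC ^ 4) * h2

theorem jrt_y0 : psC * (Y7 ℂ).subst (hauptmodul 7 ℂ) =
    1 + 5 * hauptmodul 7 ℂ + hauptmodul 7 ℂ ^ 2 := by
  have hs := jrt_hs
  have hg0 : PowerSeries.constantCoeff (gs7 ℂ) = 0 := by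
    unfold gs7
    simp
  have h0 : (1 + C (245 : ℂ) * gs7 ℂ + C (2401 : ℂ) * gs7 ℂ ^ 2) * Y7 ℂ =
      1 + C (5 : ℂ) * X + X ^ 2 := by
    have h1 : (1 + C (245 : ℂ) * gs7 ℂ + C (2401 : ℂ) * gs7 ℂ ^ 2) *
        invOfUnit (1 + C (245 : ℂ) * gs7 ℂ + C (2401 : ℂ) * gs7 ℂ ^ 2) 1 = 1 :=
      PowerSeries.mul_invOfUnit _ _ (by simp [hg0])
    unfold Y7
    linear_combination (1 + C (5 : ℂ) * X + X ^ 2) * h1
  have h1 := congrArg (fun F : PowerSeries ℂ => F.subst (hauptmodul 7 ℂ)) h0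
  simp only [subst_mul hs, subst_add hs, subst_pow hs, subst_X hs, d7e_subst_C,
    d7e_subst_one, gs7_subst] at h1
  have e5 : (C (5 : ℂ) : PowerSeries ℂ) = 5 := map_ofNat C 5
  rw [e5] at h1
  exact h1

/-! ### the conjugates -/

/-- `f(ζ^r q)`. -/
def jrtT (r : ℕ) : PowerSeries ℂ := rescale (zetaC ^ r) (hauptmodul 7 ℂ)

/-- `1/S(f(ζ^r q))`. -/
def jrtB (r : ℕ) : PowerSeries ℂ := rescale (zetaC ^ r) jrtA

theorem jrt_g (r : ℕ) : gamC = jrtT r ^ 7 * jrtB r ^ 2 := by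
  have h := congrArg (rescale (zetaC ^ r)) jrt_g0
  rw [jrt_gam, map_mul, map_pow, map_pow] at h
  exact h

theorem jrt_eT (hK : K7) (r : ℕ) : eC = (1 + 14 * jrtT r + 63 * jrtT r ^ 2 +
    70 * jrtT r ^ 3 - 7 * jrtT r ^ 4) * jrtB r := by
  have h := congrArg (rescale (zetaC ^ r)) (jrt_e0 hK)
  rw [jrt_e, map_mul] at h
  simp only [map_add, map_sub, map_mul, map_pow, map_one, map_ofNat] at h
  exact h

theorem jrt_y (r : ℕ) : psC * rescale (zetaC ^ r) ((Y7 ℂ).subst (hauptmodul 7 ℂ)) =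
    1 + 5 * jrtT r + jrtT r ^ 2 := by
  have h := congrArg (rescale (zetaC ^ r)) jrt_y0
  rw [map_mul, jrt_ps] at h
  simp only [map_add, map_mul, map_pow, map_one, map_ofNat] at h
  exact h

theorem jrt_X (r : ℕ) : rescale (zetaC ^ r) XC = -7 * jrtT r ^ 4 * jrtB r := by
  have e : (C (-7 : ℂ) : PowerSeries ℂ) = -7 := by rw [map_neg, map_ofNat]
  unfold XC
  rw [e]
  simp only [map_mul, map_pow, map_neg, map_ofNat]
  rfl

theorem jrt_R (r : ℕ) : rescale (zetaC ^ r) RC =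
    rescale (zetaC ^ r) ((Y7 ℂ).subst (hauptmodul 7 ℂ)) ^ 2 * jrtB r := by
  unfold RC
  rw [subst_mul jrt_hs, subst_pow jrt_hs, map_mul, map_pow]
  rfl

theorem jrt_rt {r : Fin 8} (h : (r : ℕ) ≠ 0) : rtC r = rescale (zetaC ^ (r : ℕ)) XC := by
  unfold rtC
  exact if_neg h

theorem jrt_rt0 {r : Fin 8} (h : (r : ℕ) = 0) : rtC r = 1 := by
  unfold rtC
  exact if_pos h

theorem jrt_cA : PowerSeries.constantCoeff jrtA = 1 := by
  have h := congrArg PowerSeries.constantCoeff jrt_SA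
  have h2 : PowerSeries.coeff 0 ((S7 ℂ).subst (hauptmodul 7 ℂ) : PowerSeries ℂ) = 1 := by
    rw [fx_coeff_subst, Finset.range_zero, Finset.sum_empty, zero_add,
      PowerSeries.coeff_zero_eq_constantCoeff_apply, constantCoeff_S7]
  rw [PowerSeries.coeff_zero_eq_constantCoeff_apply] at h2
  rw [map_mul, h2, one_mul, map_one] at h
  exact h

theorem jrt_c4 : PowerSeries.coeff 4 XC = -7 := by
  have e : XC = C (-7 : ℂ) * (X ^ 4 * (fxU 7 ℂ ^ 4 * jrtA)) := by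
    unfold XC
    rw [fx_haupt, mul_pow]
    change _ * jrtA = _
    ring
  rw [e, coeff_C_mul, PowerSeries.coeff_X_pow_mul', if_pos le_rfl, Nat.sub_self,
    PowerSeries.coeff_zero_eq_constantCoeff_apply, map_mul, map_pow, fx_constantCoeff_U, jrt_cA,
    one_pow, mul_one, mul_one]

theorem jrt_c0 : PowerSeries.coeff 0 XC = 0 := by
  have e : XC = C (-7 : ℂ) * (X ^ 4 * (fxU 7 ℂ ^ 4 * jrtA)) := by
    unfold XC
    rw [fx_haupt, mul_pow]
    change _ * jrtA = _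
    ring
  rw [e, coeff_C_mul, PowerSeries.coeff_X_pow_mul', if_neg (by norm_num), mul_zero]

theorem jrt_ne {r s : ℕ} (hr : 1 ≤ r) (hs : s < 8) (hrs : r < s)
    (h : rescale (zetaC ^ r) XC = rescale (zetaC ^ s) XC) : False := by
  have h1 := congrArg (PowerSeries.coeff 4) h
  rw [coeff_rescale, coeff_rescale, jrt_c4] at h1
  have h2 : (zetaC ^ r) ^ 4 = (zetaC ^ s) ^ 4 :=
    mul_right_cancel₀ (by norm_num : (-7 : ℂ) ≠ 0) h1
  have h3 : (zetaC ^ s) ^ 4 = (zetaC ^ r) ^ 4 * zetaC ^ (4 * (s - r)) := by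
    rw [← pow_mul, ← pow_mul, ← pow_add]
    congr 1
    omega
  have h4 : (zetaC ^ r) ^ 4 ≠ 0 := by
    apply pow_ne_zero
    apply pow_ne_zero
    exact jrt_prim.ne_zero (by norm_num)
  have h5 : zetaC ^ (4 * (s - r)) = 1 := by
    rw [h3] at h2
    have h6 : (zetaC ^ r) ^ 4 * zetaC ^ (4 * (s - r)) = (zetaC ^ r) ^ 4 * 1 := by
      rw [mul_one]
      exact h2.symm
    exact mul_left_cancel₀ h4 h6
  have h6 : 7 ∣ 4 * (s - r) := (jrt_prim.pow_eq_one_iff_dvd _).1 h5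
  omega

theorem jrt_inj : Function.Injective rtC := by
  intro r s h
  by_cases hr : (r : ℕ) = 0
  · by_cases hs : (s : ℕ) = 0
    · exact Fin.ext (hr.trans hs.symm)
    · exfalso
      rw [jrt_rt0 hr, jrt_rt hs] at h
      have h1 := congrArg (PowerSeries.coeff 0) h
      rw [coeff_rescale, jrt_c0, mul_zero, PowerSeries.coeff_zero_one] at h1
      exact one_ne_zero h1
  · by_cases hs : (s : ℕ) = 0
    · exfalso
      rw [jrt_rt0 hs, jrt_rt hr] at h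
      have h1 := congrArg (PowerSeries.coeff 0) h
      rw [coeff_rescale, jrt_c0, mul_zero, PowerSeries.coeff_zero_one] at h1
      exact one_ne_zero h1.symm
    · rw [jrt_rt hr, jrt_rt hs] at h
      rcases lt_trichotomy (r : ℕ) (s : ℕ) with h1 | h1 | h1
      · exact (jrt_ne (by omega) s.2 h1 h).elim
      · exact Fin.ext h1
      · exact (jrt_ne (by omega) r.2 h1 h.symm).elim

theorem jrt_fil (F : PowerSeries ℂ) : 7 * (U 7 F).expand 7 seven_ne =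
    ∑ r ∈ Finset.Icc 1 7, rescale (zetaC ^ r) F := by
  ext n
  have e7 : (7 : PowerSeries ℂ) = C (7 : ℂ) := (map_ofNat C 7).symm
  rw [e7, coeff_C_mul, map_sum]
  simp only [coeff_rescale]
  rw [← Finset.sum_mul]
  by_cases h : 7 ∣ n
  · have h1 : ∑ r ∈ Finset.Icc 1 7, (zetaC ^ r) ^ n = 7 := by
      rw [Finset.sum_congr rfl (fun r _ => jrt_pow7 r n h)]
      simp
    rw [h1]
    obtain ⟨m, rfl⟩ := h
    rw [coeff_expand_mul, U, coeff_mk]
  · rw [coeff_expand_of_not_dvd _ _ _ h, mul_zero]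
    have h1 : zetaC ^ n ≠ 1 := fun h2 => h ((jrt_prim.pow_eq_one_iff_dvd _).1 h2)
    have h2 : (zetaC ^ n) ^ 7 = 1 := by
      rw [← pow_mul, mul_comm, pow_mul, jrt_prim.pow_eq_one, one_pow]
    have h3 : ∑ r ∈ Finset.Icc 1 7, (zetaC ^ r) ^ n =
        ∑ r ∈ Finset.Icc 1 7, (zetaC ^ n) ^ r := by
      refine Finset.sum_congr rfl fun r _ => ?_
      rw [← pow_mul, ← pow_mul, mul_comm]
    have h4 : (zetaC ^ n - 1) * ∑ r ∈ Finset.Icc 1 7, (zetaC ^ n) ^ r = 0 := by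
      have h5 : ∑ r ∈ Finset.Icc 1 7, (zetaC ^ n) ^ r = zetaC ^ n + (zetaC ^ n) ^ 2 +
          (zetaC ^ n) ^ 3 + (zetaC ^ n) ^ 4 + (zetaC ^ n) ^ 5 + (zetaC ^ n) ^ 6 +
          (zetaC ^ n) ^ 7 := by
        simp [Finset.sum_Icc_succ_top]
      rw [h5]
      linear_combination (zetaC ^ n) * h2
    rcases mul_eq_zero.1 h4 with h5 | h5
    · exact absurd (sub_eq_zero.1 h5) h1
    · rw [h3, h5, zero_mul]

/-- J4b: the roots of the octic equation. -/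
theorem spRoots (hK : GH.D7.K7) : SpRoots where
  inj := jrt_inj
  oct r := by
    have e1 : (C (490 : ℂ) : PowerSeries ℂ) = 490 := map_ofNat C 490
    have e2 : (C (21609 : ℂ) : PowerSeries ℂ) = 21609 := map_ofNat C 21609
    have e3 : (C (235298 : ℂ) : PowerSeries ℂ) = 235298 := map_ofNat C 235298
    have e4 : (C (823543 : ℂ) : PowerSeries ℂ) = 823543 := map_ofNat C 823543
    by_cases hr : (r : ℕ) = 0
    · rw [jrt_rt0 hr]
      unfold eC
      ring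
    · rw [jrt_rt hr, jrt_X, e1, e2, e3, e4]
      exact jrt_oct _ _ _ _ (jrt_g r) (jrt_eT hK r)
  der r hr := by
    have e1 : (C (490 : ℂ) : PowerSeries ℂ) = 490 := map_ofNat C 490
    have e2 : (C (21609 : ℂ) : PowerSeries ℂ) = 21609 := map_ofNat C 21609
    have e3 : (C (235298 : ℂ) : PowerSeries ℂ) = 235298 := map_ofNat C 235298
    rw [jrt_rt hr, jrt_X, jrt_R, e1, e2, e3]
    exact jrt_der _ _ _ _ _ _ (jrt_g r) (jrt_eT hK r) (jrt_y r)
  fil := jrt_fil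

end GH.M7
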