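import Pool.Agent.GH.M7.Stm

/-!
# GH7-MAT, row L1: rows of a product with a unitriangular matrix
-/

set_option autoImplicit false

namespace GH.M7

theorem rowA_tri {S : Type} [CommRing S] {m : ℕ} (D P Q : Matrix (Fin m) (Fin m) S)
    (h1 : ∀ r c, r < c → D r c = 0) (h2 : ∀ r, D r r = 1) (h : P = D * Q) :
    P.det = Q.det := by
  rw [h, Matrix.det_mul, Matrix.det_of_lowerTriangular D (fun r c hrc => h1 r c hrc),
    Finset.prod_congr rfl fun r _ => h2 r, Finset.prod_const_one, one_mul]

theorem rowA_sum {S : Type} [CommRing S] (B : ℕ → S) (f : ℕ → S) {r n : ℕ} (h : r < n) :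
    ∑ c : Fin n, (if (c : ℕ) ≤ r then B c else 0) * f c =
      ∑ k ∈ Finset.range (r + 1), B k * f k := by
  rw [Fin.sum_univ_eq_sum_range (fun c => (if c ≤ r then B c else 0) * f c) n]
  symm
  refine (Finset.sum_congr rfl fun k hk => ?_).trans
    (Finset.sum_subset (Finset.range_subset_range.2 h) fun k _ hk => ?_)
  · rw [if_pos (Nat.lt_succ_iff.1 (Finset.mem_range.1 hk))]
  · rw [if_neg, zero_mul]
    intro h1
    exact hk (Finset.mem_range.2 (Nat.lt_succ_of_le h1))

theorem rowA_one {S : Type} [CommRing S] (M N B : ℕ → ℕ → S) (I : ℕ)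
    (hB : ∀ i < I, B i i = 1)
    (hM : ∀ i < I, ∀ j, M i j = ∑ k ∈ Finset.range (i + 1), B i k * N k j)
    (n : ℕ) (b : Fin n → ℕ) (hn : n ≤ I) :
    Pot.minor M (idf n) b = Pot.minor N (idf n) b := by
  refine rowA_tri (Matrix.of fun r c : Fin n => if (c : ℕ) ≤ r then B r c else 0) _ _ ?_ ?_ ?_
  · intro r c hrc
    have h1 : (r : ℕ) < c := hrc
    show (if (c : ℕ) ≤ r then B r c else 0) = 0
    rw [if_neg (by omega)]
  · intro r
    show (if (r : ℕ) ≤ r then B r r else 0) = 1
    rw [if_pos le_rfl, hB r (lt_of_lt_of_le r.2 hn)]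
  · ext r j
    rw [Matrix.mul_apply]
    show M r (b j) = ∑ c : Fin n, (if (c : ℕ) ≤ r then B r c else 0) * N c (b j)
    rw [rowA_sum (B r) (fun c => N c (b j)) r.2, hM r (lt_of_lt_of_le r.2 hn)]

theorem rowA_two {S : Type} [CommRing S] (M N B : ℕ → ℕ → S) (I : ℕ)
    (hB : ∀ i < I, B i i = 1)
    (hM : ∀ i < I, ∀ j, M i j = ∑ k ∈ Finset.range (i + 1), B i k * N k j)
    (n i : ℕ) (b : Fin (n + 1) → ℕ) (hn : n ≤ i) (hi : i < I) :
    Pot.minor M (up n i) b = (Matrix.of fun (c : Fin (n + 1)) j =>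
      if (c : ℕ) < n then N c (b j) else ∑ k ∈ Finset.Icc n i, B i k * N k (b j)).det := by
  refine rowA_tri (Matrix.of fun r c : Fin (n + 1) => if (c : ℕ) ≤ r then
    (if (r : ℕ) < n then B r c else if (c : ℕ) < n then B i c else 1) else 0) _ _ ?_ ?_ ?_
  · intro r c hrc
    have h1 : (r : ℕ) < c := hrc
    show (if (c : ℕ) ≤ r then _ else (0 : S)) = 0
    rw [if_neg (by omega)]
  · intro r
    show (if (r : ℕ) ≤ r then
      (if (r : ℕ) < n then B r r else if (r : ℕ) < n then B i r else 1) else 0) = 1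
    rw [if_pos le_rfl]
    by_cases h1 : (r : ℕ) < n
    · rw [if_pos h1, hB r (by omega)]
    · rw [if_neg h1, if_neg h1]
  · ext r j
    rw [Matrix.mul_apply]
    show M (up n i r) (b j) = ∑ c : Fin (n + 1), (if (c : ℕ) ≤ r then
      (if (r : ℕ) < n then B r c else if (c : ℕ) < n then B i c else 1) else 0) *
      (if (c : ℕ) < n then N c (b j) else ∑ k ∈ Finset.Icc n i, B i k * N k (b j))
    by_cases h1 : (r : ℕ) < n
    · have h2 : up n i r = r := if_pos h1
      rw [h2, hM r (by omega), Fin.sum_univ_castSucc, ← rowA_sum (B r) (fun c => N c (b j)) h1]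
      have h3 : ¬ ((Fin.last n : Fin (n + 1)) : ℕ) ≤ r := by
        rw [Fin.val_last]
        omega
      rw [if_neg h3, zero_mul, add_zero]
      refine Finset.sum_congr rfl fun c _ => ?_
      have h4 : ((Fin.castSucc c : Fin (n + 1)) : ℕ) = c := rfl
      rw [h4, if_pos h1, if_pos c.2]
    · have h2 : up n i r = i := if_neg h1
      have hr : (r : ℕ) = n := by omega
      rw [h2, hM i hi, Fin.sum_univ_castSucc]
      have h3 : ((Fin.last n : Fin (n + 1)) : ℕ) = n := Fin.val_last n
      rw [h3, hr, if_pos le_rfl, if_neg (lt_irrefl n), if_neg (lt_irrefl n),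
        if_neg (lt_irrefl n), one_mul]
      have h5 : Finset.range (i + 1) = Finset.range n ∪ Finset.Icc n i := by
        ext k
        simp only [Finset.mem_range, Finset.mem_union, Finset.mem_Icc]
        omega
      have h6 : Disjoint (Finset.range n) (Finset.Icc n i) := by
        rw [Finset.disjoint_left]
        intro k hk hk2
        rw [Finset.mem_range] at hk
        rw [Finset.mem_Icc] at hk2
        omega
      rw [h5, Finset.sum_union h6, ← Fin.sum_univ_eq_sum_range (fun k => B i k * N k (b j)) n]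
      congr 1
      refine Finset.sum_congr rfl fun c _ => ?_
      have h4 : ((Fin.castSucc c : Fin (n + 1)) : ℕ) = c := rfl
      rw [h4, if_pos (le_of_lt c.2), if_neg (lt_irrefl n), if_pos c.2, if_pos c.2]

theorem rowA_lin {S : Type} [CommRing S] (N : ℕ → ℕ → S) (n : ℕ) (b : Fin (n + 1) → ℕ)
    (s : Finset ℕ) (β : ℕ → S) :
    (Matrix.of fun (c : Fin (n + 1)) j =>
      if (c : ℕ) < n then N c (b j) else ∑ k ∈ s, β k * N k (b j)).det =
      ∑ k ∈ s, β k * Pot.minor N (up n k) b := by
  have key : ∀ w : Fin (n + 1) → S, (Matrix.of fun (c : Fin (n + 1)) j =>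
      if (c : ℕ) < n then N c (b j) else w j).det =
      (Matrix.detRowAlternating (n := Fin (n + 1)) (R := S)).toMultilinearMap.toLinearMap
        (fun c j => N c (b j)) (Fin.last n) w := by
    intro w
    rw [MultilinearMap.toLinearMap_apply]
    show _ = Matrix.det _
    congr 1
    ext c j
    show (if (c : ℕ) < n then N c (b j) else w j) =
      Function.update (fun (c j : Fin (n + 1)) => N c (b j)) (Fin.last n) w c j
    by_cases h1 : (c : ℕ) < n
    · have h2 : c ≠ Fin.last n := by
        rintro rfl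
        rw [Fin.val_last] at h1
        exact lt_irrefl n h1
      rw [if_pos h1, Function.update_of_ne h2]
    · have h2 : c = Fin.last n := by
        apply Fin.ext
        rw [Fin.val_last]
        omega
      rw [if_neg h1, h2, Function.update_self]
  have h1 : (fun j => ∑ k ∈ s, β k * N k (b j)) = ∑ k ∈ s, β k • fun j => N k (b j) := by
    funext j
    rw [Finset.sum_apply]
    rfl
  have h2 := key fun j => ∑ k ∈ s, β k * N k (b j)
  rw [h2, h1, map_sum]
  refine Finset.sum_congr rfl fun k _ => ?_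
  rw [map_smul, smul_eq_mul, ← key]
  congr 1
  unfold Pot.minor
  congr 1
  ext c j
  show (if (c : ℕ) < n then N c (b j) else N k (b j)) = N (up n k c) (b j)
  unfold up
  split_ifs
  · rfl
  · rfl

theorem spRow : SpRow := by
  intro S _ M N B I hB hM
  refine ⟨fun n b hn => rowA_one M N B I hB hM n b hn, fun n i b hn hi => ?_⟩
  rw [rowA_two M N B I hB hM n i b hn hi, rowA_lin]

end GH.M7
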