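import Pool.Agent.GH.M7.Stm

/-!
# GH7-MAT, R3: all minors at the root
-/

noncomputable section

namespace GH.M7

open GH.D7 GH.CombU Polynomial

theorem rt_B7_zero (e : ℕ) : B7 e 0 = 0 := by
  unfold B7
  rw [Finset.range_zero, Finset.sum_empty]

theorem rt_B7_step (e n : ℕ) : B7 e (n + 1) + (B7 e (n + 1) + 1) ≤ B7 e n + B7 e (n + 2) := by
  have h1 : B7 e (n + 1) = B7 e n +
      (9 * (n + 1) + (if e = 0 then 0 else if e = 1 then 6 else 3)) / 7 := by
    unfold B7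
    rw [Finset.sum_range_succ]
  have h2 : B7 e (n + 2) = B7 e (n + 1) +
      (9 * (n + 1 + 1) + (if e = 0 then 0 else if e = 1 then 6 else 3)) / 7 := by
    unfold B7
    rw [Finset.sum_range_succ]
  generalize (if e = 0 then 0 else if e = 1 then 6 else 3) = c at h1 h2
  omega

theorem rt_lead (h5 : SpScale) {e : ℕ} (he : e ≤ 2) (n : ℕ) :
    Pot.lead (PS e) n = Pot.lead (PM e) n := by
  have h := h5 e n (idf n) (idf n) he
  have h7 : Polynomial.C ((7 : ℤ_[7]) ^ ∑ i, idf n i) ≠ 0 := by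
    rw [Ne, Polynomial.C_eq_zero]
    have : (7 : ℤ_[7]) ≠ 0 := by
      have := PadicInt.prime_p (p := 7)
      exact_mod_cast this.ne_zero
    exact pow_ne_zero _ this
  exact mul_left_cancel₀ h7 h

theorem rt_dvd (h2 : SpLead) (h5 : SpScale) {e : ℕ} (he : e ≤ 2) (n : ℕ) :
    Polynomial.C ((7 : ℤ_[7]) ^ B7 e n) ∣ Pot.lead (PS e) n ∧
      ¬ Polynomial.C ((7 : ℤ_[7]) ^ (B7 e n + 1)) ∣ Pot.lead (PS e) n := by
  obtain ⟨u, z, -, hu, hn⟩ := h2 e he n
  have hp : Prime (7 : ℤ_[7]) := by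
    have := PadicInt.prime_p (p := 7)
    exact_mod_cast this
  have h7 : (((7 : ℕ) : ℤ_[7])) = 7 := Nat.cast_ofNat
  rw [h7] at hn hu
  rw [rt_lead h5 he, hn]
  refine ⟨Dvd.intro _ (mul_assoc _ _ _).symm, fun h ↦ ?_⟩
  rw [pow_succ, Polynomial.C_mul, mul_assoc] at h
  have h0 : Polynomial.C ((7 : ℤ_[7]) ^ B7 e n) ≠ 0 := by
    rw [Ne, Polynomial.C_eq_zero]
    exact pow_ne_zero _ hp.ne_zero
  have h1 := (mul_dvd_mul_iff_left h0).mp h
  have hC : Prime (Polynomial.C (7 : ℤ_[7])) := Polynomial.prime_C_iff.mpr hp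
  rcases hC.dvd_or_dvd h1 with h3 | h3
  · have h4 : Polynomial.C (7 : ℤ_[7]) ∣ Polynomial.C (z : ℤ_[7]) := by
      have := dvd_sub h3 hu
      rwa [sub_sub_cancel] at this
    rw [Polynomial.C_dvd_iff_dvd_coeff] at h4
    have h5 := h4 0
    rw [Polynomial.coeff_C_zero] at h5
    exact hp.not_isUnit (isUnit_of_dvd_unit h5 z.isUnit)
  · have hm : (∏ m ∈ Finset.range (Z7 n),
        (Polynomial.X - Polynomial.C (m : ℤ_[7])) ^ T7 e n m).Monic :=
      Polynomial.monic_prod_of_monic _ _ fun m _ ↦ (Polynomial.monic_X_sub_C _).pow _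
    rw [Polynomial.C_dvd_iff_dvd_coeff] at h3
    have h5 := h3 (∏ m ∈ Finset.range (Z7 n),
        (Polynomial.X - Polynomial.C (m : ℤ_[7])) ^ T7 e n m).natDegree
    rw [hm.coeff_natDegree] at h5
    exact hp.not_isUnit (isUnit_of_dvd_one h5)

theorem spRt (h1 : SpAbs) (h2 : SpLead) (h3 : SpU) (h4 : SpL) (h5 : SpScale) : SpRt :=
  fun e n a b he ↦ h1 (PS e) (B7 e) (rt_B7_zero e) (rt_B7_step e) (rt_dvd h2 h5 he)
    (fun n j hj ↦ h3 e n j he hj) (fun n i hi ↦ h4 e n i he hi) n a b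

end GH.M7
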