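import Pool.Agent.GH.M7.Stm

/-!
# GH7-MAT, row L6: values of the minors without one column (helper19)
-/

noncomputable section

namespace GH.M7

open Polynomial GH.D7 GH.CombU

theorem rv_cen {e n m : ℕ} (h : T7 e n m ≠ 0) : m = cen e (m / 4) := by
  unfold T7 at h
  unfold cen
  by_cases h1 : m % 4 = (if e = 2 then 2 else 0)
  · split_ifs at h1 ⊢ <;> omega
  · rw [if_neg h1] at h
    exact absurd rfl h

/-- The orders after removal of the poles. -/
def rvT (e n m : ℕ) : ℕ := T7 e n m - if hi e n m then 1 else 0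

theorem rv_dvd (m m' : ℕ) : (7 : ℤ_[7]) ^ padicValInt 7 ((m : ℤ) - m') ∣ (m : ℤ_[7]) - m' := by
  obtain ⟨c, hc⟩ : ((7 : ℕ) : ℤ) ^ padicValInt 7 ((m : ℤ) - m') ∣ (m : ℤ) - m' :=
    padicValInt_dvd _
  refine ⟨(c : ℤ_[7]), ?_⟩
  have h := congrArg (fun z : ℤ => (z : ℤ_[7])) hc
  push_cast at h
  exact h

theorem rv_sum (h4 : SpSum) {e n m : ℕ} (he : e ≤ 2) :
    FF e n m = QQ e n m + (∑ m' ∈ Finset.range (Z7 n), rvT e n m' +
      ∑ m' ∈ Finset.range (Z7 n), padicValInt 7 ((m : ℤ) - m') * rvT e n m') := by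
  unfold FF QQ
  rw [← h4 e n he, Finset.sum_filter, ← Finset.sum_add_distrib, ← Finset.sum_add_distrib,
    ← Finset.sum_add_distrib]
  refine Finset.sum_congr rfl fun m' _ => ?_
  unfold rvT
  split_ifs with h
  · obtain ⟨k, hk⟩ : ∃ k, T7 e n m' = k + 1 := ⟨T7 e n m' - 1, by have := h.2; omega⟩
    rw [hk, Nat.add_sub_cancel]
    ring
  · rw [Nat.sub_zero]
    ring

/-- The value of the minors with the rows `0, …, n-1` and the columns `0, …, n` without `j`. -/
theorem spRval (h1 : SpOrdL) (h2 : SpGauss) (h3 : SpInt) (h4 : SpSum) : SpRval := by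
  intro e n j m he hj hm
  have h5 : ∀ m' < Z7 (n + 1), (X - C ((m' : ℕ) : ℚ_[7])) ^ rvT e (n + 1) m' ∣
      (Pot.minor (PM e) (idf n) (sk n j)).map PadicInt.Coe.ringHom := by
    intro m' _
    by_cases h6 : T7 e (n + 1) m' = 0
    · have h7 : rvT e (n + 1) m' = 0 := by
        unfold rvT
        rw [h6, Nat.zero_sub]
      rw [h7, pow_zero]
      exact one_dvd _
    · have h7 := rv_cen h6
      have h8 := (h1 e (m' / 4) n he).2 j hj
      rw [← h7] at h8
      have h9 : rvT e (n + 1) m' =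
          T7 e (n + 1) m' - if 2 * (n + 1) < m' then 1 else 0 := by
        unfold rvT hi
        congr 1
        have h10 : 1 ≤ T7 e (n + 1) m' := Nat.one_le_iff_ne_zero.2 h6
        simp only [h10, and_true]
      rw [h9]
      exact h8
  obtain ⟨H, -, hF⟩ := h2 _ (rvT e (n + 1)) (Z7 (n + 1)) (h3 e n (sk n j) he) h5
  rw [hF, eval_mul, eval_mul, eval_C, eval_prod, rv_sum h4 he, pow_add, pow_add]
  have h6 : (7 : ℤ_[7]) ^ (∑ m' ∈ Finset.range (Z7 (n + 1)),
      padicValInt 7 ((m : ℤ) - m') * rvT e (n + 1) m') ∣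
      ∏ m' ∈ Finset.range (Z7 (n + 1)),
        eval (m : ℤ_[7]) ((X - C (m' : ℤ_[7])) ^ rvT e (n + 1) m') := by
    rw [← Finset.prod_pow_eq_pow_sum]
    refine Finset.prod_dvd_prod_of_dvd _ _ fun m' _ => ?_
    rw [eval_pow, eval_sub, eval_X, eval_C, pow_mul]
    exact pow_dvd_pow_of_dvd (rv_dvd m m') _
  refine mul_dvd_mul_left _ ?_
  exact (mul_dvd_mul_left _ h6).mul_right _

end GH.M7
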