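import Pool.Agent.GH.M7.Stm

/-!
# GH7-MAT, row D8: three small values
-/

open PowerSeries

noncomputable section

namespace GH.M7

open GH.D7 GH.CombU

/-- The polynomial `P`. -/
def sm7P : PowerSeries ℚ := 1 + 14 * X + 63 * X ^ 2 + 70 * X ^ 3 - 7 * X ^ 4

/-- The polynomial `1 + 5T + T²`. -/
def sm7Q : PowerSeries ℚ := 1 + 5 * X + X ^ 2

theorem sm7_S_ne : S7 ℚ ≠ 0 := by
  intro h
  have h1 := constantCoeff_S7 ℚ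
  rw [h, map_zero] at h1
  exact zero_ne_one h1

/-- `S e(g) = P`. -/
theorem sm7_S (hK : K7) : S7 ℚ * (1 - 490 * gs7 ℚ - 21609 * gs7 ℚ ^ 2 - 235298 * gs7 ℚ ^ 3 -
    823543 * gs7 ℚ ^ 4) = sm7P := by
  have h := S7_fix hK ℚ
  have hg := gs7_mul ℚ
  simp only [map_ofNat] at h
  have h' : S7 ℚ ^ 8 = (1 + 14 * X + 63 * X ^ 2 + 70 * X ^ 3 - 7 * X ^ 4) * S7 ℚ ^ 7 +
      490 * (gs7 ℚ * S7 ℚ ^ 2) * S7 ℚ ^ 6 + 21609 * (gs7 ℚ * S7 ℚ ^ 2) ^ 2 * S7 ℚ ^ 4 +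
      235298 * (gs7 ℚ * S7 ℚ ^ 2) ^ 3 * S7 ℚ ^ 2 + 823543 * (gs7 ℚ * S7 ℚ ^ 2) ^ 4 := by
    rw [hg]
    linear_combination h
  apply mul_right_cancel₀ (pow_ne_zero 7 sm7_S_ne)
  unfold sm7P
  linear_combination h'

theorem sm7_g0 : constantCoeff (gs7 ℚ) = 0 := by
  unfold gs7
  rw [map_mul, map_pow, constantCoeff_X, zero_pow seven_ne, zero_mul]

/-- `Y ψ(g) = 1 + 5T + T²`. -/
theorem sm7_Y : Y7 ℚ * (1 + 245 * gs7 ℚ + 2401 * gs7 ℚ ^ 2) = sm7Q := by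
  have h1 : (1 + C (245 : ℚ) * gs7 ℚ + C (2401 : ℚ) * gs7 ℚ ^ 2) *
      invOfUnit (1 + C (245 : ℚ) * gs7 ℚ + C (2401 : ℚ) * gs7 ℚ ^ 2) 1 = 1 := by
    apply mul_invOfUnit
    simp [sm7_g0]
  unfold Y7 sm7Q
  simp only [map_ofNat] at h1 ⊢
  linear_combination (1 + 5 * X + X ^ 2) * h1

/-- `g = T^7 G`. -/
theorem sm7_g : gs7 ℚ = X ^ 7 * invOfUnit (S7 ℚ ^ 2) 1 := rfl

theorem sm7_Si : S7 ℚ * Si ℚ = 1 := by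
  unfold Si
  apply mul_invOfUnit
  rw [constantCoeff_S7]
  rfl

theorem sm7_dvd1 (hK : K7) : (X : PowerSeries ℚ) ^ 7 ∣ S7 ℚ * Y7 ℚ ^ 2 - sm7P * sm7Q ^ 2 := by
  obtain ⟨a, ha⟩ : ∃ a : PowerSeries ℚ, a = 490 + 21609 * gs7 ℚ + 235298 * gs7 ℚ ^ 2 +
    823543 * gs7 ℚ ^ 3 := ⟨_, rfl⟩
  obtain ⟨b, hb⟩ : ∃ b : PowerSeries ℚ, b = -(245 + 2401 * gs7 ℚ) := ⟨_, rfl⟩
  refine ⟨invOfUnit (S7 ℚ ^ 2) 1 * (S7 ℚ * Y7 ℚ ^ 2 * (a + 2 * b - gs7 ℚ * (b ^ 2 + 2 * a * b) +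
    gs7 ℚ ^ 2 * a * b ^ 2)), ?_⟩
  rw [← mul_assoc, ← sm7_g, ← sm7_S hK, ← sm7_Y, ha, hb]
  ring

theorem sm7_dvd2 (hK : K7) : (X : PowerSeries ℚ) ^ 7 ∣ S7 ℚ ^ 2 - sm7P ^ 2 := by
  obtain ⟨a, ha⟩ : ∃ a : PowerSeries ℚ, a = 490 + 21609 * gs7 ℚ + 235298 * gs7 ℚ ^ 2 +
    823543 * gs7 ℚ ^ 3 := ⟨_, rfl⟩
  refine ⟨invOfUnit (S7 ℚ ^ 2) 1 * (S7 ℚ ^ 2 * (2 * a - gs7 ℚ * a ^ 2)), ?_⟩
  rw [← mul_assoc, ← sm7_g, ← sm7_S hK, ha]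
  ring

theorem sm7_dvd3 (hK : K7) : (X : PowerSeries ℚ) ^ 7 ∣ S7 ℚ * Y7 ℚ - sm7P * sm7Q := by
  obtain ⟨a, ha⟩ : ∃ a : PowerSeries ℚ, a = 490 + 21609 * gs7 ℚ + 235298 * gs7 ℚ ^ 2 +
    823543 * gs7 ℚ ^ 3 := ⟨_, rfl⟩
  obtain ⟨b, hb⟩ : ∃ b : PowerSeries ℚ, b = -(245 + 2401 * gs7 ℚ) := ⟨_, rfl⟩
  refine ⟨invOfUnit (S7 ℚ ^ 2) 1 * (S7 ℚ * Y7 ℚ * (a + b - gs7 ℚ * (a * b))), ?_⟩
  rw [← mul_assoc, ← sm7_g, ← sm7_S hK, ← sm7_Y, ha, hb]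
  ring

/-- the polynomial `R` with `ψ e³ - 1 + 1225 g ψ e = -g² R` -/
def sm7R (g : PowerSeries ℚ) : PowerSeries ℚ :=
  2401 + 68354069 * g + 33547847648 * g ^ 2 + 4391118099312 * g ^ 3 +
    260279473834576 * g ^ 4 + 8653545075490798 * g ^ 5 + 179427305037567195 * g ^ 6 +
    2449865175729846518 * g ^ 7 + 22522588472699420119 * g ^ 8 +
    138758751091547269739 * g ^ 9 + 551843313714284598916 * g ^ 10 +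
    1286331124983803068121 * g ^ 11 + 1341068619663964900807 * g ^ 12

theorem sm7_R (g : PowerSeries ℚ) : (1 + 245 * g + 2401 * g ^ 2) *
    (1 - 490 * g - 21609 * g ^ 2 - 235298 * g ^ 3 - 823543 * g ^ 4) ^ 3 - 1 +
    1225 * g * ((1 + 245 * g + 2401 * g ^ 2) *
      (1 - 490 * g - 21609 * g ^ 2 - 235298 * g ^ 3 - 823543 * g ^ 4)) =
    -(g ^ 2 * sm7R g) := by
  unfold sm7R
  ring

theorem sm7_dvd4 (hK : K7) : (X : PowerSeries ℚ) ^ 14 ∣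
    S7 ℚ ^ 3 * Y7 ℚ - sm7Q * (sm7P ^ 3 + 1225 * X ^ 7 * sm7P) := by
  refine ⟨invOfUnit (S7 ℚ ^ 2) 1 ^ 2 * (S7 ℚ ^ 3 * Y7 ℚ * sm7R (gs7 ℚ)), ?_⟩
  have h1 : (X : PowerSeries ℚ) ^ 14 * (invOfUnit (S7 ℚ ^ 2) 1 ^ 2 *
      (S7 ℚ ^ 3 * Y7 ℚ * sm7R (gs7 ℚ))) = gs7 ℚ ^ 2 * (S7 ℚ ^ 3 * Y7 ℚ * sm7R (gs7 ℚ)) := by
    rw [sm7_g]
    ring
  rw [h1, ← gs7_mul, ← sm7_S hK, ← sm7_Y]
  linear_combination (-(S7 ℚ ^ 3 * Y7 ℚ)) * sm7_R (gs7 ℚ)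

theorem sm7_of_dvd {N n : ℕ} {F G : PowerSeries ℚ} (h : (X : PowerSeries ℚ) ^ N ∣ F - G)
    (hn : n < N) : coeff n F = coeff n G := by
  have h1 := (X_pow_dvd_iff.1 h) n hn
  rw [map_sub, sub_eq_zero] at h1
  exact h1

theorem sm7_coeff (n k : ℕ) (c : ℚ) : coeff n (C c * (X : PowerSeries ℚ) ^ k) =
    if n = k then c else 0 := by
  rw [coeff_C_mul, coeff_X_pow]
  split_ifs <;> simp

theorem sm7_c1 : coeff 6 (sm7P * sm7Q ^ 2) = 574 := by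
  have h : sm7P * sm7Q ^ 2 = C 1 * X ^ 0 + C 24 * X ^ 1 + C 230 * X ^ 2 + C 1088 * X ^ 3 +
      C 2535 * X ^ 4 + C 2464 * X ^ 5 + C 574 * X ^ 6 + C 0 * X ^ 7 - C 7 * X ^ 8 := by
    simp only [sm7P, sm7Q, map_one, map_ofNat, map_zero]
    ring
  rw [h]
  simp only [map_add, map_sub, sm7_coeff]
  norm_num

theorem sm7_c2 : coeff 6 (sm7P ^ 2) = 4018 := by
  have h : sm7P ^ 2 = C 1 * X ^ 0 + C 28 * X ^ 1 + C 322 * X ^ 2 + C 1904 * X ^ 3 +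
      C 5915 * X ^ 4 + C 8624 * X ^ 5 + C 4018 * X ^ 6 - C 980 * X ^ 7 + C 49 * X ^ 8 := by
    simp only [sm7P, map_one, map_ofNat]
    ring
  rw [h]
  simp only [map_add, map_sub, sm7_coeff]
  norm_num

theorem sm7_c3 : coeff 6 (sm7P * sm7Q) = -7 ∧ coeff 5 (sm7P * sm7Q) = 35 := by
  have h : sm7P * sm7Q = C 1 * X ^ 0 + C 19 * X ^ 1 + C 134 * X ^ 2 + C 399 * X ^ 3 +
      C 406 * X ^ 4 + C 35 * X ^ 5 - C 7 * X ^ 6 := by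
    simp only [sm7P, sm7Q, map_one, map_ofNat]
    ring
  rw [h]
  simp only [map_add, map_sub, sm7_coeff]
  norm_num

theorem sm7_c4 : coeff 12 (sm7Q * (sm7P ^ 3 + 1225 * X ^ 7 * sm7P)) = 343 ∧
    coeff 13 (sm7Q * (sm7P ^ 3 + 1225 * X ^ 7 * sm7P)) = 0 := by
  have h : sm7Q * (sm7P ^ 3 + 1225 * X ^ 7 * sm7P) = C 1 * X ^ 0 + C 47 * X ^ 1 +
      C 988 * X ^ 2 + C 12173 * X ^ 3 + C 96817 * X ^ 4 + C 516026 * X ^ 5 +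
      C 1851885 * X ^ 6 + C 4376386 * X ^ 7 + C 6449968 * X ^ 8 + C 5331984 * X ^ 9 +
      C 1996064 * X ^ 10 + C 199283 * X ^ 11 + C 343 * X ^ 12 - C 343 * X ^ 14 := by
    simp only [sm7P, sm7Q, map_one, map_ofNat]
    ring
  rw [h]
  simp only [map_add, map_sub, sm7_coeff]
  norm_num

theorem sm7_v1 (hK : K7) : MQ 0 0 1 1 = ((574 : ℤ) : ℚ) := by
  unfold MQ
  rw [if_pos (by norm_num)]
  have h : S7 ℚ ^ (2 * 1) * Si ℚ ^ (0 + sh7 0) * Y7 ℚ ^ ey7 0 = S7 ℚ * Y7 ℚ ^ 2 := by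
    have h1 : sh7 0 = 1 := rfl
    have h2 : ey7 0 = 2 := rfl
    rw [h1, h2]
    linear_combination (S7 ℚ * Y7 ℚ ^ 2) * sm7_Si
  rw [h, sm7_of_dvd (sm7_dvd1 hK) (by norm_num), show 7 * 1 - 1 = 6 from rfl, sm7_c1]
  norm_num

theorem sm7_v2 (hK : K7) : MQ 1 0 1 1 = ((4018 : ℤ) : ℚ) := by
  unfold MQ
  rw [if_pos (by norm_num)]
  have h : S7 ℚ ^ (2 * 1) * Si ℚ ^ (0 + sh7 1) * Y7 ℚ ^ ey7 1 = S7 ℚ ^ 2 := by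
    have h1 : sh7 1 = 0 := rfl
    have h2 : ey7 1 = 0 := rfl
    rw [h1, h2]
    ring
  rw [h, sm7_of_dvd (sm7_dvd2 hK) (by norm_num), show 7 * 1 - 1 = 6 from rfl, sm7_c2]
  norm_num

theorem sm7_v3 (hK : K7) (j n : ℕ) (hj : j + n = 7) (hn : n < 7) :
    MQ 2 0 1 j = coeff n (sm7P * sm7Q) := by
  unfold MQ
  rw [if_pos (by omega)]
  have h : S7 ℚ ^ (2 * 1) * Si ℚ ^ (0 + sh7 2) * Y7 ℚ ^ ey7 2 = S7 ℚ * Y7 ℚ := by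
    have h1 : sh7 2 = 1 := rfl
    have h2 : ey7 2 = 1 := rfl
    rw [h1, h2]
    linear_combination (S7 ℚ * Y7 ℚ) * sm7_Si
  rw [h, show 7 * 1 - j = n by omega, sm7_of_dvd (sm7_dvd3 hK) hn]

theorem sm7_v4 (hK : K7) (j n : ℕ) (hj : j + n = 14) (hn : n < 14) :
    MQ 2 0 2 j = coeff n (sm7Q * (sm7P ^ 3 + 1225 * X ^ 7 * sm7P)) := by
  unfold MQ
  rw [if_pos (by omega)]
  have h : S7 ℚ ^ (2 * 2) * Si ℚ ^ (0 + sh7 2) * Y7 ℚ ^ ey7 2 = S7 ℚ ^ 3 * Y7 ℚ := by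
    have h1 : sh7 2 = 1 := rfl
    have h2 : ey7 2 = 1 := rfl
    rw [h1, h2]
    linear_combination (S7 ℚ ^ 3 * Y7 ℚ) * sm7_Si
  rw [h, show 7 * 2 - j = n by omega, sm7_of_dvd (sm7_dvd4 hK) hn]

/-- the values of `PM` -/
theorem sm7_eval (h : SpVal) {e z i j : ℕ} (he : e ≤ 2) {q : ℤ}
    (hq : MQ e z (i + 1) (j + 1) = (q : ℚ)) {c : ℤ_[7]} (hc : c = ((cen e z : ℕ) : ℤ_[7])) :
    (PM e i j).eval c = (q : ℤ_[7]) := by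
  rw [hc]
  apply PadicInt.ext
  have h1 := h e z i j he
  rw [hq] at h1
  refine h1.trans ?_
  push_cast
  rfl

theorem sm7_norm (k : ℕ) (u : ℤ) (hu : ¬ (7 : ℤ) ∣ u) :
    ‖(((7 ^ k * u : ℤ)) : ℤ_[7])‖ = (7 : ℝ) ^ (-(k : ℤ)) := by
  have h1 : ‖((u : ℤ) : ℤ_[7])‖ = 1 := by
    refine le_antisymm (PadicInt.norm_le_one _) (not_lt.1 fun h ↦ hu ?_)
    exact_mod_cast (PadicInt.norm_int_lt_one_iff_dvd u).1 h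
  have h2 : (((7 ^ k * u : ℤ)) : ℤ_[7]) = ((7 : ℕ) : ℤ_[7]) ^ k * (u : ℤ_[7]) := by
    push_cast
    ring
  rw [h2, norm_mul, h1, mul_one, PadicInt.norm_p_pow]
  norm_num

theorem sm7_lead1 (e : ℕ) (c : ℤ_[7]) :
    (Pot.lead (PM e) 1).eval c = (PM e 0 0).eval c := by
  unfold Pot.lead Pot.minor
  rw [Matrix.det_fin_one]
  rfl

theorem sm7_lead2 (e : ℕ) (c : ℤ_[7]) : (Pot.lead (PM e) 2).eval c =
    (PM e 0 0).eval c * (PM e 1 1).eval c - (PM e 0 1).eval c * (PM e 1 0).eval c := by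
  unfold Pot.lead Pot.minor
  rw [Matrix.det_fin_two, Polynomial.eval_sub, Polynomial.eval_mul, Polynomial.eval_mul]
  rfl

theorem spSmall (h : SpVal) (hK : GH.D7.K7) : SpSmall := by
  refine ⟨?_, ?_, ?_⟩
  · have hc : (0 : ℤ_[7]) = ((cen 0 0 : ℕ) : ℤ_[7]) := by simp [cen]
    rw [sm7_lead1, sm7_eval h (by norm_num) (sm7_v1 hK) hc,
      show (574 : ℤ) = 7 ^ 1 * 82 by norm_num, sm7_norm 1 _ (by norm_num)]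
    norm_num
  · have hc : (0 : ℤ_[7]) = ((cen 1 0 : ℕ) : ℤ_[7]) := by simp [cen]
    rw [sm7_lead1, sm7_eval h (by norm_num) (sm7_v2 hK) hc,
      show (4018 : ℤ) = 7 ^ 2 * 82 by norm_num, sm7_norm 2 _ (by norm_num)]
    norm_num
  · have hc : (2 : ℤ_[7]) = ((cen 2 0 : ℕ) : ℤ_[7]) := by simp [cen]
    have e11 : MQ 2 0 (0 + 1) (0 + 1) = ((-7 : ℤ) : ℚ) := by
      rw [show (0 + 1 : ℕ) = 1 from rfl, sm7_v3 hK 1 6 rfl (by norm_num), sm7_c3.1]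
      norm_num
    have e12 : MQ 2 0 (0 + 1) (1 + 1) = ((35 : ℤ) : ℚ) := by
      rw [show (0 + 1 : ℕ) = 1 from rfl, show (1 + 1 : ℕ) = 2 from rfl,
        sm7_v3 hK 2 5 rfl (by norm_num), sm7_c3.2]
      norm_num
    have e21 : MQ 2 0 (1 + 1) (0 + 1) = ((0 : ℤ) : ℚ) := by
      rw [show (0 + 1 : ℕ) = 1 from rfl, show (1 + 1 : ℕ) = 2 from rfl,
        sm7_v4 hK 1 13 rfl (by norm_num), sm7_c4.2]
      norm_num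
    have e22 : MQ 2 0 (1 + 1) (1 + 1) = ((343 : ℤ) : ℚ) := by
      rw [show (1 + 1 : ℕ) = 2 from rfl, sm7_v4 hK 2 12 rfl (by norm_num), sm7_c4.1]
      norm_num
    rw [sm7_lead2, sm7_eval h le_rfl e11 hc, sm7_eval h le_rfl e12 hc,
      sm7_eval h le_rfl e21 hc, sm7_eval h le_rfl e22 hc]
    have e : ((-7 : ℤ) : ℤ_[7]) * ((343 : ℤ) : ℤ_[7]) - ((35 : ℤ) : ℤ_[7]) * ((0 : ℤ) : ℤ_[7]) =
        ((7 ^ 4 * (-1) : ℤ) : ℤ_[7]) := by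
      push_cast
      ring
    rw [e, sm7_norm 4 _ (by norm_num)]
    norm_num

end GH.M7
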