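import Pool.Agent.GH.M7.Stm
import Pool.Agent.GH.CombU.P7

/-!
# Block D of `GH.M7`: the ghost numbers (D5, D6)
-/

noncomputable section

namespace GH.M7

open GH.D7 GH.CombU

theorem sm_tau {c ν m : ℕ} (hcm : m ≠ c) (h1 : c ≤ ν) (h2 : m ≤ ν) :
    Pot.tau 7 c ν m = padicValInt 7 ((c : ℤ) - m) := by
  have : Fact (Nat.Prime 7) := ⟨by norm_num⟩
  have hne : (c : ℤ) - m ≠ 0 := by omega
  refine eq_of_forall_le_iff fun k => ?_
  have h3 := padicValInt_dvd_iff (p := 7) k ((c : ℤ) - m)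
  rw [or_iff_right hne] at h3
  rw [Pot.le_tau_iff, ← h3, Nat.modEq_iff_dvd]
  push_cast
  constructor
  · exact fun h => h.2
  · intro h
    refine ⟨?_, h⟩
    have h4 := Int.natAbs_dvd_natAbs.2 h
    rw [Int.natAbs_pow] at h4
    have h5 := Nat.le_of_dvd (Int.natAbs_pos.2 hne) h4
    have h6 : k < (7 : ℤ).natAbs ^ k := Nat.lt_pow_self (by norm_num)
    omega

theorem sm_tau_self (c ν : ℕ) : Pot.tau 7 c ν c = ν := by
  induction ν with
  | zero => simp [Pot.tau]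
  | succ ν ih =>
    rw [Pot.tau_succ, ih, if_pos (Nat.ModEq.refl c)]

theorem sm_ff {e n c ν : ℕ} (he : e < 3) (h1 : c ≤ ν) (h2 : Z7 n ≤ ν) :
    Pot.fv 7 (B7 e) Z7 (T7 e) n c ν = FF e n c + T7 e n c * ν := by
  classical
  unfold FF Pot.fv
  rw [add_assoc]
  congr 1
  have h3 : ∑ m ∈ Finset.range (Z7 n), T7 e n m * Pot.tau 7 c ν m =
      ∑ m ∈ Finset.range (Z7 n), (T7 e n m * padicValInt 7 ((c : ℤ) - m) +
        if m = c then T7 e n c * ν else 0) := by
    refine Finset.sum_congr rfl fun m hm => ?_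
    have h4 := Finset.mem_range.1 hm
    by_cases hmc : m = c
    · rw [if_pos hmc, hmc, sm_tau_self, sub_self]
      simp
    · rw [if_neg hmc, sm_tau hmc h1 (by omega), add_zero]
  rw [h3, Finset.sum_add_distrib]
  congr 1
  by_cases h5 : c ∈ Finset.range (Z7 n)
  · rw [Finset.sum_ite_eq' (Finset.range (Z7 n)) c fun _ => T7 e n c * ν, if_pos h5]
  · have h6 : T7 e n c = 0 := (xe7 e he).T_supp n c (by
      rw [Finset.mem_range, not_lt] at h5
      exact h5)
    rw [h6, zero_mul]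
    exact Finset.sum_eq_zero fun m _ => by split_ifs <;> rfl

theorem sm_F {e : ℕ} (he : e < 3) {n z ν : ℕ} (h1 : cen e z ≤ ν) (h2 : Z7 n ≤ ν) :
    ((FF e n (cen e z) + T7 e n (cen e z) * ν : ℕ) : ℤ) = (sys7 e).F ν z n := by
  rw [← sm_ff he h1 h2]
  have : Fact (xe7 e he).p.Prime := ⟨by norm_num [xe7]⟩
  exact (xe7 e he).fv_eq (c := cen e z) (ν := ν) (z := (z : ℤ)) (by
    have h3 : ((cen e z : ℕ) : ℤ) - ((xe7 e he).A * (z : ℤ) + (xe7 e he).B0) = 0 := by
      unfold cen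
      simp only [xe7]
      split_ifs <;> push_cast <;> ring
    rw [h3]
    exact dvd_zero _) n

/-- The floors in the duality vanish. -/
theorem sm_fl {e z ν m : ℕ} (hm : tz e z + 1 ≤ m) (hν : 2 * m + z + 10 ≤ ν) :
    (sys7 e).X z (m : ℤ) / (sys7 e).p ^ (ν + 1) = 0 := by
  have h1 : ν + 1 < 7 ^ (ν + 1) := Nat.lt_pow_self (by norm_num)
  have h2 : (sys7 e).p ^ (ν + 1) = ((7 ^ (ν + 1) : ℕ) : ℤ) := by
    push_cast
    rfl
  have h3 : (sys7 e).X z (m : ℤ) = 2 * (m : ℤ) + (if e = 1 then 1 else 0) - z - 1 := rfl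
  rw [h2, h3]
  generalize 7 ^ (ν + 1) = P at h1
  unfold tz at hm
  apply Int.ediv_eq_zero_of_lt
  · split_ifs at hm ⊢ <;> omega
  · split_ifs at hm ⊢ <;> omega

theorem sm_T {e z n n' : ℕ} (_he : e < 3) (hn : n' ≤ n) (h : n + n' + 1 = cen e z)
    (ht : tz e z ≤ n') : T7 e n (cen e z) = n' - tz e z ∧ T7 e n' (cen e z) = n' - tz e z := by
  have h1 : t7 e (cen e z) = tz e z := by
    unfold t7 tz cen
    split_ifs <;> omega
  have h2 : cen e z % 4 = (if e = 2 then 2 else 0) := by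
    unfold cen
    split_ifs <;> omega
  unfold T7
  rw [if_pos h2, if_pos h2, h1]
  constructor <;> omega

theorem spF : SpF := by
  intro e z n n' he hn h ht
  have he' : e < 3 := by omega
  set ν := 100 * (n + n' + z + 1) with hν
  obtain ⟨hT1, hT2⟩ := sm_T he' hn h ht
  have e1 := sm_F he' (n := n) (z := z) (ν := ν) (by omega) (by unfold Z7; omega)
  have e2 := sm_F he' (n := n') (z := z) (ν := ν) (by omega) (by unfold Z7; omega)
  rw [hT1] at e1
  rw [hT2] at e2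
  have hM : (sys7 e).M z = ((n + n' + 1 : ℕ) : ℤ) := by
    rw [h]
    unfold cen Sys.M
    simp only [sys7]
    split_ifs <;> push_cast <;> ring
  -- the difference as a sum
  have e3 : (sys7 e).F ν z n - (sys7 e).F ν z n' =
      ∑ k ∈ Finset.Ico n' n, (sys7 e).inc ν z ((k : ℤ) + 1) := by
    unfold Sys.F
    rw [Finset.sum_Ico_eq_sub _ hn]
  have e4 : ∑ k ∈ Finset.Ico n' n, (sys7 e).inc ν z ((k : ℤ) + 1) =
      ∑ k ∈ Finset.Ico n' n, (sys7 e).inc ν z ((sys7 e).M z - ((k : ℤ) + 1)) := by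
    refine Finset.sum_nbij' (fun k => n + n' - 1 - k) (fun k => n + n' - 1 - k) ?_ ?_ ?_ ?_ ?_
    · intro k hk
      rw [Finset.mem_Ico] at hk ⊢
      omega
    · intro k hk
      rw [Finset.mem_Ico] at hk ⊢
      omega
    · intro k hk
      rw [Finset.mem_Ico] at hk
      show n + n' - 1 - (n + n' - 1 - k) = k
      omega
    · intro k hk
      rw [Finset.mem_Ico] at hk
      show n + n' - 1 - (n + n' - 1 - k) = k
      omega
    · intro k hk
      rw [Finset.mem_Ico] at hk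
      congr 1
      rw [hM]
      show (k : ℤ) + 1 = ((n + n' + 1 : ℕ) : ℤ) - (((n + n' - 1 - k : ℕ) : ℤ) + 1)
      omega
  have e5 : ∀ k ∈ Finset.Ico n' n, (sys7 e).inc ν z ((k : ℤ) + 1) +
      (sys7 e).inc ν z ((sys7 e).M z - ((k : ℤ) + 1)) = 2 * (lam e z : ℤ) := by
    intro k hk
    rw [Finset.mem_Ico] at hk
    rw [(sys7 e).inc_add]
    have f1 : (sys7 e).X z ((k : ℤ) + 1) / (sys7 e).p ^ (ν + 1) = 0 := by
      have := sm_fl (e := e) (z := z) (ν := ν) (m := k + 1) (by omega) (by omega)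
      push_cast at this
      exact this
    have f2 : (sys7 e).Y z ((k : ℤ) + 1) / (sys7 e).p ^ (ν + 1) = 0 := by
      have f3 : (sys7 e).M z - ((k : ℤ) + 1) = ((n + n' - k : ℕ) : ℤ) := by
        rw [hM]
        omega
      rw [← (sys7 e).X_refl, f3]
      exact sm_fl (by omega) (by omega)
    rw [f1, f2, hM]
    have f4 : (sys7 e).lin = 1 := rfl
    have f5 : (sys7 e).C0 = if e = 0 then -1 else 0 := rfl
    rw [f4, f5]
    have h' := h
    unfold cen at h'
    unfold lam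
    rcases (show e = 0 ∨ e = 1 ∨ e = 2 by omega) with rfl | rfl | rfl
    · norm_num only [if_true, if_false] at h' ⊢
      omega
    · norm_num only [if_true, if_false] at h' ⊢
      omega
    · norm_num only [if_true, if_false] at h' ⊢
      omega
  have e6 : 2 * ((sys7 e).F ν z n - (sys7 e).F ν z n') = 2 * (((n - n' : ℕ) : ℤ) * lam e z) := by
    rw [two_mul, e3]
    nth_rewrite 2 [e4]
    rw [← Finset.sum_add_distrib, Finset.sum_congr rfl e5, Finset.sum_const, Nat.card_Ico,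
      nsmul_eq_mul]
    ring
  have e7 : ((FF e n (cen e z) : ℕ) : ℤ) =
      (((n - n') * lam e z + FF e n' (cen e z) : ℕ) : ℤ) := by
    push_cast at e1 e2 ⊢
    rw [Nat.cast_sub hn] at e6 ⊢
    have e8 := mul_left_cancel₀ (two_ne_zero) e6
    linear_combination e1 - e2 + e8
  exact_mod_cast e7

theorem spSum : SpSum := by
  intro e n he
  have he' : e < 3 := by omega
  have h1 : ((∑ m ∈ Finset.range (Z7 n), T7 e n m : ℕ) : ℤ) =
      ∑ w ∈ Finset.range ((xe7 e he').L n),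
        ((T7 e n (4 * w + if e = 2 then 2 else 0) : ℕ) : ℤ) := by
    push_cast
    refine XD.sum_reindex (g := fun m => ((T7 e n m : ℕ) : ℤ)) (a := 4)
      (b := if e = 2 then 2 else 0) (L := (xe7 e he').L n) (by norm_num) ?_ ?_ ?_
    · intro m hm
      exact (xe7 e he').T_ne n m (by exact_mod_cast hm)
    · intro m hm
      exact_mod_cast (xe7 e he').T_supp n m hm
    · intro m hm
      exact_mod_cast (xe7 e he').T_suppL n m hm
  have h2 := (sys7 e).NN_eq
    (τ := fun n w ↦ ((T7 e n (4 * w + if e = 2 then 2 else 0) : ℕ) : ℤ))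
    (fun w => by
      have := (xe7 e he').T_zero (4 * w + if e = 2 then 2 else 0)
      exact_mod_cast this) (fun n w => (xe7 e he').T_step n w) (j := 0) (c := 0)
    (L := (xe7 e he').L n) n (fun k hk => (xe7 e he').bd k n hk)
  simp only [pow_zero, one_dvd, if_true] at h2
  rw [← h2] at h1
  have h3 : ∀ n : ℕ, (sys7 e).NN 0 0 n = (B7 e n : ℤ) := by
    intro n
    induction n with
    | zero => simp [Sys.NN, B7]
    | succ n ih =>
      rw [(sys7 e).NN_step, ih]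
      have h4 := (xe7 e he').B_step n
      have h5 : (sys7 e).N 0 0 ((n : ℤ) + 1) = (B7 e (n + 1) : ℤ) - B7 e n := by
        have h6 : ((xe7 e he').B (n + 1) : ℤ) - (xe7 e he').B n =
          (B7 e (n + 1) : ℤ) - B7 e n := rfl
        rw [← h6, h4]
        rcases (show e = 0 ∨ e = 1 ∨ e = 2 by omega) with rfl | rfl | rfl
        · show (2 * ((n : ℤ) + 1) + 0 - 0 - 1) / 7 ^ 0 -
            (2 * (4 * 0 + 0 - ((n : ℤ) + 1)) + 0 - 0 - 1) / 7 ^ (0 + 1) - 1 -
            (2 * ((n : ℤ) + 1) - (4 * 0 + 0)) / (4 * 7 ^ 0) -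
            (2 * ((n : ℤ) + 1) - (4 * 0 + 0) - 1) / (4 * 7 ^ 0) =
            1 * ((n : ℤ) + 1) + (-1) - (2 * 0 - 2 * ((n : ℤ) + 1) + 0 - 1) / 7
          have g1 : 2 * (4 * 0 + 0 - ((n : ℤ) + 1)) + 0 - 0 - 1 =
            2 * 0 - 2 * ((n : ℤ) + 1) + 0 - 1 := by ring
          rw [g1, zero_add, pow_one, pow_zero]
          generalize (2 * 0 - 2 * ((n : ℤ) + 1) + 0 - 1) / 7 = Y
          omega
        · show (2 * ((n : ℤ) + 1) + 1 - 0 - 1) / 7 ^ 0 -
            (2 * (4 * 0 + 0 - ((n : ℤ) + 1)) + 1 - 0 - 1) / 7 ^ (0 + 1) - 1 -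
            (2 * ((n : ℤ) + 1) - (4 * 0 + 0)) / (4 * 7 ^ 0) -
            (2 * ((n : ℤ) + 1) - (4 * 0 + 0) - 1) / (4 * 7 ^ 0) =
            1 * ((n : ℤ) + 1) + 0 - (2 * 0 - 2 * ((n : ℤ) + 1) + 1 - 1) / 7
          have g1 : 2 * (4 * 0 + 0 - ((n : ℤ) + 1)) + 1 - 0 - 1 =
            2 * 0 - 2 * ((n : ℤ) + 1) + 1 - 1 := by ring
          rw [g1, zero_add, pow_one, pow_zero]
          generalize (2 * 0 - 2 * ((n : ℤ) + 1) + 1 - 1) / 7 = Y
          omega
        · show (2 * ((n : ℤ) + 1) + 0 - 0 - 1) / 7 ^ 0 -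
            (2 * (4 * 0 + 2 - ((n : ℤ) + 1)) + 0 - 0 - 1) / 7 ^ (0 + 1) - 1 -
            (2 * ((n : ℤ) + 1) - (4 * 0 + 2)) / (4 * 7 ^ 0) -
            (2 * ((n : ℤ) + 1) - (4 * 0 + 2) - 1) / (4 * 7 ^ 0) =
            1 * ((n : ℤ) + 1) + 0 - (2 * 2 - 2 * ((n : ℤ) + 1) + 0 - 1) / 7
          have g1 : 2 * (4 * 0 + 2 - ((n : ℤ) + 1)) + 0 - 0 - 1 =
            2 * 2 - 2 * ((n : ℤ) + 1) + 0 - 1 := by ring
          rw [g1, zero_add, pow_one, pow_zero]
          generalize (2 * 2 - 2 * ((n : ℤ) + 1) + 0 - 1) / 7 = Y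
          omega
      rw [h5]
      ring
  rw [h3] at h1
  exact_mod_cast h1

end GH.M7
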