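import Pool.Agent.GH.M7.Stm
import Pool.Agent.GH.MatU.FreeInst

/-!
# GH7-MAT, row W7: the unitriangular matrix `TT`
-/

set_option autoImplicit false

open PowerSeries

noncomputable section

namespace GH.M7

open GH.D7 GH.CombU

/-! ### The identity `ψ² = e - 2 g e'` -/

theorem tt_dC {R : Type*} [CommRing R] (a : R) (F : PowerSeries R) :
    derivative R (C a * F) = C a * derivative R F := by
  rw [← smul_eq_C_mul, Derivation.map_smul, smul_eq_C_mul]

theorem tt_ps_sq (R : Type*) [CommRing R] :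
    psG R ^ 2 = eG R - 2 * (X * derivative R (eG R)) := by
  have h1 : derivative R (eG R) = 0 - C (490 : R) * 1 - C (21609 : R) * (2 * X) -
      C (235298 : R) * (3 * X ^ 2) - C (823543 : R) * (4 * X ^ 3) := by
    unfold eG
    rw [map_sub, map_sub, map_sub, map_sub, tt_dC, tt_dC, tt_dC, tt_dC, Derivation.leibniz_pow,
      Derivation.leibniz_pow, Derivation.leibniz_pow, derivative_X, Derivation.map_one_eq_zero]
    simp
  rw [h1]
  unfold psG eG
  simp only [map_ofNat]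
  ring

theorem tt_key {K : Type*} [Field K] [CharZero K] (n : ℕ) (hn : 1 ≤ n) :
    coeff n (psG K ^ 2 * eG K ^ (2 * n - 1)) = 0 := by
  have h1 : (n : PowerSeries K) * (psG K ^ 2 * eG K ^ (2 * n - 1)) =
      (n : PowerSeries K) * eG K ^ (2 * n) - X * derivative K (eG K ^ (2 * n)) := by
    rw [Derivation.leibniz_pow, tt_ps_sq]
    obtain ⟨m, rfl⟩ : ∃ m, n = m + 1 := ⟨n - 1, by omega⟩
    have e1 : 2 * (m + 1) - 1 = 2 * m + 1 := by omega
    have e2 : 2 * (m + 1) = 2 * m + 1 + 1 := by omega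
    rw [e1, e2]
    simp only [nsmul_eq_mul, smul_eq_mul]
    push_cast
    ring
  have h2 := congrArg (coeff n) h1
  obtain ⟨m, rfl⟩ : ∃ m, n = m + 1 := ⟨n - 1, by omega⟩
  have h3 : ((m + 1 : ℕ) : PowerSeries K) = C (((m + 1 : ℕ) : K)) := by
    rw [map_natCast]
  rw [map_sub, h3, coeff_C_mul, coeff_C_mul, coeff_succ_X_mul, coeff_derivative] at h2
  have h4 : (((m + 1 : ℕ) : K)) ≠ 0 := Nat.cast_ne_zero.2 (by omega)
  have h5 : (((m + 1 : ℕ) : K)) * coeff (m + 1) (psG K ^ 2 * eG K ^ (2 * (m + 1) - 1)) = 0 := by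
    rw [h2]
    push_cast
    ring
  exact (mul_eq_zero.1 h5).resolve_left h4

/-! ### Constant coefficients and growth -/

theorem tt_map_ps {R R' : Type*} [CommRing R] [CommRing R'] (f : R →+* R') :
    PowerSeries.map f (psG R) = psG R' := by
  unfold psG
  simp only [map_add, map_one, map_mul, map_pow, map_X, map_ofNat]

theorem tt_map_e {R R' : Type*} [CommRing R] [CommRing R'] (f : R →+* R') :
    PowerSeries.map f (eG R) = eG R' := by
  unfold eG
  simp only [map_sub, map_one, map_mul, map_pow, map_X, map_ofNat]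

theorem tt_ps0 : constantCoeff (psG ℤ_[7]) = 1 := by
  unfold psG
  simp

theorem tt_e0 : constantCoeff (eG ℤ_[7]) = 1 := by
  unfold eG
  simp

theorem tt_E0 (h : SpE) : constantCoeff Ez = 1 := by
  unfold Ez
  rw [map_add, map_one, map_mul, h.1, mul_zero, add_zero]

theorem tt_filt : MatU.Filt (MatU.Ipw (7 : ℤ_[7])) (fun n => n) :=
  MatU.filt_Ipw _ rfl fun _ _ => le_rfl

theorem tt_mono (b : ℤ_[7]) (k : ℕ) (hb : (7 : ℤ_[7]) ^ k ∣ b) :
    MatU.InF (MatU.Ipw (7 : ℤ_[7])) (fun n => n) (C b * X ^ k) := by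
  have h := (MatU.InF.one tt_filt).shift tt_filt (b := b) (k := k) (MatU.mem_Ipw.2 hb)
  rwa [mul_one] at h

theorem tt_ps_in : MatU.InF (MatU.Ipw (7 : ℤ_[7])) (fun n => n) (psG ℤ_[7]) := by
  have h0 := MatU.InF.one tt_filt
  have h1 := tt_mono (-245) 1 ⟨-35, by norm_num⟩
  have h2 := tt_mono (-2401) 2 ⟨-49, by norm_num⟩
  have h3 := (h0.sub h1).sub h2
  have e : psG ℤ_[7] = 1 - C (-245 : ℤ_[7]) * X ^ 1 - C (-2401 : ℤ_[7]) * X ^ 2 := by
    unfold psG
    rw [map_neg, map_neg]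
    ring
  rw [e]
  exact h3

theorem tt_e_in : MatU.InF (MatU.Ipw (7 : ℤ_[7])) (fun n => n) (eG ℤ_[7]) := by
  have h0 := MatU.InF.one tt_filt
  have h1 := tt_mono 490 1 ⟨70, by norm_num⟩
  have h2 := tt_mono 21609 2 ⟨441, by norm_num⟩
  have h3 := tt_mono 235298 3 ⟨686, by norm_num⟩
  have h4 := tt_mono 823543 4 ⟨343, by norm_num⟩
  have h5 := (((h0.sub h1).sub h2).sub h3).sub h4
  have e : eG ℤ_[7] = 1 - C (490 : ℤ_[7]) * X ^ 1 - C (21609 : ℤ_[7]) * X ^ 2 -
      C (235298 : ℤ_[7]) * X ^ 3 - C (823543 : ℤ_[7]) * X ^ 4 := by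
    unfold eG
    rw [pow_one]
  rw [e]
  exact h5

theorem tt_th_in (h : SpE) : MatU.InF (MatU.Ipw (7 : ℤ_[7])) (fun n => n) thE := fun n =>
  MatU.mem_Ipw.2 (h.2.2 n)

theorem tt_E_in (h : SpE) : MatU.InF (MatU.Ipw (7 : ℤ_[7])) (fun n => n) Ez := by
  intro n
  unfold Ez
  rw [map_add, coeff_C_mul]
  exact Submodule.add_mem _ (MatU.InF.one tt_filt n) (Ideal.mul_mem_left _ _ (tt_th_in h n))

theorem tt_LE_in (h : SpE) : MatU.InF (MatU.Irt 7) (fun n => n) LE := by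
  intro n
  unfold LE
  rw [MatU.Lpow, coeff_subst' (MatU.hasSubst_C 7 h.1)]
  refine finsum_induction (fun x => x ∈ MatU.Irt 7 n) (Submodule.zero_mem _)
    (fun x y hx hy => Submodule.add_mem _ hx hy) fun j => ?_
  rw [smul_eq_mul, ← map_pow, coeff_map, MatU.mem_Ipw, ← map_pow]
  refine Dvd.dvd.mul_left (map_dvd _ ?_) _
  have h1 := MatU.mem_Ipw.1 ((tt_th_in h).pow tt_filt j n)
  exact_mod_cast h1

/-- The series of the matrix. -/
def ttG (e i : ℕ) : PowerSeries ℤ_[7] :=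
  psG ℤ_[7] ^ ey7 e * eG ℤ_[7] ^ (2 * i + if e = 0 then 1 else 2) * Ez ^ (if e = 2 then 2 else 0)

theorem tt_G0 (h : SpE) (e i : ℕ) : constantCoeff (ttG e i) = 1 := by
  unfold ttG
  rw [map_mul, map_mul, map_pow, map_pow, map_pow, tt_ps0, tt_e0, tt_E0 h]
  simp

theorem tt_G_in (h : SpE) (e i : ℕ) :
    MatU.InF (MatU.Ipw (7 : ℤ_[7])) (fun n => n) (ttG e i) := by
  unfold ttG
  exact ((tt_ps_in.pow tt_filt _).mul tt_filt (tt_e_in.pow tt_filt _)).mul tt_filt
    ((tt_E_in h).pow tt_filt _)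

theorem tt_eq (e i k : ℕ) (hk : k ≤ i) :
    TT e i k = coeff (i - k) (PowerSeries.map Polynomial.C (ttG e i) * LE) := by
  unfold TT ttG
  rw [if_pos hk]

theorem tt_one (h : SpE) (e i : ℕ) : TT e i i = 1 := by
  rw [tt_eq e i i le_rfl, Nat.sub_self, coeff_zero_eq_constantCoeff_apply, map_mul]
  have h1 : constantCoeff (PowerSeries.map (Polynomial.C (R := ℤ_[7])) (ttG e i)) = 1 := by
    rw [← coeff_zero_eq_constantCoeff_apply, coeff_map, coeff_zero_eq_constantCoeff_apply,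
      tt_G0 h, map_one]
  have h2 : constantCoeff LE = 1 := MatU.Lpow_const 7 h.1
  rw [h1, h2, mul_one]

theorem tt_dvd (h : SpE) (e i k : ℕ) : Polynomial.C ((7 : ℤ_[7]) ^ (i - k)) ∣ TT e i k := by
  by_cases hk : k ≤ i
  · rw [tt_eq e i k hk]
    have hf : MatU.Filt (MatU.Irt 7) (fun n => n) := MatU.filt_Ipw _ rfl fun _ _ => le_rfl
    have h1 : MatU.InF (MatU.Irt 7) (fun n => n)
        (PowerSeries.map (Polynomial.C (R := ℤ_[7])) (ttG e i)) :=
      MatU.C_rt 7 fun n => by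
        have h2 := MatU.mem_Ipw.1 (tt_G_in h e i n)
        exact_mod_cast h2
    have h3 := MatU.mem_Ipw.1 (h1.mul hf (tt_LE_in h) (i - k))
    rw [← map_pow] at h3
    exact_mod_cast h3
  · unfold TT
    rw [if_neg hk]
    exact dvd_zero _

/-! ### The values at the centre -/

/-- `ℤ_7 → ℚ_7`. -/
abbrev ttI : ℤ_[7] →+* ℚ_[7] := PadicInt.Coe.ringHom

theorem tt_val (h : SpE) (e i m k : ℕ) (hk : k ≤ i) :
    (((TT e i k).eval (m : ℤ_[7]) : ℤ_[7]) : ℚ_[7]) =
      coeff (i - k) (PowerSeries.map ttI (ttG e i * Ez ^ m)) := by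
  have h1 : PowerSeries.map (Polynomial.evalRingHom (m : ℤ_[7]))
      (PowerSeries.map Polynomial.C (ttG e i) * LE) = ttG e i * Ez ^ m := by
    rw [map_mul]
    have e1 : PowerSeries.map (Polynomial.evalRingHom (m : ℤ_[7]))
        (PowerSeries.map Polynomial.C (ttG e i)) = ttG e i := by
      ext n
      rw [coeff_map, coeff_map, Polynomial.coe_evalRingHom, Polynomial.eval_C]
    have e2 : PowerSeries.map (Polynomial.evalRingHom (m : ℤ_[7])) LE = Ez ^ m := by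
      unfold LE Ez
      exact_mod_cast MatU.Lpow_eval 7 h.1 m
    rw [e1, e2]
  rw [tt_eq e i k hk, ← h1, coeff_map, coeff_map, Polynomial.coe_evalRingHom]
  rfl

theorem tt_prod (h : SpE) (e z i l : ℕ) (he : e ≤ 2) (hi : tz e z ≤ i) (hl : 1 ≤ l)
    (hlt : l ≤ tz e z) :
    PowerSeries.map ttI (ttG e i * Ez ^ cen e z) *
        PowerSeries.map (algebraMap ℚ ℚ_[7]) (xG e z l) =
      (psG ℚ_[7] ^ 2 * eG ℚ_[7] ^ (2 * (i + 1 - l) - 1)) * X ^ l := by
  have hE : PowerSeries.map ttI Ez ^ 4 * eG ℚ_[7] = 1 := by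
    have h1 := congrArg (PowerSeries.map ttI) h.2.1
    rw [map_mul, map_pow, map_one, tt_map_e] at h1
    exact h1
  have hE' : ∀ w : ℕ, PowerSeries.map ttI Ez ^ (4 * w) * eG ℚ_[7] ^ w = 1 := by
    intro w
    rw [pow_mul, ← mul_pow, hE, one_pow]
  unfold ttG xG
  simp only [map_mul, map_pow, tt_map_ps, tt_map_e, map_X]
  set F := PowerSeries.map ttI Ez with hF
  set G := eG ℚ_[7] with hG
  set P := psG ℚ_[7] with hP
  interval_cases e
  · have ht : tz 0 z = z / 2 := by simp [tz]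
    rw [ht] at hi hlt
    have hc : cen 0 z = 4 * z := by simp [cen]
    rw [hc]
    simp only [ey7, sh7, if_true, if_false, OfNat.zero_ne_ofNat, zero_ne_one, pow_zero, mul_one]
    obtain ⟨w, hw⟩ : ∃ w, z = w + 2 * l := ⟨z - 2 * l, by omega⟩
    obtain ⟨j, hj⟩ : ∃ j, i = j + l := ⟨i - l, by omega⟩
    have e1 : z + 1 - 1 - 2 * l = w := by omega
    have e2 : 2 * (i + 1 - l) - 1 = 2 * j + 1 := by omega
    have e3 : 2 * i + 1 = 2 * j + 1 + 2 * l := by omega
    rw [e1, e2, e3]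
    have h2 := hE' z
    have h3 : G ^ z = G ^ w * G ^ (2 * l) := by rw [hw, pow_add]
    rw [h3] at h2
    have h4 : P ^ 2 * G ^ (2 * j + 1 + 2 * l) * F ^ (4 * z) * (P ^ (2 - 2) * G ^ w * X ^ l) =
        P ^ 2 * G ^ (2 * j + 1) * X ^ l * (F ^ (4 * z) * (G ^ w * G ^ (2 * l))) := by
      rw [pow_add G (2 * j + 1) (2 * l)]
      ring
    rw [h4, h2, mul_one]
  · have ht : tz 1 z = (z - 1) / 2 := by simp [tz]
    rw [ht] at hi hlt
    have hc : cen 1 z = 4 * z := by simp [cen]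
    rw [hc]
    obtain ⟨w, hw⟩ : ∃ w, z = w + 1 + 2 * l := ⟨z - 1 - 2 * l, by omega⟩
    obtain ⟨j, hj⟩ : ∃ j, i = j + l := ⟨i - l, by omega⟩
    have e1 : z + sh7 1 - 1 - 2 * l = w := by
      simp only [sh7, if_true]
      omega
    have e2 : 2 * (i + 1 - l) - 1 = 2 * j + 1 := by omega
    have e3 : (2 * i + if (1 : ℕ) = 0 then 1 else 2) = 2 * j + 1 + (1 + 2 * l) := by
      rw [if_neg (by norm_num)]
      omega
    have e4 : ey7 1 = 0 := by simp [ey7]
    rw [e1, e2, e3, e4, if_neg (by norm_num : ¬ (1 : ℕ) = 2), pow_zero, pow_zero, mul_one]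
    have h2 := hE' z
    have h3 : G ^ z = G ^ w * G ^ (1 + 2 * l) := by rw [hw, ← pow_add]; congr 1; omega
    rw [h3] at h2
    have h4 : 1 * G ^ (2 * j + 1 + (1 + 2 * l)) * F ^ (4 * z) *
        (P ^ (2 - 0) * G ^ w * X ^ l) =
        P ^ 2 * G ^ (2 * j + 1) * X ^ l * (F ^ (4 * z) * (G ^ w * G ^ (1 + 2 * l))) := by
      rw [pow_add G (2 * j + 1) (1 + 2 * l)]
      ring
    rw [h4, h2, mul_one]
  · have ht : tz 2 z = z / 2 := by simp [tz]
    rw [ht] at hi hlt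
    have hc : cen 2 z = 4 * z + 2 := by simp [cen]
    rw [hc]
    obtain ⟨w, hw⟩ : ∃ w, z = w + 2 * l := ⟨z - 2 * l, by omega⟩
    obtain ⟨j, hj⟩ : ∃ j, i = j + l := ⟨i - l, by omega⟩
    have e1 : z + sh7 2 - 1 - 2 * l = w := by
      simp only [sh7]
      rw [if_neg (by norm_num)]
      omega
    have e2 : 2 * (i + 1 - l) - 1 = 2 * j + 1 := by omega
    have e3 : (2 * i + if (2 : ℕ) = 0 then 1 else 2) = 2 * j + 1 + (1 + 2 * l) := by
      rw [if_neg (by norm_num)]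
      omega
    have e4 : ey7 2 = 1 := by simp [ey7]
    rw [e1, e2, e3, e4, if_pos rfl]
    have h2 := hE' (z + 1)
    have h3 : G ^ (z + 1) = G ^ w * G ^ (1 + 2 * l) := by rw [hw, ← pow_add]; congr 1; omega
    rw [h3] at h2
    have h4 : P ^ 1 * G ^ (2 * j + 1 + (1 + 2 * l)) * F ^ 2 * F ^ (4 * z + 2) *
        (P ^ (2 - 1) * G ^ w * X ^ l) =
        P ^ 2 * G ^ (2 * j + 1) * X ^ l *
          (F ^ (4 * (z + 1)) * (G ^ w * G ^ (1 + 2 * l))) := by
      rw [pow_add G (2 * j + 1) (1 + 2 * l)]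
      ring
    rw [h4, h2, mul_one]

/-- Row W7. -/
theorem spTT (h : SpE) : SpTT := by
  intro e he
  refine ⟨tt_one h e, tt_dvd h e, fun z i l hi hl hlt => ?_⟩
  have hli : l ≤ i := hlt.trans hi
  have h1 : ∀ k ∈ Finset.range (i + 1),
      (((TT e i k).eval (cen e z : ℤ_[7]) : ℤ_[7]) : ℚ_[7]) *
        ((coeff (k + 1) (xG e z l) : ℚ) : ℚ_[7]) =
      coeff (i - k) (PowerSeries.map ttI (ttG e i * Ez ^ cen e z)) *
        coeff (k + 1) (PowerSeries.map (algebraMap ℚ ℚ_[7]) (xG e z l)) := by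
    intro k hk
    rw [tt_val h e i (cen e z) k (Nat.lt_succ_iff.1 (Finset.mem_range.1 hk)),
      coeff_map (algebraMap ℚ ℚ_[7])]
    rfl
  rw [Finset.sum_congr rfl h1]
  set A := PowerSeries.map ttI (ttG e i * Ez ^ cen e z) with hA
  set B := PowerSeries.map (algebraMap ℚ ℚ_[7]) (xG e z l) with hB
  have hB0 : coeff 0 B = 0 := by
    rw [hB, coeff_map]
    unfold xG
    have e1 : coeff 0 (psG ℚ ^ (2 - ey7 e) * eG ℚ ^ (z + sh7 e - 1 - 2 * l) * X ^ l) = 0 := by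
      rw [coeff_mul_X_pow', if_neg (by omega)]
    rw [e1, map_zero]
  have h2 : ∑ k ∈ Finset.range (i + 1), coeff (i - k) A * coeff (k + 1) B =
      coeff (i + 1) (A * B) := by
    rw [mul_comm A B, coeff_mul, Finset.Nat.sum_antidiagonal_eq_sum_range_succ
      (fun u v => coeff u B * coeff v A),
      Finset.sum_range_succ' (fun k => coeff k B * coeff (i + 1 - k) A), hB0, zero_mul,
      add_zero]
    refine Finset.sum_congr rfl fun k _ => ?_
    have e1 : i + 1 - (k + 1) = i - k := by omega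
    rw [mul_comm, e1]
  rw [h2, hA, hB, tt_prod h e z i l he hi hl hlt]
  rw [coeff_mul_X_pow', if_pos (by omega)]
  exact tt_key (i + 1 - l) (by omega)

end GH.M7
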