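import Pool.Agent.GH.M7.Stm

/-!
# GH7-U: minors with the first rows
-/

noncomputable section

namespace GH.M7

open GH.CombU

theorem u_cen {e n m : ℕ} (h : T7 e n m ≠ 0) :
    m = cen e (m / 4) ∧ t7 e m = tz e (m / 4) ∧
      T7 e n m = min (n - tz e (m / 4)) (m - 1 - tz e (m / 4) - n) := by
  have h1 : m % 4 = (if e = 2 then 2 else 0) := by
    by_contra h2
    unfold T7 at h
    rw [if_neg h2] at h
    exact h rfl
  refine ⟨?_, rfl, ?_⟩
  · unfold cen
    have h2 := Nat.div_add_mod m 4
    omega
  · unfold T7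
    rw [if_pos h1]
    rfl

/-- Cancelling a power of seven. -/
theorem u_cancel {k l : ℕ} {P Q : Zy}
    (h : Polynomial.C ((7 : ℤ_[7]) ^ k) * P = Polynomial.C ((7 : ℤ_[7]) ^ (k + l)) * Q) :
    P = Polynomial.C ((7 : ℤ_[7]) ^ l) * Q := by
  have h0 : (Polynomial.C ((7 : ℤ_[7]) ^ k) : Zy) ≠ 0 := by
    rw [Ne, Polynomial.C_eq_zero]
    exact pow_ne_zero _ (by norm_num)
  apply mul_left_cancel₀ h0
  rw [h, pow_add, map_mul, mul_assoc]

theorem spU (h1 : SpOrd) (h2 : SpGauss) (h3 : SpInt) (h4 : SpScale) (h5 : SpSum) : SpU := by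
  intro e n j he hnj
  classical
  set F : Zy := Pot.minor (PM e) (idf (n + 1)) (up n j) with hF
  set I : ℕ → ℕ := fun m => if hi e (n + 1) m ∧ m ≤ n + j + 2 then 1 else 0 with hI
  -- the zeros
  have hz : ∀ m < Z7 (n + 1), (Polynomial.X - Polynomial.C ((m : ℕ) : ℚ_[7])) ^
      (T7 e (n + 1) m - I m) ∣ F.map PadicInt.Coe.ringHom := by
    intro m _
    by_cases hT : T7 e (n + 1) m = 0
    · rw [hT, Nat.zero_sub, pow_zero]
      exact one_dvd _
    obtain ⟨hm, -, hT2⟩ := u_cen hT
    set t := tz e (m / 4) with ht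
    set A : Finset (Fin (n + 1)) := Finset.univ.filter fun s => up n j s + n + 3 ≤ m with hA
    have ho := h1 e (m / 4) (n + 1) (idf (n + 1)) (up n j) A he (by
      intro s hs
      have hs1 := (Finset.mem_filter.1 hs).2
      rw [← hm]
      refine ⟨by omega, fun r => ?_⟩
      have hr : idf (n + 1) r ≤ n := by
        have := r.2
        unfold idf
        omega
      omega)
    rw [← hm] at ho
    refine (pow_dvd_pow _ ?_).trans ho
    -- the number of columns
    have hc1 : min n (m - n - 2) + (if n + j + 3 ≤ m then 1 else 0) ≤ A.card := by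
      have e1 : A.card = ∑ s : Fin (n + 1), if up n j s + n + 3 ≤ m then 1 else 0 := by
        rw [hA, Finset.card_filter]
      rw [e1, Fin.sum_univ_castSucc]
      have e2 : up n j (Fin.last n) = j := by simp [up]
      have e3 : ∀ s : Fin n, up n j (Fin.castSucc s) = s := by
        intro s
        simp [up]
      rw [e2]
      simp only [e3]
      have e4 : min n (m - n - 2) ≤ ∑ s : Fin n, if (s : ℕ) + n + 3 ≤ m then 1 else 0 := by
        rw [Fin.sum_univ_eq_sum_range (fun s => if s + n + 3 ≤ m then 1 else 0),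
          ← Finset.card_filter]
        have e5 : Finset.range (min n (m - n - 2)) ⊆
            (Finset.range n).filter fun s => s + n + 3 ≤ m := by
          intro s hs
          rw [Finset.mem_range] at hs
          rw [Finset.mem_filter, Finset.mem_range]
          omega
        have e6 := Finset.card_le_card e5
        rwa [Finset.card_range] at e6
      have e7 : (if n + j + 3 ≤ m then 1 else 0) = (if j + n + 3 ≤ m then 1 else 0) := by
        rw [add_comm n j]
      rw [e7]
      omega
    have hI2 : I m = if 2 * (n + 1) < m ∧ m ≤ n + j + 2 then 1 else 0 := by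
      simp only [hI]
      unfold hi
      by_cases hh : 2 * (n + 1) < m ∧ m ≤ n + j + 2
      · rw [if_pos hh, if_pos ⟨⟨hh.1, by omega⟩, hh.2⟩]
      · rw [if_neg hh, if_neg]
        rintro ⟨⟨a1, _⟩, a3⟩
        exact hh ⟨a1, a3⟩
    rw [hI2]
    by_cases c1 : n + j + 3 ≤ m
    · rw [if_pos c1] at hc1
      rw [if_neg (by omega)]
      omega
    · rw [if_neg c1] at hc1
      by_cases c2 : 2 * (n + 1) < m
      · rw [if_pos ⟨c2, by omega⟩]
        omega
      · rw [if_neg (by omega)]
        omega
  obtain ⟨H, -, hH⟩ := h2 F (fun m => T7 e (n + 1) m - I m) (Z7 (n + 1))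
    (h3 e (n + 1) (up n j) he) hz
  -- the exponent
  have hsum : ∑ m ∈ Finset.range (Z7 (n + 1)), (T7 e (n + 1) m - I m) +
      ∑ m ∈ Finset.range (Z7 (n + 1)), I m = B7 e (n + 1) := by
    rw [← h5 e (n + 1) he, ← Finset.sum_add_distrib]
    refine Finset.sum_congr rfl fun m _ => ?_
    have : I m ≤ T7 e (n + 1) m := by
      simp only [hI]
      split_ifs with hh
      · exact hh.1.2
      · exact Nat.zero_le _
    omega
  have hcard : ∑ m ∈ Finset.range (Z7 (n + 1)), I m ≤ (n + j + 2) / 2 - (n + 1) := by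
    simp only [hI]
    rw [← Finset.card_filter]
    have e1 := Finset.card_le_card_of_injOn (s := (Finset.range (Z7 (n + 1))).filter
      fun m => hi e (n + 1) m ∧ m ≤ n + j + 2) (t := Finset.Ioc (n + 1) ((n + j + 2) / 2))
      (fun m => m / 2) (by
        intro m hm
        have hm1 := (Finset.mem_filter.1 (Finset.mem_coe.1 hm)).2
        obtain ⟨⟨a1, a2⟩, a3⟩ := hm1
        have a4 : m % 4 = (if e = 2 then 2 else 0) := by
          by_contra h2
          unfold T7 at a2
          rw [if_neg h2] at a2
          omega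
        have a5 : m % 2 = 0 := by
          split_ifs at a4 <;> omega
        rw [Finset.mem_coe, Finset.mem_Ioc]
        show n + 1 < m / 2 ∧ m / 2 ≤ (n + j + 2) / 2
        omega) (by
        intro m hm m' hm' hmm
        have hm1 := (Finset.mem_filter.1 (Finset.mem_coe.1 hm)).2
        have hm2 := (Finset.mem_filter.1 (Finset.mem_coe.1 hm')).2
        obtain ⟨⟨a1, a2⟩, a3⟩ := hm1
        obtain ⟨⟨b1, b2⟩, b3⟩ := hm2
        have a4 : m % 4 = (if e = 2 then 2 else 0) := by
          by_contra h2
          unfold T7 at a2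
          rw [if_neg h2] at a2
          omega
        have b4 : m' % 4 = (if e = 2 then 2 else 0) := by
          by_contra h2
          unfold T7 at b2
          rw [if_neg h2] at b2
          omega
        have hmm' : m / 2 = m' / 2 := hmm
        split_ifs at a4 b4 <;> omega)
    rwa [Nat.card_Ioc] at e1
  -- the scaling
  have hsc := h4 e (n + 1) (idf (n + 1)) (up n j) he
  have hs1 : ∑ i : Fin (n + 1), up n j i = ∑ i : Fin (n + 1), idf (n + 1) i + (j - n) := by
    rw [Fin.sum_univ_castSucc, Fin.sum_univ_castSucc (f := idf (n + 1))]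
    have e2 : up n j (Fin.last n) = j := by simp [up]
    have e3 : ∀ s : Fin n, up n j (Fin.castSucc s) = idf (n + 1) (Fin.castSucc s) := by
      intro s
      simp [up, idf]
    have e4 : idf (n + 1) (Fin.last n) = n := by simp [idf]
    rw [e2, e4]
    simp only [e3]
    omega
  rw [hs1] at hsc
  have hPS := u_cancel hsc
  rw [hPS, ← hF, hH, ← mul_assoc, ← mul_assoc, ← map_mul, ← pow_add]
  refine Dvd.dvd.mul_right (Dvd.dvd.mul_right (map_dvd _ (pow_dvd_pow _ ?_)) _) _
  omega

end GH.M7
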