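import Pool.Agent.GH.M7.Stm

/-!
# GH7-MAT, row J5: the functions `V` for `e = 1`
-/

namespace GH.M7

theorem v1_down (V V' : ℤ → ℤ → ℚ) (hV : IsRec V) (hV' : IsRec V')
    (h0 : ∀ N : ℤ, 0 ≤ N → ∀ s, V N s = V' N s) (n : ℕ) :
    ∀ N : ℤ, -(n : ℤ) ≤ N → ∀ s, V N s = V' N s := by
  induction n with
  | zero =>
    intro N hN s
    exact h0 N (by simpa using hN) s
  | succ n ih =>
    intro N hN s
    by_cases h : -(n : ℤ) ≤ N
    · exact ih N h s
    · have h1 := hV N (s + 4)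
      have h2 := hV' N (s + 4)
      simp only [eO] at h1 h2
      have e : s + 4 - 4 = s := by ring
      rw [e] at h1 h2
      push_cast at hN
      rw [ih (N + 8) (by omega), ih (N + 7) (by omega), ih (N + 7) (by omega),
        ih (N + 7) (by omega), ih (N + 7) (by omega), ih (N + 7) (by omega),
        ih (N + 6) (by omega), ih (N + 4) (by omega), ih (N + 2) (by omega)] at h1
      linarith

theorem v1_up (V V' : ℤ → ℤ → ℚ) (hV : IsRec V) (hV' : IsRec V')
    (hw : ∀ N, 0 ≤ N → N ≤ 7 → ∀ s, V N s = V' N s) (n : ℕ) :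
    ∀ s, V n s = V' n s := by
  induction n using Nat.strong_induction_on with
  | _ n ih =>
    intro s
    by_cases h : n ≤ 7
    · exact hw n (by omega) (by exact_mod_cast h) s
    · obtain ⟨m, rfl⟩ : ∃ m, n = m + 8 := ⟨n - 8, by omega⟩
      have h1 := hV m s
      have h2 := hV' m s
      have e0 := ih m (by omega)
      have e2 := ih (m + 2) (by omega)
      have e4 := ih (m + 4) (by omega)
      have e6 := ih (m + 6) (by omega)
      have e7 := ih (m + 7) (by omega)
      push_cast at e0 e2 e4 e6 e7 ⊢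
      rw [h1, h2]
      simp only [eO, e0, e2, e4, e6, e7]

theorem v1_eq (V V' : ℤ → ℤ → ℚ) (hV : IsRec V) (hV' : IsRec V')
    (hw : ∀ N, 0 ≤ N → N ≤ 7 → ∀ s, V N s = V' N s) : ∀ N s, V N s = V' N s := by
  have h0 : ∀ N : ℤ, 0 ≤ N → ∀ s, V N s = V' N s := by
    intro N hN s
    obtain ⟨n, rfl⟩ := Int.eq_ofNat_of_zero_le hN
    exact v1_up V V' hV hV' hw n s
  intro N s
  exact v1_down V V' hV hV' h0 N.natAbs N (by omega) s

theorem v1_rec (H : ℤ → ℤ → ℚ) (h : IsHH H) :
    IsRec (fun N s => pO (pO (H (N - 1))) s) := by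
  intro N s
  have r := h.rc (N - 1)
  have e8 : N + 8 - 1 = N - 1 + 8 := by ring
  have e7 : N + 7 - 1 = N - 1 + 7 := by ring
  have e6 : N + 6 - 1 = N - 1 + 6 := by ring
  have e4 : N + 4 - 1 = N - 1 + 4 := by ring
  have e2 : N + 2 - 1 = N - 1 + 2 := by ring
  simp only [e8, e7, e6, e4, e2]
  simp only [pO, r, eO]
  ring_nf

theorem spV1 (h : SpRec) (h2 : SpWin) : SpV1 := by
  intro H hH N s
  exact v1_eq (VV 1) (fun N s => pO (pO (H (N - 1))) s) (h 1 (by norm_num)) (v1_rec H hH)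
    (fun N h0 h7 s => h2 H hH N h0 h7 s) N s

end GH.M7
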