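import Pool.Agent.GH.M7.Stm

/-!
# GH7-MAT, row J6: the functions `V` for `e = 2` and `e = 0` (helper15)
-/

open PowerSeries

noncomputable section

namespace GH.M7

open GH.D7 GH.CombU

/-! ### integer powers of `S` -/

theorem v20_S0 : constantCoeff (S7 ℚ) = 1 := constantCoeff_S7 ℚ

theorem v20_SSi : S7 ℚ * Si ℚ = 1 := by
  unfold Si
  exact PowerSeries.mul_invOfUnit _ 1 (by rw [v20_S0]; rfl)

/-- the unit `S` -/
def v20_u : (PowerSeries ℚ)ˣ := ⟨S7 ℚ, Si ℚ, v20_SSi, by rw [mul_comm]; exact v20_SSi⟩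

theorem v20_Sz (β : ℤ) : Sz β = ((v20_u ^ β : (PowerSeries ℚ)ˣ) : PowerSeries ℚ) := by
  unfold Sz
  split_ifs with h
  · obtain ⟨n, rfl⟩ := Int.eq_ofNat_of_zero_le h
    rw [zpow_natCast, Units.val_pow_eq_pow_val]
    rfl
  · obtain ⟨n, hn⟩ := Int.eq_ofNat_of_zero_le (show 0 ≤ -β by omega)
    have h1 : β = -(n : ℤ) := by omega
    rw [h1, zpow_neg, zpow_natCast, ← inv_pow, Units.val_pow_eq_pow_val, neg_neg]
    rfl

theorem v20_Sz_add (a b : ℤ) : Sz a * Sz b = Sz (a + b) := by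
  rw [v20_Sz, v20_Sz, v20_Sz, zpow_add, Units.val_mul]

theorem v20_Sz_neg2 : Sz (-2) = Si ℚ ^ 2 := by
  unfold Sz
  rw [if_neg (by norm_num)]
  rfl

theorem v20_gs : gs7 ℚ = X ^ 7 * Sz (-2) := by
  have h1 : S7 ℚ ^ 2 * invOfUnit (S7 ℚ ^ 2) 1 = 1 :=
    PowerSeries.mul_invOfUnit _ 1 (by rw [map_pow, v20_S0]; simp)
  have h2 : S7 ℚ ^ 2 * Si ℚ ^ 2 = 1 := by rw [← mul_pow, v20_SSi, one_pow]
  have h3 : invOfUnit (S7 ℚ ^ 2) 1 = Si ℚ ^ 2 := by
    calc invOfUnit (S7 ℚ ^ 2) 1 = (S7 ℚ ^ 2 * Si ℚ ^ 2) * invOfUnit (S7 ℚ ^ 2) 1 := by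
          rw [h2, one_mul]
      _ = Si ℚ ^ 2 * (S7 ℚ ^ 2 * invOfUnit (S7 ℚ ^ 2) 1) := by ring
      _ = Si ℚ ^ 2 := by rw [h1, mul_one]
  unfold gs7
  rw [h3, v20_Sz_neg2]

theorem v20_Y : Y7 ℚ * (1 + C (245 : ℚ) * gs7 ℚ + C (2401 : ℚ) * gs7 ℚ ^ 2) =
    1 + C (5 : ℚ) * X + X ^ 2 := by
  have h0 : constantCoeff (1 + C (245 : ℚ) * gs7 ℚ + C (2401 : ℚ) * gs7 ℚ ^ 2) = 1 := by
    have h1 : constantCoeff (gs7 ℚ) = 0 := by
      rw [v20_gs, map_mul, map_pow, constantCoeff_X, zero_pow (by norm_num), zero_mul]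
    rw [map_add, map_add, map_mul, map_mul, map_pow, h1, map_one]
    simp
  unfold Y7
  rw [mul_assoc, mul_comm (invOfUnit _ 1), PowerSeries.mul_invOfUnit _ 1 (by rw [h0]; rfl),
    mul_one]

/-! ### coefficients with integer index -/

theorem v20_co_add (n : ℤ) (F G : PowerSeries ℚ) : co n (F + G) = co n F + co n G := by
  unfold co
  split_ifs
  · rw [map_add]
  · rw [add_zero]

theorem v20_co_C (n : ℤ) (c : ℚ) (F : PowerSeries ℚ) : co n (C c * F) = c * co n F := by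
  unfold co
  split_ifs
  · rw [coeff_C_mul]
  · rw [mul_zero]

theorem v20_co_X (n : ℤ) (k : ℕ) (F : PowerSeries ℚ) : co n (X ^ k * F) = co (n - k) F := by
  unfold co
  by_cases h : 0 ≤ n
  · obtain ⟨m, rfl⟩ := Int.eq_ofNat_of_zero_le h
    rw [if_pos h, coeff_X_pow_mul']
    by_cases hk : k ≤ m
    · rw [if_pos (by simpa using hk), if_pos (by omega)]
      congr 1
      have h2 : ((m : ℤ) - k).toNat = m - k := by omega
      rw [h2]
      rfl
    · rw [if_neg (by simpa using hk), if_neg (by omega)]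
  · rw [if_neg h, if_neg (by omega)]

theorem v20_co_neg {n : ℤ} (h : n < 0) (F : PowerSeries ℚ) : co n F = 0 := by
  unfold co
  rw [if_neg (by omega)]

/-- the basic identity for the coefficients -/
theorem v20_key (F : PowerSeries ℚ) (n b : ℤ) :
    co n (Y7 ℚ * F * Sz b) + 245 * co (n - 7) (Y7 ℚ * F * Sz (b - 2)) +
      2401 * co (n - 14) (Y7 ℚ * F * Sz (b - 4)) =
    co n (F * Sz b) + 5 * co (n - 1) (F * Sz b) + co (n - 2) (F * Sz b) := by
  have h1 : (1 + C (245 : ℚ) * gs7 ℚ + C (2401 : ℚ) * gs7 ℚ ^ 2) * (Y7 ℚ * F * Sz b) =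
      Y7 ℚ * F * Sz b + C (245 : ℚ) * (X ^ 7 * (Y7 ℚ * F * Sz (b - 2))) +
        C (2401 : ℚ) * (X ^ 14 * (Y7 ℚ * F * Sz (b - 4))) := by
    have h2 : Sz (b - 2) = Sz (-2) * Sz b := by rw [v20_Sz_add]; congr 1; ring
    have h3 : Sz (b - 4) = Sz (-2) ^ 2 * Sz b := by
      rw [pow_two, mul_assoc, v20_Sz_add, v20_Sz_add]
      congr 1
      ring
    rw [h2, h3, v20_gs]
    ring
  have h4 : (1 + C (245 : ℚ) * gs7 ℚ + C (2401 : ℚ) * gs7 ℚ ^ 2) * (Y7 ℚ * F * Sz b) =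
      F * Sz b + C (5 : ℚ) * (X ^ 1 * (F * Sz b)) + X ^ 2 * (F * Sz b) := by
    calc _ = (Y7 ℚ * (1 + C (245 : ℚ) * gs7 ℚ + C (2401 : ℚ) * gs7 ℚ ^ 2)) * (F * Sz b) := by
          ring
      _ = _ := by
          rw [v20_Y]
          ring
  have h5 := congrArg (co n) (h1.symm.trans h4)
  rw [v20_co_add, v20_co_add, v20_co_add, v20_co_add, v20_co_C, v20_co_C, v20_co_C, v20_co_X,
    v20_co_X, v20_co_X, v20_co_X] at h5
  exact_mod_cast h5

/-! ### the functions `V` -/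

theorem v20_V1 (N s : ℤ) : VV 1 N s = (if s = 0 then 1 else 0) -
    (-7 : ℚ) ^ N * co (7 * s - 4 * N) (Sz (2 * s - N)) := by
  unfold VV
  have h1 : ey7 1 = 0 := rfl
  have h2 : ((sh7 1 : ℕ) : ℤ) = 0 := rfl
  have hA : (if (1 : ℕ) = 1 then (-1 : ℚ) else 7) = -1 := if_pos rfl
  have hB : (if (1 : ℕ) = 2 then (2 : ℤ) else 0) = 0 := if_neg (by norm_num)
  rw [h1, h2, hA, hB, pow_zero, one_mul, sub_zero, sub_zero]
  ring

theorem v20_V2 (N s : ℤ) : VV 2 N s = (if s = 0 then 1 else 0) +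
    7 * (-7 : ℚ) ^ N * co (7 * s - 4 * N - 2) (Y7 ℚ * Sz (2 * s - N - 1)) := by
  unfold VV
  have h1 : ey7 2 = 1 := rfl
  have h2 : ((sh7 2 : ℕ) : ℤ) = 1 := rfl
  have hA : (if (2 : ℕ) = 1 then (-1 : ℚ) else 7) = 7 := if_neg (by norm_num)
  have hB : (if (2 : ℕ) = 2 then (2 : ℤ) else 0) = 2 := if_pos rfl
  rw [h1, h2, hA, hB, pow_one]

theorem v20_V0 (N s : ℤ) : VV 0 N s = (if s = 0 then 1 else 0) +
    7 * (-7 : ℚ) ^ N * co (7 * s - 4 * N) (Y7 ℚ ^ 2 * Sz (2 * s - N - 1)) := by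
  unfold VV
  have h1 : ey7 0 = 2 := rfl
  have h2 : ((sh7 0 : ℕ) : ℤ) = 1 := rfl
  have hA : (if (0 : ℕ) = 1 then (-1 : ℚ) else 7) = 7 := if_neg (by norm_num)
  have hB : (if (0 : ℕ) = 2 then (2 : ℤ) else 0) = 0 := if_neg (by norm_num)
  rw [h1, h2, hA, hB, sub_zero]

theorem v20_pw (N : ℤ) (k : ℤ) : (-7 : ℚ) ^ (N - k) = (-7 : ℚ) ^ N / (-7 : ℚ) ^ k :=
  zpow_sub₀ (by norm_num) N k

theorem v20_A (N s : ℤ) : pO (VV 2 N) s =
    VV 1 (N + 1) s + 245 * VV 1 (N - 1) (s - 1) + 2401 * VV 1 (N - 3) (s - 2) := by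
  have h := v20_key 1 (7 * s - 4 * N - 2) (2 * s - N - 1)
  rw [mul_one, one_mul] at h
  unfold pO
  rw [v20_V2, v20_V2, v20_V2, v20_V1, v20_V1, v20_V1]
  have e1 : 7 * (s - 1) - 4 * N - 2 = 7 * s - 4 * N - 2 - 7 := by ring
  have e2 : 2 * (s - 1) - N - 1 = 2 * s - N - 1 - 2 := by ring
  have e3 : 7 * (s - 2) - 4 * N - 2 = 7 * s - 4 * N - 2 - 14 := by ring
  have e4 : 2 * (s - 2) - N - 1 = 2 * s - N - 1 - 4 := by ring
  have e5 : 7 * s - 4 * (N + 1) = 7 * s - 4 * N - 2 - 2 := by ring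
  have e6 : 2 * s - (N + 1) = 2 * s - N - 1 := by ring
  have e7 : 7 * (s - 1) - 4 * (N - 1) = 7 * s - 4 * N - 2 - 1 := by ring
  have e8 : 2 * (s - 1) - (N - 1) = 2 * s - N - 1 := by ring
  have e9 : 7 * (s - 2) - 4 * (N - 3) = 7 * s - 4 * N - 2 := by ring
  have e10 : 2 * (s - 2) - (N - 3) = 2 * s - N - 1 := by ring
  rw [e1, e2, e3, e4, e5, e6, e7, e8, e9, e10, v20_pw N 1, v20_pw N 3,
    zpow_add₀ (by norm_num : (-7 : ℚ) ≠ 0) N 1]
  norm_num
  linear_combination (7 * (-7 : ℚ) ^ N) * h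

theorem v20_B (N s : ℤ) : pO (VV 0 N) s =
    VV 2 N s + 245 * VV 2 (N - 2) (s - 1) + 2401 * VV 2 (N - 4) (s - 2) := by
  have h := v20_key (Y7 ℚ) (7 * s - 4 * N) (2 * s - N - 1)
  rw [← pow_two] at h
  unfold pO
  rw [v20_V0, v20_V0, v20_V0, v20_V2, v20_V2, v20_V2]
  have e1 : 7 * (s - 1) - 4 * N = 7 * s - 4 * N - 7 := by ring
  have e2 : 2 * (s - 1) - N - 1 = 2 * s - N - 1 - 2 := by ring
  have e3 : 7 * (s - 2) - 4 * N = 7 * s - 4 * N - 14 := by ring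
  have e4 : 2 * (s - 2) - N - 1 = 2 * s - N - 1 - 4 := by ring
  have e7 : 7 * (s - 1) - 4 * (N - 2) - 2 = 7 * s - 4 * N - 1 := by ring
  have e8 : 2 * (s - 1) - (N - 2) - 1 = 2 * s - N - 1 := by ring
  have e9 : 7 * (s - 2) - 4 * (N - 4) - 2 = 7 * s - 4 * N := by ring
  have e10 : 2 * (s - 2) - (N - 4) - 1 = 2 * s - N - 1 := by ring
  rw [e1, e2, e3, e4, e7, e8, e9, e10, v20_pw N 2, v20_pw N 4]
  norm_num
  linear_combination (7 * (-7 : ℚ) ^ N) * h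

/-! ### injectivity -/

theorem v20_inj {f g : ℤ → ℚ} (s0 : ℤ) (hf : ∀ s < s0, f s = g s)
    (h : ∀ s, pO f s = pO g s) : ∀ s, f s = g s := by
  have key : ∀ n : ℕ, ∀ s < s0 + n, f s = g s := by
    intro n
    induction n with
    | zero =>
      intro s hs
      exact hf s (by simpa using hs)
    | succ n ih =>
      intro s hs
      have h1 := h s
      unfold pO at h1
      rw [ih (s - 1) (by push_cast at hs; omega), ih (s - 2) (by push_cast at hs; omega)] at h1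
      linarith
  intro s
  exact key (s - s0 + 1).toNat s (by omega)

theorem v20_H {H : ℤ → ℤ → ℚ} (h2 : SpHspan) (hH : IsHH H) (N s : ℤ) (hs : s < kapH N) :
    H N s = 0 := by
  have h := h2 H hH N
  have h3 : Sp N (kapH N) ≤ (LinearMap.ker (LinearMap.proj s : (ℤ → ℚ) →ₗ[ℚ] ℚ)) := by
    unfold Sp
    rw [Submodule.span_le]
    rintro f ⟨k, hk, -, rfl⟩
    show Wf (N - 2 * k) (s - k) = 0
    unfold Wf
    split_ifs
    · exact v20_co_neg (by omega) _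
    · rfl
  exact h3 h

theorem v20_Vz (e : ℕ) (N s : ℤ) (hs : s < 0) (h : 7 * s < 4 * N) : VV e N s = 0 := by
  unfold VV
  rw [if_neg (by omega), v20_co_neg (by split_ifs <;> omega), mul_zero, add_zero]

theorem spV20 (h : SpV1) (h2 : SpHspan) : SpV20 := by
  intro H hH N s
  have hV2 : ∀ N s, VV 2 N s =
      pO (fun s => H N s + 245 * H (N - 2) (s - 1) + 2401 * H (N - 4) (s - 2)) s := by
    intro N
    refine v20_inj (min (-|N|) (min (kapH N) (min (kapH (N - 2)) (kapH (N - 4))))) ?_ ?_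
    · intro s hs
      rw [lt_min_iff, lt_min_iff, lt_min_iff] at hs
      obtain ⟨h3, h4, h5, h6⟩ := hs
      have h7 := abs_nonneg N
      have h8 := neg_abs_le N
      rw [v20_Vz 2 N s (by omega) (by omega)]
      unfold pO
      simp only
      rw [v20_H h2 hH N s h4, v20_H h2 hH N (s - 1) (by omega), v20_H h2 hH N (s - 2) (by omega),
        v20_H h2 hH (N - 2) (s - 1) (by omega), v20_H h2 hH (N - 2) (s - 1 - 1) (by omega),
        v20_H h2 hH (N - 2) (s - 2 - 1) (by omega), v20_H h2 hH (N - 4) (s - 2) (by omega),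
        v20_H h2 hH (N - 4) (s - 1 - 2) (by omega), v20_H h2 hH (N - 4) (s - 2 - 2) (by omega)]
      norm_num
    · intro s
      rw [v20_A, h H hH, h H hH, h H hH]
      have e1 : N + 1 - 1 = N := by ring
      have e2 : N - 1 - 1 = N - 2 := by ring
      have e3 : N - 3 - 1 = N - 4 := by ring
      rw [e1, e2, e3]
      simp only [pO]
      ring_nf
  refine ⟨hV2 N s, ?_⟩
  have hV0 : ∀ s, VV 0 N s = H N s + 490 * H (N - 2) (s - 1) + 64827 * H (N - 4) (s - 2) +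
      1176490 * H (N - 6) (s - 3) + 5764801 * H (N - 8) (s - 4) := by
    refine v20_inj (min (-|N|) (min (kapH N) (min (kapH (N - 2)) (min (kapH (N - 4))
      (min (kapH (N - 6)) (kapH (N - 8))))))) ?_ ?_
    · intro s hs
      rw [lt_min_iff, lt_min_iff, lt_min_iff, lt_min_iff, lt_min_iff] at hs
      obtain ⟨h3, h4, h5, h6, h6', h6''⟩ := hs
      have h7 := abs_nonneg N
      have h8 := neg_abs_le N
      rw [v20_Vz 0 N s (by omega) (by omega), v20_H h2 hH N s h4,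
        v20_H h2 hH (N - 2) (s - 1) (by omega), v20_H h2 hH (N - 4) (s - 2) (by omega),
        v20_H h2 hH (N - 6) (s - 3) (by omega), v20_H h2 hH (N - 8) (s - 4) (by omega)]
      norm_num
    · intro s
      rw [v20_B, hV2, hV2, hV2]
      simp only [pO]
      ring_nf
  exact hV0 s

end GH.M7
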