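import Pool.Agent.GH.M7.Stm
import Pool.Agent.GH.D7.Fix7

/-!
# GH7-MAT, rows S2, S3: the series `V` and `E`
-/

set_option autoImplicit false

open PowerSeries

noncomputable section

namespace GH.M7

open GH.D7 GH.CombU

theorem ve_cast {a b : ℤ} (h : a ∣ b) : ((a : ℤ) : ℤ_[7]) ∣ ((b : ℤ) : ℤ_[7]) := by
  obtain ⟨c, rfl⟩ := h
  exact ⟨(c : ℤ_[7]), by push_cast; rfl⟩

theorem ve_S (hK : GH.D7.K7) (n : ℕ) : (7 : ℤ_[7]) ^ ((n + 3) / 4) ∣ coeff n (S7 ℤ_[7]) := by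
  have h1 := ve_cast (S7_dvd hK n)
  have h2 : ((coeff n (S7 ℤ) : ℤ) : ℤ_[7]) = coeff n (S7 ℤ_[7]) := by
    rw [← map_S7 ℤ (Int.castRingHom ℤ_[7]), coeff_map]
    rfl
  rw [h2] at h1
  push_cast at h1
  exact h1

theorem ve_Y (hK : GH.D7.K7) (n : ℕ) : (7 : ℤ_[7]) ^ ((n + 1) / 4) ∣ coeff n (Y7 ℤ_[7]) := by
  have h1 := ve_cast (Y7_dvd hK n)
  have h2 : ((coeff n (Y7 ℤ) : ℤ) : ℤ_[7]) = coeff n (Y7 ℤ_[7]) := by
    rw [← map_Y7 ℤ (Int.castRingHom ℤ_[7]), coeff_map]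
    rfl
  rw [h2] at h1
  push_cast at h1
  exact h1

/-- Row S2. -/
theorem spV (h : SpRoot4) (hK : GH.D7.K7) : SpV := by
  have h1 := h (fun n => (n + 3) / 4) (by norm_num) (fun a b => by show _ / 4 ≤ _; omega)
    (fun n hn => by show 1 ≤ (n + 3) / 4; omega) (S7 ℤ_[7]) (constantCoeff_S7 ℤ_[7]) (ve_S hK)
  have h2 : constantCoeff thV = 0 ∧ (1 + C (7 : ℤ_[7]) * thV) ^ 4 * S7 ℤ_[7] = 1 ∧
      ∀ n, (7 : ℤ_[7]) ^ ((n + 3) / 4) ∣ coeff n (1 + C (7 : ℤ_[7]) * thV) := by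
    unfold thV
    rw [dif_pos h1]
    exact h1.choose_spec
  exact ⟨h2.1, h2.2.1, h2.2.2, ve_S hK, ve_Y hK⟩

theorem ve_eG (n : ℕ) : (7 : ℤ_[7]) ^ (if n = 0 then 0 else n + 1) ∣ coeff n (eG ℤ_[7]) := by
  have e1 : ∀ c : ℤ_[7], coeff n (C c * (X : PowerSeries ℤ_[7])) = if n = 1 then c else 0 := by
    intro c
    have := coeff_C_mul_X_pow c 1 n
    rwa [pow_one] at this
  unfold eG
  rw [map_sub, map_sub, map_sub, map_sub, coeff_one, e1, coeff_C_mul_X_pow,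
    coeff_C_mul_X_pow, coeff_C_mul_X_pow]
  by_cases h0 : n = 0
  · subst h0
    simp
  by_cases h1 : n = 1
  · subst h1
    refine ⟨-10, ?_⟩
    norm_num
  by_cases h2 : n = 2
  · subst h2
    refine ⟨-63, ?_⟩
    norm_num
  by_cases h3 : n = 3
  · subst h3
    refine ⟨-98, ?_⟩
    norm_num
  by_cases h4 : n = 4
  · subst h4
    refine ⟨-49, ?_⟩
    norm_num
  rw [if_neg h0, if_neg h0, if_neg h1, if_neg h2, if_neg h3, if_neg h4]
  simp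

theorem ve_eG0 : constantCoeff (eG ℤ_[7]) = 1 := by
  unfold eG
  simp

/-- Row S3. -/
theorem spE (h : SpRoot4) : SpE := by
  obtain ⟨θ, h1, h2, h3⟩ := h (fun n => if n = 0 then 0 else n + 1) (if_pos rfl)
    (fun a b => by
      show (if a + b = 0 then 0 else a + b + 1) ≤ (if a = 0 then 0 else a + 1) +
        (if b = 0 then 0 else b + 1)
      split_ifs <;> omega)
    (fun n hn => by
      show 1 ≤ (if n = 0 then 0 else n + 1)
      split_ifs <;> omega) (eG ℤ_[7]) ve_eG0 ve_eG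
  have h4 : ∃ θ : PowerSeries ℤ_[7], constantCoeff θ = 0 ∧
      (1 + C (7 : ℤ_[7]) * θ) ^ 4 * eG ℤ_[7] = 1 ∧ ∀ n, (7 : ℤ_[7]) ^ n ∣ coeff n θ := by
    refine ⟨θ, h1, h2, fun n => ?_⟩
    by_cases hn : n = 0
    · rw [hn, pow_zero]
      exact one_dvd _
    · have h5 := h3 n
      simp only [if_neg hn] at h5
      rw [map_add, coeff_one, if_neg hn, zero_add, coeff_C_mul] at h5
      have h6 : (7 : ℤ_[7]) ^ (n + 1) ∣ 7 * coeff n θ := h5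
      rw [pow_succ'] at h6
      have h7 : (7 : ℤ_[7]) ≠ 0 := by norm_num
      exact (mul_dvd_mul_iff_left h7).1 h6
  unfold SpE Ez thE
  rw [dif_pos h4]
  exact h4.choose_spec

end GH.M7
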