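import Pool.Agent.GH.M7.Stm

/-!
# GH7-MAT, rows W5, W6: the values at the centres
-/

set_option autoImplicit false

open PowerSeries

noncomputable section

namespace GH.M7

open GH.D7 GH.CombU

/-! ### Series -/

/-- `S · (1/S) = 1`. -/
theorem vh_S_mul (R : Type*) [CommRing R] : S7 R * Si R = 1 :=
  mul_invOfUnit _ _ (by rw [constantCoeff_S7, Units.val_one])

/-- `1/S` is compatible with ring homomorphisms. -/
theorem vh_map_Si {R S : Type*} [CommRing R] [CommRing S] (f : R →+* S) :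
    PowerSeries.map f (Si R) = Si S := by
  have h1 : PowerSeries.map f (Si R) * S7 S = 1 := by
    rw [← map_S7 R f, ← map_mul, mul_comm, vh_S_mul, map_one]
  calc PowerSeries.map f (Si R) = PowerSeries.map f (Si R) * (S7 S * Si S) := by
        rw [vh_S_mul, mul_one]
    _ = (PowerSeries.map f (Si R) * S7 S) * Si S := by rw [mul_assoc]
    _ = Si S := by rw [h1, one_mul]

/-- `V^y` at `y = m`. -/
theorem vh_LY (h : SpV) (m : ℕ) :
    PowerSeries.map (Polynomial.evalRingHom (m : ℤ_[7])) LY = Vz ^ m := by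
  have h1 := MatU.Lpow_eval 7 h.1 m
  have h2 : (C (((7 : ℕ) : ℤ_[7])) : PowerSeries ℤ_[7]) = C (7 : ℤ_[7]) := by norm_num
  rw [LY, h1, h2, Vz]

theorem vh_mapC (m : ℤ_[7]) (F : PowerSeries ℤ_[7]) :
    PowerSeries.map (Polynomial.evalRingHom m) (PowerSeries.map Polynomial.C F) = F := by
  ext n
  rw [PowerSeries.coeff_map, PowerSeries.coeff_map, Polynomial.coe_evalRingHom,
    Polynomial.eval_C]

/-- the common form of the entries -/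
theorem vh_PM (h : SpV) (e m i j : ℕ) (hj : j + 1 ≤ 7 * (i + 1)) :
    (PM e i j).eval (m : ℤ_[7]) =
      coeff (7 * (i + 1) - (j + 1)) (Vz ^ (2 * ey7 e) * Y7 ℤ_[7] ^ ey7 e *
        S7 ℤ_[7] ^ (2 * (i + 1)) * Vz ^ m) := by
  have h1 : PowerSeries.map (Polynomial.evalRingHom (m : ℤ_[7]))
      (PowerSeries.map Polynomial.C (Vz ^ (2 * ey7 e)) * Y7 Zy ^ ey7 e *
        S7 Zy ^ (2 * (i + 1)) * LY) =
      Vz ^ (2 * ey7 e) * Y7 ℤ_[7] ^ ey7 e * S7 ℤ_[7] ^ (2 * (i + 1)) * Vz ^ m := by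
    rw [map_mul, map_mul, map_mul, map_pow (PowerSeries.map (Polynomial.evalRingHom _)) (Y7 Zy),
      map_pow (PowerSeries.map (Polynomial.evalRingHom _)) (S7 Zy), map_Y7, map_S7, vh_LY h,
      vh_mapC]
  rw [PM, if_pos hj, ← h1, PowerSeries.coeff_map, Polynomial.coe_evalRingHom]

theorem vh_exp {e : ℕ} (z : ℕ) (he : e ≤ 2) : 2 * ey7 e + cen e z = 4 * (z + sh7 e) := by
  unfold ey7 sh7 cen
  interval_cases e
  · norm_num
    ring
  · norm_num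
  · norm_num
    ring

/-- `V^4 = 1/S`. -/
theorem vh_V4 (h : SpV) : Vz ^ 4 = Si ℤ_[7] := by
  calc Vz ^ 4 = Vz ^ 4 * (S7 ℤ_[7] * Si ℤ_[7]) := by rw [vh_S_mul, mul_one]
    _ = (Vz ^ 4 * S7 ℤ_[7]) * Si ℤ_[7] := by rw [mul_assoc]
    _ = Si ℤ_[7] := by rw [h.2.1, one_mul]

theorem vh_form (h : SpV) (e z i : ℕ) (he : e ≤ 2) :
    Vz ^ (2 * ey7 e) * Y7 ℤ_[7] ^ ey7 e * S7 ℤ_[7] ^ (2 * (i + 1)) * Vz ^ cen e z =
      S7 ℤ_[7] ^ (2 * (i + 1)) * Si ℤ_[7] ^ (z + sh7 e) * Y7 ℤ_[7] ^ ey7 e := by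
  have h1 : Si ℤ_[7] ^ (z + sh7 e) = Vz ^ (2 * ey7 e) * Vz ^ cen e z := by
    rw [← vh_V4 h, ← pow_mul, ← pow_add, vh_exp z he]
  rw [h1]
  ring

theorem vh_map {R S : Type*} [CommRing R] [CommRing S] (f : R →+* S) (a b c : ℕ) :
    PowerSeries.map f (S7 R ^ a * Si R ^ b * Y7 R ^ c) = S7 S ^ a * Si S ^ b * Y7 S ^ c := by
  rw [map_mul, map_mul, map_pow, map_pow, map_pow, map_S7, vh_map_Si, map_Y7]

/-- W5: the values at the centres. -/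
theorem spVal (h : SpV) : SpVal := by
  intro e z i j he
  by_cases hj : j + 1 ≤ 7 * (i + 1)
  · rw [vh_PM h e (cen e z) i j hj, MQ, if_pos hj, vh_form h e z i he]
    have h1 : ((coeff (7 * (i + 1) - (j + 1)) (S7 ℤ_[7] ^ (2 * (i + 1)) *
        Si ℤ_[7] ^ (z + sh7 e) * Y7 ℤ_[7] ^ ey7 e) : ℤ_[7]) : ℚ_[7]) =
        coeff (7 * (i + 1) - (j + 1)) (S7 ℚ_[7] ^ (2 * (i + 1)) *
        Si ℚ_[7] ^ (z + sh7 e) * Y7 ℚ_[7] ^ ey7 e) := by
      rw [← vh_map (PadicInt.Coe.ringHom (p := 7)), PowerSeries.coeff_map]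
      rfl
    have h2 : ((coeff (7 * (i + 1) - (j + 1)) (S7 ℚ ^ (2 * (i + 1)) *
        Si ℚ ^ (z + sh7 e) * Y7 ℚ ^ ey7 e) : ℚ) : ℚ_[7]) =
        coeff (7 * (i + 1) - (j + 1)) (S7 ℚ_[7] ^ (2 * (i + 1)) *
        Si ℚ_[7] ^ (z + sh7 e) * Y7 ℚ_[7] ^ ey7 e) := by
      rw [← vh_map (Rat.castHom ℚ_[7]), PowerSeries.coeff_map]
      rfl
    rw [h1, h2]
  · rw [PM, if_neg hj, MQ, if_neg hj]
    simp

/-! ### Growth -/

theorem vh_mul {u v w : ℕ → ℕ} (huv : ∀ a b, w (a + b) ≤ u a + v b) {F G : PowerSeries ℤ_[7]}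
    (hF : ∀ n, (7 : ℤ_[7]) ^ u n ∣ coeff n F) (hG : ∀ n, (7 : ℤ_[7]) ^ v n ∣ coeff n G) (n : ℕ) :
    (7 : ℤ_[7]) ^ w n ∣ coeff n (F * G) := by
  rw [PowerSeries.coeff_mul]
  refine Finset.dvd_sum fun p hp => ?_
  have h1 : p.1 + p.2 = n := Finset.HasAntidiagonal.mem_antidiagonal.1 hp
  refine (pow_dvd_pow (7 : ℤ_[7]) (h1 ▸ huv p.1 p.2)).trans ?_
  rw [pow_add]
  exact mul_dvd_mul (hF p.1) (hG p.2)

theorem vh_pow {F : PowerSeries ℤ_[7]} (hF : ∀ n, (7 : ℤ_[7]) ^ ((n + 3) / 4) ∣ coeff n F)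
    (k n : ℕ) : (7 : ℤ_[7]) ^ ((n + 3) / 4) ∣ coeff n (F ^ k) := by
  induction k generalizing n with
  | zero =>
    rw [pow_zero, PowerSeries.coeff_one]
    by_cases h : n = 0
    · subst h
      norm_num
    · rw [if_neg h]
      exact dvd_zero _
  | succ k ih =>
    rw [pow_succ]
    exact vh_mul (u := fun n => (n + 3) / 4) (v := fun n => (n + 3) / 4)
      (w := fun n => (n + 3) / 4) (fun a b => by show (a + b + 3) / 4 ≤ _; omega) ih hF n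

theorem vh_Y (h : SpV) (e n : ℕ) (he : e ≤ 2) :
    (7 : ℤ_[7]) ^ ((n + 3 - 2 * ey7 e) / 4) ∣ coeff n (Y7 ℤ_[7] ^ ey7 e) := by
  have hY := h.2.2.2.2
  unfold ey7
  interval_cases e
  · have h1 := vh_mul (u := fun n => (n + 1) / 4) (v := fun n => (n + 1) / 4)
      (w := fun n => (n + 3 - 2 * 2) / 4)
      (fun a b => by show (a + b + 3 - 2 * 2) / 4 ≤ (a + 1) / 4 + (b + 1) / 4; omega) hY hY n
    show (7 : ℤ_[7]) ^ ((n + 3 - 2 * 2) / 4) ∣ coeff n (Y7 ℤ_[7] ^ 2)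
    rw [pow_two (Y7 ℤ_[7])]
    exact h1
  · have h1 : (7 : ℤ_[7]) ^ ((n + 3) / 4) ∣ coeff n ((1 : PowerSeries ℤ_[7]) ^ 0) :=
      vh_pow (F := 1) (fun n => by
        have h2 := vh_pow (F := Vz) h.2.2.1 0 n
        rwa [pow_zero] at h2) 0 n
    rw [pow_zero] at h1
    exact h1
  · have h1 := hY n
    have h2 : (n + 3 - 2 * 1) / 4 = (n + 1) / 4 := by omega
    show (7 : ℤ_[7]) ^ ((n + 3 - 2 * 1) / 4) ∣ coeff n (Y7 ℤ_[7] ^ 1)
    rw [h2, pow_one]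
    exact h1

/-- the growth of the entries -/
theorem vh_gr (h : SpV) (e z i n : ℕ) (he : e ≤ 2) :
    (7 : ℤ_[7]) ^ ((n + 3 - 2 * ey7 e) / 4) ∣
      coeff n (Vz ^ (2 * ey7 e) * Y7 ℤ_[7] ^ ey7 e * S7 ℤ_[7] ^ (2 * (i + 1)) *
        Vz ^ cen e z) := by
  have hey : ey7 e ≤ 2 := by
    unfold ey7
    split_ifs <;> omega
  have h1 : Vz ^ (2 * ey7 e) * Y7 ℤ_[7] ^ ey7 e * S7 ℤ_[7] ^ (2 * (i + 1)) * Vz ^ cen e z =
      Y7 ℤ_[7] ^ ey7 e * (S7 ℤ_[7] ^ (2 * (i + 1)) * Vz ^ (2 * ey7 e + cen e z)) := by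
    rw [pow_add]
    ring
  rw [h1]
  have h2 : ∀ n, (7 : ℤ_[7]) ^ ((n + 3) / 4) ∣
      coeff n (S7 ℤ_[7] ^ (2 * (i + 1)) * Vz ^ (2 * ey7 e + cen e z)) := fun n =>
    vh_mul (u := fun n => (n + 3) / 4) (v := fun n => (n + 3) / 4) (w := fun n => (n + 3) / 4)
      (fun a b => by show (a + b + 3) / 4 ≤ _; omega) (vh_pow h.2.2.2.1 _) (vh_pow h.2.2.1 _) n
  exact vh_mul (u := fun n => (n + 3 - 2 * ey7 e) / 4) (v := fun n => (n + 3) / 4)
    (w := fun n => (n + 3 - 2 * ey7 e) / 4)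
    (fun a b => by show (a + b + 3 - 2 * ey7 e) / 4 ≤ _; omega) (fun n => vh_Y h e n he) h2 n

/-- W6: the columns above the centre. -/
theorem spH (h : SpV) : SpH := by
  intro e z i j he hj
  by_cases hji : j + 1 ≤ 7 * (i + 1)
  · rw [vh_PM h e (cen e z) i j hji]
    have h1 := vh_gr h e z i (7 * (i + 1) - (j + 1)) he
    have h2 : lam e z + i ≤ j + (7 * (i + 1) - (j + 1) + 3 - 2 * ey7 e) / 4 := by
      unfold cen at hj
      unfold lam ey7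
      interval_cases e
      · norm_num at hj ⊢
        omega
      · norm_num at hj ⊢
        omega
      · norm_num at hj ⊢
        omega
    refine (pow_dvd_pow (7 : ℤ_[7]) h2).trans ?_
    rw [pow_add]
    exact mul_dvd_mul_left _ h1
  · rw [PM, if_neg hji]
    simp

end GH.M7
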