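import Pool.Agent.GH.M7.Stm
import Pool.Agent.GH.MatU.FreeQ

/-!
# GH7-W1: the factorisation `PM = W N`
-/

open PowerSeries

noncomputable section

namespace GH.M7

open GH.D7 GH.CombU GH.MatU

theorem wn_ok {F : Zy} (h : F ∈ (iot 7).range) : Ok F := by
  obtain ⟨G, rfl⟩ := h
  intro k
  have h1 : (iot 7 G).coeff k = G.coeff k * ((7 : ℕ) : ℤ_[7]) ^ k := by
    unfold iot
    rw [Polynomial.coe_compRingHom_apply, Polynomial.comp_C_mul_X_coeff]
  rw [h1]
  exact Dvd.intro_left _ rfl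

/-- `⌈5n/24⌉`. -/
def wn_ph (n : ℕ) : ℕ := (5 * n + 23) / 24

theorem wn_filt : Filt (Ipw (Polynomial.C (7 : ℤ_[7]))) wn_ph :=
  filt_Ipw _ (by unfold wn_ph; omega) (fun m n => by unfold wn_ph; omega)

theorem wn_const {F : PowerSeries ℤ_[7]} (n : ℕ) :
    IntTo (iot 7) n (PowerSeries.map Polynomial.C F) := by
  intro m _
  rw [coeff_map]
  exact ⟨Polynomial.C (coeff m F), iot_C 7 _⟩

theorem wn_IntTo_one (n : ℕ) : IntTo (iot 7) n (1 : PowerSeries Zy) := by
  have h := wn_const (F := 1) n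
  rwa [map_one] at h

theorem spWN (h : SpV) (h2 : SpLY) : SpWN := by
  obtain ⟨hth, hV4, hVg, hSg, hYg⟩ := h
  intro e he I
  have hV0 : constantCoeff Vz = 1 := by
    rw [Vz, map_add, map_mul, hth, mul_zero, map_one, add_zero]
  have hVgr : GrD 4 Vz := fun n => by
    have := hVg n
    rwa [show phD 4 n = (n + 3) / 4 from rfl]
  have hd : (0 : ℕ) < 4 := by norm_num
  have hV8 : GrD 4 (Vz ^ 8) := hVgr.pow hd 8
  have hV80 : constantCoeff (Vz ^ 8) = 1 := by rw [map_pow, hV0, one_pow]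
  -- the data
  set P : PowerSeries Zy := LY with hP
  set q : PowerSeries Zy := PowerSeries.map Polynomial.C (Vz ^ 8) with hq
  set Q : PowerSeries Zy := S7 Zy ^ 2 with hQ
  set F : PowerSeries Zy := PowerSeries.map Polynomial.C (Vz ^ (2 * ey7 e)) * Y7 Zy ^ ey7 e
    with hF
  have hSmap : S7 Zy = PowerSeries.map Polynomial.C (S7 ℤ_[7]) := (map_S7 ℤ_[7] Polynomial.C).symm
  have hYmap : Y7 Zy = PowerSeries.map Polynomial.C (Y7 ℤ_[7]) := (map_Y7 ℤ_[7] Polynomial.C).symm
  have hQq : Q * q = 1 := by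
    rw [hQ, hq, hSmap, ← map_pow, ← map_mul]
    have h3 : S7 ℤ_[7] ^ 2 * Vz ^ 8 = (Vz ^ 4 * S7 ℤ_[7]) ^ 2 := by ring
    rw [h3, hV4, one_pow, map_one]
  -- growth of `W`
  have hPf : InF (Ipw (Polynomial.C (7 : ℤ_[7]))) wn_ph P := by
    intro n
    rw [mem_Ipw, ← map_pow]
    exact h2 n
  have hqf : InF (Ipw (Polynomial.C (7 : ℤ_[7]))) wn_ph q := by
    intro n
    rw [mem_Ipw, ← map_pow, hq, coeff_map]
    refine map_dvd _ ((pow_dvd_pow _ ?_).trans (hV8 n))
    unfold wn_ph phD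
    omega
  have hW := WF_filt (p := 7) wn_filt hPf hqf I
  -- integrality of `S`
  have hSF : IntTo (iot 7) (7 * (I + 1)) (SF 7 P q I) := by
    intro n hn
    have h3 := SFL_int 7 hth (thetaA_const hd hV80 hV8) (L := I) (n := n) hn
    rwa [one_add_thetaA hd hV80 hV8] at h3
  refine ⟨fun l => coeff l (WF 7 P q I), fun i j => ent 7 (SF 7 P q I * F) Q (i + 1) (j + 1),
    ?_, ?_, ?_, ?_⟩
  · show coeff 0 _ = 1
    rw [coeff_zero_eq_constantCoeff_apply, constantCoeff_WF]
  · intro l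
    have h3 := mem_Ipw.1 (hW l)
    rw [← map_pow] at h3
    refine (map_dvd Polynomial.C (pow_dvd_pow (7 : ℤ_[7]) ?_)).trans h3
    show l ≤ (5 * (7 * l) + 23) / 24
    omega
  · intro i j hi
    apply wn_ok
    show ent 7 (SF 7 P q I * F) Q (i + 1) (j + 1) ∈ _
    unfold ent
    split_ifs with hij
    · have h3 : IntTo (iot 7) (7 * (I + 1)) (SF 7 P q I * F * Q ^ (i + 1)) := by
        refine (hSF.mul ?_).mul (IntTo.pow ?_ _)
        · rw [hF, hYmap, ← map_pow, ← map_mul]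
          exact wn_const _
        · rw [hQ, hSmap, ← map_pow]
          exact wn_const _
      exact h3 _ (by omega)
    · exact Subring.zero_mem _
  · intro i hi j
    have h3 := SF_row (p := 7) (by norm_num) (P := P) hQq F I (i + 1) (j + 1)
    have h6 : PowerSeries.map Polynomial.C (Vz ^ (2 * ey7 e)) *
        Y7 Zy ^ ey7 e * S7 Zy ^ (2 * (i + 1)) * LY = P * F * Q ^ (i + 1) := by
      rw [hP, hF, hQ, pow_mul (S7 Zy)]
      generalize S7 Zy ^ 2 = s
      generalize Y7 Zy ^ ey7 e = t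
      generalize PowerSeries.map Polynomial.C (Vz ^ (2 * ey7 e)) = v
      generalize s ^ (i + 1) = s'
      ring
    have h4 : PM e i j = ent 7 (P * F) Q (i + 1) (j + 1) := by
      unfold PM ent
      rw [h6]
    rw [h4, h3, Finset.sum_range_succ]
    have h5 : ent 7 (SF 7 P q I * F) Q (i + 1 - (i + 1)) (j + 1) = 0 := by
      unfold ent
      rw [if_neg (by omega)]
    rw [h5, mul_zero, add_zero, ← Finset.sum_range_reflect]
    refine Finset.sum_congr rfl fun l hl => ?_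
    have hl1 := Finset.mem_range.1 hl
    have e1 : i + 1 - 1 - l = i - l := by omega
    have e2 : i + 1 - (i - l) = l + 1 := by omega
    rw [e1, e2]

end GH.M7
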