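import Pool.Agent.GH.M7.Stm2

/-!
# GH7-MAT, row J4c: the window `0 ≤ N ≤ 7`
-/

open PowerSeries

noncomputable section

namespace GH.M7

open GH.D7 GH.CombU

/-! ### functions on the integers and power series -/

/-- The series of a function. -/
def wnS (f : ℤ → ℚ) : PowerSeries ℚ := PowerSeries.mk fun s : ℕ => f s

theorem wn_coeff (f : ℤ → ℚ) (s : ℕ) : coeff s (wnS f) = f s := coeff_mk _ _

theorem wn_shift (f : ℤ → ℚ) (hf : ∀ s < 0, f s = 0) (k s : ℕ) :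
    coeff s (X ^ k * wnS f) = f ((s : ℤ) - k) := by
  rw [coeff_X_pow_mul']
  split_ifs with h
  · rw [wn_coeff, Nat.cast_sub h]
  · rw [hf _ (by omega)]

theorem wn_eO (f : ℤ → ℚ) (hf : ∀ s < 0, f s = 0) : wnS (eO f) = eG ℚ * wnS f := by
  ext s
  have h1 := wn_shift f hf 1 s
  have h2 := wn_shift f hf 2 s
  have h3 := wn_shift f hf 3 s
  have h4 := wn_shift f hf 4 s
  have e : eG ℚ * wnS f = wnS f - C (490 : ℚ) * (X ^ 1 * wnS f) -
      C (21609 : ℚ) * (X ^ 2 * wnS f) - C (235298 : ℚ) * (X ^ 3 * wnS f) -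
      C (823543 : ℚ) * (X ^ 4 * wnS f) := by
    unfold eG
    ring
  rw [e, map_sub, map_sub, map_sub, map_sub, coeff_C_mul, coeff_C_mul, coeff_C_mul, coeff_C_mul,
    h1, h2, h3, h4, wn_coeff, wn_coeff]
  unfold eO
  push_cast
  ring

theorem wn_pO (f : ℤ → ℚ) (hf : ∀ s < 0, f s = 0) : wnS (pO f) = psG ℚ * wnS f := by
  ext s
  have h1 := wn_shift f hf 1 s
  have h2 := wn_shift f hf 2 s
  have e : psG ℚ * wnS f = wnS f + C (245 : ℚ) * (X ^ 1 * wnS f) +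
      C (2401 : ℚ) * (X ^ 2 * wnS f) := by
    unfold psG
    ring
  rw [e, map_add, map_add, coeff_C_mul, coeff_C_mul, h1, h2, wn_coeff, wn_coeff]
  unfold pO
  push_cast
  ring

theorem wn_pO_neg (f : ℤ → ℚ) (hf : ∀ s < 0, f s = 0) : ∀ s < 0, pO f s = 0 := by
  intro s hs
  unfold pO
  rw [hf s hs, hf (s - 1) (by omega), hf (s - 2) (by omega)]
  ring

/-- `H_N(s) = 0` for `s < 0`. -/
theorem wn_neg {H : ℤ → ℤ → ℚ} (hH : IsHH H) (n : ℕ) : ∀ s < 0, H ((n : ℤ) - 7) s = 0 := by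
  induction n using Nat.strong_induction_on with
  | _ n ih =>
    intro s hs
    by_cases h7 : n < 7
    · exact hH.zero _ _ (by omega) (by omega)
    by_cases h8 : n = 7
    · subst h8
      have : ((7 : ℕ) : ℤ) - 7 = 0 := by norm_num
      rw [this, hH.one, if_neg (by omega)]
    obtain ⟨m, rfl⟩ : ∃ m, n = m + 8 := ⟨n - 8, by omega⟩
    have h := hH.rc ((m : ℤ) - 7) s
    have e0 : ((m + 8 : ℕ) : ℤ) - 7 = (m : ℤ) - 7 + 8 := by push_cast; ring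
    have e1 : (m : ℤ) - 7 + 7 = ((m + 7 : ℕ) : ℤ) - 7 := by push_cast; ring
    have e2 : (m : ℤ) - 7 + 6 = ((m + 6 : ℕ) : ℤ) - 7 := by push_cast; ring
    have e3 : (m : ℤ) - 7 + 4 = ((m + 4 : ℕ) : ℤ) - 7 := by push_cast; ring
    have e4 : (m : ℤ) - 7 + 2 = ((m + 2 : ℕ) : ℤ) - 7 := by push_cast; ring
    rw [e0, h, e1, e2, e3, e4]
    unfold eO
    rw [ih (m + 7) (by omega) s hs, ih (m + 7) (by omega) (s - 1) (by omega),
      ih (m + 7) (by omega) (s - 2) (by omega), ih (m + 7) (by omega) (s - 3) (by omega),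
      ih (m + 7) (by omega) (s - 4) (by omega), ih (m + 6) (by omega) (s - 1) (by omega),
      ih (m + 4) (by omega) (s - 2) (by omega), ih (m + 2) (by omega) (s - 3) (by omega),
      ih m (by omega) (s - 4) (by omega)]
    ring

/-- The recursion of the series. -/
theorem wn_rec {H : ℤ → ℤ → ℚ} (hH : IsHH H) (n : ℕ) :
    wnS (H (((n + 8 : ℕ) : ℤ) - 7)) = eG ℚ * wnS (H (((n + 7 : ℕ) : ℤ) - 7)) +
      C (490 : ℚ) * (X ^ 1 * wnS (H (((n + 6 : ℕ) : ℤ) - 7))) +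
      C (21609 : ℚ) * (X ^ 2 * wnS (H (((n + 4 : ℕ) : ℤ) - 7))) +
      C (235298 : ℚ) * (X ^ 3 * wnS (H (((n + 2 : ℕ) : ℤ) - 7))) +
      C (823543 : ℚ) * (X ^ 4 * wnS (H ((n : ℤ) - 7))) := by
  ext s
  rw [← wn_eO _ (wn_neg hH (n + 7)), map_add, map_add, map_add, map_add, coeff_C_mul, coeff_C_mul,
    coeff_C_mul, coeff_C_mul, wn_shift _ (wn_neg hH (n + 6)), wn_shift _ (wn_neg hH (n + 4)),
    wn_shift _ (wn_neg hH (n + 2)), wn_shift _ (wn_neg hH n), wn_coeff, wn_coeff]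
  have h := hH.rc ((n : ℤ) - 7) s
  have e0 : ((n + 8 : ℕ) : ℤ) - 7 = (n : ℤ) - 7 + 8 := by push_cast; ring
  have e1 : (n : ℤ) - 7 + 7 = ((n + 7 : ℕ) : ℤ) - 7 := by push_cast; ring
  have e2 : (n : ℤ) - 7 + 6 = ((n + 6 : ℕ) : ℤ) - 7 := by push_cast; ring
  have e3 : (n : ℤ) - 7 + 4 = ((n + 4 : ℕ) : ℤ) - 7 := by push_cast; ring
  have e4 : (n : ℤ) - 7 + 2 = ((n + 2 : ℕ) : ℤ) - 7 := by push_cast; ring
  rw [e0, h, e1, e2, e3, e4]
  push_cast
  ring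

/-! ### the map to the series in `q` -/

theorem wn_hs : HasSubst (hauptmodul 7 ℂ) := fx_hasSubst 7

/-- `F ↦ F(f)`. -/
def wnE : PowerSeries ℂ →+* PowerSeries ℂ := (substAlgHom wn_hs : _ →ₐ[ℂ] _).toRingHom

theorem wnE_apply (F : PowerSeries ℂ) : wnE F = F.subst (hauptmodul 7 ℂ) := by
  change substAlgHom wn_hs F = _
  rw [coe_substAlgHom wn_hs]

/-- `A ↦ A(γ)`. -/
def wnP : PowerSeries ℚ →+* PowerSeries ℂ :=
  ((PowerSeries.expand 7 seven_ne : PowerSeries ℂ →ₐ[ℂ] _).toRingHom.comp wnE).comp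
    (PowerSeries.map (algebraMap ℚ ℂ))

theorem wnP_apply (F : PowerSeries ℚ) : wnP F =
    (PowerSeries.expand 7 seven_ne
      ((PowerSeries.map (algebraMap ℚ ℂ) F).subst (hauptmodul 7 ℂ)) : PowerSeries ℂ) := by
  rw [← wnE_apply]
  rfl

theorem wnP_X : wnP X = gamC := by
  rw [wnP_apply, PowerSeries.map_X, subst_X wn_hs]
  rfl

theorem wnP_C (a : ℚ) : wnP (C a) = C (a : ℂ) := by
  rw [wnP_apply, PowerSeries.map_C, d7e_subst_C, PowerSeries.expand_C]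
  rfl

theorem wn_expand_inj {F G : PowerSeries ℂ}
    (h : PowerSeries.expand 7 seven_ne F = PowerSeries.expand 7 seven_ne G) : F = G := by
  ext n
  have h1 := congrArg (coeff (7 * n)) h
  rwa [coeff_expand_mul, coeff_expand_mul] at h1

theorem wnP_inj : Function.Injective wnP := by
  intro F G h
  rw [wnP_apply, wnP_apply] at h
  have h1 := d7e_subst_inj (wn_expand_inj h)
  ext n
  have h2 := congrArg (coeff n) h1
  rw [coeff_map, coeff_map] at h2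
  exact (algebraMap ℚ ℂ).injective h2

theorem wnP_eG : wnP (eG ℚ) = eC := by
  unfold eG eC
  simp only [map_sub, map_mul, map_pow, map_one, wnP_C, wnP_X]
  norm_num

theorem wnP_psG : wnP (psG ℚ) = psC := by
  unfold psG psC
  simp only [map_add, map_mul, map_pow, map_one, wnP_C, wnP_X]
  norm_num

theorem wn_gam_ne : gamC ≠ 0 := by
  intro h
  have h1 : wnP X = wnP 0 := by rw [wnP_X, h, map_zero]
  exact X_ne_zero (wnP_inj h1)

theorem wn_ps_ne : psC ≠ 0 := by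
  intro h
  have h1 : wnP (psG ℚ) = wnP 0 := by rw [wnP_psG, h, map_zero]
  have h2 := congrArg constantCoeff (wnP_inj h1)
  unfold psG at h2
  simp at h2

/-! ### the series `A_N` -/

/-- `A_N = ∑ [T^(7s)] S^(2s) (T⁴/S)^N g^s`. -/
def wnA (R : Type*) [CommRing R] (N : ℕ) : PowerSeries R :=
  PowerSeries.mk fun s => coeff (7 * s) (S7 R ^ (2 * s) * (X ^ 4 * Si R) ^ N)

theorem wn_S_Si (R : Type*) [CommRing R] : S7 R * Si R = 1 :=
  mul_invOfUnit _ _ (by rw [constantCoeff_S7, Units.val_one])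

theorem wn_map_Si {R S : Type*} [CommRing R] [CommRing S] (f : R →+* S) :
    PowerSeries.map f (Si R) = Si S := by
  have h1 : PowerSeries.map f (Si R) * S7 S = 1 := by
    rw [← map_S7 R f, ← map_mul, mul_comm, wn_S_Si, map_one]
  calc PowerSeries.map f (Si R) = PowerSeries.map f (Si R) * (S7 S * Si S) := by
        rw [wn_S_Si, mul_one]
    _ = (PowerSeries.map f (Si R) * S7 S) * Si S := by rw [mul_assoc]
    _ = Si S := by rw [h1, one_mul]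

theorem wn_map_A {R S : Type*} [CommRing R] [CommRing S] (f : R →+* S) (N : ℕ) :
    PowerSeries.map f (wnA R N) = wnA S N := by
  ext s
  have h1 : PowerSeries.map f (S7 R ^ (2 * s) * (X ^ 4 * Si R) ^ N) =
      S7 S ^ (2 * s) * (X ^ 4 * Si S) ^ N := by
    rw [map_mul, map_pow, map_pow, map_mul, map_pow, PowerSeries.map_X, wn_map_Si, map_S7]
  rw [coeff_map, wnA, coeff_mk, wnA, coeff_mk, ← coeff_map, h1]

theorem wn_Sz (s N : ℕ) : S7 ℚ ^ (2 * s) * Si ℚ ^ N = Sz (2 * (s : ℤ) - N) := by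
  unfold Sz
  have h := wn_S_Si ℚ
  split_ifs with h0
  · have e1 : (2 * (s : ℤ) - N).toNat = 2 * s - N := by omega
    have e2 : 2 * s = (2 * s - N) + N := by omega
    rw [e1]
    conv_lhs => rw [e2, pow_add, mul_assoc, ← mul_pow, h, one_pow, mul_one]
  · have e1 : (-(2 * (s : ℤ) - N)).toNat = N - 2 * s := by omega
    have e2 : N = 2 * s + (N - 2 * s) := by omega
    rw [e1]
    conv_lhs => rw [e2, pow_add, ← mul_assoc, ← mul_pow, h, one_pow, one_mul]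

/-- The value `V(N, s)`. -/
theorem wn_VV (N s : ℕ) : VV 1 N s = coeff s (1 - C ((-7 : ℚ) ^ N) * wnA ℚ N) := by
  have h1 : co (7 * (s : ℤ) - 4 * N) (Sz (2 * (s : ℤ) - N)) =
      coeff (7 * s) (S7 ℚ ^ (2 * s) * (X ^ 4 * Si ℚ) ^ N) := by
    have e : S7 ℚ ^ (2 * s) * (X ^ 4 * Si ℚ) ^ N = X ^ (4 * N) * Sz (2 * (s : ℤ) - N) := by
      rw [← wn_Sz, mul_pow, ← pow_mul]
      ring
    rw [e, coeff_X_pow_mul']
    unfold co
    by_cases h : 4 * N ≤ 7 * s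
    · rw [if_pos (by omega), if_pos h]
      congr 2
      omega
    · rw [if_neg (by omega), if_neg h]
  unfold VV
  have e1 : ey7 1 = 0 := by unfold ey7; norm_num
  have e2 : sh7 1 = 0 := by unfold sh7; norm_num
  rw [e1, e2, pow_zero, one_mul, if_pos rfl, if_neg (by norm_num : ¬ (1 : ℕ) = 2), sub_zero,
    Nat.cast_zero, sub_zero, h1, map_sub, coeff_C_mul, wnA, coeff_mk, coeff_one, zpow_natCast]
  have e3 : (if (s : ℤ) = 0 then (1 : ℚ) else 0) = if s = 0 then 1 else 0 := by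
    by_cases h : s = 0
    · subst h; simp
    · rw [if_neg h, if_neg (by exact_mod_cast h)]
  rw [e3]
  ring

/-- `G = S (T⁴/S)^N/Y²`. -/
def wnG (N : ℕ) : PowerSeries ℂ := S7 ℂ * (Y7 ℂ ^ 2)⁻¹ * (X ^ 4 * Si ℂ) ^ N

theorem wn_Y0 : constantCoeff (Y7 ℂ ^ 2) ≠ 0 := by
  have h : constantCoeff (Y7 ℂ) = 1 := by
    unfold Y7
    rw [map_mul, PowerSeries.constantCoeff_invOfUnit]
    simp
  rw [map_pow, h]
  norm_num

theorem wn_U (hK : K7) (N : ℕ) :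
    U 7 ((wnG N).subst (hauptmodul 7 ℂ)) = (wnA ℂ N).subst (hauptmodul 7 ℂ) := by
  rw [U_subst7 hK]
  congr 1
  ext s
  rw [coeff_mk, wnA, coeff_mk]
  congr 1
  have hS0 : constantCoeff (S7 ℂ) ≠ 0 := by
    rw [constantCoeff_S7]
    exact one_ne_zero
  have h1 := PowerSeries.inv_mul_cancel (S7 ℂ) hS0
  have h2 := PowerSeries.mul_inv_cancel (Y7 ℂ ^ 2) wn_Y0
  unfold wnG
  calc Y7 ℂ ^ 2 * S7 ℂ ^ (2 * s) * (S7 ℂ)⁻¹ * (S7 ℂ * (Y7 ℂ ^ 2)⁻¹ * (X ^ 4 * Si ℂ) ^ N)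
      = (Y7 ℂ ^ 2 * (Y7 ℂ ^ 2)⁻¹) * ((S7 ℂ)⁻¹ * S7 ℂ) *
        (S7 ℂ ^ (2 * s) * (X ^ 4 * Si ℂ) ^ N) := by ring
    _ = _ := by rw [h1, h2, one_mul, one_mul]

theorem wn_G_R (N : ℕ) : C ((-7 : ℂ) ^ N) * (wnG N).subst (hauptmodul 7 ℂ) * RC = XC ^ N := by
  have h1 : wnG N * (Y7 ℂ ^ 2 * Si ℂ) = (X ^ 4 * Si ℂ) ^ N := by
    have h2 := PowerSeries.inv_mul_cancel (Y7 ℂ ^ 2) wn_Y0
    have h3 := wn_S_Si ℂ
    unfold wnG
    calc S7 ℂ * (Y7 ℂ ^ 2)⁻¹ * (X ^ 4 * Si ℂ) ^ N * (Y7 ℂ ^ 2 * Si ℂ)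
        = (S7 ℂ * Si ℂ) * ((Y7 ℂ ^ 2)⁻¹ * Y7 ℂ ^ 2) * (X ^ 4 * Si ℂ) ^ N := by ring
      _ = _ := by rw [h2, h3, one_mul, one_mul]
  have h2 := congrArg wnE h1
  have h3 : wnE X = hauptmodul 7 ℂ := by rw [wnE_apply, subst_X wn_hs]
  rw [map_mul wnE (wnG N), map_pow wnE (X ^ 4 * Si ℂ), map_mul wnE (X ^ 4), map_pow wnE X,
    h3, wnE_apply, wnE_apply, wnE_apply] at h2
  unfold RC XC
  rw [mul_assoc, h2, map_pow]
  ring

/-- `7 A_N(γ)` as a sum. -/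
theorem wn_sum (hK : K7) (h2 : SpRoots) (N : ℕ) :
    7 * wnP (wnA ℚ N) = ∑ r ∈ Finset.Icc 1 7,
      rescale (zetaC ^ r) ((wnG N).subst (hauptmodul 7 ℂ)) := by
  rw [wnP_apply, wn_map_A, ← wn_U hK, h2.fil]

/-- The derivative at a root. -/
def wnD (r : Fin 8) : PowerSeries ℂ := 8 * rtC r ^ 7 - 7 * eC * rtC r ^ 6 -
  6 * (C (490 : ℂ) * gamC) * rtC r ^ 5 - 4 * (C (21609 : ℂ) * gamC ^ 2) * rtC r ^ 3 -
  2 * (C (235298 : ℂ) * gamC ^ 3) * rtC r

theorem wn_D0 : wnD 0 = psC ^ 2 := by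
  have h : rtC 0 = 1 := by unfold rtC; simp
  have c1 : (C (490 : ℂ) : PowerSeries ℂ) = 490 := map_ofNat C 490
  have c2 : (C (21609 : ℂ) : PowerSeries ℂ) = 21609 := map_ofNat C 21609
  have c3 : (C (235298 : ℂ) : PowerSeries ℂ) = 235298 := map_ofNat C 235298
  have c4 : (C (823543 : ℂ) : PowerSeries ℂ) = 823543 := map_ofNat C 823543
  have c5 : (C (245 : ℂ) : PowerSeries ℂ) = 245 := map_ofNat C 245
  have c6 : (C (2401 : ℂ) : PowerSeries ℂ) = 2401 := map_ofNat C 2401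
  unfold wnD
  rw [h]
  unfold eC psC
  rw [c1, c2, c3, c4, c5, c6]
  ring

theorem wn_rt_ne (h2 : SpRoots) (r : Fin 8) : rtC r ≠ 0 := by
  intro h
  have h1 := h2.oct r
  rw [h] at h1
  have h3 : C (823543 : ℂ) * gamC ^ 4 = 0 := by
    linear_combination (-1) * h1
  rcases mul_eq_zero.mp h3 with h4 | h4
  · have h5 := congrArg constantCoeff h4
    simp at h5
  · exact wn_gam_ne (pow_eq_zero_iff (by norm_num) |>.mp h4)

theorem wn_Dr (h2 : SpRoots) (r : Fin 8) (hr : (r : ℕ) ≠ 0) :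
    wnD r = -7 * rtC r ^ 6 * psC ^ 2 * rescale (zetaC ^ (r : ℕ)) RC := by
  have h1 := h2.der r hr
  apply mul_left_cancel₀ (wn_rt_ne h2 r)
  unfold wnD
  linear_combination h1

/-- `(-7)^N R_r (G(f))_r = x_r^N`. -/
theorem wn_GRr (N : ℕ) (r : Fin 8) (hr : (r : ℕ) ≠ 0) :
    C ((-7 : ℂ) ^ N) * rescale (zetaC ^ (r : ℕ)) ((wnG N).subst (hauptmodul 7 ℂ)) *
      rescale (zetaC ^ (r : ℕ)) RC = rtC r ^ N := by
  have h := congrArg (rescale (zetaC ^ (r : ℕ))) (wn_G_R N)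
  rw [map_mul, map_mul, map_pow (rescale (zetaC ^ (r : ℕ)))] at h
  have h1 : rescale (zetaC ^ (r : ℕ)) (C ((-7 : ℂ) ^ N)) = C ((-7 : ℂ) ^ N) := by
    ext n
    rw [coeff_rescale, coeff_C]
    split_ifs with h0
    · rw [h0, pow_zero, one_mul]
    · rw [mul_zero]
  rw [h1] at h
  rw [h]
  unfold rtC
  rw [if_neg hr]

/-- The field of fractions. -/
abbrev WnF : Type := FractionRing (PowerSeries ℂ)

/-- The embedding. -/
def wnI : PowerSeries ℂ →+* WnF := algebraMap _ _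

theorem wnI_inj : Function.Injective wnI := IsFractionRing.injective (PowerSeries ℂ) WnF

theorem wnI_ne {F : PowerSeries ℂ} (h : F ≠ 0) : wnI F ≠ 0 := by
  intro h1
  exact h (wnI_inj (by rw [h1, map_zero]))

/-- `E_j`. -/
def wnT (j : ℕ) : WnF := ∑ r : Fin 8, wnI (rtC r) ^ j / wnI (wnD r)

theorem wnI_D (r : Fin 8) : wnI (wnD r) = 8 * wnI (rtC r) ^ 7 - 7 * wnI eC * wnI (rtC r) ^ 6 -
    6 * wnI (C (490 : ℂ) * gamC) * wnI (rtC r) ^ 5 -
    4 * wnI (C (21609 : ℂ) * gamC ^ 2) * wnI (rtC r) ^ 3 -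
    2 * wnI (C (235298 : ℂ) * gamC ^ 3) * wnI (rtC r) := by
  unfold wnD
  simp only [map_sub, map_mul, map_pow, map_ofNat]

theorem wnI_oct (h2 : SpRoots) (r : Fin 8) : wnI (rtC r) ^ 8 = wnI eC * wnI (rtC r) ^ 7 +
    wnI (C (490 : ℂ) * gamC) * wnI (rtC r) ^ 6 +
    wnI (C (21609 : ℂ) * gamC ^ 2) * wnI (rtC r) ^ 4 +
    wnI (C (235298 : ℂ) * gamC ^ 3) * wnI (rtC r) ^ 2 + wnI (C (823543 : ℂ) * gamC ^ 4) := by
  rw [← map_pow, h2.oct r]
  simp only [map_add, map_mul, map_pow]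

theorem wn_euler (h1 : SpEuler) (h2 : SpRoots) : (∀ r, wnI (wnD r) ≠ 0) ∧
    ∀ j ≤ 7, wnT j = if j = 7 then 1 else 0 := by
  have h := h1 WnF (wnI eC) (wnI (C (490 : ℂ) * gamC)) (wnI (C (21609 : ℂ) * gamC ^ 2))
    (wnI (C (235298 : ℂ) * gamC ^ 3)) (wnI (C (823543 : ℂ) * gamC ^ 4))
    (fun r => wnI (rtC r)) (fun r s hrs => h2.inj (wnI_inj hrs)) (wnI_oct h2)
  refine ⟨fun r => ?_, fun j hj => ?_⟩
  · rw [wnI_D]
    exact h.1 r
  · have h3 := h.2 j hj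
    rw [← h3]
    unfold wnT
    exact Finset.sum_congr rfl fun r _ => by rw [wnI_D]

theorem wn_Trec (h2 : SpRoots) (j : ℕ) : wnT (j + 8) = wnI eC * wnT (j + 7) +
    wnI (C (490 : ℂ) * gamC) * wnT (j + 6) + wnI (C (21609 : ℂ) * gamC ^ 2) * wnT (j + 4) +
    wnI (C (235298 : ℂ) * gamC ^ 3) * wnT (j + 2) + wnI (C (823543 : ℂ) * gamC ^ 4) * wnT j := by
  unfold wnT
  rw [Finset.mul_sum, Finset.mul_sum, Finset.mul_sum, Finset.mul_sum, Finset.mul_sum,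
    ← Finset.sum_add_distrib, ← Finset.sum_add_distrib, ← Finset.sum_add_distrib,
    ← Finset.sum_add_distrib]
  refine Finset.sum_congr rfl fun r _ => ?_
  rw [pow_add _ j 8, wnI_oct h2]
  ring

/-- `E_j` is the value of `H_(j-7)`. -/
theorem wn_T_eq (h1 : SpEuler) (h2 : SpRoots) {H : ℤ → ℤ → ℚ} (hH : IsHH H) (j : ℕ) :
    wnT j = wnI (wnP (wnS (H ((j : ℤ) - 7)))) := by
  induction j using Nat.strong_induction_on with
  | _ j ih =>
    by_cases h7 : j < 7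
    · rw [(wn_euler h1 h2).2 j (by omega), if_neg (by omega)]
      have h3 : wnS (H ((j : ℤ) - 7)) = 0 := by
        ext s
        rw [wn_coeff, hH.zero _ _ (by omega) (by omega), map_zero]
      rw [h3, map_zero, map_zero]
    by_cases h8 : j = 7
    · subst h8
      rw [(wn_euler h1 h2).2 7 le_rfl, if_pos rfl]
      have h3 : wnS (H (((7 : ℕ) : ℤ) - 7)) = 1 := by
        ext s
        have : ((7 : ℕ) : ℤ) - 7 = 0 := by norm_num
        rw [wn_coeff, this, hH.one, coeff_one]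
        by_cases h : s = 0
        · subst h; simp
        · rw [if_neg h, if_neg (by exact_mod_cast h)]
      rw [h3, map_one, map_one]
    obtain ⟨m, rfl⟩ : ∃ m, j = m + 8 := ⟨j - 8, by omega⟩
    rw [wn_Trec h2, wn_rec hH, ih (m + 7) (by omega), ih (m + 6) (by omega),
      ih (m + 4) (by omega), ih (m + 2) (by omega), ih m (by omega)]
    simp only [map_add, map_mul, map_pow, wnP_C, wnP_X, wnP_eG]
    push_cast
    ring

/-- The sum over the roots. -/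
theorem wn_A_eq (hK : K7) (h1 : SpEuler) (h2 : SpRoots) (N : ℕ) :
    wnI (wnP (1 - C ((-7 : ℚ) ^ N) * wnA ℚ N)) = wnI psC ^ 2 * wnT (N + 6) := by
  have hps : wnI psC ≠ 0 := wnI_ne wn_ps_ne
  have hD := (wn_euler h1 h2).1
  have hs := congrArg wnI (wn_sum hK h2 N)
  rw [map_mul, map_sum, map_ofNat] at hs
  have e1 : ∑ r ∈ Finset.Icc 1 7, wnI (rescale (zetaC ^ r) ((wnG N).subst (hauptmodul 7 ℂ))) =
      ∑ r : Fin 7, wnI (rescale (zetaC ^ ((r : ℕ) + 1)) ((wnG N).subst (hauptmodul 7 ℂ))) := by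
    rw [Fin.sum_univ_eq_sum_range (fun r => wnI (rescale (zetaC ^ (r + 1))
      ((wnG N).subst (hauptmodul 7 ℂ)))) 7, Finset.range_eq_Ico,
      Finset.sum_Ico_add' (fun r => wnI (rescale (zetaC ^ r)
      ((wnG N).subst (hauptmodul 7 ℂ)))) 0 7 1]
    rfl
  have e2 : ∀ r : Fin 7, wnI (C ((-7 : ℂ) ^ N)) *
      wnI (rescale (zetaC ^ ((r : ℕ) + 1)) ((wnG N).subst (hauptmodul 7 ℂ))) =
      -7 * wnI psC ^ 2 * (wnI (rtC r.succ) ^ (N + 6) / wnI (wnD r.succ)) := by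
    intro r
    have hr : ((r.succ : Fin 8) : ℕ) ≠ 0 := by simp
    have h3 := congrArg wnI (wn_GRr N r.succ hr)
    have h4 := congrArg wnI (wn_Dr h2 r.succ hr)
    have h5 := hD r.succ
    rw [map_mul wnI, map_mul wnI, map_pow wnI (rtC r.succ)] at h3
    rw [map_mul, map_mul, map_mul, map_pow, map_pow, map_neg, map_ofNat] at h4
    have hv : ((r.succ : Fin 8) : ℕ) = (r : ℕ) + 1 := by simp
    rw [hv] at h3 h4
    have h6 : wnI (rescale (zetaC ^ ((r : ℕ) + 1)) RC) ≠ 0 := by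
      intro h0
      rw [h0, mul_zero] at h4
      exact h5 h4
    rw [← mul_div_assoc, eq_div_iff h5]
    rw [h4, pow_add (wnI (rtC r.succ)) N 6, ← h3]
    ring
  have e3 : wnT (N + 6) = 1 / wnI psC ^ 2 +
      ∑ r : Fin 7, wnI (rtC r.succ) ^ (N + 6) / wnI (wnD r.succ) := by
    unfold wnT
    rw [Fin.sum_univ_succ]
    congr 1
    have h : rtC 0 = 1 := by unfold rtC; simp
    rw [h, map_one, one_pow, wn_D0, map_pow]
  have h7 : (7 : WnF) ≠ 0 := by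
    have : (7 : WnF) = wnI 7 := (map_ofNat wnI 7).symm
    rw [this]
    apply wnI_ne
    intro h
    have h5 := congrArg constantCoeff h
    rw [map_ofNat, map_zero] at h5
    norm_num at h5
  have e4 : wnI (C ((-7 : ℂ) ^ N)) * wnI (wnP (wnA ℚ N)) =
      -wnI psC ^ 2 * ∑ r : Fin 7, wnI (rtC r.succ) ^ (N + 6) / wnI (wnD r.succ) := by
    apply mul_left_cancel₀ h7
    calc 7 * (wnI (C ((-7 : ℂ) ^ N)) * wnI (wnP (wnA ℚ N)))
        = wnI (C ((-7 : ℂ) ^ N)) * (7 * wnI (wnP (wnA ℚ N))) := by ring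
      _ = ∑ r : Fin 7, wnI (C ((-7 : ℂ) ^ N)) *
          wnI (rescale (zetaC ^ ((r : ℕ) + 1)) ((wnG N).subst (hauptmodul 7 ℂ))) := by
          rw [hs, e1, Finset.mul_sum]
      _ = ∑ r : Fin 7, -7 * wnI psC ^ 2 *
          (wnI (rtC r.succ) ^ (N + 6) / wnI (wnD r.succ)) := Finset.sum_congr rfl fun r _ => e2 r
      _ = _ := by rw [← Finset.mul_sum]; ring
  have e5 : wnP (C ((-7 : ℚ) ^ N)) = C ((-7 : ℂ) ^ N) := by
    rw [wnP_C]
    push_cast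
    rfl
  rw [map_sub, map_mul, map_one, e5, map_sub, map_mul, map_one, e4, e3]
  field_simp
  ring

theorem spWin (hK : GH.D7.K7) (h1 : SpEuler) (h2 : SpRoots) : SpWin := by
  intro H hH N hN0 hN7 s
  obtain ⟨n, rfl⟩ : ∃ n : ℕ, N = n := ⟨N.toNat, by omega⟩
  have e0 : (n : ℤ) - 1 = ((n + 6 : ℕ) : ℤ) - 7 := by push_cast; ring
  rw [e0]
  have hneg := wn_neg hH (n + 6)
  rcases lt_or_ge s 0 with hs | hs
  · rw [wn_pO_neg _ (wn_pO_neg _ hneg) s hs]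
    unfold VV co
    rw [if_neg (by omega : ¬ s = 0), if_neg (by norm_num : ¬ (1 : ℕ) = 2),
      if_neg (by omega : ¬ 0 ≤ 7 * s - 4 * (n : ℤ) - 0)]
    ring
  · obtain ⟨t, rfl⟩ : ∃ t : ℕ, s = t := ⟨s.toNat, by omega⟩
    rw [wn_VV, ← wn_coeff (pO (pO (H (((n + 6 : ℕ) : ℤ) - 7)))), wn_pO _ (wn_pO_neg _ hneg),
      wn_pO _ hneg]
    congr 1
    apply wnP_inj
    apply wnI_inj
    rw [wn_A_eq hK h1 h2, wn_T_eq h1 h2 hH, map_mul, map_mul, map_mul, map_mul, wnP_psG]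
    ring

end GH.M7
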