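import Pool.Agent.GH.M7.Root4
import Pool.Agent.GH.M7.VE
import Pool.Agent.GH.M7.WN
import Pool.Agent.GH.M7.LY
import Pool.Agent.GH.M7.PS
import Pool.Agent.GH.M7.ValH
import Pool.Agent.GH.M7.TT
import Pool.Agent.GH.M7.HH
import Pool.Agent.GH.M7.HSpan
import Pool.Agent.GH.M7.Rec
import Pool.Agent.GH.M7.Euler
import Pool.Agent.GH.M7.Roots
import Pool.Agent.GH.M7.Win
import Pool.Agent.GH.M7.V1
import Pool.Agent.GH.M7.V20
import Pool.Agent.GH.M7.J
import Pool.Agent.GH.M7.Ord
import Pool.Agent.GH.M7.Gauss
import Pool.Agent.GH.M7.IntVan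
import Pool.Agent.GH.M7.Sum
import Pool.Agent.GH.M7.LC
import Pool.Agent.GH.M7.Small
import Pool.Agent.GH.M7.Lead
import Pool.Agent.GH.M7.U
import Pool.Agent.GH.M7.Row
import Pool.Agent.GH.M7.Key
import Pool.Agent.GH.M7.Itp
import Pool.Agent.GH.M7.OrdL
import Pool.Agent.GH.M7.Node
import Pool.Agent.GH.M7.Rval
import Pool.Agent.GH.M7.Pval
import Pool.Agent.GH.M7.NL
import Pool.Agent.GH.M7.L
import Pool.Agent.GH.M7.LU
import Pool.Agent.GH.M7.Abs
import Pool.Agent.GH.M7.Rt
import Pool.Agent.GH.M7.Cor
import Pool.Agent.GH.M7.MatW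
import Pool.Agent.GH.M7.Eval
import Pool.Agent.GH.M7.NP
import Pool.Agent.GH.M7.Ghost
import Pool.Agent.GH.M7.Cen
import Pool.Agent.GH.D7.Main7

/-!
# GH7-MAT: the theorem on the central disc, `p = 7`
-/

noncomputable section

namespace GH.M7

open GH.D7 GH.CombU

/-- The decomposition at the centres. -/
theorem fin_J (hK : K7) : SpJ :=
  spJ spHH spHspan (spV1 (spRec hK) (spWin hK spEuler (spRoots hK)))
    (spV20 (spV1 (spRec hK) (spWin hK spEuler (spRoots hK))) spHspan)

/-- The theorem on the central disc. -/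
theorem central7 (hK : K7) : CentralTheorem7 := by
  have hR4 := spRoot4
  have hV := spV hR4 hK
  have hE := spE hR4
  have hLY := spLY hV
  have hWN := spWN hV hLY
  have hPS := spPS hV hLY
  have hSc := spScale hPS
  have hVal := spVal hV
  have hH := spH hV
  have hTT := spTT hE
  have hJ := fin_J hK
  have hOrd := spOrd hJ hVal
  have hG := spGauss
  have hRow := spRow
  have hInt := spInt hWN hRow
  have hVan := spVan hOrd
  have hSum := spSum
  have hF := spF
  have hLC := spLC
  have hSm := spSmall hVal hK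
  have hLead := spLead hInt hVan hSum hF hLC hSm hG hJ hVal
  have hU := spU hOrd hG hInt hSc hSum
  have hKey := spKey hJ hVal hTT
  have hItp := spItp
  have hOrdL := spOrdL hOrd
  have hNode := spNode
  have hRval := spRval hOrdL hG hInt hSum
  have hPval := spPval hKey hRow hTT hRval
  have hNL := spNL hLead hSum hG hRow hTT hOrdL hItp hNode hPval
  have hL := spL hNL hWN hSc hRow
  have hLU := spLU
  have hAbs := spAbs hLU
  have hRt := spRt hAbs hLead hU hL hSc
  have hCor := spCor hJ hVal hH hPS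
  have hM := spMatW hLead hSc hRt hCor
  have hEv := spEval hV
  have hNP := spNP hM hEv hPS hSc hRt
  have hGh := spGhost hSum
  exact central7_of hM (fun e he n => lead_PS hSc he n) hNP hGh

/-- The ghost conjecture for `p = 7`, level one. -/
theorem ghost7 : GhostConjectureU 7 := ghost7_of_central (central7 k7)

end GH.M7
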