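import Pool.Agent.GH.M7.Stm

/-!
# GH7-MAT, row GH7-D3: integrality and zeros of the leading minors
-/

open PowerSeries

noncomputable section

namespace GH.M7

open GH.D7 GH.CombU

/-- The ring `ℤ_7[7y]`. -/
def int7 : Subring Zy where
  carrier := {P | Ok P}
  mul_mem' := by
    intro P Q hP hQ k
    rw [Polynomial.coeff_mul]
    apply Finset.dvd_sum
    intro x hx
    have h1 : x.1 + x.2 = k := Finset.HasAntidiagonal.mem_antidiagonal.1 hx
    rw [← h1, pow_add]
    exact mul_dvd_mul (hP x.1) (hQ x.2)
  one_mem' := by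
    intro k
    rw [Polynomial.coeff_one]
    split_ifs with h
    · rw [h, pow_zero]
    · exact dvd_zero _
  add_mem' := by
    intro P Q hP hQ k
    rw [Polynomial.coeff_add]
    exact dvd_add (hP k) (hQ k)
  zero_mem' := by
    intro k
    rw [Polynomial.coeff_zero]
    exact dvd_zero _
  neg_mem' := by
    intro P hP k
    rw [Polynomial.coeff_neg]
    exact (dvd_neg).2 (hP k)

theorem int7_mem {P : Zy} : P ∈ int7 ↔ Ok P := Iff.rfl

theorem int7_det {n : ℕ} (M : Matrix (Fin n) (Fin n) Zy) (h : ∀ i j, Ok (M i j)) :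
    Ok M.det := by
  rw [← int7_mem, Matrix.det_apply]
  apply sum_mem
  intro s _
  rw [Units.smul_def]
  apply zsmul_mem
  apply prod_mem
  intro i _
  exact h _ _

theorem spInt (h : SpWN) (h2 : SpRow) : SpInt := by
  intro e n b he
  obtain ⟨W, N, hW0, -, hN, hM⟩ := h e he n
  have key := (h2 Zy (PM e) N (fun i k => W (i - k)) n
    (fun i _ => by
      change W (i - i) = 1
      rw [Nat.sub_self, hW0])
    (fun i hi j => hM i hi j)).1 n b le_rfl
  rw [key]
  exact int7_det _ (fun i j => hN _ _ i.2)

theorem spVan (h : SpOrd) : SpVan := by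
  intro e n m he
  by_cases hT : T7 e n m = 0
  · rw [hT, pow_zero]
    exact one_dvd _
  have hm : m % 4 = (if e = 2 then 2 else 0) := by
    by_contra hm
    apply hT
    unfold T7
    rw [if_neg hm]
  have hT2 : T7 e n m = min (n - t7 e m) (m - 1 - t7 e m - n) := by
    unfold T7
    rw [if_pos hm]
  have hc : cen e (m / 4) = m := by
    unfold cen
    rw [← hm]
    omega
  have ht : tz e (m / 4) = t7 e m := rfl
  have h1 := h e (m / 4) n (idf n) (idf n)
    (Finset.univ.filter fun s : Fin n => (s : ℕ) < m - n - 1) he (fun s hs => by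
      have hs2 : (s : ℕ) < m - n - 1 := (Finset.mem_filter.1 hs).2
      rw [hc]
      unfold idf
      refine ⟨by omega, fun r => ?_⟩
      have hr := r.2
      omega)
  rw [hc, ht, Fin.card_filter_val_lt] at h1
  refine dvd_trans (pow_dvd_pow _ ?_) h1
  rw [hT2]
  omega

end GH.M7
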