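import Pool.Agent.GH.M7.Stm
import Pool.Agent.GH.Pot.Gv

/-!
# GH7-MAT, row F1: the input of GH-POT
-/

noncomputable section

namespace GH.M7

open GH.D7 GH.CombU

theorem lead_PS (h : SpScale) {e : ℕ} (he : e ≤ 2) (n : ℕ) :
    Pot.lead (PS e) n = Pot.lead (PM e) n := by
  have h1 := h e n (fun i : Fin n => (i : ℕ)) (fun i : Fin n => (i : ℕ)) he
  have h2 : Polynomial.C ((7 : ℤ_[7]) ^ ∑ i : Fin n, (i : ℕ)) ≠ 0 := by
    rw [Ne, Polynomial.C_eq_zero]
    exact pow_ne_zero _ (by norm_num)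
  exact mul_left_cancel₀ h2 h1

theorem spMatW (h1 : SpLead) (h2 : SpScale) (h3 : SpRt) (h4 : SpCor) : SpMatW := by
  intro e he
  exact
    { lead := fun n => by
        obtain ⟨u, z, _, hu, hn⟩ := h1 e he n
        exact ⟨u, z, hu, by rw [lead_PS h2 he, hn]⟩
      root := fun n a b => by
        rw [Pot.le_gv_iff]
        exact Pot.gv_dvd_comp (by simpa using (h3 e n a b he).1) _
      corank := h4 e he }

end GH.M7
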