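import Pool.Agent.GH.M7.Stm

/-!
# GH7-MAT, row S1: fourth roots of power series with growth
-/

set_option autoImplicit false

open PowerSeries

noncomputable section

namespace GH.M7

open GH.D7 GH.CombU

/-- The series with growth `w`. -/
def r4_A (w : ℕ → ℕ) (h0 : w 0 = 0) (hw : ∀ a b, w (a + b) ≤ w a + w b) :
    Subring (PowerSeries ℤ_[7]) where
  carrier := {f | ∀ n, (7 : ℤ_[7]) ^ w n ∣ coeff n f}
  mul_mem' := by
    intro f g hf hg n
    rw [coeff_mul]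
    refine Finset.dvd_sum fun p hp => ?_
    have h1 : p.1 + p.2 = n := Finset.HasAntidiagonal.mem_antidiagonal.1 hp
    refine (pow_dvd_pow (7 : ℤ_[7]) (h1 ▸ hw p.1 p.2)).trans ?_
    rw [pow_add]
    exact mul_dvd_mul (hf p.1) (hg p.2)
  one_mem' := by
    intro n
    rw [coeff_one]
    split_ifs with h
    · rw [h, h0, pow_zero]
    · exact dvd_zero _
  add_mem' := by
    intro f g hf hg n
    rw [map_add]
    exact dvd_add (hf n) (hg n)
  zero_mem' := by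
    intro n
    rw [map_zero]
    exact dvd_zero _
  neg_mem' := by
    intro f hf n
    rw [map_neg]
    exact (dvd_neg).2 (hf n)

theorem r4_four : ∃ q : ℤ_[7], 4 * q = 1 := by
  have h : IsUnit (4 : ℤ_[7]) := by
    rw [PadicInt.isUnit_iff]
    have h1 : ‖((4 : ℕ) : ℤ_[7])‖ = 1 := PadicInt.norm_natCast_eq_one_iff.2 (by decide)
    exact_mod_cast h1
  obtain ⟨u, hu⟩ := h
  refine ⟨((u⁻¹ : ℤ_[7]ˣ) : ℤ_[7]), ?_⟩
  rw [← hu, Units.mul_inv]

/-- the approximants -/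
def r4_U (q : ℤ_[7]) (F : PowerSeries ℤ_[7]) : ℕ → PowerSeries ℤ_[7]
  | 0 => 1
  | n + 1 => r4_U q F n + C (-(q * coeff (n + 1) (r4_U q F n ^ 4 * F))) * X ^ (n + 1)

theorem r4_dvd_coeff {m k : ℕ} {f g : PowerSeries ℤ_[7]}
    (h : (X : PowerSeries ℤ_[7]) ^ m ∣ f - g) (hk : k < m) : coeff k f = coeff k g := by
  have h1 := X_pow_dvd_iff.1 h k hk
  rw [map_sub] at h1
  exact sub_eq_zero.1 h1

theorem r4_main {q : ℤ_[7]} (hq : 4 * q = 1) {F : PowerSeries ℤ_[7]}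
    (hF : constantCoeff F = 1) (n : ℕ) :
    constantCoeff (r4_U q F n) = 1 ∧ (X : PowerSeries ℤ_[7]) ^ (n + 1) ∣ r4_U q F n ^ 4 * F - 1 := by
  induction n with
  | zero =>
    refine ⟨map_one _, ?_⟩
    show X ^ (0 + 1) ∣ (1 : PowerSeries ℤ_[7]) ^ 4 * F - 1
    rw [zero_add, pow_one, X_dvd_iff, map_sub, map_mul, map_pow, map_one, hF]
    ring
  | succ n ih =>
    obtain ⟨h1, h2⟩ := ih
    set U := r4_U q F n with hU
    set c : ℤ_[7] := -(q * coeff (n + 1) (U ^ 4 * F)) with hc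
    have e1 : r4_U q F (n + 1) = U + C c * X ^ (n + 1) := rfl
    have h0 : constantCoeff (r4_U q F (n + 1)) = 1 := by
      rw [e1, map_add, h1, map_mul, map_pow, constantCoeff_X, zero_pow (Nat.succ_ne_zero n),
        mul_zero, add_zero]
    refine ⟨h0, ?_⟩
    obtain ⟨G, hG⟩ := h2
    have hG0 : coeff (n + 1) (U ^ 4 * F) = constantCoeff G := by
      have e2 : U ^ 4 * F = 1 + X ^ (n + 1) * G := by rw [← hG]; ring
      rw [e2, map_add, coeff_one, if_neg (Nat.succ_ne_zero n), zero_add]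
      have e3 := coeff_X_pow_mul G (n + 1) 0
      rw [zero_add] at e3
      rw [e3, coeff_zero_eq_constantCoeff_apply]
    have h3 : (X : PowerSeries ℤ_[7]) ∣ G + 4 * C c * (U ^ 3 * F) := by
      rw [X_dvd_iff, map_add, map_mul, map_mul, map_mul, map_pow, h1, hF, constantCoeff_C,
        hc, hG0]
      have e4 : constantCoeff (4 : PowerSeries ℤ_[7]) = (4 : ℤ_[7]) := map_ofNat _ 4
      rw [e4]
      linear_combination (-constantCoeff G) * hq
    obtain ⟨W, hW⟩ := h3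
    refine ⟨W + X ^ n * ((6 * U ^ 2 * C c ^ 2 + 4 * U * C c ^ 3 * X ^ (n + 1) +
      C c ^ 4 * X ^ (2 * (n + 1))) * F), ?_⟩
    rw [e1]
    have e5 : (U + C c * X ^ (n + 1)) ^ 4 * F - 1 = (U ^ 4 * F - 1) +
        X ^ (n + 1) * (4 * C c * (U ^ 3 * F)) + X ^ (n + 1) * X ^ (n + 1) *
        ((6 * U ^ 2 * C c ^ 2 + 4 * U * C c ^ 3 * X ^ (n + 1) +
      C c ^ 4 * X ^ (2 * (n + 1))) * F) := by ring
    have e6 : (X : PowerSeries ℤ_[7]) ^ (n + 1 + 1) = X ^ (n + 1) * X := pow_succ _ _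
    have e7 : (X : PowerSeries ℤ_[7]) ^ (n + 1) = X * X ^ n := pow_succ' _ _
    rw [e5, hG, ← mul_add, hW, e6]
    generalize (6 * U ^ 2 * C c ^ 2 + 4 * U * C c ^ 3 * X ^ (n + 1) +
      C c ^ 4 * X ^ (2 * (n + 1))) * F = Q
    rw [e7]
    ring

theorem r4_mem {w : ℕ → ℕ} (h0 : w 0 = 0) (hw : ∀ a b, w (a + b) ≤ w a + w b) (q : ℤ_[7])
    {F : PowerSeries ℤ_[7]} (hF : F ∈ r4_A w h0 hw) (n : ℕ) : r4_U q F n ∈ r4_A w h0 hw := by
  induction n with
  | zero => exact one_mem _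
  | succ n ih =>
    have h1 : r4_U q F n ^ 4 * F ∈ r4_A w h0 hw := mul_mem (pow_mem ih 4) hF
    refine add_mem ih fun m => ?_
    rw [coeff_C_mul_X_pow]
    split_ifs with h
    · rw [h]
      exact (dvd_neg).2 (dvd_mul_of_dvd_right (h1 (n + 1)) q)
    · exact dvd_zero _

theorem r4_stable (q : ℤ_[7]) (F : PowerSeries ℤ_[7]) (n j : ℕ) :
    (X : PowerSeries ℤ_[7]) ^ (n + 1) ∣ r4_U q F (n + j) - r4_U q F n := by
  induction j with
  | zero => rw [add_zero, sub_self]; exact dvd_zero _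
  | succ j ih =>
    have e1 : r4_U q F (n + (j + 1)) - r4_U q F n = (r4_U q F (n + j) - r4_U q F n) +
        C (-(q * coeff (n + j + 1) (r4_U q F (n + j) ^ 4 * F))) * X ^ (n + j + 1) := by
      show r4_U q F (n + j) + C (-(q * coeff (n + j + 1) (r4_U q F (n + j) ^ 4 * F))) *
        X ^ (n + j + 1) - r4_U q F n = _
      ring
    rw [e1]
    refine dvd_add ih (dvd_mul_of_dvd_right (pow_dvd_pow _ ?_) _)
    omega

/-- Row S1. -/
theorem spRoot4 : SpRoot4 := by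
  intro w h0 hw hw1 F hF hFw
  obtain ⟨q, hq⟩ := r4_four
  have hFA : F ∈ r4_A w h0 hw := hFw
  set V : PowerSeries ℤ_[7] := PowerSeries.mk fun n => coeff n (r4_U q F n) with hV
  have hVU : ∀ n, (X : PowerSeries ℤ_[7]) ^ (n + 1) ∣ V - r4_U q F n := by
    intro n
    rw [X_pow_dvd_iff]
    intro m hm
    rw [map_sub, hV, coeff_mk, sub_eq_zero]
    obtain ⟨j, rfl⟩ := Nat.exists_eq_add_of_le (Nat.lt_succ_iff.1 hm)
    exact (r4_dvd_coeff (r4_stable q F m j) (Nat.lt_succ_self m)).symm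
  have hVA : ∀ n, (7 : ℤ_[7]) ^ w n ∣ coeff n V := by
    intro n
    rw [hV, coeff_mk]
    exact r4_mem h0 hw q hFA n n
  have hV4 : V ^ 4 * F = 1 := by
    ext n
    have h1 := (r4_main hq hF n).2
    have h2 : (X : PowerSeries ℤ_[7]) ^ (n + 1) ∣ V ^ 4 * F - 1 := by
      have e1 : V ^ 4 * F - 1 = (V ^ 4 - r4_U q F n ^ 4) * F + (r4_U q F n ^ 4 * F - 1) := by
        ring
      rw [e1]
      exact dvd_add (dvd_mul_of_dvd_left ((hVU n).trans (sub_dvd_pow_sub_pow _ _ 4)) F) h1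
    exact r4_dvd_coeff h2 (Nat.lt_succ_self n)
  have hV0 : coeff 0 V = 1 := by
    rw [hV, coeff_mk]
    show coeff 0 (1 : PowerSeries ℤ_[7]) = 1
    rw [coeff_one, if_pos rfl]
  have h7 : ∀ n, ∃ t : ℤ_[7], coeff n V = (if n = 0 then 1 else 0) + 7 * t ∧
      (n = 0 → t = 0) := by
    intro n
    by_cases h : n = 0
    · refine ⟨0, ?_, fun _ => rfl⟩
      rw [h, hV0, if_pos rfl, mul_zero, add_zero]
    · obtain ⟨t, ht⟩ := (dvd_pow_self (7 : ℤ_[7])
        (Nat.one_le_iff_ne_zero.1 (hw1 n (Nat.one_le_iff_ne_zero.2 h)))).trans (hVA n)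
      exact ⟨t, by rw [if_neg h, zero_add, ht], fun h' => absurd h' h⟩
  choose t ht ht0 using h7
  have hθ : V = 1 + C (7 : ℤ_[7]) * PowerSeries.mk t := by
    ext n
    rw [ht, map_add, coeff_one, coeff_C_mul, coeff_mk]
  refine ⟨PowerSeries.mk t, ?_, ?_, ?_⟩
  · rw [← coeff_zero_eq_constantCoeff_apply, coeff_mk, ht0 0 rfl]
  · rw [← hθ]
    exact hV4
  · rw [← hθ]
    exact hVA

end GH.M7
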