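import Pool.Agent.GH.D7.UMat7A
import Pool.Agent.GH.Pot.WDefs
import Pool.Agent.GH.CombU.P7
import Pool.Agent.GH.MatU.Lpow

/-!
# GH7-MAT: the matrix of `U_7`, `p = 7`, three components: definitions and statements

Head: helper75. `e = 0, 1, 2` is the component (`c` in `D7`), `y` the variable, the centres are
`y = cen e z = 4z, 4z, 4z + 2`; `x = y/4, y/4, (y-2)/4` is the variable of `Mat7`.
Matrices are indexed from `0`; in the comments `i' = i + 1`, `j' = j + 1`.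
-/

open PowerSeries

noncomputable section

namespace GH.M7

open GH.D7 GH.CombU

/-- The ring of coefficients `ℤ_7[y]`. -/
abbrev Zy : Type := Polynomial ℤ_[7]

/-! ### Numbers -/

/-- The centre. -/
def cen (e z : ℕ) : ℕ := 4 * z + if e = 2 then 2 else 0

/-- `dim S_k(1)` at the centre. -/
def tz (e z : ℕ) : ℕ := (z - if e = 1 then 1 else 0) / 2

/-- The slope `k/2 - 1` at the centre. -/
def lam (e z : ℕ) : ℕ := 3 * z + e - 1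

/-- `B_n + ∑ T_m(n) v_7(m0 - m)`. -/
def FF (e n m0 : ℕ) : ℕ :=
  B7 e n + ∑ m ∈ Finset.range (Z7 n), T7 e n m * padicValInt 7 ((m0 : ℤ) - m)

/-- The rows `0, …, n-1, i`. -/
def up (n i : ℕ) (k : Fin (n + 1)) : ℕ := if (k : ℕ) < n then k else i

/-- The columns `0, …, n` without `j`. -/
def sk (n j : ℕ) (k : Fin n) : ℕ := if (k : ℕ) < j then k else k + 1

/-- The rows `0, …, n-1`. -/
def idf (n : ℕ) (k : Fin n) : ℕ := k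

/-- `m` counts as a centre above `2n`, `n` the size. -/
def hi (e n m : ℕ) : Prop := 2 * n < m ∧ 1 ≤ T7 e n m

instance (e n m : ℕ) : Decidable (hi e n m) := instDecidableAnd

/-! ### Series -/

/-- `1/S`. -/
def Si (R : Type*) [CommRing R] : PowerSeries R := invOfUnit (S7 R) 1

/-- `e(g) = 1 - 490 g - 21609 g² - 235298 g³ - 823543 g⁴`. -/
def eG (R : Type*) [CommRing R] : PowerSeries R :=
  1 - C (490 : R) * X - C (21609 : R) * X ^ 2 - C (235298 : R) * X ^ 3 - C (823543 : R) * X ^ 4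

/-- `1/e(g)`. -/
def eGi (R : Type*) [CommRing R] : PowerSeries R := invOfUnit (eG R) 1

/-- `ψ(g) = 1 + 245 g + 2401 g²`. -/
def psG (R : Type*) [CommRing R] : PowerSeries R := 1 + C (245 : R) * X + C (2401 : R) * X ^ 2

open Classical in
/-- `V = 1 + 7 thV`, `V⁴ S = 1`. -/
def thV : PowerSeries ℤ_[7] :=
  if h : ∃ θ : PowerSeries ℤ_[7], constantCoeff θ = 0 ∧
    (1 + C (7 : ℤ_[7]) * θ) ^ 4 * S7 ℤ_[7] = 1 ∧
    ∀ n, (7 : ℤ_[7]) ^ ((n + 3) / 4) ∣ coeff n (1 + C (7 : ℤ_[7]) * θ) then h.choose else 0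

/-- `V = S^(-1/4)`. -/
def Vz : PowerSeries ℤ_[7] := 1 + C (7 : ℤ_[7]) * thV

/-- `V^y` over `ℤ_7[y]`. -/
def LY : PowerSeries Zy := MatU.Lpow 7 thV

open Classical in
/-- `E = 1 + 7 thE`, `E⁴ e(g) = 1`. -/
def thE : PowerSeries ℤ_[7] :=
  if h : ∃ θ : PowerSeries ℤ_[7], constantCoeff θ = 0 ∧
    (1 + C (7 : ℤ_[7]) * θ) ^ 4 * eG ℤ_[7] = 1 ∧ ∀ n, (7 : ℤ_[7]) ^ n ∣ coeff n θ then
    h.choose else 0

/-- `E = e(g)^(-1/4)`. -/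
def Ez : PowerSeries ℤ_[7] := 1 + C (7 : ℤ_[7]) * thE

/-- `E^y` over `ℤ_7[y]`. -/
def LE : PowerSeries Zy := MatU.Lpow 7 thE

/-! ### Matrices -/

/-- The matrix `[T^(7i'-j')] (V² Y)^(e_c) S^(2i') V^y` over `ℤ_7[y]`. -/
def PM (e i j : ℕ) : Zy :=
  if j + 1 ≤ 7 * (i + 1) then
    coeff (7 * (i + 1) - (j + 1)) (PowerSeries.map Polynomial.C (Vz ^ (2 * ey7 e)) *
      Y7 Zy ^ ey7 e * S7 Zy ^ (2 * (i + 1)) * LY)
  else 0

open Classical in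
/-- The scaled matrix `7^(j - i) PM_ij`. -/
def PS (e i j : ℕ) : Zy :=
  if h : ∃ P : Zy, Polynomial.C ((7 : ℤ_[7]) ^ i) * P =
      Polynomial.C ((7 : ℤ_[7]) ^ j) * PM e i j then h.choose else 0

/-- The unitriangular matrix
`[g^(i-k)] ψ^(e_c) e(g)^(2i' - s_c - α)`, `α = y/4, y/4, (y-2)/4`, over `ℤ_7[y]`. -/
def TT (e i k : ℕ) : Zy :=
  if k ≤ i then
    coeff (i - k) (PowerSeries.map Polynomial.C (psG ℤ_[7] ^ ey7 e *
      eG ℤ_[7] ^ (2 * i + if e = 0 then 1 else 2) * Ez ^ (if e = 2 then 2 else 0)) * LE)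
  else 0

/-- `TT * PM`. -/
def PX (e i j : ℕ) : Zy := ∑ k ∈ Finset.range (i + 1), TT e i k * PM e k j

/-- The value of `PM` at the centre, `i, j ≥ 1`. -/
def MQ (e z i j : ℕ) : ℚ :=
  if j ≤ 7 * i then
    coeff (7 * i - j) (S7 ℚ ^ (2 * i) * Si ℚ ^ (z + sh7 e) * Y7 ℚ ^ ey7 e)
  else 0

/-- The antidiagonal, `j ≥ 1`. -/
def kap (e z j : ℕ) : ℚ :=
  (if e = 1 then -1 else 1 / 7) * (-7 : ℚ) ^ (2 * ((cen e z : ℤ) - j) - z)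

/-- The level one forms `x_l = ψ^(2 - e_c) e(g)^(z + s_c - 1 - 2l) g^l`, `l ≥ 1`. -/
def xG (e z l : ℕ) : PowerSeries ℚ :=
  psG ℚ ^ (2 - ey7 e) * eG ℚ ^ (z + sh7 e - 1 - 2 * l) * X ^ l

/-- The ring `ℤ_7[7y]`. -/
def Ok (F : Zy) : Prop := ∀ k, (7 : ℤ_[7]) ^ k ∣ F.coeff k

/-! ### Block S: series -/

/-- S1: fourth roots with growth. -/
def SpRoot4 : Prop := ∀ w : ℕ → ℕ, w 0 = 0 → (∀ a b, w (a + b) ≤ w a + w b) →
  (∀ n, 1 ≤ n → 1 ≤ w n) → ∀ F : PowerSeries ℤ_[7], constantCoeff F = 1 →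
  (∀ n, (7 : ℤ_[7]) ^ w n ∣ coeff n F) →
  ∃ θ : PowerSeries ℤ_[7], constantCoeff θ = 0 ∧ (1 + C (7 : ℤ_[7]) * θ) ^ 4 * F = 1 ∧
    ∀ n, (7 : ℤ_[7]) ^ w n ∣ coeff n (1 + C (7 : ℤ_[7]) * θ)

/-- S2: the series `V`. -/
def SpV : Prop := constantCoeff thV = 0 ∧ Vz ^ 4 * S7 ℤ_[7] = 1 ∧
  (∀ n, (7 : ℤ_[7]) ^ ((n + 3) / 4) ∣ coeff n Vz) ∧
  (∀ n, (7 : ℤ_[7]) ^ ((n + 3) / 4) ∣ coeff n (S7 ℤ_[7])) ∧
  ∀ n, (7 : ℤ_[7]) ^ ((n + 1) / 4) ∣ coeff n (Y7 ℤ_[7])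

/-- S3: the series `E`. -/
def SpE : Prop := constantCoeff thE = 0 ∧ Ez ^ 4 * eG ℤ_[7] = 1 ∧
  ∀ n, (7 : ℤ_[7]) ^ n ∣ coeff n thE

/-! ### Block W: the matrices -/

/-- W1: the factorisation `PM = W N` with `N` over `ℤ_7[7y]`. -/
def SpWN : Prop := ∀ e : ℕ, e ≤ 2 → ∀ I : ℕ, ∃ (W : ℕ → Zy) (N : ℕ → ℕ → Zy), W 0 = 1 ∧
  (∀ l, Polynomial.C ((7 : ℤ_[7]) ^ l) ∣ W l) ∧ (∀ i j, i < I → Ok (N i j)) ∧
  ∀ i < I, ∀ j, PM e i j = ∑ l ∈ Finset.range (i + 1), W (i - l) * N l j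

/-- W2: the growth of `V^y`. -/
def SpLY : Prop := ∀ n, Polynomial.C ((7 : ℤ_[7]) ^ ((5 * n + 23) / 24)) ∣ coeff n LY

/-- W3: the scaled matrix exists and its columns are small. -/
def SpPS : Prop := ∀ e i j : ℕ, e ≤ 2 →
  Polynomial.C ((7 : ℤ_[7]) ^ i) * PS e i j = Polynomial.C ((7 : ℤ_[7]) ^ j) * PM e i j ∧
  Polynomial.C ((7 : ℤ_[7]) ^ ((j + 1) / 2)) ∣ PS e i j

/-- W4: the scaled minors. -/
def SpScale : Prop := ∀ (e n : ℕ) (a b : Fin n → ℕ), e ≤ 2 →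
  Polynomial.C ((7 : ℤ_[7]) ^ ∑ i, a i) * Pot.minor (PS e) a b =
    Polynomial.C ((7 : ℤ_[7]) ^ ∑ i, b i) * Pot.minor (PM e) a b

/-- W5: the values at the centres. -/
def SpVal : Prop := ∀ e z i j : ℕ, e ≤ 2 →
  (((PM e i j).eval (cen e z : ℤ_[7]) : ℤ_[7]) : ℚ_[7]) = ((MQ e z (i + 1) (j + 1) : ℚ) : ℚ_[7])

/-- W6: the columns above the centre. -/
def SpH : Prop := ∀ e z i j : ℕ, e ≤ 2 → cen e z ≤ j + 1 →
  (7 : ℤ_[7]) ^ (lam e z + i) ∣ 7 ^ j * (PM e i j).eval (cen e z : ℤ_[7])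

/-- W7: the matrix `TT`. -/
def SpTT : Prop := ∀ e : ℕ, e ≤ 2 → (∀ i, TT e i i = 1) ∧
  (∀ i k, Polynomial.C ((7 : ℤ_[7]) ^ (i - k)) ∣ TT e i k) ∧
  ∀ z i l, tz e z ≤ i → 1 ≤ l → l ≤ tz e z → ∑ k ∈ Finset.range (i + 1),
    (((TT e i k).eval (cen e z : ℤ_[7]) : ℤ_[7]) : ℚ_[7]) *
      ((coeff (k + 1) (xG e z l) : ℚ) : ℚ_[7]) = 0

/-! ### Block J: the decomposition at the centre -/

/-- Coefficients with integer index. -/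
def co (n : ℤ) (F : PowerSeries ℚ) : ℚ := if 0 ≤ n then coeff n.toNat F else 0

/-- `S^β`, `β` an integer. -/
def Sz (β : ℤ) : PowerSeries ℚ := if 0 ≤ β then S7 ℚ ^ β.toNat else Si ℚ ^ (-β).toNat

/-- The functions `V(N, s)`, `N = z - 2i'`, `s = i - i'`. -/
def VV (e : ℕ) (N s : ℤ) : ℚ :=
  (if s = 0 then 1 else 0) + (if e = 1 then -1 else 7) * (-7 : ℚ) ^ N *
    co (7 * s - 4 * N - if e = 2 then 2 else 0) (Y7 ℚ ^ ey7 e * Sz (2 * s - N - sh7 e))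

/-- Multiplication by `e(g)`. -/
def eO (f : ℤ → ℚ) (s : ℤ) : ℚ :=
  f s - 490 * f (s - 1) - 21609 * f (s - 2) - 235298 * f (s - 3) - 823543 * f (s - 4)

/-- Multiplication by `ψ(g)`. -/
def pO (f : ℤ → ℚ) (s : ℤ) : ℚ := f s + 245 * f (s - 1) + 2401 * f (s - 2)

/-- The recursion of the octic equation. -/
def IsRec (V : ℤ → ℤ → ℚ) : Prop := ∀ N s, V (N + 8) s =
  eO (V (N + 7)) s + 490 * V (N + 6) (s - 1) + 21609 * V (N + 4) (s - 2) +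
    235298 * V (N + 2) (s - 3) + 823543 * V N (s - 4)

/-- The complete homogeneous functions of the octic equation. -/
structure IsHH (H : ℤ → ℤ → ℚ) : Prop where
  rc : IsRec H
  zero : ∀ N s, -7 ≤ N → N < 0 → H N s = 0
  one : ∀ s, H 0 s = if s = 0 then 1 else 0

/-- `[g^s] e(g)^n`. -/
def Wf (n s : ℤ) : ℚ := if 0 ≤ n then co s (eG ℚ ^ n.toNat) else 0

/-- The span of the `e(g)^(N-2k) g^k`, `K ≤ k ≤ N/2`. -/
def Sp (N K : ℤ) : Submodule ℚ (ℤ → ℚ) := Submodule.span ℚ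
  {f | ∃ k : ℤ, K ≤ k ∧ 2 * k ≤ N ∧ f = fun s => Wf (N - 2 * k) (s - k)}

/-- The lower bound of the exponents. -/
def kapH (N : ℤ) : ℤ := if 0 ≤ N then 0 else -((-4 * N - 4) / 7)

/-- J1: the functions `H`. -/
def SpHH : Prop := ∃ H, IsHH H

/-- J2: `H_N` is in the span. -/
def SpHspan : Prop := ∀ H, IsHH H → ∀ N, H N ∈ Sp N (kapH N)

/-- J3: the recursion of `V`. -/
def SpRec : Prop := ∀ e : ℕ, e ≤ 2 → IsRec (VV e)

/-- J4: the window `0 ≤ N ≤ 7` for `e = 1`. -/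
def SpWin : Prop := ∀ H, IsHH H → ∀ N, 0 ≤ N → N ≤ 7 → ∀ s, VV 1 N s = pO (pO (H (N - 1))) s

/-- J5: `V` for `e = 1`. -/
def SpV1 : Prop := ∀ H, IsHH H → ∀ N s, VV 1 N s = pO (pO (H (N - 1))) s

/-- J6: `V` for `e = 2` and `e = 0`. -/
def SpV20 : Prop := ∀ H, IsHH H → ∀ N s,
  VV 2 N s = pO (fun s => H N s + 245 * H (N - 2) (s - 1) + 2401 * H (N - 4) (s - 2)) s ∧
  VV 0 N s = H N s + 490 * H (N - 2) (s - 1) + 64827 * H (N - 4) (s - 2) +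
    1176490 * H (N - 6) (s - 3) + 5764801 * H (N - 8) (s - 4)

/-- J7: the decomposition at the centre. -/
def SpJ : Prop := ∀ e z : ℕ, e ≤ 2 → ∃ y : ℕ → ℕ → ℚ, ∀ i j : ℕ, 1 ≤ i → 1 ≤ j → j < cen e z →
  MQ e z i j = ∑ l ∈ Finset.Icc 1 (tz e z), coeff i (xG e z l) * y l j -
    if i + j = cen e z then kap e z j else 0

/-! ### Block D: the leading minors -/

/-- D1: the order of the minors at the centres. -/
def SpOrd : Prop := ∀ (e z n : ℕ) (a b : Fin n → ℕ) (A : Finset (Fin n)), e ≤ 2 →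
  (∀ s ∈ A, b s + 1 < cen e z ∧ ∀ r, a r + 1 + (b s + 1) ≠ cen e z) →
  (Polynomial.X - Polynomial.C ((cen e z : ℕ) : ℚ_[7])) ^ (A.card - tz e z) ∣
    (Pot.minor (PM e) a b).map PadicInt.Coe.ringHom

/-- D2: division in `ℤ_7[7y]`. -/
def SpGauss : Prop := ∀ (F : Zy) (T : ℕ → ℕ) (Z : ℕ), Ok F →
  (∀ m < Z, (Polynomial.X - Polynomial.C ((m : ℕ) : ℚ_[7])) ^ T m ∣
    F.map PadicInt.Coe.ringHom) →
  ∃ H : Zy, Ok H ∧ F = Polynomial.C ((7 : ℤ_[7]) ^ ∑ m ∈ Finset.range Z, T m) *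
    (∏ m ∈ Finset.range Z, (Polynomial.X - Polynomial.C (m : ℤ_[7])) ^ T m) * H

/-- D3: minors with the first rows are in `ℤ_7[7y]`. -/
def SpInt : Prop := ∀ (e n : ℕ) (b : Fin n → ℕ), e ≤ 2 → Ok (Pot.minor (PM e) (idf n) b)

/-- D4: the zeros of the leading minors. -/
def SpVan : Prop := ∀ e n m : ℕ, e ≤ 2 →
  (Polynomial.X - Polynomial.C ((m : ℕ) : ℚ_[7])) ^ T7 e n m ∣
    (Pot.lead (PM e) n).map PadicInt.Coe.ringHom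

/-- D5: the number of zeros. -/
def SpSum : Prop := ∀ e n : ℕ, e ≤ 2 → ∑ m ∈ Finset.range (Z7 n), T7 e n m = B7 e n

/-- D6: the symmetry of the ghost numbers. -/
def SpF : Prop := ∀ e z n n' : ℕ, e ≤ 2 → n' ≤ n → n + n' + 1 = cen e z → tz e z ≤ n' →
  FF e n (cen e z) = (n - n') * lam e z + FF e n' (cen e z)

/-- D7: leading coefficients at a point where `M = (rank t) - antidiagonal`. -/
def SpLC : Prop := ∀ (K : Type) [Field K] (M : ℕ → ℕ → Polynomial K) (a : K) (n n' t : ℕ)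
  (x : ℕ → Fin t → K) (y : Fin t → ℕ → K) (κ : ℕ → K), n' ≤ n → t ≤ n' →
  (∀ i j, i < n → j < n → (M i j).eval a =
    ∑ l, x i l * y l j - if i + j + 1 = n + n' then κ j else 0) →
  ∃ (q q' : Polynomial K) (s : K), s ^ 2 = 1 ∧
    Pot.lead M n = (Polynomial.X - Polynomial.C a) ^ (n' - t) * q ∧
    Pot.lead M n' = (Polynomial.X - Polynomial.C a) ^ (n' - t) * q' ∧
    q.eval a = s * (∏ j ∈ Finset.Ico n' n, κ j) * q'.eval a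

/-- D8: three small cases. -/
def SpSmall : Prop :=
  ‖(Pot.lead (PM 0) 1).eval (0 : ℤ_[7])‖ = (7 : ℝ) ^ (-1 : ℤ) ∧
  ‖(Pot.lead (PM 1) 1).eval (0 : ℤ_[7])‖ = (7 : ℝ) ^ (-2 : ℤ) ∧
  ‖(Pot.lead (PM 2) 2).eval (2 : ℤ_[7])‖ = (7 : ℝ) ^ (-4 : ℤ)

/-- D9: the leading minors. -/
def SpLead : Prop := ∀ e : ℕ, e ≤ 2 → ∀ n : ℕ, ∃ (u : Zy) (z : (ℤ_[7])ˣ),
  Ok u ∧ Polynomial.C ((7 : ℕ) : ℤ_[7]) ∣ u - Polynomial.C (z : ℤ_[7]) ∧
    Pot.lead (PM e) n = Polynomial.C (((7 : ℕ) : ℤ_[7]) ^ B7 e n) * u *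
      ∏ m ∈ Finset.range (Z7 n), (Polynomial.X - Polynomial.C (m : ℤ_[7])) ^ T7 e n m

/-! ### Block U: the rows `0, …, n` -/

/-- U1. -/
def SpU : Prop := ∀ e n j : ℕ, e ≤ 2 → n < j →
  Polynomial.C ((7 : ℤ_[7]) ^ (B7 e (n + 1) + 1)) ∣ Pot.minor (PS e) (idf (n + 1)) (up n j)

/-! ### Block L: the columns `0, …, n` -/

/-- L1: rows of a product with a unitriangular matrix. -/
def SpRow : Prop := ∀ (S : Type) [CommRing S] (M N B : ℕ → ℕ → S) (I : ℕ),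
  (∀ i < I, B i i = 1) → (∀ i < I, ∀ j, M i j = ∑ k ∈ Finset.range (i + 1), B i k * N k j) →
  (∀ (n : ℕ) (b : Fin n → ℕ), n ≤ I → Pot.minor M (idf n) b = Pot.minor N (idf n) b) ∧
  ∀ (n i : ℕ) (b : Fin (n + 1) → ℕ), n ≤ i → i < I → Pot.minor M (up n i) b =
    ∑ k ∈ Finset.Icc n i, B i k * Pot.minor N (up n k) b

/-- L2: the key divisibility. -/
def SpKey : Prop := ∀ e z i j : ℕ, e ≤ 2 → tz e z ≤ i → j + 1 < cen e z →
  (7 : ℤ_[7]) ^ (lam e z + i) ∣ 7 ^ j * (PX e i j).eval (cen e z : ℤ_[7])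

/-- L3: interpolation. -/
def SpItp : Prop := ∀ (g G : Zy) (c W R x0 : ℕ), Ok g → c ≤ R →
  (∀ r < R, padicValNat 7 r.factorial ≤ W) → Polynomial.C ((7 : ℤ_[7]) ^ c) ∣ G - g →
  (∀ r < R, (7 : ℤ_[7]) ^ (c + W) ∣ G.eval ((x0 + 4 * r : ℕ) : ℤ_[7])) →
  Polynomial.C ((7 : ℤ_[7]) ^ c) ∣ g

/-- L4: the order of the minors with the rows `0, …, n-1, i` and of those with the rows
`0, …, n-1` and the columns `0, …, n` without `j`. -/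
def SpOrdL : Prop := ∀ e z n : ℕ, e ≤ 2 →
  (∀ i, n ≤ i → (Polynomial.X - Polynomial.C ((cen e z : ℕ) : ℚ_[7])) ^
      (T7 e (n + 1) (cen e z) - if 2 * (n + 1) < cen e z ∧ cen e z ≤ n + i + 2 then 1 else 0) ∣
    (Pot.minor (PM e) (up n i) (idf (n + 1))).map PadicInt.Coe.ringHom) ∧
  (∀ j, j ≤ n → (Polynomial.X - Polynomial.C ((cen e z : ℕ) : ℚ_[7])) ^
      (T7 e (n + 1) (cen e z) - if 2 * (n + 1) < cen e z then 1 else 0) ∣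
    (Pot.minor (PM e) (idf n) (sk n j)).map PadicInt.Coe.ringHom)

/-- `Q_m = ∑ (1 + v_7(m - m'))` over the centres `m' > 2n` of the minor of size `n`. -/
def QQ (e n m : ℕ) : ℕ :=
  ∑ m' ∈ (Finset.range (Z7 n)).filter (fun m' => hi e n m'), (1 + padicValInt 7 ((m : ℤ) - m'))

/-- The poles of the minor of size `n` with last row `i'`: their number. -/
def pp (e n i' : ℕ) : ℕ :=
  ((Finset.range (Z7 n)).filter (fun m => hi e n m ∧ m ≤ n + i')).card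

/-- L5: the nodes `z0, …, z0 + R - 1`, `n ≥ 1` the size, `i' > n` the last row. -/
def SpNode : Prop := ∀ e n i' : ℕ, e ≤ 2 → 1 ≤ n → n < i' →
  ∃ z0 : ℕ, ∀ r < pp e n i' + (i' - n),
    T7 e n (cen e (z0 + r)) = 0 ∧ tz e (z0 + r) < i' ∧ n < cen e (z0 + r) ∧
    ∀ r' < pp e n i' + (i' - n),
      padicValNat 7 r'.factorial + QQ e n (cen e (z0 + r)) ≤ lam e (z0 + r)

/-- L6: the value of the minors with the rows `0, …, n-1` and the columns `0, …, n` without `j`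
at a point which is not a zero. -/
def SpRval : Prop := ∀ e n j m : ℕ, e ≤ 2 → j ≤ n → T7 e (n + 1) m = 0 →
  (7 : ℤ_[7]) ^ FF e (n + 1) m ∣
    7 ^ QQ e (n + 1) m * (Pot.minor (PM e) (idf n) (sk n j)).eval (m : ℤ_[7])

/-- L7: the values of the minors of `PX` at the nodes. -/
def SpPval : Prop := ∀ e n i z : ℕ, e ≤ 2 → n < i → T7 e (n + 1) (cen e z) = 0 →
  tz e z ≤ i → n + 1 < cen e z →
  (7 : ℤ_[7]) ^ (FF e (n + 1) (cen e z) + lam e z + (i - n)) ∣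
    7 ^ QQ e (n + 1) (cen e z) *
      (Pot.minor (PX e) (up n i) (idf (n + 1))).eval (cen e z : ℤ_[7])

/-- L8: the minors of `N`. -/
def SpNL : Prop := ∀ (e : ℕ) (I : ℕ) (W : ℕ → Zy) (N : ℕ → ℕ → Zy), e ≤ 2 → W 0 = 1 →
  (∀ l, Polynomial.C ((7 : ℤ_[7]) ^ l) ∣ W l) → (∀ i j, i < I → Ok (N i j)) →
  (∀ i < I, ∀ j, PM e i j = ∑ l ∈ Finset.range (i + 1), W (i - l) * N l j) →
  ∀ n i, n ≤ i → i < I →
    Polynomial.C ((7 : ℤ_[7]) ^ (B7 e (n + 1) + (i - n))) ∣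
      Pot.minor N (up n i) (idf (n + 1))

/-- L9. -/
def SpL : Prop := ∀ e n i : ℕ, e ≤ 2 → n < i →
  Polynomial.C ((7 : ℤ_[7]) ^ B7 e (n + 1)) ∣ Pot.minor (PS e) (up n i) (idf (n + 1))

/-! ### Block R: all minors at the root -/

/-- R1: the `LU` expansion. -/
def SpLU : Prop := ∀ (K : Type) [Field K] (M : ℕ → ℕ → K), (∀ n, Pot.lead M n ≠ 0) →
  ∀ i j, M i j = ∑ k ∈ Finset.range (min i j + 1),
    Pot.minor M (up k i) (idf (k + 1)) * Pot.minor M (idf (k + 1)) (up k j) /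
      (Pot.lead M k * Pot.lead M (k + 1))

/-- R2: abstract root dominance. -/
def SpAbs : Prop := ∀ (M : ℕ → ℕ → Zy) (B : ℕ → ℕ), B 0 = 0 →
  (∀ n, B (n + 1) + (B (n + 1) + 1) ≤ B n + B (n + 2)) →
  (∀ n, Polynomial.C ((7 : ℤ_[7]) ^ B n) ∣ Pot.lead M n ∧
    ¬ Polynomial.C ((7 : ℤ_[7]) ^ (B n + 1)) ∣ Pot.lead M n) →
  (∀ n j, n < j → Polynomial.C ((7 : ℤ_[7]) ^ (B (n + 1) + 1)) ∣
    Pot.minor M (idf (n + 1)) (up n j)) →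
  (∀ n i, n < i → Polynomial.C ((7 : ℤ_[7]) ^ B (n + 1)) ∣
    Pot.minor M (up n i) (idf (n + 1))) →
  ∀ (n : ℕ) (a b : Fin n → ℕ), Polynomial.C ((7 : ℤ_[7]) ^ B n) ∣ Pot.minor M a b ∧
    ((∃ i, n ≤ b i) → Polynomial.C ((7 : ℤ_[7]) ^ (B n + 1)) ∣ Pot.minor M a b)

/-- R3: all minors at the root. -/
def SpRt : Prop := ∀ (e n : ℕ) (a b : Fin n → ℕ), e ≤ 2 →
  Polynomial.C ((7 : ℤ_[7]) ^ B7 e n) ∣ Pot.minor (PS e) a b ∧
    ((∃ i, n ≤ b i) → Polynomial.C ((7 : ℤ_[7]) ^ (B7 e n + 1)) ∣ Pot.minor (PS e) a b)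

/-! ### Block C: corank -/

/-- C1: the field `corank`. -/
def SpCor : Prop := ∀ e : ℕ, e ≤ 2 → ∀ m, (∃ n, T7 e n m ≠ 0) →
  ∃ (x : ℕ → Fin (t7 e m) → ℚ_[7]) (y : Fin (t7 e m) → ℕ → ℚ_[7]),
    ∀ i j, ∃ z : ℤ_[7], (((PS e i j).eval (m : ℤ_[7]) : ℤ_[7]) : ℚ_[7]) =
      ∑ l, x i l * y l j + ((7 : ℕ) : ℚ_[7]) ^ s7 e m * z

/-! ### Block F: assembly -/

/-- F1: the input of GH-POT. -/
def SpMatW : Prop := ∀ e : ℕ, e ≤ 2 → Pot.MatW 7 (PS e) (B7 e) Z7 (T7 e) (s7 e) (t7 e)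

/-- `ℤ_7 → ℂ_7`. -/
def iota7 : ℤ_[7] →+* C7 := (algebraMap ℚ_[7] C7).comp PadicInt.Coe.ringHom

/-- The variable `y` from `x`. -/
def yx (e : ℕ) (x : C7) : C7 := 4 * x + if e = 2 then 2 else 0

/-- F2: the values of `PM` in `ℂ_7`. -/
def SpEval : Prop := ∀ (e : ℕ) (x : C7) (i j : ℕ), e ≤ 2 →
  (PM e i j).eval₂ iota7 (yx e x) = Mat7 e x (i + 1) (j + 1)

/-- F3: the Newton polygon. -/
def SpNP : Prop := ∀ (e : ℕ) (x : C7), e ≤ 2 → ‖x‖ ≤ 1 →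
  newtonPolygon 7 (fred (Mat7 e x)) =
    newtonPolygon 7 fun n ↦ (Pot.lead (PM e) n).eval₂ iota7 (yx e x)

/-- F4: the norm of the ghost coefficients. -/
def SpGhost : Prop := ∀ (e n : ℕ) (x : C7), e ≤ 2 → ‖x‖ ≤ 1 →
  ‖ghostG 7 e (225 ^ e * (1 + wx7 x) - 1) n‖ = (7 : ℝ) ^ (-(B7 e n : ℤ)) *
    ∏ m ∈ Finset.range (Z7 n), ‖yx e x - (m : C7)‖ ^ T7 e n m

end GH.M7
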