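import Pool.Agent.GH.M7.Stm

/-!
# GH7-MAT: statements for the window of row J4
-/

open PowerSeries

noncomputable section

namespace GH.M7

open GH.D7 GH.CombU

/-- J4a: Euler's sums for the octic equation. -/
def SpEuler : Prop := ∀ (F : Type) [Field F] (a b c d f : F) (x : Fin 8 → F),
  Function.Injective x →
  (∀ r, x r ^ 8 = a * x r ^ 7 + b * x r ^ 6 + c * x r ^ 4 + d * x r ^ 2 + f) →
  (∀ r, 8 * x r ^ 7 - 7 * a * x r ^ 6 - 6 * b * x r ^ 5 - 4 * c * x r ^ 3 - 2 * d * x r ≠ 0) ∧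
  ∀ j ≤ 7, ∑ r, x r ^ j /
    (8 * x r ^ 7 - 7 * a * x r ^ 6 - 6 * b * x r ^ 5 - 4 * c * x r ^ 3 - 2 * d * x r) =
      if j = 7 then 1 else 0

/-- `γ = f(q^7)`. -/
def gamC : PowerSeries ℂ := (hauptmodul 7 ℂ).expand 7 seven_ne

/-- The primitive seventh root of unity. -/
def zetaC : ℂ := Complex.exp (2 * Real.pi * Complex.I / 7)

/-- `X = -7 f⁴/S(f)`. -/
def XC : PowerSeries ℂ :=
  C (-7 : ℂ) * hauptmodul 7 ℂ ^ 4 * (Si ℂ).subst (hauptmodul 7 ℂ)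

/-- `R = (Y²/S)(f)`. -/
def RC : PowerSeries ℂ := (Y7 ℂ ^ 2 * Si ℂ).subst (hauptmodul 7 ℂ)

/-- `e(γ)`. -/
def eC : PowerSeries ℂ := 1 - C (490 : ℂ) * gamC - C (21609 : ℂ) * gamC ^ 2 -
  C (235298 : ℂ) * gamC ^ 3 - C (823543 : ℂ) * gamC ^ 4

/-- `ψ(γ)`. -/
def psC : PowerSeries ℂ := 1 + C (245 : ℂ) * gamC + C (2401 : ℂ) * gamC ^ 2

/-- The eight roots: `1` and `X(ζ^r q)`, `r = 1, …, 7`. -/
def rtC (r : Fin 8) : PowerSeries ℂ :=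
  if (r : ℕ) = 0 then 1 else rescale (zetaC ^ (r : ℕ)) XC

/-- J4b: the roots of the octic equation. -/
structure SpRoots : Prop where
  inj : Function.Injective rtC
  oct : ∀ r, rtC r ^ 8 = eC * rtC r ^ 7 + C (490 : ℂ) * gamC * rtC r ^ 6 +
    C (21609 : ℂ) * gamC ^ 2 * rtC r ^ 4 + C (235298 : ℂ) * gamC ^ 3 * rtC r ^ 2 +
    C (823543 : ℂ) * gamC ^ 4
  der : ∀ r : Fin 8, (r : ℕ) ≠ 0 → 8 * rtC r ^ 8 - 7 * eC * rtC r ^ 7 -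
    6 * (C (490 : ℂ) * gamC) * rtC r ^ 6 - 4 * (C (21609 : ℂ) * gamC ^ 2) * rtC r ^ 4 -
    2 * (C (235298 : ℂ) * gamC ^ 3) * rtC r ^ 2 =
      -7 * rtC r ^ 7 * psC ^ 2 * rescale (zetaC ^ (r : ℕ)) RC
  fil : ∀ F : PowerSeries ℂ, 7 * (U 7 F).expand 7 seven_ne =
    ∑ r ∈ Finset.Icc 1 7, rescale (zetaC ^ r) F

end GH.M7
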